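import Mathlib
set_option autoImplicit false
namespace Pool.Agent.Helper224.Asy1
open Finset

/-- sign of a Bool -/
noncomputable def sg (b : Bool) : ℝ := if b then 1 else -1

lemma sg_sq (b : Bool) : sg b ^ 2 = 1 := by cases b <;> simp [sg]
lemma sg_not (b : Bool) : sg (!b) = - sg b := by cases b <;> simp [sg]
lemma abs_sg (b : Bool) : |sg b| ≤ 1 := by cases b <;> simp [sg]

section rad
set_option linter.unusedSectionVars false
variable {ι : Type*} [Fintype ι] [DecidableEq ι]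

/-- flip one coordinate -/
def flip (a : ι) : (ι → Bool) ≃ (ι → Bool) where
  toFun ω := Function.update ω a (!ω a)
  invFun ω := Function.update ω a (!ω a)
  left_inv ω := by
    ext i
    by_cases h : i = a
    · subst h; simp
    · simp [h]
  right_inv ω := by
    ext i
    by_cases h : i = a
    · subst h; simp
    · simp [h]

lemma sum_flip (a : ι) (g : (ι → Bool) → ℝ)
    (hg : ∀ ω, g (Function.update ω a (!ω a)) = g ω) : ∑ ω, g ω * sg (ω a) = 0 := by
  have h := Equiv.sum_comp (flip a) (fun ω => g ω * sg (ω a))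
  have h2 : ∀ ω, g (flip a ω) * sg ((flip a ω) a) = - (g ω * sg (ω a)) := by
    intro ω
    show g (Function.update ω a (!ω a)) * sg ((Function.update ω a (!ω a)) a) = _
    rw [hg, Function.update_self, sg_not]; ring
  simp only [h2] at h
  rw [Finset.sum_neg_distrib] at h
  linarith

/-- Rademacher sum -/
noncomputable def R (s : Finset ι) (x : ι → ℝ) (ω : ι → Bool) : ℝ := ∑ j ∈ s, x j * sg (ω j)

lemma R_insert {s : Finset ι} {a : ι} (ha : a ∉ s) (x : ι → ℝ) (ω : ι → Bool) :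
    R (insert a s) x ω = R s x ω + x a * sg (ω a) := by
  unfold R; rw [Finset.sum_insert ha]; ring

lemma R_flip {s : Finset ι} {a : ι} (ha : a ∉ s) (x : ι → ℝ) (ω : ι → Bool) :
    R s x (Function.update ω a (!ω a)) = R s x ω := by
  unfold R
  apply Finset.sum_congr rfl
  intro j hj
  have : j ≠ a := fun h => ha (h ▸ hj)
  simp [this]

lemma rad2 (s : Finset ι) (x y : ι → ℝ) :
    ∑ ω, R s x ω * R s y ω = (Fintype.card (ι → Bool) : ℝ) * ∑ j ∈ s, x j * y j := by
  induction s using Finset.induction_on with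
  | empty => simp [R]
  | insert a s ha ih =>
    have h1 : ∀ ω, R (insert a s) x ω * R (insert a s) y ω =
        R s x ω * R s y ω + (R s x ω * y a + R s y ω * x a) * sg (ω a) + x a * y a := by
      intro ω
      rw [R_insert ha, R_insert ha]
      have := sg_sq (ω a)
      linear_combination (x a * y a) * this
    simp only [h1]
    rw [Finset.sum_add_distrib, Finset.sum_add_distrib, ih, Finset.sum_insert ha,
      sum_flip a (fun ω => R s x ω * y a + R s y ω * x a)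
        (fun ω => by simp only [R_flip ha])]
    simp
    ring

lemma rad4 (s : Finset ι) (x : ι → ℝ) :
    ∑ ω, R s x ω ^ 4 ≤ 3 * (Fintype.card (ι → Bool) : ℝ) * (∑ j ∈ s, x j ^ 2) ^ 2 := by
  induction s using Finset.induction_on with
  | empty => simp [R]
  | insert a s ha ih =>
    have h1 : ∀ ω, R (insert a s) x ω ^ 4 =
        R s x ω ^ 4 + (4 * R s x ω ^ 3 * x a + 4 * R s x ω * x a ^ 3) * sg (ω a)
          + 6 * x a ^ 2 * (R s x ω * R s x ω) + x a ^ 4 := by
      intro ω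
      rw [R_insert ha]
      have := sg_sq (ω a)
      have h3 : sg (ω a) ^ 3 = sg (ω a) := by rw [pow_succ, this]; ring
      have h4 : sg (ω a) ^ 4 = 1 := by
        have : sg (ω a) ^ 4 = (sg (ω a) ^ 2) ^ 2 := by ring
        rw [this, sg_sq]; ring
      ring_nf
      rw [h3, h4, this]
      ring
    simp only [h1]
    rw [Finset.sum_add_distrib, Finset.sum_add_distrib, Finset.sum_add_distrib, ← Finset.mul_sum,
      rad2, Finset.sum_insert ha,
      sum_flip a (fun ω => 4 * R s x ω ^ 3 * x a + 4 * R s x ω * x a ^ 3)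
        (fun ω => by simp only [R_flip ha])]
    have h5 : ∑ j ∈ s, x j * x j = ∑ j ∈ s, x j ^ 2 := by
      apply Finset.sum_congr rfl; intros; ring
    rw [h5]
    simp only [Finset.sum_const, Finset.card_univ, nsmul_eq_mul]
    set c : ℝ := (Fintype.card (ι → Bool) : ℝ) with hc
    have hc0 : 0 ≤ c := by rw [hc]; positivity
    set S := ∑ j ∈ s, x j ^ 2
    have hS : 0 ≤ S := Finset.sum_nonneg (fun j _ => sq_nonneg _)
    nlinarith [mul_nonneg hc0 (sq_nonneg (x a ^ 2)), mul_nonneg (mul_nonneg hc0 hS) (sq_nonneg (x a))]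

end rad


/-- truncation at level two -/
noncomputable def clip (z : ℝ) : ℝ := max (-2) (min 2 z)

lemma abs_clip (z : ℝ) : |clip z| ≤ 2 := by
  unfold clip
  rw [abs_le]
  constructor
  · exact le_max_left _ _
  · exact max_le (by norm_num) (min_le_left _ _)

lemma clip_sq_le (z : ℝ) : clip z ^ 2 ≤ z ^ 2 := by
  unfold clip
  rcases le_total z 2 with h | h
  · rw [min_eq_right h]
    rcases le_total (-2) z with h2 | h2
    · rw [max_eq_right h2]
    · rw [max_eq_left h2]; nlinarith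
  · rw [min_eq_left h, max_eq_right (by norm_num)]; nlinarith

lemma clip_err (z : ℝ) : (z - clip z) ^ 2 ≤ z ^ 4 / 64 := by
  unfold clip
  rcases le_total z 2 with h | h
  · rw [min_eq_right h]
    rcases le_total (-2) z with h2 | h2
    · rw [max_eq_right h2]; simp; positivity
    · rw [max_eq_left h2]
      have h3 : 0 ≤ -(z + 2) := by linarith
      have h4 : -(z + 2) ≤ z ^ 2 / 8 := by nlinarith [sq_nonneg (z + 4)]
      have h5 : (-(z + 2)) ^ 2 ≤ (z ^ 2 / 8) ^ 2 := pow_le_pow_left₀ h3 h4 2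
      calc (z - -2) ^ 2 = (-(z + 2)) ^ 2 := by ring
        _ ≤ _ := h5
        _ = _ := by ring
  · rw [min_eq_left h, max_eq_right (by norm_num)]
    have h3 : 0 ≤ z - 2 := by linarith
    have h4 : z - 2 ≤ z ^ 2 / 8 := by nlinarith [sq_nonneg (z - 4)]
    have h5 : (z - 2) ^ 2 ≤ (z ^ 2 / 8) ^ 2 := pow_le_pow_left₀ h3 h4 2
    calc (z - 2) ^ 2 ≤ _ := h5
      _ = _ := by ring

section groth
variable {I K : Type*} [Fintype I] [Fintype K]

/-- values of the Hilbert form -/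
def GSet (t : K → I → ℝ) : Set ℝ :=
  {r | ∃ (J : Type) (_ : Fintype J) (φ : I → J → ℝ) (ψ : K → J → ℝ),
    (∀ i, ∑ j, φ i j ^ 2 ≤ 1) ∧ (∀ k, ∑ j, ψ k j ^ 2 ≤ 1) ∧
    r = ∑ k, ∑ i, t k i * ∑ j, φ i j * ψ k j}

lemma GSet_bdd (t : K → I → ℝ) : BddAbove (GSet t) := by
  refine ⟨∑ k, ∑ i, |t k i|, ?_⟩
  rintro r ⟨J, _, φ, ψ, hφ, hψ, rfl⟩
  apply Finset.sum_le_sum; intro k _
  apply Finset.sum_le_sum; intro i _
  have h1 := Finset.sum_mul_sq_le_sq_mul_sq Finset.univ (φ i) (ψ k)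
  have h2 : (∑ j, φ i j * ψ k j) ^ 2 ≤ 1 := by
    refine h1.trans ?_
    calc _ ≤ (1 : ℝ) * 1 := mul_le_mul (hφ i) (hψ k) (Finset.sum_nonneg (fun _ _ => sq_nonneg _)) (by norm_num)
      _ = 1 := by norm_num
  have h3 : |∑ j, φ i j * ψ k j| ≤ 1 := by
    rw [← sq_abs] at h2
    nlinarith [abs_nonneg (∑ j, φ i j * ψ k j)]
  calc t k i * ∑ j, φ i j * ψ k j ≤ |t k i * ∑ j, φ i j * ψ k j| := le_abs_self _
    _ = |t k i| * |∑ j, φ i j * ψ k j| := abs_mul _ _
    _ ≤ |t k i| * 1 := mul_le_mul_of_nonneg_left h3 (abs_nonneg _)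
    _ = |t k i| := mul_one _

lemma GSet_nonempty (t : K → I → ℝ) : (0 : ℝ) ∈ GSet t :=
  ⟨Empty, inferInstance, fun _ _ => 0, fun _ _ => 0, by simp, by simp, by simp⟩

/-- rescaled use of the supremum -/
lemma GSet_use (t : K → I → ℝ) {J : Type} [Fintype J] (φ : I → J → ℝ) (ψ : K → J → ℝ)
    (p q : ℝ) (hp : 0 < p) (hq : 0 < q)
    (hφ : ∀ i, ∑ j, φ i j ^ 2 ≤ p ^ 2) (hψ : ∀ k, ∑ j, ψ k j ^ 2 ≤ q ^ 2) :
    ∑ k, ∑ i, t k i * ∑ j, φ i j * ψ k j ≤ p * q * sSup (GSet t) := by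
  have hmem : (∑ k, ∑ i, t k i * ∑ j, (φ i j / p) * (ψ k j / q)) ∈ GSet t := by
    refine ⟨J, inferInstance, fun i j => φ i j / p, fun k j => ψ k j / q, ?_, ?_, rfl⟩
    · intro i
      have : ∑ j, (φ i j / p) ^ 2 = (∑ j, φ i j ^ 2) / p ^ 2 := by
        rw [Finset.sum_div]; apply Finset.sum_congr rfl; intros; rw [div_pow]
      rw [this, div_le_one (by positivity)]; exact hφ i
    · intro k
      have : ∑ j, (ψ k j / q) ^ 2 = (∑ j, ψ k j ^ 2) / q ^ 2 := by
        rw [Finset.sum_div]; apply Finset.sum_congr rfl; intros; rw [div_pow]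
      rw [this, div_le_one (by positivity)]; exact hψ k
  have h := le_csSup (GSet_bdd t) hmem
  have h2 : ∑ k, ∑ i, t k i * ∑ j, φ i j * ψ k j =
      p * q * (∑ k, ∑ i, t k i * ∑ j, (φ i j / p) * (ψ k j / q)) := by
    simp only [Finset.mul_sum]
    apply Finset.sum_congr rfl; intro k _
    apply Finset.sum_congr rfl; intro i _
    apply Finset.sum_congr rfl; intro j _
    field_simp
  rw [h2]
  exact mul_le_mul_of_nonneg_left h (by positivity)

lemma groth_sup (t : K → I → ℝ) (B : ℝ)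
    (hB : ∀ (ε : K → ℝ) (δ : I → ℝ), (∀ k, |ε k| ≤ 1) → (∀ i, |δ i| ≤ 1) →
      ∑ k, ∑ i, t k i * (δ i * ε k) ≤ B) : sSup (GSet t) ≤ 8 * B := by
  classical
  suffices h : sSup (GSet t) ≤ 4 * B + sSup (GSet t) / 2 by linarith
  refine csSup_le ⟨0, GSet_nonempty t⟩ ?_
  rintro r ⟨J, _, φ, ψ, hφ, hψ, rfl⟩
  set β := sSup (GSet t) with hβ
  let n : ℝ := (Fintype.card (J → Bool) : ℝ)
  have hn : 0 < n := by
    have : 0 < Fintype.card (J → Bool) := Fintype.card_pos
    exact Nat.cast_pos.mpr this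
  let X : I → (J → Bool) → ℝ := fun i ω => R Finset.univ (φ i) ω
  let Y : K → (J → Bool) → ℝ := fun k ω => R Finset.univ (ψ k) ω
  have hXY : ∀ k i, n * ∑ j, φ i j * ψ k j = ∑ ω, X i ω * Y k ω := by
    intro k i
    exact (rad2 Finset.univ (φ i) (ψ k)).symm
  have hX2 : ∀ i, ∑ ω, X i ω ^ 2 ≤ n := by
    intro i
    have h := rad2 Finset.univ (φ i) (φ i)
    have h1 : ∑ ω, X i ω ^ 2 = ∑ ω, R Finset.univ (φ i) ω * R Finset.univ (φ i) ω := by
      apply Finset.sum_congr rfl; intros; rw [sq]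
    rw [h1, h]
    have h2 : ∑ j, φ i j * φ i j = ∑ j, φ i j ^ 2 := by
      apply Finset.sum_congr rfl; intros; rw [sq]
    rw [h2]
    calc (Fintype.card (J → Bool) : ℝ) * ∑ j, φ i j ^ 2 ≤ n * 1 :=
          mul_le_mul_of_nonneg_left (hφ i) hn.le
      _ = n := mul_one _
  have hY2 : ∀ k, ∑ ω, Y k ω ^ 2 ≤ n := by
    intro k
    have h := rad2 Finset.univ (ψ k) (ψ k)
    have h1 : ∑ ω, Y k ω ^ 2 = ∑ ω, R Finset.univ (ψ k) ω * R Finset.univ (ψ k) ω := by
      apply Finset.sum_congr rfl; intros; rw [sq]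
    rw [h1, h]
    have h2 : ∑ j, ψ k j * ψ k j = ∑ j, ψ k j ^ 2 := by
      apply Finset.sum_congr rfl; intros; rw [sq]
    rw [h2]
    calc (Fintype.card (J → Bool) : ℝ) * ∑ j, ψ k j ^ 2 ≤ n * 1 :=
          mul_le_mul_of_nonneg_left (hψ k) hn.le
      _ = n := mul_one _
  have h4 : ∀ (x : J → ℝ), (∑ j, x j ^ 2 ≤ 1) → 
      ∑ ω, (R Finset.univ x ω - clip (R Finset.univ x ω)) ^ 2 ≤ n / 16 := by
    intro x hx
    calc ∑ ω, (R Finset.univ x ω - clip (R Finset.univ x ω)) ^ 2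
        ≤ ∑ ω, R Finset.univ x ω ^ 4 / 64 := Finset.sum_le_sum (fun ω _ => clip_err _)
      _ = (∑ ω, R Finset.univ x ω ^ 4) / 64 := by rw [Finset.sum_div]
      _ ≤ (3 * n * (∑ j, x j ^ 2) ^ 2) / 64 := by
          apply div_le_div_of_nonneg_right _ (by norm_num)
          exact rad4 Finset.univ x
      _ ≤ (3 * n * 1) / 64 := by
          have h0 : 0 ≤ ∑ j, x j ^ 2 := Finset.sum_nonneg (fun _ _ => sq_nonneg _)
          have : (∑ j, x j ^ 2) ^ 2 ≤ 1 := by nlinarith
          apply div_le_div_of_nonneg_right _ (by norm_num)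
          apply mul_le_mul_of_nonneg_left this (by positivity)
      _ ≤ n / 16 := by linarith
  -- square root scaling
  let rn := Real.sqrt n
  have hrn : 0 < rn := Real.sqrt_pos.mpr hn
  have hrn2 : rn ^ 2 = n := Real.sq_sqrt hn.le
  have e1 : ∑ k, ∑ i, t k i * ∑ ω, clip (X i ω) * clip (Y k ω) ≤ n * (4 * B) := by
    have : ∑ k, ∑ i, t k i * ∑ ω, clip (X i ω) * clip (Y k ω) =
        ∑ ω, 4 * ∑ k, ∑ i, t k i * ((clip (X i ω) / 2) * (clip (Y k ω) / 2)) := by
      simp only [Finset.mul_sum]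
      symm
      rw [Finset.sum_comm]
      apply Finset.sum_congr rfl; intro k _
      rw [Finset.sum_comm]
      apply Finset.sum_congr rfl; intro i _
      apply Finset.sum_congr rfl; intro ω _
      ring
    rw [this]
    calc ∑ ω : J → Bool, 4 * ∑ k, ∑ i, t k i * ((clip (X i ω) / 2) * (clip (Y k ω) / 2))
        ≤ ∑ ω : J → Bool, 4 * B := by
          apply Finset.sum_le_sum; intro ω _
          apply mul_le_mul_of_nonneg_left _ (by norm_num)
          apply hB
          · intro k; rw [abs_div]; have := abs_clip (Y k ω); rw [abs_two]; linarith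
          · intro i; rw [abs_div]; have := abs_clip (X i ω); rw [abs_two]; linarith
      _ = n * (4 * B) := by simp [n]
  have e2 : ∑ k, ∑ i, t k i * ∑ ω, (X i ω - clip (X i ω)) * clip (Y k ω) ≤ (rn / 4) * rn * β := by
    apply GSet_use t (fun i ω => X i ω - clip (X i ω)) (fun k ω => clip (Y k ω)) _ _
      (by positivity) hrn
    · intro i
      have := h4 (φ i) (hφ i)
      have h16 : (rn / 4) ^ 2 = n / 16 := by rw [div_pow, hrn2]; norm_num
      rw [h16]; exact this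
    · intro k
      rw [hrn2]
      exact (Finset.sum_le_sum (fun ω _ => clip_sq_le _)).trans (hY2 k)
  have e3 : ∑ k, ∑ i, t k i * ∑ ω, X i ω * (Y k ω - clip (Y k ω)) ≤ rn * (rn / 4) * β := by
    apply GSet_use t (fun i ω => X i ω) (fun k ω => Y k ω - clip (Y k ω)) _ _
      hrn (by positivity)
    · intro i
      rw [hrn2]
      exact hX2 i
    · intro k
      have := h4 (ψ k) (hψ k)
      have h16 : (rn / 4) ^ 2 = n / 16 := by rw [div_pow, hrn2]; norm_num
      rw [h16]; exact this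
  have key : n * ∑ k, ∑ i, t k i * ∑ j, φ i j * ψ k j =
      ∑ k, ∑ i, t k i * ∑ ω, clip (X i ω) * clip (Y k ω)
      + ∑ k, ∑ i, t k i * ∑ ω, (X i ω - clip (X i ω)) * clip (Y k ω)
      + ∑ k, ∑ i, t k i * ∑ ω, X i ω * (Y k ω - clip (Y k ω)) := by
    rw [Finset.mul_sum, ← Finset.sum_add_distrib, ← Finset.sum_add_distrib]
    apply Finset.sum_congr rfl; intro k _
    rw [Finset.mul_sum, ← Finset.sum_add_distrib, ← Finset.sum_add_distrib]
    apply Finset.sum_congr rfl; intro i _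
    rw [mul_left_comm, hXY, ← mul_add, ← mul_add, ← Finset.sum_add_distrib,
      ← Finset.sum_add_distrib]
    congr 1
    apply Finset.sum_congr rfl; intro ω _
    ring
  have h5 : rn * rn = n := by rw [← sq, hrn2]
  have h6 : (rn / 4) * rn * β = n * β / 4 := by rw [← h5]; ring
  have h7 : rn * (rn / 4) * β = n * β / 4 := by rw [← h5]; ring
  rw [h6] at e2
  rw [h7] at e3
  have h8 : n * ∑ k, ∑ i, t k i * ∑ j, φ i j * ψ k j ≤ n * (4 * B + β / 2) := by
    rw [key]; linarith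
  exact le_of_mul_le_mul_left h8 hn

theorem groth (t : K → I → ℝ) (B : ℝ)
    (hB : ∀ (ε : K → ℝ) (δ : I → ℝ), (∀ k, |ε k| ≤ 1) → (∀ i, |δ i| ≤ 1) →
      ∑ k, ∑ i, t k i * (δ i * ε k) ≤ B)
    {J : Type} [Fintype J] (φ : I → J → ℝ) (ψ : K → J → ℝ)
    (p q : ℝ) (hp : 0 < p) (hq : 0 < q)
    (hφ : ∀ i, ∑ j, φ i j ^ 2 ≤ p ^ 2) (hψ : ∀ k, ∑ j, ψ k j ^ 2 ≤ q ^ 2) :
    ∑ k, ∑ i, t k i * ∑ j, φ i j * ψ k j ≤ p * q * (8 * B) :=
  (GSet_use t φ ψ p q hp hq hφ hψ).trans
    (mul_le_mul_of_nonneg_left (groth_sup t B hB) (by positivity))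

end groth
end Pool.Agent.Helper224.Asy1
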