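import Pool.Agent.Helper224.Asy9
set_option autoImplicit false
set_option linter.unusedSectionVars false
namespace Pool.Agent.Helper224.Asy10
open Filter Topology Pool.Agent.Helper224.Asy5 Pool.Agent.Helper224.Asy6 Pool.Agent.Helper224.Asy7
open Pool.Agent.Helper224.Asy8 Pool.Agent.Helper224.Asy9 Pool.Agent.Helper224.Asy4

variable {V : Type*} [NormedAddCommGroup V] [NormedSpace ℝ V]

/-- remaining game after a history -/
def Win (S : ℕ → Set V) (Q : List V → Prop) : ℕ → List V → Prop
  | 0, l => Q l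
  | n + 1, l => ∀ k, ∃ x ∈ S k, Win S Q n (l ++ [x])

lemma win_of_game (S : ℕ → Set V) (Q : List V → Prop) (n : ℕ) : ∀ (P : (Fin n → V) → Prop)
    (l : List V), (∀ y, P y → Q (l ++ List.ofFn y)) → Game S n P → Win S Q n l := by
  induction n with
  | zero =>
    intro P l h hP
    have := h _ hP
    simpa [Win] using this
  | succ n ih =>
    intro P l h hP k
    obtain ⟨x, hx, hg⟩ := hP k
    refine ⟨x, hx, ih _ (l ++ [x]) ?_ hg⟩
    intro y hy
    have := h _ hy
    rw [List.ofFn_succ] at this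
    simpa using this

lemma tree {Xt : ℕ → Submodule ℝ V} (hanti : Antitone Xt) (hne : ∀ k, (Sph Xt k).Nonempty)
    (m : ℕ) (Q : List V → Prop) : ∃ U : List V → Ultrafilter V, Adm Xt U ∧
      ∀ l : List V, l.length < m → Win (Sph Xt) Q (m - l.length) l →
        ∀ᶠ x in (U l : Filter V), Win (Sph Xt) Q (m - (l.length + 1)) (l ++ [x]) := by
  have hex : ∀ l : List V, ∃ x : ℕ → V, (∀ k, x k ∈ Sph Xt k) ∧
      (l.length < m → Win (Sph Xt) Q (m - l.length) l →
        ∀ k, Win (Sph Xt) Q (m - (l.length + 1)) (l ++ [x k])) := by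
    intro l
    by_cases h : l.length < m ∧ Win (Sph Xt) Q (m - l.length) l
    · obtain ⟨h1, h2⟩ := h
      have e : m - l.length = (m - (l.length + 1)) + 1 := by omega
      rw [e] at h2
      choose x hx hx2 using h2
      exact ⟨x, hx, fun _ _ => hx2⟩
    · choose x hx using hne
      exact ⟨x, hx, fun h1 h2 => absurd ⟨h1, h2⟩ h⟩
  choose x hx hx2 using hex
  refine ⟨fun l => (hyperfilter ℕ).map (x l), ?_, ?_⟩
  · intro l k
    show ∀ᶠ j in (hyperfilter ℕ : Filter ℕ), ‖x l j‖ = 1 ∧ x l j ∈ Xt k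
    have h1 : ∀ᶠ j in (hyperfilter ℕ : Filter ℕ), k ≤ j :=
      Nat.hyperfilter_le_atTop (eventually_ge_atTop k)
    refine h1.mono (fun j hj => ⟨(hx l j).2, ?_⟩)
    exact hanti hj (hx l j).1
  · intro l hl hw
    show ∀ᶠ j in (hyperfilter ℕ : Filter ℕ), Win (Sph Xt) Q (m - (l.length + 1)) (l ++ [x l j])
    exact Eventually.of_forall (fun j => hx2 l hl hw j)

/-- single branch word -/
def bw (m : ℕ) : List (Unit × ℕ) := (List.range m).map (fun i => ((), i))

lemma branch {Xt : ℕ → Submodule ℝ V} {U : List V → Ultrafilter V} (m : ℕ)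
    (Q : List V → Prop) (h0 : Win (Sph Xt) Q m [])
    (hU2 : ∀ l : List V, l.length < m → Win (Sph Xt) Q (m - l.length) l →
        ∀ᶠ x in (U l : Filter V), Win (Sph Xt) Q (m - (l.length + 1)) (l ++ [x])) :
    ∀ j, j ≤ m → ∀ᶠ τ in (proc U (bw j) (0 : Unit × ℕ → V) : Filter (Unit × ℕ → V)),
      Win (Sph Xt) Q (m - j) ((List.range j).map (fun i => τ ((), i))) := by
  intro j
  induction j with
  | zero =>
    intro _
    show ∀ᶠ τ in (proc U [] (0 : Unit × ℕ → V) : Filter (Unit × ℕ → V)), _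
    rw [proc_nil]
    exact h0
  | succ j ih =>
    intro hj
    have e : bw (j + 1) = bw j ++ [((), j)] := by
      unfold bw; rw [List.range_succ, List.map_append]; rfl
    rw [e, proc_append]
    refine (ih (by omega)).mono (fun τ₁ hτ₁ => ?_)
    rw [proc_cons]
    have h1 := hU2 ((List.range j).map (fun i => τ₁ ((), i))) (by simp; omega)
      (by simpa using hτ₁)
    refine h1.mono (fun x hx => ?_)
    rw [proc_nil]
    rw [List.range_succ, List.map_append]
    have e2 : (List.range j).map (fun i => Function.update τ₁ ((), j) x ((), i)) =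
        (List.range j).map (fun i => τ₁ ((), i)) := by
      apply List.map_congr_left
      intro i hi
      rw [List.mem_range] at hi
      rw [Function.update_of_ne]
      intro h
      rw [Prod.mk.injEq] at h
      omega
    rw [e2]
    simpa using hx

lemma lw_filter (b : Bool) (m : ℕ)
    [DecidablePred (fun p : Bool × ℕ => p.1 ∈ Set.range (fun _ : Unit => b))] :
    (lw m).filter (fun p => p.1 ∈ Set.range (fun _ : Unit => b)) =
      (bw m).map (fun p => (b, p.2)) := by
  unfold lw bw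
  induction m with
  | zero => rfl
  | succ m ih =>
    rw [List.range_succ, List.flatMap_append, List.filter_append, ih, List.map_append,
      List.map_append]
    congr 1
    cases b <;> simp

lemma lw_nodup (m : ℕ) : (lw m).Nodup := by
  unfold lw
  rw [List.nodup_flatMap]
  refine ⟨fun i _ => by simp, ?_⟩
  refine (List.pairwise_lt_range (n := m)).imp ?_
  intro i j hij
  simp only [Function.onFun]
  intro p hp hq
  simp only [List.mem_cons, List.not_mem_nil, or_false] at hp hq
  rcases hp with rfl | rfl <;> rcases hq with h | h <;> simp at h <;> omega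

lemma mem_lw (m : ℕ) (b : Bool) (i : ℕ) (hi : i < m) : (b, i) ∈ lw m := by
  unfold lw
  rw [List.mem_flatMap]
  exact ⟨i, List.mem_range.mpr hi, by cases b <;> simp⟩

/-- single branch norm -/
lemma An_le {Xt : ℕ → Submodule ℝ V} {U : List V → Ultrafilter V} (hU : Adm Xt U) (m : ℕ)
    (c : Fin m → ℝ) :
    An hU m c ≤ 2 * L U (bw m) ((em m c).mapDomain (fun i => ((), i))) := by
  classical
  have key : ∀ b : Bool, L U (lw m) ((em m c).mapDomain (fun i => (b, i))) =
      L U (bw m) ((em m c).mapDomain (fun i => ((), i))) := by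
    intro b
    have h := L_pull hU (fun _ : Unit => b) (fun _ _ _ => rfl) (lw m) (bw m) (lw_filter b m)
      ((em m c).mapDomain (fun i => ((), i)))
    rw [← Finsupp.mapDomain_comp] at h
    exact h
  rw [An_apply, Y0_apply]
  calc _ ≤ L U (lw m) ((em m c).mapDomain (fun i => (false, i))) +
        L U (lw m) ((em m c).mapDomain (fun i => (true, i))) :=
        map_sub_le_add (Ls hU (lw m)) _ _
    _ = _ := by rw [key, key]; ring

lemma em_single (m : ℕ) (i : Fin m) : em m (Pi.single i 1) = Finsupp.single (i : ℕ) 1 := by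
  unfold Pool.Agent.Helper224.Asy9.em
  rw [Fintype.linearCombination_apply, Finset.sum_eq_single i]
  · simp
  · intro b _ hb; rw [Pi.single_eq_of_ne hb, zero_smul]
  · intro h; exact absurd (Finset.mem_univ i) h

lemma em_coord (m : ℕ) (c : Fin m → ℝ) (i : Fin m) : em m c i = c i := by
  have : NeZero m := ⟨by have := i.isLt; omega⟩
  rw [em_apply, Finset.sum_eq_single i]
  · simp
  · intro b _ hb
    rw [if_neg]
    intro h; exact hb (Fin.ext h)
  · intro h; exact absurd (Finset.mem_univ i) h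

lemma An_single {Xt : ℕ → Submodule ℝ V} {U : List V → Ultrafilter V} (hU : Adm Xt U) (m : ℕ)
    (i : Fin m) : An hU m (Pi.single i 1) ≤ 2 := by
  rw [An_apply, em_single, Y0_apply, Finsupp.mapDomain_single, Finsupp.mapDomain_single]
  calc _ ≤ L U (lw m) (Finsupp.single (false, (i : ℕ)) 1) +
        L U (lw m) (Finsupp.single (true, (i : ℕ)) 1) := map_sub_le_add (Ls hU (lw m)) _ _
    _ = 2 := by
        rw [L_single hU (mem_lw m false i i.isLt), L_single hU (mem_lw m true i i.isLt)]
        norm_num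

lemma An_coord {Xt : ℕ → Submodule ℝ V} {U : List V → Ultrafilter V} (hU : Adm Xt U) {C₀ : ℝ}
    (hC₀ : 0 ≤ C₀) (hT : TailIneq Xt C₀) (m : ℕ) (c : Fin m → ℝ) (i : Fin m) :
    |c i| ≤ 2 * C₀ * An hU m c := by
  have h := L_coord hU hC₀ hT (lw m) (lw_nodup m) (false, (i : ℕ)) (mem_lw m false i i.isLt)
    (Y0 (em m c))
  have e : Y0 (em m c) (false, (i : ℕ)) = c i := by
    rw [Y0_apply, Finsupp.sub_apply, Finsupp.mapDomain_of_notMem_range (f := fun j : ℕ => (true, j)),
      Finsupp.mapDomain_apply (f := fun j : ℕ => (false, j)) (fun a b h => by simpa using h),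
      em_coord, sub_zero]
    rintro ⟨j, hj⟩
    simp at hj
  rw [e] at h
  exact h

lemma val_em (m : ℕ) (c : Fin m → ℝ) (τ : Unit × ℕ → V) :
    val τ ((em m c).mapDomain (fun i => ((), i))) = ∑ t : Fin m, c t • τ ((), (t : ℕ)) := by
  unfold val
  rw [Finsupp.linearCombination_mapDomain]
  unfold Pool.Agent.Helper224.Asy9.em
  rw [Fintype.linearCombination_apply, map_sum]
  apply Finset.sum_congr rfl; intro t _
  rw [map_smul, Finsupp.linearCombination_single, one_smul]
  rfl

theorem main_abs {Xt : ℕ → Submodule ℝ V} (hanti : Antitone Xt)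
    (hne : ∀ k, (Sph Xt k).Nonempty) {C₀ K : ℝ} (hC₀ : 0 < C₀) (hT : TailIneq Xt C₀) (hK : 0 < K)
    (hH : Hyp Xt K) : ∃ θ : ℝ, 0 < θ ∧ ∀ (n : ℕ) (N : Seminorm ℝ (Fin n → ℝ)),
      IsMem (Sph Xt) n N → ∀ c, θ * ∑ t, |c t| ≤ N c := by
  obtain ⟨θ, hθ, hmain⟩ := analytic (2 * C₀) (1 / (96 * K ^ 2)) K (by positivity) (by positivity) hK
  refine ⟨θ / 4, by positivity, ?_⟩
  intro n N hN c
  rcases Nat.eq_zero_or_pos n with hn | hn
  · subst hn
    simp
  have : NeZero n := ⟨hn.ne'⟩
  obtain ⟨hN1, hN2, hN3⟩ := hN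
  let P : (Fin n → V) → Prop := fun x => EqN (1 + 1) N x
  let Q : List V → Prop := fun l => ∃ y : Fin n → V, l = List.ofFn y ∧ P y
  have hw : Win (Sph Xt) Q n [] :=
    win_of_game (Sph Xt) Q n P [] (fun y hy => ⟨y, rfl, hy⟩) (hN3 1 one_pos)
  obtain ⟨U, hU, hU2⟩ := tree hanti hne n Q
  have hb := branch n Q hw hU2 n le_rfl
  rw [Nat.sub_self] at hb
  have hb2 : ∀ᶠ τ in (proc U (bw n) (0 : Unit × ℕ → V) : Filter (Unit × ℕ → V)),
      EqN (1 + 1) N (fun t : Fin n => τ ((), (t : ℕ))) := by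
    refine hb.mono (fun τ hτ => ?_)
    obtain ⟨y, hy1, hy2⟩ := hτ
    have e : (fun t : Fin n => τ ((), (t : ℕ))) = y := by
      have h1 : List.ofFn (fun t : Fin n => τ ((), (t : ℕ))) = List.ofFn y := by
        rw [← hy1]
        rw [List.ofFn_eq_map]
        rw [← List.map_coe_finRange_eq_range, List.map_map]
        rfl
      exact List.ofFn_injective h1
    rw [e]; exact hy2
  have hmem : ((), ((0 : Fin n) : ℕ)) ∈ bw n := by
    unfold bw
    rw [List.mem_map]
    exact ⟨_, List.mem_range.mpr (Fin.isLt _), rfl⟩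
  have hL : L U (bw n) ((em n c).mapDomain (fun i => ((), i))) ≤ 2 * N c := by
    refine L_le hU ?_
    refine (hb2.and (proc_norm hU (bw n))).mono (fun τ hτ => ?_)
    obtain ⟨⟨A, B, hA, hB, hAB, hAB2⟩, _, _, h3⟩ := hτ
    rw [val_em]
    have h4 := (hAB2 (Pi.single 0 1)).1
    rw [hN2, mul_one] at h4
    have h5 : ∑ t : Fin n, (Pi.single (0 : Fin n) (1 : ℝ) : Fin n → ℝ) t • τ ((), (t : ℕ)) =
        τ ((), ((0 : Fin n) : ℕ)) := by
      rw [Finset.sum_eq_single (0 : Fin n)]
      · simp
      · intro b _ hb; rw [Pi.single_eq_of_ne hb, zero_smul]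
      · intro h; exact absurd (Finset.mem_univ _) h
    rw [h5, h3 _ hmem] at h4
    have h6 : 1 ≤ A := by
      rw [inv_le_one₀ hA] at h4; exact h4
    have h7 : B ≤ 2 := by nlinarith
    exact (hAB2 c).2.trans (mul_le_mul_of_nonneg_right h7 (apply_nonneg N c))
  have h8 := hmain n (An hU n) (An_single hU n) (An_coord hU hC₀.le hT n)
    (grid hU hC₀ hT hK hH n) c
  have h9 := An_le hU n c
  linarith

end Pool.Agent.Helper224.Asy10
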