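import Mathlib
set_option autoImplicit false
namespace Pool.Agent.Helper224.Asy11

/-- coefficient space with a given norm -/
def NSp (n : ℕ) (_ : Seminorm ℝ (Fin n → ℝ)) : Type := Fin n → ℝ

variable {n : ℕ} {N : Seminorm ℝ (Fin n → ℝ)}

noncomputable instance : AddCommGroup (NSp n N) := inferInstanceAs (AddCommGroup (Fin n → ℝ))
noncomputable instance : Module ℝ (NSp n N) := inferInstanceAs (Module ℝ (Fin n → ℝ))

/-- identification -/
def mk (a : Fin n → ℝ) : NSp n N := a

/-- the norm -/
@[reducible] noncomputable def nrm : Norm (NSp n N) := ⟨fun a => N a⟩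

attribute [local instance] nrm

lemma core (hN : ∀ c, N c = 0 → c = 0) : NormedSpace.Core ℝ (NSp n N) :=
  { norm_nonneg := fun a => apply_nonneg N a
    norm_smul := fun c a => map_smul_eq_mul N c a
    norm_triangle := fun a b => map_add_le_add N a b
    norm_eq_zero_iff := fun a => ⟨fun h0 => hN a h0, fun h0 => by
      rw [h0]; exact map_zero N⟩ }

/-- bundled version: a norm on coefficient space is the norm of a finite sequence of vectors -/
theorem realize (n : ℕ) (N : Seminorm ℝ (Fin n → ℝ)) (hN : ∀ c, N c = 0 → c = 0) :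
    ∃ (E : Type) (_ : NormedAddCommGroup E) (_ : NormedSpace ℝ E) (b : Fin n → E),
      LinearIndependent ℝ b ∧ ∀ a : Fin n → ℝ, ‖∑ i, a i • b i‖ = N a := by
  let i1 : NormedAddCommGroup (NSp n N) := NormedAddCommGroup.ofCore (core hN)
  let i2 : NormedSpace ℝ (NSp n N) := NormedSpace.ofCore (core hN)
  refine ⟨NSp n N, i1, i2, fun i => mk (Pi.single i (1 : ℝ)), ?_, ?_⟩
  · rw [Fintype.linearIndependent_iff]
    intro g hg i
    have h1 : (∑ i, g i • (Pi.single i (1 : ℝ) : Fin n → ℝ)) = 0 := hg
    have h2 : ∑ i, g i • (Pi.single i (1 : ℝ) : Fin n → ℝ) = g := by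
      funext i; simp [Finset.sum_apply, Pi.single_apply]
    rw [h2] at h1
    exact congrFun h1 i
  · intro a
    have h2 : ∑ i, a i • (Pi.single i (1 : ℝ) : Fin n → ℝ) = a := by
      funext i; simp [Finset.sum_apply, Pi.single_apply]
    have h3 : N (∑ i, a i • (Pi.single i (1 : ℝ) : Fin n → ℝ)) = N a := by rw [h2]
    exact h3

end Pool.Agent.Helper224.Asy11
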