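import Pool.Agent.Helper224.Asy1
set_option autoImplicit false
namespace Pool.Agent.Helper224.Asy2
open Finset Pool.Agent.Helper224.Asy1

theorem gprime {E : Type*} [AddCommGroup E] [Module ℝ E] {I : Type*} {K : Type} [Fintype I]
    [Fintype K] [DecidableEq K] [DecidableEq I]
    (T : E ≃ₗ[ℝ] (I → ℝ)) (v : E →ₗ[ℝ] (K → ℝ)) (V : ℝ) (hV : 0 < V)
    (hv : ∀ c, ∑ j, (v c j) ^ 2 ≤ (V * ∑ i, |T c i|) ^ 2)
    (z : K → E) (B : ℝ)
    (hB : ∀ ε : K → ℝ, (∀ k, |ε k| ≤ 1) → ∑ i, |T (∑ k, ε k • z k) i| ≤ B) :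
    ∑ k, v (z k) k ≤ V * (8 * B) := by
  have h := groth (fun k i => T (z k) i) B ?_ (J := K) (fun i j => v (T.symm (Pi.single i 1)) j)
    (fun k j => (Pi.single k (1 : ℝ) : K → ℝ) j) V 1 hV one_pos ?_ ?_
  · have h2 : ∀ k, ∑ i, T (z k) i * ∑ j, v (T.symm (Pi.single i 1)) j *
        (Pi.single k (1 : ℝ) : K → ℝ) j = v (z k) k := by
      intro k
      have h3 : ∀ i, ∑ j, v (T.symm (Pi.single i 1)) j * (Pi.single k (1 : ℝ) : K → ℝ) j
          = v (T.symm (Pi.single i 1)) k := by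
        intro i
        rw [Finset.sum_eq_single k]
        · simp
        · intro b _ hb; simp [Pi.single_eq_of_ne hb]
        · simp
      simp only [h3]
      have h4 : z k = ∑ i, (T (z k) i) • T.symm (Pi.single i 1) := by
        apply T.injective
        rw [map_sum]
        simp only [map_smul, LinearEquiv.apply_symm_apply]
        ext j
        simp [Finset.sum_apply, Pi.single_apply]
      conv_rhs => rw [h4]
      rw [map_sum]
      simp [Finset.sum_apply]
    simp only [h2] at h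
    linarith
  · intro ε δ hε hδ
    have h1 : ∑ k, ∑ i, T (z k) i * (δ i * ε k) = ∑ i, δ i * T (∑ k, ε k • z k) i := by
      rw [Finset.sum_comm]
      apply Finset.sum_congr rfl; intro i _
      rw [map_sum]
      simp only [map_smul, Finset.sum_apply, Pi.smul_apply, smul_eq_mul]
      rw [Finset.mul_sum]
      apply Finset.sum_congr rfl; intro k _
      ring
    rw [h1]
    refine le_trans ?_ (hB ε hε)
    apply Finset.sum_le_sum; intro i _
    calc δ i * T (∑ k, ε k • z k) i ≤ |δ i * T (∑ k, ε k • z k) i| := le_abs_self _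
      _ = |δ i| * |T (∑ k, ε k • z k) i| := abs_mul _ _
      _ ≤ 1 * |T (∑ k, ε k • z k) i| := mul_le_mul_of_nonneg_right (hδ i) (abs_nonneg _)
      _ = _ := one_mul _
  · intro i
    have h1 := hv (T.symm (Pi.single i 1))
    have h2 : ∑ j, |T (T.symm (Pi.single i (1:ℝ))) j| = 1 := by
      rw [LinearEquiv.apply_symm_apply, Finset.sum_eq_single i]
      · simp
      · intro b _ hb; simp [Pi.single_eq_of_ne hb]
      · simp
    rw [h2, mul_one] at h1
    exact h1
  · intro k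
    rw [Finset.sum_eq_single k]
    · simp
    · intro b _ hb; simp [Pi.single_eq_of_ne hb]
    · simp


lemma khin_pt (z t : ℝ) (ht : 0 ≤ t) : 2 * (z ^ 2 * t ^ 2 - z ^ 4) ≤ |z| * t ^ 3 := by
  have h0 : 0 ≤ |z| := abs_nonneg z
  have h1 : z ^ 2 = |z| ^ 2 := (sq_abs z).symm
  have h2 : z ^ 4 = |z| ^ 4 := by
    calc z ^ 4 = (z ^ 2) ^ 2 := by ring
      _ = (|z| ^ 2) ^ 2 := by rw [h1]
      _ = |z| ^ 4 := by ring
  rw [h1, h2]
  set a := |z|
  have key : 0 ≤ t ^ 3 - 2 * a * t ^ 2 + 2 * a ^ 3 := by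
    rcases le_total t (2 * a) with h | h
    · have : t ^ 3 - 2 * a * t ^ 2 + 2 * a ^ 3 = (t - a) ^ 2 * t + a ^ 2 * (2 * a - t) := by ring
      rw [this]
      have h5 : 0 ≤ 2 * a - t := by linarith
      positivity
    · have : t ^ 3 - 2 * a * t ^ 2 + 2 * a ^ 3 = t ^ 2 * (t - 2 * a) + 2 * a ^ 3 := by ring
      rw [this]
      have h5 : 0 ≤ t - 2 * a := by linarith
      positivity
  nlinarith [mul_nonneg h0 key]

lemma khin {ι : Type*} [Fintype ι] [DecidableEq ι] (x : ι → ℝ) :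
    (Fintype.card (ι → Bool) : ℝ) * Real.sqrt (∑ j, x j ^ 2) ≤
      3 * ∑ ω : ι → Bool, |R Finset.univ x ω| := by
  set n : ℝ := (Fintype.card (ι → Bool) : ℝ) with hn
  set S := ∑ j, x j ^ 2 with hS
  have hS0 : 0 ≤ S := Finset.sum_nonneg (fun _ _ => sq_nonneg _)
  set σ := Real.sqrt S with hσ
  have hσ0 : 0 ≤ σ := Real.sqrt_nonneg _
  have hσ2 : σ ^ 2 = S := Real.sq_sqrt hS0
  have hn0 : 0 < n := by
    have : 0 < Fintype.card (ι → Bool) := Fintype.card_pos
    exact Nat.cast_pos.mpr this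
  rcases hσ0.eq_or_lt with h0 | h0
  · rw [← h0, mul_zero]
    have : 0 ≤ ∑ ω : ι → Bool, |R Finset.univ x ω| := Finset.sum_nonneg (fun _ _ => abs_nonneg _)
    linarith
  have h2 := rad2 Finset.univ x x
  have h4 := rad4 Finset.univ x
  have e2 : ∑ ω : ι → Bool, (R Finset.univ x ω) ^ 2 = n * S := by
    rw [hS, hn]
    have e : ∑ j, x j ^ 2 = ∑ j, x j * x j := by
      apply Finset.sum_congr rfl; intros; ring
    rw [e, ← h2]
    apply Finset.sum_congr rfl; intros; ring
  have hpt := Finset.sum_le_sum (s := (Finset.univ : Finset (ι → Bool)))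
    (fun ω _ => khin_pt (R Finset.univ x ω) (3 * σ) (by positivity))
  rw [← Finset.mul_sum, Finset.sum_sub_distrib, ← Finset.sum_mul, ← Finset.sum_mul, e2] at hpt
  set W := ∑ ω : ι → Bool, |R Finset.univ x ω| with hW
  have hW0 : 0 ≤ W := Finset.sum_nonneg (fun _ _ => abs_nonneg _)
  set F := ∑ ω : ι → Bool, (R Finset.univ x ω) ^ 4 with hF
  have hF4 : F ≤ 3 * n * σ ^ 4 := by
    have : σ ^ 4 = S ^ 2 := by rw [← hσ2]; ring
    rw [this]; exact h4
  rw [← hσ2] at hpt
  have h5 : 12 * n * σ ^ 4 ≤ W * (27 * σ ^ 3) := by nlinarith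
  have h6 : 0 < σ ^ 3 := by positivity
  have h7 : 12 * n * σ ≤ W * 27 := by
    have : σ ^ 3 * (12 * n * σ) ≤ σ ^ 3 * (W * 27) := by nlinarith
    exact le_of_mul_le_mul_left this h6
  linarith

theorem cotype {Λ I : Type*} [Fintype Λ] [DecidableEq Λ] [Fintype I] (u : Λ → I → ℝ) (D : ℝ)
    (hD : ∀ ω : Λ → Bool, ∑ i, |R Finset.univ (fun μ => u μ i) ω| ≤ D) :
    ∑ μ, (∑ i, |u μ i|) ^ 2 ≤ (3 * D) ^ 2 := by
  set n : ℝ := (Fintype.card (Λ → Bool) : ℝ) with hn
  have hn0 : 0 < n := by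
    have : 0 < Fintype.card (Λ → Bool) := Fintype.card_pos
    exact Nat.cast_pos.mpr this
  let σ : I → ℝ := fun i => Real.sqrt (∑ μ, u μ i ^ 2)
  have hσ0 : ∀ i, 0 ≤ σ i := fun i => Real.sqrt_nonneg _
  have h1 : ∑ i, σ i ≤ 3 * D := by
    have h2 : n * ∑ i, σ i ≤ n * (3 * D) := by
      rw [Finset.mul_sum]
      calc ∑ i, n * σ i ≤ ∑ i, 3 * ∑ ω : Λ → Bool, |R Finset.univ (fun μ => u μ i) ω| :=
            Finset.sum_le_sum (fun i _ => khin (fun μ => u μ i))
        _ = 3 * ∑ ω : Λ → Bool, ∑ i, |R Finset.univ (fun μ => u μ i) ω| := by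
            rw [← Finset.mul_sum, Finset.sum_comm]
        _ ≤ 3 * ∑ ω : Λ → Bool, D :=
            mul_le_mul_of_nonneg_left (Finset.sum_le_sum (fun ω _ => hD ω)) (by norm_num)
        _ = n * (3 * D) := by simp [n]; ring
    exact le_of_mul_le_mul_left h2 hn0
  have h3 : ∑ μ, (∑ i, |u μ i|) ^ 2 ≤ (∑ i, σ i) ^ 2 := by
    have e1 : ∀ μ, (∑ i, |u μ i|) ^ 2 = ∑ i, ∑ j, |u μ i| * |u μ j| := by
      intro μ; rw [sq, Finset.sum_mul_sum]
    have e2 : (∑ i, σ i) ^ 2 = ∑ i, ∑ j, σ i * σ j := by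
      rw [sq, Finset.sum_mul_sum]
    simp only [e1]
    rw [e2, Finset.sum_comm]
    apply Finset.sum_le_sum; intro i _
    rw [Finset.sum_comm]
    apply Finset.sum_le_sum; intro j _
    have h := Finset.sum_mul_sq_le_sq_mul_sq Finset.univ (fun μ => |u μ i|) (fun μ => |u μ j|)
    simp only [sq_abs] at h
    have h5 : σ i * σ j = Real.sqrt ((∑ μ, u μ i ^ 2) * (∑ μ, u μ j ^ 2)) := by
      rw [Real.sqrt_mul (Finset.sum_nonneg (fun _ _ => sq_nonneg _))]
    rw [h5]
    exact Real.le_sqrt_of_sq_le h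
  have h4 : 0 ≤ ∑ i, σ i := Finset.sum_nonneg (fun i _ => hσ0 i)
  exact h3.trans (pow_le_pow_left₀ h4 h1 2)

lemma hb {E : Type*} [AddCommGroup E] [Module ℝ E] (N : Seminorm ℝ E) (x : E) :
    ∃ φ : E →ₗ[ℝ] ℝ, φ x = N x ∧ ∀ y, |φ y| ≤ N y := by
  classical
  by_cases hx : x = 0
  · subst hx
    exact ⟨0, by simp, fun y => by simp⟩
  · let f : E →ₗ.[ℝ] ℝ := LinearPMap.mkSpanSingleton x (N x) hx
    have hmem : x ∈ f.domain := (Submodule.mem_span_singleton_self x : x ∈ Submodule.span ℝ {x})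
    have hfx : f ⟨x, hmem⟩ = N x := LinearPMap.mkSpanSingleton_apply ℝ ℝ hx (N x)
    obtain ⟨g, hg1, hg2⟩ := exists_extension_of_le_sublinear f (fun y => N y)
      (fun c hc y => by
        show N (c • y) = c * N y
        rw [map_smul_eq_mul]; simp [abs_of_pos hc])
      (fun y z => map_add_le_add N y z)
      (by
        rintro ⟨y, hy⟩
        have hy' : y ∈ Submodule.span ℝ {x} := hy
        obtain ⟨c, rfl⟩ := Submodule.mem_span_singleton.mp hy'
        have h1 : (⟨c • x, hy⟩ : f.domain) = c • ⟨x, hmem⟩ := rfl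
        rw [h1, LinearPMap.map_smul, hfx]
        show c • N x ≤ N (c • x)
        rw [map_smul_eq_mul, smul_eq_mul, Real.norm_eq_abs]
        exact mul_le_mul_of_nonneg_right (le_abs_self c) (apply_nonneg N x))
    have hgx : g x = N x := by
      have h := hg1 ⟨x, hmem⟩
      rw [hfx] at h
      exact h
    refine ⟨g, hgx, fun y => abs_le.mpr ⟨?_, hg2 y⟩⟩
    have := hg2 (-y)
    simp at this
    linarith


section F2
variable {ι I : Type*} {Λ : Type} [Fintype ι] [Fintype I] [DecidableEq I] [Fintype Λ]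
  [DecidableEq Λ]
set_option linter.unusedSectionVars false

lemma supp01 (N : Seminorm ℝ (ι → ℝ)) (g : ι → Λ)
    (hs : ∀ μ a, N (fun i => if g i = μ then 0 else a i) ≤ N a)
    (ε : Λ → ℝ) (h0 : ∀ μ, 0 ≤ ε μ) (h1 : ∀ μ, ε μ ≤ 1) (a : ι → ℝ) (s : Finset Λ) :
    N (fun i => (if g i ∈ s then ε (g i) else 1) * a i) ≤ N a := by
  induction s using Finset.induction_on with
  | empty => simp
  | insert μ s hμ ih =>
    set b : ι → ℝ := fun i => (if g i ∈ s then ε (g i) else 1) * a i with hb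
    have e : (fun i => (if g i ∈ insert μ s then ε (g i) else 1) * a i) =
        (1 - ε μ) • (fun i => if g i = μ then 0 else b i) + ε μ • b := by
      funext i
      simp only [Pi.add_apply, Pi.smul_apply, smul_eq_mul, hb, Finset.mem_insert]
      by_cases h : g i = μ
      · subst h; simp [hμ]
      · simp only [h, false_or, if_false]; ring
    rw [e]
    calc N ((1 - ε μ) • (fun i => if g i = μ then 0 else b i) + ε μ • b)
        ≤ N ((1 - ε μ) • (fun i => if g i = μ then 0 else b i)) + N (ε μ • b) :=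
          map_add_le_add _ _ _
      _ = (1 - ε μ) * N (fun i => if g i = μ then 0 else b i) + ε μ * N b := by
          rw [map_smul_eq_mul, map_smul_eq_mul, Real.norm_eq_abs, Real.norm_eq_abs,
            abs_of_nonneg (h0 μ), abs_of_nonneg (sub_nonneg.mpr (h1 μ))]
      _ ≤ (1 - ε μ) * N b + ε μ * N b := by
          have := hs μ b
          have h2 := sub_nonneg.mpr (h1 μ)
          nlinarith
      _ = N b := by ring
      _ ≤ N a := ih

lemma suppmul (N : Seminorm ℝ (ι → ℝ)) (g : ι → Λ)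
    (hs : ∀ μ a, N (fun i => if g i = μ then 0 else a i) ≤ N a)
    (ε : Λ → ℝ) (h1 : ∀ μ, |ε μ| ≤ 1) (a : ι → ℝ) :
    N (fun i => ε (g i) * a i) ≤ 2 * N a := by
  have hp := supp01 N g hs (fun μ => max (ε μ) 0) (fun μ => le_max_right _ _)
    (fun μ => max_le ((abs_le.mp (h1 μ)).2) zero_le_one) a Finset.univ
  have hm := supp01 N g hs (fun μ => max (-ε μ) 0) (fun μ => le_max_right _ _)
    (fun μ => max_le (by have := (abs_le.mp (h1 μ)).1; linarith) zero_le_one) a Finset.univ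
  simp only [Finset.mem_univ, if_true] at hp hm
  have e : (fun i => ε (g i) * a i) =
      (fun i => max (ε (g i)) 0 * a i) - (fun i => max (-ε (g i)) 0 * a i) := by
    funext i
    simp only [Pi.sub_apply]
    rw [← sub_mul]
    congr 1
    rcases le_total 0 (ε (g i)) with h | h
    · rw [max_eq_left h, max_eq_right (by linarith)]; ring
    · rw [max_eq_right h, max_eq_left (by linarith)]; ring
  rw [e]
  calc _ ≤ N (fun i => max (ε (g i)) 0 * a i) + N (fun i => max (-ε (g i)) 0 * a i) :=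
        map_sub_le_add _ _ _
    _ ≤ 2 * N a := by linarith

/-- restriction to a block, as a linear map -/
def blk (g : ι → Λ) (μ : Λ) : (ι → ℝ) →ₗ[ℝ] (ι → ℝ) where
  toFun a := fun i => if g i = μ then a i else 0
  map_add' a b := by
    funext i; by_cases h : g i = μ <;> simp [h]
  map_smul' c a := by
    funext i; by_cases h : g i = μ <;> simp [h]

lemma blk_apply (g : ι → Λ) (μ : Λ) (a : ι → ℝ) (i : ι) :
    blk g μ a i = if g i = μ then a i else 0 := rfl

lemma sum_blk (g : ι → Λ) (ε : Λ → ℝ) (a : ι → ℝ) :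
    ∑ μ, ε μ • blk g μ a = fun i => ε (g i) * a i := by
  funext i
  simp [Finset.sum_apply, blk_apply]

lemma blk_blk (g : ι → Λ) (μ : Λ) (a : ι → ℝ) : blk g μ (blk g μ a) = blk g μ a := by
  funext i
  by_cases h : g i = μ <;> simp [blk_apply, h]

theorem F2 (N : Seminorm ℝ (ι → ℝ)) (T : (ι → ℝ) ≃ₗ[ℝ] (I → ℝ)) (K : ℝ) (hK : 0 < K)
    (h1 : ∀ a, N a ≤ ∑ i, |T a i|) (h2 : ∀ a, ∑ i, |T a i| ≤ K * N a) (g : ι → Λ)
    (hs : ∀ μ a, N (fun i => if g i = μ then 0 else a i) ≤ N a) (a : ι → ℝ) :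
    ∑ μ, N (blk g μ a) ≤ 96 * K ^ 2 * N a := by
  choose φ hφ1 hφ2 using fun μ => hb N (blk g μ a)
  let v : (ι → ℝ) →ₗ[ℝ] (Λ → ℝ) := LinearMap.pi (fun μ => (φ μ).comp (blk g μ))
  have hv : ∀ x μ, v x μ = φ μ (blk g μ x) := fun x μ => rfl
  have hcot : ∀ x, ∑ μ, (N (blk g μ x)) ^ 2 ≤ (3 * (K * (2 * N x))) ^ 2 := by
    intro x
    have hc := cotype (fun μ i => T (blk g μ x) i) (K * (2 * N x)) (by
      intro ω
      have e : ∀ i, R Finset.univ (fun μ => T (blk g μ x) i) ω =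
          T (∑ μ, sg (ω μ) • blk g μ x) i := by
        intro i
        rw [map_sum]
        simp only [map_smul, Finset.sum_apply, Pi.smul_apply, smul_eq_mul]
        unfold R
        apply Finset.sum_congr rfl; intros; ring
      simp only [e]
      rw [sum_blk g (fun μ => sg (ω μ))]
      refine (h2 _).trans (mul_le_mul_of_nonneg_left ?_ hK.le)
      exact suppmul N g hs _ (fun μ => abs_sg _) x)
    refine le_trans ?_ hc
    apply Finset.sum_le_sum; intro μ _
    exact pow_le_pow_left₀ (apply_nonneg N _) (h1 _) 2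
  have h := gprime T v (6 * K) (by positivity) (by
      intro c
      calc ∑ j, (v c j) ^ 2 ≤ ∑ μ, (N (blk g μ c)) ^ 2 := by
            apply Finset.sum_le_sum; intro μ _
            rw [hv, ← sq_abs]
            exact pow_le_pow_left₀ (abs_nonneg _) (hφ2 μ _) 2
        _ ≤ (3 * (K * (2 * N c))) ^ 2 := hcot c
        _ = (6 * K * N c) ^ 2 := by ring
        _ ≤ (6 * K * ∑ i, |T c i|) ^ 2 := by
            apply pow_le_pow_left₀
            · have := apply_nonneg N c; positivity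
            · exact mul_le_mul_of_nonneg_left (h1 c) (by positivity))
    (fun μ => blk g μ a) (K * (2 * N a)) (by
      intro ε hε
      rw [sum_blk g ε]
      refine (h2 _).trans (mul_le_mul_of_nonneg_left ?_ hK.le)
      exact suppmul N g hs _ hε a)
  have e : ∑ μ, N (blk g μ a) = ∑ μ, v (blk g μ a) μ := by
    apply Finset.sum_congr rfl; intro μ _
    rw [hv, blk_blk, hφ1]
  rw [e]
  calc _ ≤ _ := h
    _ = _ := by ring
end F2

end Pool.Agent.Helper224.Asy2
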