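import Pool.Agent.Helper224.Asy2
set_option autoImplicit false
namespace Pool.Agent.Helper224.Asy3
open Finset Pool.Agent.Helper224.Asy1 Pool.Agent.Helper224.Asy2

section basic
variable {m d : ℕ} [NeZero m]
set_option linter.unusedSectionVars false

/-- points of a face -/
def face (m : ℕ) [NeZero m] {d : ℕ} (j : Fin d) : Finset (Fin d → Fin m) :=
  Finset.univ.filter (fun x => x j = 0)

lemma fub (j : Fin d) (g : (Fin d → Fin m) → ℝ) :
    ∑ x, g x = ∑ x ∈ face m j, ∑ v, g (Function.update x j v) := by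
  rw [Finset.sum_comm, ← Finset.sum_fiberwise Finset.univ (fun x : Fin d → Fin m => x j) g]
  apply Finset.sum_congr rfl; intro v _
  apply Finset.sum_nbij' (fun x => Function.update x j 0) (fun x => Function.update x j v)
  · intro x _; simp [face]
  · intro x _; simp
  · intro x hx
    simp only [Finset.mem_filter, Finset.mem_univ, true_and] at hx
    rw [Function.update_idem, ← hx, Function.update_eq_self]
  · intro x hx
    simp only [face, Finset.mem_filter, Finset.mem_univ, true_and] at hx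
    rw [Function.update_idem, ← hx, Function.update_eq_self]
  · intro x hx
    simp only [Finset.mem_filter, Finset.mem_univ, true_and] at hx
    rw [Function.update_idem, ← hx, Function.update_eq_self]

/-- one direction part of the grid norm -/
noncomputable def fd (A : Seminorm ℝ (Fin m → ℝ)) (s : Fin m → ℝ) (j : Fin d)
    (c : (Fin d → Fin m) → ℝ) : ℝ :=
  ∑ x ∈ face m j, A (fun v => s v * c (Function.update x j v))

/-- comparison functional on the grid -/
noncomputable def FF (A : Seminorm ℝ (Fin m → ℝ)) (s : Fin m → ℝ)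
    (c : (Fin d → Fin m) → ℝ) : ℝ := ∑ j, fd A s j c

lemma fd_nonneg (A : Seminorm ℝ (Fin m → ℝ)) (s : Fin m → ℝ) (j : Fin d)
    (c : (Fin d → Fin m) → ℝ) : 0 ≤ fd A s j c :=
  Finset.sum_nonneg (fun _ _ => apply_nonneg A _)

/-- weight of a point -/
noncomputable def wt (a : Fin m → ℝ) (x : Fin d → Fin m) : ℝ := ∏ t, a (x t)

/-- weight off a coordinate -/
noncomputable def wo (a : Fin m → ℝ) (j : Fin d) (x : Fin d → Fin m) : ℝ :=
  ∏ t ∈ Finset.univ.erase j, a (x t)

lemma wt_update (a : Fin m → ℝ) (j : Fin d) (x : Fin d → Fin m) (v : Fin m) :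
    wt a (Function.update x j v) = a v * wo a j x := by
  unfold wt wo
  rw [← Finset.mul_prod_erase Finset.univ _ (Finset.mem_univ j), Function.update_self]
  congr 1
  apply Finset.prod_congr rfl
  intro t ht
  rw [Function.update_of_ne (Finset.ne_of_mem_erase ht)]

lemma wo_nonneg (a : Fin m → ℝ) (ha : ∀ v, 0 ≤ a v) (j : Fin d) (x : Fin d → Fin m) :
    0 ≤ wo a j x := Finset.prod_nonneg (fun _ _ => ha _)

lemma wt_nonneg (a : Fin m → ℝ) (ha : ∀ v, 0 ≤ a v) (x : Fin d → Fin m) :
    0 ≤ wt a x := Finset.prod_nonneg (fun _ _ => ha _)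

lemma face_weight (a : Fin m → ℝ) (hs : ∑ v, a v = 1) (j : Fin d) (G : (Fin d → Fin m) → ℝ)
    (hG : ∀ x v, G (Function.update x j v) = G x) :
    ∑ x ∈ face m j, wo a j x * G x = ∑ x, wt a x * G x := by
  rw [fub j (fun x => wt a x * G x)]
  apply Finset.sum_congr rfl; intro x _
  simp only [wt_update, hG]
  rw [← Finset.sum_mul, ← Finset.sum_mul, hs, one_mul]

lemma pf2 (a p q : Fin m → ℝ) (hs : ∑ v, a v = 1) (k l : Fin d) (hkl : k ≠ l) :
    ∑ x : Fin d → Fin m, wt a x * (p (x k) * q (x l)) = (∑ v, a v * p v) * (∑ v, a v * q v) := by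
  classical
  let g : Fin d → Fin m → ℝ := fun t v =>
    a v * ((if t = k then p v else 1) * (if t = l then q v else 1))
  have h1 : ∀ x : Fin d → Fin m, wt a x * (p (x k) * q (x l)) = ∏ t, g t (x t) := by
    intro x
    simp only [g, Finset.prod_mul_distrib, wt]
    congr 1
    simp
  have h2 := Finset.prod_univ_sum (fun _ : Fin d => (Finset.univ : Finset (Fin m))) g
  rw [Fintype.piFinset_univ] at h2
  simp only [h1]
  rw [← h2]
  have h3 : ∀ t, ∑ v, g t v = (if t = k then ∑ v, a v * p v else 1) *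
      (if t = l then ∑ v, a v * q v else 1) := by
    intro t
    by_cases htk : t = k
    · subst htk
      simp [g, hkl]
    · by_cases htl : t = l
      · subst htl
        simp [g, htk]
      · simp [g, htk, htl, hs]
  simp only [h3, Finset.prod_mul_distrib]
  simp

lemma pf0 (a : Fin m → ℝ) (hs : ∑ v, a v = 1) :
    ∑ x : Fin d → Fin m, wt a x = 1 := by
  have h2 := Finset.prod_univ_sum (fun _ : Fin d => (Finset.univ : Finset (Fin m))) (fun _ v => a v)
  rw [Fintype.piFinset_univ] at h2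
  unfold wt
  rw [← h2, hs]
  simp

end basic


section step1
variable {m : ℕ} [NeZero m]
set_option linter.unusedSectionVars false

lemma sum_two (g : (Fin 2 → Fin m) → ℝ) : ∑ x, g x = ∑ p, ∑ q, g ![p, q] := by
  rw [← Fintype.sum_prod_type']
  apply Fintype.sum_equiv (finTwoArrowEquiv (Fin m))
  intro x
  congr 1
  funext i
  fin_cases i <;> simp [finTwoArrowEquiv]

lemma face_two0 (g : (Fin 2 → Fin m) → ℝ) :
    ∑ x ∈ face m (0 : Fin 2), g x = ∑ q, g ![0, q] := by
  unfold face
  rw [Finset.sum_filter, sum_two]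
  rw [Finset.sum_eq_single 0]
  · simp
  · intro b _ hb; simp [hb]
  · simp

lemma face_two1 (g : (Fin 2 → Fin m) → ℝ) :
    ∑ x ∈ face m (1 : Fin 2), g x = ∑ p, g ![p, 0] := by
  unfold face
  rw [Finset.sum_filter, sum_two]
  apply Finset.sum_congr rfl; intro p _
  rw [Finset.sum_eq_single 0]
  · simp
  · intro b _ hb; simp [hb]
  · simp

/-- the grid hypothesis -/
def Grid (m : ℕ) [NeZero m] (A : Seminorm ℝ (Fin m → ℝ)) (κ K : ℝ) : Prop :=
  ∀ (d : ℕ) (s : Fin m → ℝ), 0 < d → (∀ v, |s v| = 1) →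
    ∃ (I : Type) (_ : Fintype I) (_ : DecidableEq I) (T : ((Fin d → Fin m) → ℝ) ≃ₗ[ℝ] (I → ℝ)),
      ∀ c, κ * FF A s c ≤ ∑ i, |T c i| ∧ ∑ i, |T c i| ≤ K * FF A s c

lemma upd0 (q v : Fin m) : Function.update ![(0 : Fin m), q] (0 : Fin 2) v = ![v, q] := by
  funext i
  fin_cases i <;> simp

lemma upd1 (q v : Fin m) : Function.update ![q, (0 : Fin m)] (1 : Fin 2) v = ![q, v] := by
  funext i
  fin_cases i <;> simp

lemma l2_bound (A : Seminorm ℝ (Fin m → ℝ)) (C : ℝ) (hC : 0 < C)
    (hc : ∀ c i, |c i| ≤ C * A c) (c : (Fin 2 → Fin m) → ℝ) :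
    ∑ x, c x ^ 2 ≤ (C / 2 * FF A (fun _ => 1) c) ^ 2 := by
  have h0 : fd A (fun _ => 1) (0 : Fin 2) c = ∑ q, A (fun v => c ![v, q]) := by
    unfold fd
    rw [face_two0]
    simp only [upd0, one_mul]
  have h1 : fd A (fun _ => 1) (1 : Fin 2) c = ∑ p, A (fun v => c ![p, v]) := by
    unfold fd
    rw [face_two1]
    simp only [upd1, one_mul]
  have h2 : ∑ x, c x ^ 2 ≤ C ^ 2 * (fd A (fun _ => 1) 1 c * fd A (fun _ => 1) 0 c) := by
    rw [sum_two, h0, h1, Finset.sum_mul_sum, Finset.mul_sum]
    apply Finset.sum_le_sum; intro p _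
    rw [Finset.mul_sum]
    apply Finset.sum_le_sum; intro q _
    have e1 := hc (fun v => c ![p, v]) q
    have e2 := hc (fun v => c ![v, q]) p
    calc c ![p, q] ^ 2 = |c ![p, q]| * |c ![p, q]| := by rw [← sq, sq_abs]
      _ ≤ (C * A (fun v => c ![p, v])) * (C * A (fun v => c ![v, q])) :=
          mul_le_mul e1 e2 (abs_nonneg _) (by have := apply_nonneg A (fun v => c ![p, v]); positivity)
      _ = _ := by ring
  have h3 : FF A (fun _ => 1) c = fd A (fun _ => 1) 0 c + fd A (fun _ => 1) 1 c := by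
    unfold FF; rw [Fin.sum_univ_two]
  rw [h3]
  nlinarith [mul_nonneg (sq_nonneg C) (sq_nonneg (fd A (fun _ => 1) 0 c - fd A (fun _ => 1) 1 c))]

theorem step1 (A : Seminorm ℝ (Fin m → ℝ)) (C κ K : ℝ) (hC : 0 < C) (hκ : 0 < κ) (hK : 0 < K)
    (hc : ∀ c i, |c i| ≤ C * A c) (hG : Grid m A κ K)
    (a : Fin m → ℝ) (ha : ∀ v, 0 ≤ a v) (ha1 : ∑ v, a v = 1) :
    ∃ ε : Fin m → ℝ, (∀ v, |ε v| ≤ 1) ∧ κ / (16 * C * K) ≤ A (fun v => ε v * a v) := by
  classical
  by_contra hcon
  push Not at hcon
  set c1 := κ / (16 * C * K) with hc1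
  have hc1p : 0 < c1 := by rw [hc1]; positivity
  obtain ⟨I, _, _, T, hT⟩ := hG 2 (fun _ => 1) (by norm_num) (by simp)
  have h := gprime T (LinearMap.id : ((Fin 2 → Fin m) → ℝ) →ₗ[ℝ] ((Fin 2 → Fin m) → ℝ))
    (C / (2 * κ)) (by positivity) (by
      intro c
      simp only [LinearMap.id_apply]
      refine (l2_bound A C hC hc c).trans ?_
      have h1 := (hT c).1
      have h0 : 0 ≤ FF A (fun _ => 1) c := Finset.sum_nonneg (fun j _ => fd_nonneg _ _ _ _)
      apply pow_le_pow_left₀ (by positivity)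
      rw [div_mul_eq_mul_div, div_mul_eq_mul_div, div_le_div_iff₀ (by norm_num) (by positivity)]
      nlinarith [mul_le_mul_of_nonneg_left h1 hC.le])
    (fun x => wt a x • Pi.single x 1) (K * (2 * c1)) (by
      intro ε hε
      refine (hT _).2.trans (mul_le_mul_of_nonneg_left ?_ hK.le)
      have e1 : (∑ k, ε k • wt a k • (Pi.single k (1 : ℝ) : (Fin 2 → Fin m) → ℝ)) =
          fun x => ε x * wt a x := by
        funext x
        simp [Finset.sum_apply, Pi.single_apply]
      rw [e1]
      unfold FF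
      have e2 : ∀ j : Fin 2, fd A (fun _ => 1) j (fun x => ε x * wt a x) ≤ c1 := by
        intro j
        unfold fd
        calc ∑ x ∈ face m j, A (fun v => 1 * (ε (Function.update x j v) * wt a (Function.update x j v)))
            ≤ ∑ x ∈ face m j, wo a j x * c1 := by
              apply Finset.sum_le_sum; intro x _
              have e3 : (fun v => 1 * (ε (Function.update x j v) * wt a (Function.update x j v))) =
                  wo a j x • (fun v => ε (Function.update x j v) * a v) := by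
                funext v
                simp only [wt_update, Pi.smul_apply, smul_eq_mul]; ring
              rw [e3, map_smul_eq_mul, Real.norm_eq_abs, abs_of_nonneg (wo_nonneg a ha j x)]
              apply mul_le_mul_of_nonneg_left _ (wo_nonneg a ha j x)
              exact (hcon (fun v => ε (Function.update x j v)) (fun v => hε _)).le
          _ = ∑ x, wt a x * c1 := face_weight a ha1 j (fun _ => c1) (fun _ _ => rfl)
          _ = c1 := by rw [← Finset.sum_mul, pf0 a ha1, one_mul]
      calc ∑ j : Fin 2, fd A (fun _ => 1) j (fun x => ε x * wt a x) ≤ ∑ j : Fin 2, c1 :=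
            Finset.sum_le_sum (fun j _ => e2 j)
        _ = 2 * c1 := by simp)
  have e4 : ∑ k, (LinearMap.id : ((Fin 2 → Fin m) → ℝ) →ₗ[ℝ] ((Fin 2 → Fin m) → ℝ))
      (wt a k • Pi.single k 1) k = 1 := by
    refine Eq.trans ?_ (pf0 (d := 2) a ha1)
    apply Finset.sum_congr rfl; intro x _
    simp
  rw [e4] at h
  have e5 : C / (2 * κ) * (8 * (K * (2 * c1))) = 1 / 2 := by
    rw [hc1]; field_simp; norm_num
  rw [e5] at h
  linarith

end step1
end Pool.Agent.Helper224.Asy3
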