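import Pool.Agent.Helper224.Asy3
set_option autoImplicit false
namespace Pool.Agent.Helper224.Asy4
open Finset Pool.Agent.Helper224.Asy1 Pool.Agent.Helper224.Asy2 Pool.Agent.Helper224.Asy3

section step2
variable {m : ℕ} [NeZero m]
set_option linter.unusedSectionVars false

lemma sn_le (A : Seminorm ℝ (Fin m → ℝ)) (hP : ∀ i, A (Pi.single i 1) ≤ 2) (c : Fin m → ℝ) :
    A c ≤ 2 * ∑ v, |c v| := by
  have e : c = ∑ v, c v • (Pi.single v (1 : ℝ) : Fin m → ℝ) := by
    funext i; simp [Finset.sum_apply, Pi.single_apply]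
  have h1 : A c = A (∑ v, c v • (Pi.single v (1 : ℝ) : Fin m → ℝ)) := by rw [← e]
  rw [h1]
  calc A (∑ v, c v • (Pi.single v (1 : ℝ) : Fin m → ℝ))
      ≤ ∑ v, A (c v • (Pi.single v (1 : ℝ) : Fin m → ℝ)) :=
        Finset.le_sum_of_subadditive A (map_zero A).le (map_add_le_add A) _ _
    _ = ∑ v, |c v| * A (Pi.single v (1 : ℝ)) := by
        apply Finset.sum_congr rfl; intro v _
        rw [map_smul_eq_mul, Real.norm_eq_abs]
    _ ≤ ∑ v, |c v| * 2 := Finset.sum_le_sum (fun v _ => mul_le_mul_of_nonneg_left (hP v) (abs_nonneg _))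
    _ = 2 * ∑ v, |c v| := by rw [← Finset.sum_mul]; ring

variable {d : ℕ}

/-- off-diagonal pair form -/
noncomputable def vv (r : Fin m → ℝ) (d : ℕ) :
    ((Fin d → Fin m) → ℝ) →ₗ[ℝ] (Fin d × Fin d → ℝ) :=
  LinearMap.pi (fun jk => if jk.1 = jk.2 then 0 else
    ∑ x : Fin d → Fin m, (r (x jk.1) * r (x jk.2)) • LinearMap.proj x)

lemma vv_apply (r : Fin m → ℝ) (c : (Fin d → Fin m) → ℝ) (j k : Fin d) :
    vv r d c (j, k) = if j = k then 0 else ∑ x : Fin d → Fin m, c x * (r (x j) * r (x k)) := by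
  unfold vv
  rw [LinearMap.pi_apply]
  by_cases h : j = k
  · simp [h]
  · simp only [h, if_false]
    simp only [LinearMap.sum_apply, LinearMap.smul_apply, LinearMap.proj_apply, smul_eq_mul]
    apply Finset.sum_congr rfl; intros; ring

lemma vv_bound1 (A : Seminorm ℝ (Fin m → ℝ)) (s r : Fin m → ℝ) (hr2 : ∀ v, |r v| ≤ 2)
    (hr : ∀ c : Fin m → ℝ, |∑ v, r v * c v| ≤ A (fun v => s v * c v))
    (c : (Fin d → Fin m) → ℝ) (j k : Fin d) (hjk : j ≠ k) :
    |∑ x : Fin d → Fin m, c x * (r (x j) * r (x k))| ≤ 2 * fd A s j c := by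
  rw [fub j]
  unfold fd
  rw [Finset.mul_sum]
  refine (Finset.abs_sum_le_sum_abs _ _).trans ?_
  apply Finset.sum_le_sum; intro x _
  have e : ∑ v, c (Function.update x j v) * (r (Function.update x j v j) * r (Function.update x j v k))
      = r (x k) * ∑ v, r v * c (Function.update x j v) := by
    rw [Finset.mul_sum]
    apply Finset.sum_congr rfl; intro v _
    rw [Function.update_self, Function.update_of_ne hjk.symm]; ring
  rw [e, abs_mul]
  exact mul_le_mul (hr2 _) (hr _) (abs_nonneg _) (by norm_num)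

lemma vv_bound (A : Seminorm ℝ (Fin m → ℝ)) (s r : Fin m → ℝ) (hr2 : ∀ v, |r v| ≤ 2)
    (hr : ∀ c : Fin m → ℝ, |∑ v, r v * c v| ≤ A (fun v => s v * c v))
    (c : (Fin d → Fin m) → ℝ) :
    ∑ jk, (vv r d c jk) ^ 2 ≤ (2 * FF A s c) ^ 2 := by
  rw [Fintype.sum_prod_type]
  have e : (2 * FF A s c) ^ 2 = ∑ j, ∑ k, (2 * fd A s j c) * (2 * fd A s k c) := by
    unfold FF
    rw [← Finset.sum_mul_sum, ← Finset.mul_sum, sq]
  rw [e]
  apply Finset.sum_le_sum; intro j _
  apply Finset.sum_le_sum; intro k _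
  rw [vv_apply]
  have hj := fd_nonneg A s j c
  have hk := fd_nonneg A s k c
  by_cases h : j = k
  · rw [if_pos h]
    have : 0 ≤ (2 * fd A s j c) * (2 * fd A s k c) := by positivity
    simpa using this
  · rw [if_neg h]
    have b1 := vv_bound1 A s r hr2 hr c j k h
    have b2 := vv_bound1 A s r hr2 hr c k j (Ne.symm h)
    have e2 : ∑ x : Fin d → Fin m, c x * (r (x k) * r (x j)) =
        ∑ x : Fin d → Fin m, c x * (r (x j) * r (x k)) := by
      apply Finset.sum_congr rfl; intros; ring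
    rw [e2] at b2
    calc _ = |∑ x : Fin d → Fin m, c x * (r (x j) * r (x k))| *
          |∑ x : Fin d → Fin m, c x * (r (x j) * r (x k))| := by rw [← sq, sq_abs]
      _ ≤ _ := mul_le_mul b1 b2 (abs_nonneg _) (by positivity)

/-- the product test vectors -/
noncomputable def zz (a r : Fin m → ℝ) (jk : Fin d × Fin d) : (Fin d → Fin m) → ℝ :=
  if jk.1 = jk.2 then 0 else fun x => wt a x * (r (x jk.1) * r (x jk.2))

/-- part not depending on coordinate i -/
noncomputable def al (e : Fin d × Fin d → ℝ) (r : Fin m → ℝ) (i : Fin d) (x : Fin d → Fin m) : ℝ :=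
  ∑ j, ∑ k, if j = k ∨ j = i ∨ k = i then 0 else e (j, k) * (r (x j) * r (x k))

/-- coefficient of the coordinate i -/
noncomputable def be (e : Fin d × Fin d → ℝ) (r : Fin m → ℝ) (i : Fin d) (x : Fin d → Fin m) : ℝ :=
  ∑ k, if k = i then 0 else (e (i, k) + e (k, i)) * r (x k)

lemma al_update (e : Fin d × Fin d → ℝ) (r : Fin m → ℝ) (i : Fin d) (x : Fin d → Fin m) (v : Fin m) :
    al e r i (Function.update x i v) = al e r i x := by
  unfold al
  apply Finset.sum_congr rfl; intro j _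
  apply Finset.sum_congr rfl; intro k _
  by_cases h : j = k ∨ j = i ∨ k = i
  · simp only [if_pos h]
  · simp only [if_neg h]
    push Not at h
    rw [Function.update_of_ne h.2.1, Function.update_of_ne h.2.2]

lemma be_update (e : Fin d × Fin d → ℝ) (r : Fin m → ℝ) (i : Fin d) (x : Fin d → Fin m) (v : Fin m) :
    be e r i (Function.update x i v) = be e r i x := by
  unfold be
  apply Finset.sum_congr rfl; intro k _
  by_cases h : k = i
  · simp only [if_pos h]
  · simp only [if_neg h]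
    rw [Function.update_of_ne h]

lemma zz_decomp (e : Fin d × Fin d → ℝ) (a r : Fin m → ℝ) (i : Fin d) (x : Fin d → Fin m)
    (v : Fin m) :
    (∑ jk, e jk • zz a r jk) (Function.update x i v) =
      (a v * wo a i x) * (al e r i x + be e r i x * r v) := by
  rw [Fintype.sum_prod_type, Finset.sum_apply, ← wt_update]
  set y := Function.update x i v with hy
  have h1 : ∀ j, (∑ k, e (j, k) • zz a r (j, k)) y =
      ∑ k, wt a y * (if j = k then 0 else e (j, k) * (r (y j) * r (y k))) := by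
    intro j
    rw [Finset.sum_apply]
    apply Finset.sum_congr rfl; intro k _
    rw [Pi.smul_apply]
    unfold zz
    by_cases h : j = k
    · simp [h]
    · simp only [h, if_false, smul_eq_mul]; ring
  simp only [h1]
  simp only [← Finset.mul_sum]
  congr 1
  have h2 : al e r i x + be e r i x * r v =
      ∑ j, ∑ k, ((if j = k ∨ j = i ∨ k = i then 0 else e (j, k) * (r (x j) * r (x k))) +
        (if j = i then (if k = i then 0 else e (j, k) * (r v * r (x k))) else 0) +
        (if k = i then (if j = i then 0 else e (j, k) * (r (x j) * r v)) else 0)) := by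
    simp only [Finset.sum_add_distrib]
    have e1 : ∑ j, ∑ k, (if j = i then (if k = i then 0 else e (j, k) * (r v * r (x k))) else 0) =
        ∑ k, (if k = i then 0 else e (i, k) * (r v * r (x k))) := by
      rw [Finset.sum_comm]
      apply Finset.sum_congr rfl; intro k _
      simp
    have e2 : ∑ j, ∑ k, (if k = i then (if j = i then 0 else e (j, k) * (r (x j) * r v)) else 0) =
        ∑ j, (if j = i then 0 else e (j, i) * (r (x j) * r v)) := by
      apply Finset.sum_congr rfl; intro k _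
      simp
    have e3 : be e r i x * r v = ∑ k, (if k = i then 0 else e (i, k) * (r v * r (x k))) +
        ∑ j, (if j = i then 0 else e (j, i) * (r (x j) * r v)) := by
      unfold be
      rw [Finset.sum_mul, ← Finset.sum_add_distrib]
      apply Finset.sum_congr rfl; intro k _
      by_cases h : k = i
      · simp [h]
      · simp only [h, if_false]; ring
    rw [e1, e2, e3]
    unfold al
    ring
  rw [h2]
  apply Finset.sum_congr rfl; intro j _
  apply Finset.sum_congr rfl; intro k _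
  by_cases hj : j = i
  · subst hj
    by_cases hk : k = j
    · subst hk; simp
    · have hk' : ¬ j = k := fun h => hk h.symm
      simp only [hk, hk', if_false, if_true, or_true, or_false, add_zero, zero_add, hy]
      rw [Function.update_self, Function.update_of_ne hk]
  · by_cases hk : k = i
    · subst hk
      simp only [hj, if_false, if_true, or_true, add_zero, zero_add, hy]
      rw [Function.update_self, Function.update_of_ne hj]
    · by_cases hjk : j = k
      · subst hjk; simp [hj]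
      · simp only [hj, hk, hjk, if_false, or_false, add_zero, hy]
        rw [Function.update_of_ne hj, Function.update_of_ne hk]


lemma al_bound (e : Fin d × Fin d → ℝ) (he : ∀ p, |e p| ≤ 1) (r : Fin m → ℝ)
    (hr2 : ∀ v, |r v| ≤ 2) (i : Fin d) (x : Fin d → Fin m) : |al e r i x| ≤ 4 * (d : ℝ) ^ 2 := by
  unfold al
  calc _ ≤ ∑ j : Fin d, ∑ k : Fin d, (4 : ℝ) := by
        refine (Finset.abs_sum_le_sum_abs _ _).trans ?_
        apply Finset.sum_le_sum; intro j _
        refine (Finset.abs_sum_le_sum_abs _ _).trans ?_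
        apply Finset.sum_le_sum; intro k _
        split_ifs with h
        · simp
        · rw [abs_mul, abs_mul]
          calc |e (j, k)| * (|r (x j)| * |r (x k)|) ≤ 1 * (2 * 2) :=
                mul_le_mul (he _) (mul_le_mul (hr2 _) (hr2 _) (abs_nonneg _) (by norm_num))
                  (by positivity) (by norm_num)
            _ = 4 := by norm_num
    _ = _ := by simp; ring

lemma be_moment (e : Fin d × Fin d → ℝ) (he : ∀ p, |e p| ≤ 1) (a r : Fin m → ℝ)
    (ha : ∀ v, 0 ≤ a v) (ha1 : ∑ v, a v = 1) (θ : ℝ) (hθ : |∑ v, a v * r v| ≤ θ)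
    (hr2 : ∀ v, |r v| ≤ 2) (i : Fin d) :
    ∑ x, wt a x * (be e r i x) ^ 2 ≤ 16 * (d : ℝ) + 4 * θ ^ 2 * (d : ℝ) ^ 2 := by
  let δ : Fin d → ℝ := fun k => if k = i then 0 else e (i, k) + e (k, i)
  have hδ : ∀ k, |δ k| ≤ 2 := by
    intro k
    simp only [δ]
    split_ifs
    · simp
    · calc |e (i, k) + e (k, i)| ≤ |e (i, k)| + |e (k, i)| := abs_add_le _ _
        _ ≤ 2 := by have := he (i, k); have := he (k, i); linarith
  have hbe : ∀ x, be e r i x = ∑ k, δ k * r (x k) := by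
    intro x
    unfold be
    apply Finset.sum_congr rfl; intro k _
    simp only [δ]
    split_ifs <;> simp
  have hsq : ∀ x : Fin d → Fin m, wt a x * (be e r i x) ^ 2 =
      ∑ k, ∑ l, (δ k * δ l) * (wt a x * (r (x k) * r (x l))) := by
    intro x
    rw [hbe, sq, Finset.sum_mul_sum, Finset.mul_sum]
    apply Finset.sum_congr rfl; intro k _
    rw [Finset.mul_sum]
    apply Finset.sum_congr rfl; intro l _
    ring
  simp only [hsq]
  rw [Finset.sum_comm]
  have hswap : ∀ k, ∑ x : Fin d → Fin m, ∑ l, (δ k * δ l) * (wt a x * (r (x k) * r (x l))) =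
      ∑ l, (δ k * δ l) * ∑ x : Fin d → Fin m, wt a x * (r (x k) * r (x l)) := by
    intro k
    rw [Finset.sum_comm]
    apply Finset.sum_congr rfl; intro l _
    rw [Finset.mul_sum]
  simp only [hswap]
  have hterm : ∀ k l : Fin d, (δ k * δ l) * ∑ x : Fin d → Fin m, wt a x * (r (x k) * r (x l)) ≤
      (if k = l then 16 else 0) + 4 * θ ^ 2 := by
    intro k l
    have hδδ : |δ k * δ l| ≤ 4 := by
      rw [abs_mul]
      calc _ ≤ (2 : ℝ) * 2 := mul_le_mul (hδ k) (hδ l) (abs_nonneg _) (by norm_num)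
        _ = 4 := by norm_num
    by_cases h : k = l
    · subst h
      rw [if_pos rfl]
      have h1 : |∑ x : Fin d → Fin m, wt a x * (r (x k) * r (x k))| ≤ 4 := by
        calc _ ≤ ∑ x : Fin d → Fin m, wt a x * 4 := by
              refine (Finset.abs_sum_le_sum_abs _ _).trans ?_
              apply Finset.sum_le_sum; intro x _
              rw [abs_mul, abs_of_nonneg (wt_nonneg a ha x), abs_mul]
              apply mul_le_mul_of_nonneg_left _ (wt_nonneg a ha x)
              calc _ ≤ (2 : ℝ) * 2 := mul_le_mul (hr2 _) (hr2 _) (abs_nonneg _) (by norm_num)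
                _ = 4 := by norm_num
          _ = 4 := by rw [← Finset.sum_mul, pf0 a ha1, one_mul]
      calc _ ≤ |(δ k * δ k) * ∑ x : Fin d → Fin m, wt a x * (r (x k) * r (x k))| := le_abs_self _
        _ = |δ k * δ k| * |∑ x : Fin d → Fin m, wt a x * (r (x k) * r (x k))| := abs_mul _ _
        _ ≤ 4 * 4 := mul_le_mul hδδ h1 (abs_nonneg _) (by norm_num)
        _ ≤ 16 + 4 * θ ^ 2 := by nlinarith [sq_nonneg θ]
    · rw [if_neg h, zero_add, pf2 a r r ha1 k l h]
      calc _ ≤ |(δ k * δ l) * ((∑ v, a v * r v) * (∑ v, a v * r v))| := le_abs_self _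
        _ = |δ k * δ l| * (|∑ v, a v * r v| * |∑ v, a v * r v|) := by
            rw [abs_mul (δ k * δ l), abs_mul (∑ v, a v * r v)]
        _ ≤ 4 * (θ * θ) := by
            apply mul_le_mul hδδ _ (by positivity) (by norm_num)
            exact mul_le_mul hθ hθ (abs_nonneg _) ((abs_nonneg _).trans hθ)
        _ = 4 * θ ^ 2 := by ring
  calc _ ≤ ∑ k : Fin d, ∑ l : Fin d, ((if k = l then (16 : ℝ) else 0) + 4 * θ ^ 2) :=
        Finset.sum_le_sum (fun k _ => Finset.sum_le_sum (fun l _ => hterm k l))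
    _ = 16 * (d : ℝ) + 4 * θ ^ 2 * (d : ℝ) ^ 2 := by
        simp [Finset.sum_add_distrib]; ring

lemma fd_bound (A : Seminorm ℝ (Fin m → ℝ)) (hP : ∀ i, A (Pi.single i 1) ≤ 2)
    (n : ℕ) (hn : 1 ≤ n) (e : Fin (n ^ 2) × Fin (n ^ 2) → ℝ) (he : ∀ p, |e p| ≤ 1)
    (s a r : Fin m → ℝ) (hs : ∀ v, |s v| = 1)
    (ha : ∀ v, 0 ≤ a v) (ha1 : ∑ v, a v = 1) (θ : ℝ) (hθ : |∑ v, a v * r v| ≤ θ)
    (hθA : A (fun v => s v * a v) ≤ θ) (hθn : θ * (n : ℝ) ^ 3 ≤ 1)
    (hr2 : ∀ v, |r v| ≤ 2) (i : Fin (n ^ 2)) :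
    fd A s i (∑ jk, e jk • zz a r jk) ≤ 24 * (n : ℝ) := by
  have hθ0 : 0 ≤ θ := (abs_nonneg _).trans hθ
  have hn1 : (1 : ℝ) ≤ n := by exact_mod_cast hn
  have hA4 : A (fun v => s v * (a v * r v)) ≤ 4 := by
    refine (sn_le A hP _).trans ?_
    calc 2 * ∑ v, |s v * (a v * r v)| ≤ 2 * ∑ v, a v * 2 := by
          apply mul_le_mul_of_nonneg_left _ (by norm_num)
          apply Finset.sum_le_sum; intro v _
          rw [abs_mul, hs, one_mul, abs_mul, abs_of_nonneg (ha v)]
          exact mul_le_mul_of_nonneg_left (hr2 v) (ha v)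
      _ = 4 := by rw [← Finset.sum_mul, ha1]; norm_num
  have h1 : fd A s i (∑ jk, e jk • zz a r jk) ≤
      ∑ x ∈ face m i, wo a i x * (θ * |al e r i x| + 4 * |be e r i x|) := by
    unfold fd
    apply Finset.sum_le_sum; intro x _
    have e1 : (fun v => s v * (∑ jk, e jk • zz a r jk) (Function.update x i v)) =
        wo a i x • (al e r i x • (fun v => s v * a v) + be e r i x • (fun v => s v * (a v * r v))) := by
      funext v
      rw [zz_decomp]
      simp only [Pi.smul_apply, Pi.add_apply, smul_eq_mul]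
      ring
    rw [e1, map_smul_eq_mul, Real.norm_eq_abs, abs_of_nonneg (wo_nonneg a ha i x)]
    apply mul_le_mul_of_nonneg_left _ (wo_nonneg a ha i x)
    calc _ ≤ A (al e r i x • (fun v => s v * a v)) + A (be e r i x • (fun v => s v * (a v * r v))) :=
          map_add_le_add _ _ _
      _ = |al e r i x| * A (fun v => s v * a v) + |be e r i x| * A (fun v => s v * (a v * r v)) := by
          rw [map_smul_eq_mul, map_smul_eq_mul, Real.norm_eq_abs, Real.norm_eq_abs]
      _ ≤ |al e r i x| * θ + |be e r i x| * 4 := by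
          apply add_le_add
          · exact mul_le_mul_of_nonneg_left hθA (abs_nonneg _)
          · exact mul_le_mul_of_nonneg_left hA4 (abs_nonneg _)
      _ = _ := by ring
  refine h1.trans ?_
  rw [face_weight a ha1 i (fun x => θ * |al e r i x| + 4 * |be e r i x|) (by
    intro x v
    rw [al_update, be_update])]
  have h2 : ∀ x : Fin (n ^ 2) → Fin m, wt a x * (θ * |al e r i x| + 4 * |be e r i x|) ≤
      wt a x * (4 * n) + (2 / (5 * n)) * (wt a x * (be e r i x) ^ 2) + wt a x * (10 * n) := by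
    intro x
    have hw := wt_nonneg a ha x
    have h3 : θ * |al e r i x| ≤ 4 * n := by
      have h4 := al_bound e he r hr2 i x
      push_cast at h4
      calc θ * |al e r i x| ≤ θ * (4 * ((n : ℝ) ^ 2) ^ 2) := mul_le_mul_of_nonneg_left h4 hθ0
        _ = 4 * (θ * (n : ℝ) ^ 3) * n := by ring
        _ ≤ 4 * 1 * n := by
            apply mul_le_mul_of_nonneg_right _ (by positivity)
            linarith
        _ = 4 * n := by ring
    have h5 : 4 * |be e r i x| ≤ (2 / (5 * n)) * (be e r i x) ^ 2 + 10 * n := by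
      have h6 : (be e r i x) ^ 2 = |be e r i x| ^ 2 := (sq_abs _).symm
      rw [h6]
      have hn5 : (0 : ℝ) < 5 * n := by positivity
      have h7 : (2 / (5 * (n : ℝ))) * |be e r i x| ^ 2 + 10 * n - 4 * |be e r i x| =
          (2 / (5 * n)) * (|be e r i x| - 5 * n) ^ 2 := by
        field_simp; ring
      have h8 : 0 ≤ (2 / (5 * (n : ℝ))) * (|be e r i x| - 5 * n) ^ 2 := by positivity
      linarith
    nlinarith [mul_le_mul_of_nonneg_left h3 hw, mul_le_mul_of_nonneg_left h5 hw]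
  refine (Finset.sum_le_sum (fun x _ => h2 x)).trans ?_
  rw [Finset.sum_add_distrib, Finset.sum_add_distrib, ← Finset.sum_mul, ← Finset.sum_mul,
    ← Finset.mul_sum, pf0 a ha1]
  have h9 := be_moment e he a r ha ha1 θ hθ hr2 i
  have h10 : 16 * ((n ^ 2 : ℕ) : ℝ) + 4 * θ ^ 2 * ((n ^ 2 : ℕ) : ℝ) ^ 2 ≤ 25 * (n : ℝ) ^ 2 := by
    push_cast
    have h11 : θ ^ 2 * ((n : ℝ) ^ 2) ^ 2 ≤ 1 := by
      have h12 : (θ * (n : ℝ) ^ 3) ^ 2 ≤ 1 := by
        have : 0 ≤ θ * (n : ℝ) ^ 3 := by positivity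
        nlinarith
      have h13 : θ ^ 2 * ((n : ℝ) ^ 2) ^ 2 * (n : ℝ) ^ 2 = (θ * (n : ℝ) ^ 3) ^ 2 := by ring
      have h14 : (1 : ℝ) ≤ (n : ℝ) ^ 2 := by nlinarith
      have h15 : 0 ≤ θ ^ 2 * ((n : ℝ) ^ 2) ^ 2 := by positivity
      nlinarith
    nlinarith
  have h16 := h9.trans h10
  have h17 : (2 / (5 * (n : ℝ))) * ∑ x, wt a x * (be e r i x) ^ 2 ≤ (2 / (5 * (n : ℝ))) * (25 * (n : ℝ) ^ 2) :=
    mul_le_mul_of_nonneg_left h16 (by positivity)
  have h18 : (2 / (5 * (n : ℝ))) * (25 * (n : ℝ) ^ 2) = 10 * n := by field_simp; norm_num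
  rw [h18] at h17
  linarith

lemma zz_val (a r : Fin m → ℝ) (ha1 : ∑ v, a v = 1) (j k : Fin d) (h : j ≠ k) :
    vv r d (zz a r (j, k)) (j, k) = (∑ v, a v * r v ^ 2) ^ 2 := by
  rw [vv_apply, if_neg h]
  unfold zz
  simp only [h, if_false]
  have e : ∀ x : Fin d → Fin m, wt a x * (r (x j) * r (x k)) * (r (x j) * r (x k)) =
      wt a x * (r (x j) ^ 2 * r (x k) ^ 2) := by intro x; ring
  simp only [e]
  rw [pf2 a (fun v => r v ^ 2) (fun v => r v ^ 2) ha1 j k h, sq]

theorem step2core (A : Seminorm ℝ (Fin m → ℝ)) (hP : ∀ i, A (Pi.single i 1) ≤ 2)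
    (κ K : ℝ) (hκ : 0 < κ) (hK : 0 < K) (hG : Grid m A κ K)
    (n : ℕ) (hn : 1 ≤ n)
    (s a r : Fin m → ℝ) (hs : ∀ v, |s v| = 1)
    (ha : ∀ v, 0 ≤ a v) (ha1 : ∑ v, a v = 1)
    (hr : ∀ c : Fin m → ℝ, |∑ v, r v * c v| ≤ A (fun v => s v * c v))
    (hθn : A (fun v => s v * a v) * (n : ℝ) ^ 3 ≤ 1)
    (hr2 : ∀ v, |r v| ≤ 2) (c1 : ℝ) (hc1 : 0 ≤ c1) (hrc : c1 ≤ ∑ v, a v * r v ^ 2) :
    ((n : ℝ) ^ 2 - 1) * c1 ^ 2 * κ ≤ 384 * K * n := by
  have hn1 : (1 : ℝ) ≤ n := by exact_mod_cast hn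
  have hθ : |∑ v, a v * r v| ≤ A (fun v => s v * a v) := by
    have := hr a
    have e : ∑ v, a v * r v = ∑ v, r v * a v := by
      apply Finset.sum_congr rfl; intros; ring
    rw [e]; exact this
  obtain ⟨I, _, _, T, hT⟩ := hG (n ^ 2) s (by positivity) hs
  have hF0 : ∀ c : (Fin (n ^ 2) → Fin m) → ℝ, 0 ≤ FF A s c :=
    fun c => Finset.sum_nonneg (fun j _ => fd_nonneg _ _ _ _)
  have h := gprime T (vv r (n ^ 2)) (2 / κ) (by positivity) (by
      intro c
      refine (vv_bound A s r hr2 hr c).trans ?_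
      apply pow_le_pow_left₀ (by have := hF0 c; positivity)
      have h1 := (hT c).1
      rw [div_mul_eq_mul_div, le_div_iff₀ hκ]
      nlinarith)
    (fun jk => zz a r jk) (K * ((n : ℝ) ^ 2 * (24 * n))) (by
      intro ε hε
      refine (hT _).2.trans (mul_le_mul_of_nonneg_left ?_ hK.le)
      unfold FF
      calc _ ≤ ∑ j : Fin (n ^ 2), 24 * (n : ℝ) := Finset.sum_le_sum (fun j _ =>
            fd_bound A hP n hn ε hε s a r hs ha ha1 _ hθ le_rfl hθn hr2 j)
        _ = _ := by simp)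
  have h2 : ((n : ℝ) ^ 2 * ((n : ℝ) ^ 2 - 1)) * c1 ^ 2 ≤ ∑ jk, vv r (n ^ 2) (zz a r jk) jk := by
    rw [Fintype.sum_prod_type]
    have h3 : ∀ j k : Fin (n ^ 2), (if j = k then 0 else c1 ^ 2) ≤
        vv r (n ^ 2) (zz a r (j, k)) (j, k) := by
      intro j k
      by_cases hjk : j = k
      · rw [if_pos hjk, vv_apply, if_pos hjk]
      · rw [if_neg hjk, zz_val a r ha1 j k hjk]
        exact pow_le_pow_left₀ hc1 hrc 2
    refine le_trans ?_ (Finset.sum_le_sum (fun j _ => Finset.sum_le_sum (fun k _ => h3 j k)))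
    have h4 : ∀ j : Fin (n ^ 2), ∑ k : Fin (n ^ 2), (if j = k then 0 else c1 ^ 2) =
        ((n : ℝ) ^ 2 - 1) * c1 ^ 2 := by
      intro j
      have h5 : ∀ k : Fin (n ^ 2), (if j = k then 0 else c1 ^ 2) =
          c1 ^ 2 - (if j = k then c1 ^ 2 else 0) := by
        intro k; split_ifs <;> ring
      simp only [h5, Finset.sum_sub_distrib]
      simp
      ring
    simp only [h4]
    simp
    linarith
  have h6 := h2.trans h
  have h7 : (2 / κ) * (8 * (K * ((n : ℝ) ^ 2 * (24 * n)))) = (384 * K * n / κ) * (n : ℝ) ^ 2 := by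
    field_simp; ring
  rw [h7] at h6
  have hn2 : (0 : ℝ) < (n : ℝ) ^ 2 := by positivity
  have h8 : (n : ℝ) ^ 2 * (((n : ℝ) ^ 2 - 1) * c1 ^ 2) ≤ (n : ℝ) ^ 2 * (384 * K * n / κ) := by
    nlinarith
  have h9 := le_of_mul_le_mul_left h8 hn2
  rw [le_div_iff₀ hκ] at h9
  exact h9


lemma lin_apply (φ : (Fin m → ℝ) →ₗ[ℝ] ℝ) (c : Fin m → ℝ) :
    φ c = ∑ v, c v * φ (Pi.single v 1) := by
  have e : c = ∑ v, c v • (Pi.single v (1 : ℝ) : Fin m → ℝ) := by
    funext i; simp [Finset.sum_apply, Pi.single_apply]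
  have h1 : φ c = φ (∑ v, c v • (Pi.single v (1 : ℝ) : Fin m → ℝ)) := by rw [← e]
  rw [h1, map_sum]
  apply Finset.sum_congr rfl; intro v _
  rw [map_smul, smul_eq_mul]

lemma normalized (A : Seminorm ℝ (Fin m → ℝ)) (hP : ∀ i, A (Pi.single i 1) ≤ 2)
    (C κ K : ℝ) (hC : 0 < C) (hκ : 0 < κ) (hK : 0 < K)
    (hc : ∀ c i, |c i| ≤ C * A c) (hG : Grid m A κ K)
    (n : ℕ) (hn : 1 ≤ n)
    (hbig : 384 * K * n < ((n : ℝ) ^ 2 - 1) * ((κ / (16 * C * K)) ^ 2) ^ 2 * κ)
    (c : Fin m → ℝ) (h1 : ∑ v, |c v| = 1) : 1 ≤ A c * (n : ℝ) ^ 3 := by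
  by_contra hcon
  push Not at hcon
  let a : Fin m → ℝ := fun v => |c v|
  let s : Fin m → ℝ := fun v => if 0 ≤ c v then 1 else -1
  have ha : ∀ v, 0 ≤ a v := fun v => abs_nonneg _
  have hs : ∀ v, |s v| = 1 := by
    intro v; simp only [s]; split_ifs <;> simp
  have hss : ∀ v, s v * s v = 1 := by
    intro v; simp only [s]; split_ifs <;> simp
  have hsa : (fun v => s v * a v) = c := by
    funext v
    simp only [s, a]
    split_ifs with h
    · rw [abs_of_nonneg h]; ring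
    · rw [abs_of_neg (not_le.mp h)]; ring
  obtain ⟨ε, hε, hε1⟩ := step1 A C κ K hC hκ hK hc hG a ha h1
  obtain ⟨φ, hφ1, hφ2⟩ := hb A (fun v => ε v * a v)
  let r : Fin m → ℝ := fun v => s v * φ (Pi.single v 1)
  have hr2 : ∀ v, |r v| ≤ 2 := by
    intro v
    simp only [r]
    rw [abs_mul, hs, one_mul]
    exact (hφ2 _).trans (hP v)
  have hr : ∀ x : Fin m → ℝ, |∑ v, r v * x v| ≤ A (fun v => s v * x v) := by
    intro x
    have e : ∑ v, r v * x v = φ (fun v => s v * x v) := by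
      rw [lin_apply φ]
      apply Finset.sum_congr rfl; intro v _
      simp only [r]; ring
    rw [e]; exact hφ2 _
  set c1 := κ / (16 * C * K) with hc1d
  have hc1 : 0 < c1 := by rw [hc1d]; positivity
  have hS1 : c1 ≤ ∑ v, a v * |r v| := by
    have h2 : c1 ≤ φ (fun v => ε v * a v) := by rw [hφ1]; exact hε1
    rw [lin_apply φ] at h2
    refine h2.trans ?_
    apply Finset.sum_le_sum; intro v _
    have h3 : |r v| = |φ (Pi.single v 1)| := by
      simp only [r]; rw [abs_mul, hs, one_mul]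
    rw [h3]
    calc ε v * a v * φ (Pi.single v 1) ≤ |ε v * a v * φ (Pi.single v 1)| := le_abs_self _
      _ = |ε v| * (a v * |φ (Pi.single v 1)|) := by
          rw [abs_mul, abs_mul, abs_of_nonneg (ha v)]; ring
      _ ≤ 1 * (a v * |φ (Pi.single v 1)|) :=
          mul_le_mul_of_nonneg_right (hε v) (mul_nonneg (ha v) (abs_nonneg _))
      _ = _ := one_mul _
  have hS2 : c1 ^ 2 ≤ ∑ v, a v * r v ^ 2 := by
    set q := ∑ v, a v * |r v| with hq
    have h4 : 0 ≤ ∑ v, a v * (|r v| - q) ^ 2 :=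
      Finset.sum_nonneg (fun v _ => mul_nonneg (ha v) (sq_nonneg _))
    have h5 : ∑ v, a v * (|r v| - q) ^ 2 = ∑ v, a v * r v ^ 2 - q ^ 2 := by
      have h6 : ∀ v, a v * (|r v| - q) ^ 2 = a v * r v ^ 2 - (2 * q) * (a v * |r v|) + q ^ 2 * a v := by
        intro v
        have : |r v| ^ 2 = r v ^ 2 := sq_abs _
        linear_combination (a v) * this
      simp only [h6]
      rw [Finset.sum_add_distrib, Finset.sum_sub_distrib, ← Finset.mul_sum, ← Finset.mul_sum,
        ← hq]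
      have : ∑ v, a v = 1 := h1
      rw [this]; ring
    have h7 : c1 ^ 2 ≤ q ^ 2 := pow_le_pow_left₀ hc1.le hS1 2
    linarith
  have h8 := step2core A hP κ K hκ hK hG n hn s a r hs ha h1 hr (by rw [hsa]; exact hcon.le) hr2
    (c1 ^ 2) (by positivity) hS2
  linarith

end step2

theorem analytic (C κ K : ℝ) (hC : 0 < C) (hκ : 0 < κ) (hK : 0 < K) :
    ∃ θ : ℝ, 0 < θ ∧ ∀ (m : ℕ) [NeZero m] (A : Seminorm ℝ (Fin m → ℝ)),
      (∀ i, A (Pi.single i 1) ≤ 2) → (∀ c i, |c i| ≤ C * A c) → Grid m A κ K →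
      ∀ c, θ * ∑ v, |c v| ≤ A c := by
  set c1 := κ / (16 * C * K) with hc1d
  have hc1 : 0 < c1 := by rw [hc1d]; positivity
  have hq : 0 < (c1 ^ 2) ^ 2 * κ := by positivity
  obtain ⟨n0, hn0⟩ := exists_nat_gt (768 * K / ((c1 ^ 2) ^ 2 * κ))
  let n := n0 + 2
  have hn2 : (2 : ℝ) ≤ (n : ℝ) := by
    have : 2 ≤ n := by omega
    exact_mod_cast this
  have hn3 : 768 * K < (n : ℝ) * ((c1 ^ 2) ^ 2 * κ) := by
    rw [div_lt_iff₀ hq] at hn0
    have : (n0 : ℝ) ≤ n := by
      have : n0 ≤ n := by omega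
      exact_mod_cast this
    nlinarith
  have hbig : 384 * K * n < ((n : ℝ) ^ 2 - 1) * (c1 ^ 2) ^ 2 * κ := by
    have h1 : (n : ℝ) ^ 2 / 2 ≤ (n : ℝ) ^ 2 - 1 := by nlinarith
    have h2 : (n : ℝ) ^ 2 / 2 * ((c1 ^ 2) ^ 2 * κ) ≤ ((n : ℝ) ^ 2 - 1) * ((c1 ^ 2) ^ 2 * κ) :=
      mul_le_mul_of_nonneg_right h1 hq.le
    have h3 : 768 * K * n < (n : ℝ) * ((c1 ^ 2) ^ 2 * κ) * n :=
      mul_lt_mul_of_pos_right hn3 (by linarith)
    nlinarith
  refine ⟨1 / (n : ℝ) ^ 3, by positivity, ?_⟩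
  intro m _ A hP hc hG c
  set S := ∑ v, |c v| with hS
  have hS0 : 0 ≤ S := Finset.sum_nonneg (fun _ _ => abs_nonneg _)
  rcases hS0.eq_or_lt with h0 | h0
  · rw [← h0, mul_zero]; exact apply_nonneg A c
  · have h1 := normalized A hP C κ K hC hκ hK hc hG n (by omega) hbig (fun v => c v / S) (by
      simp only [abs_div, abs_of_pos h0]
      rw [← Finset.sum_div, ← hS, div_self h0.ne'])
    have h2 : (fun v => c v / S) = S⁻¹ • c := by
      funext v; simp [div_eq_inv_mul]
    rw [h2, map_smul_eq_mul, Real.norm_eq_abs, abs_of_pos (inv_pos.mpr h0)] at h1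
    rw [div_mul_eq_mul_div, one_mul, div_le_iff₀ (by positivity)]
    rw [inv_mul_eq_div, div_mul_eq_mul_div, le_div_iff₀ h0, one_mul] at h1
    exact h1

end Pool.Agent.Helper224.Asy4
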