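import Mathlib
set_option autoImplicit false
set_option linter.unusedSectionVars false
namespace Pool.Agent.Helper224.Asy5
open Finset Filter Topology

variable {X : Type*} {M : Type*} [DecidableEq M]

/-- generic branch process -/
noncomputable def proc (U : List X → Ultrafilter X) :
    List (M × ℕ) → (M × ℕ → X) → Ultrafilter (M × ℕ → X)
  | [], σ => pure σ
  | p :: w, σ => (U ((List.range p.2).map (fun j => σ (p.1, j)))).bind
      (fun x => proc U w (Function.update σ p x))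

lemma proc_nil (U : List X → Ultrafilter X) (σ : M × ℕ → X) (q : (M × ℕ → X) → Prop) :
    (∀ᶠ τ in (proc U [] σ : Filter (M × ℕ → X)), q τ) ↔ q σ := by
  show (∀ᶠ τ in (pure σ : Filter (M × ℕ → X)), q τ) ↔ q σ
  exact eventually_pure

lemma proc_cons (U : List X → Ultrafilter X) (p : M × ℕ) (w : List (M × ℕ)) (σ : M × ℕ → X)
    (q : (M × ℕ → X) → Prop) :
    (∀ᶠ τ in (proc U (p :: w) σ : Filter (M × ℕ → X)), q τ) ↔
      ∀ᶠ x in (U ((List.range p.2).map (fun j => σ (p.1, j))) : Filter X),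
        ∀ᶠ τ in (proc U w (Function.update σ p x) : Filter (M × ℕ → X)), q τ := Iff.rfl

lemma proc_append (U : List X → Ultrafilter X) (w₁ w₂ : List (M × ℕ)) (σ : M × ℕ → X)
    (q : (M × ℕ → X) → Prop) :
    (∀ᶠ τ in (proc U (w₁ ++ w₂) σ : Filter (M × ℕ → X)), q τ) ↔
      ∀ᶠ τ₁ in (proc U w₁ σ : Filter (M × ℕ → X)),
        ∀ᶠ τ in (proc U w₂ τ₁ : Filter (M × ℕ → X)), q τ := by
  induction w₁ generalizing σ with
  | nil => rw [proc_nil]; rfl
  | cons p w ih =>
    rw [List.cons_append, proc_cons, proc_cons]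
    simp only [ih]

lemma proc_off (U : List X → Ultrafilter X) (w : List (M × ℕ)) (σ : M × ℕ → X) :
    ∀ᶠ τ in (proc U w σ : Filter (M × ℕ → X)), ∀ p, p ∉ w → τ p = σ p := by
  induction w generalizing σ with
  | nil => rw [proc_nil]; intro p _; rfl
  | cons p w ih =>
    rw [proc_cons]
    refine Eventually.of_forall (fun x => ?_)
    refine (ih (Function.update σ p x)).mono (fun τ hτ q hq => ?_)
    have h1 : q ≠ p := fun h => hq (h ▸ List.mem_cons_self)
    have h2 : q ∉ w := fun h => hq (List.mem_cons_of_mem _ h)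
    rw [hτ q h2, Function.update_of_ne h1]

lemma proc_on (U : List X → Ultrafilter X) (r : X → Prop)
    (hr : ∀ l, ∀ᶠ x in (U l : Filter X), r x) (w : List (M × ℕ)) (σ : M × ℕ → X) :
    ∀ᶠ τ in (proc U w σ : Filter (M × ℕ → X)), ∀ p, p ∈ w → r (τ p) := by
  induction w generalizing σ with
  | nil => rw [proc_nil]; intro p hp; simp at hp
  | cons p w ih =>
    rw [proc_cons]
    refine (hr _).mono (fun x hx => ?_)
    refine ((ih (Function.update σ p x)).and (proc_off U w (Function.update σ p x))).mono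
      (fun τ hτ q hq => ?_)
    by_cases h2 : q ∈ w
    · exact hτ.1 q h2
    · have h3 : q = p := by
        rcases List.mem_cons.mp hq with h | h
        · exact h
        · exact absurd h h2
      subst h3
      rw [hτ.2 q h2, Function.update_self]; exact hx

/-- pull-back along an injective relabelling of micro-lines -/
lemma proc_pull {M₀ : Type*} [DecidableEq M₀] (U : List X → Ultrafilter X) (φ : M₀ → M)
    (hφ : Function.Injective φ) (w : List (M × ℕ)) (w₀ : List (M₀ × ℕ)) (σ : M × ℕ → X)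
    [DecidablePred (fun p : M × ℕ => p.1 ∈ Set.range φ)]
    (hw : w.filter (fun p => p.1 ∈ Set.range φ) = w₀.map (fun p => (φ p.1, p.2)))
    (q : (M₀ × ℕ → X) → Prop) :
    (∀ᶠ τ in (proc U w σ : Filter (M × ℕ → X)), q (fun p => τ (φ p.1, p.2))) ↔
      ∀ᶠ τ in (proc U w₀ (fun p => σ (φ p.1, p.2)) : Filter (M₀ × ℕ → X)), q τ := by
  induction w generalizing w₀ σ with
  | nil =>
    simp only [List.filter_nil] at hw
    have : w₀ = [] := by
      cases w₀ with
      | nil => rfl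
      | cons a l => simp at hw
    subst this
    rw [proc_nil, proc_nil]
  | cons p w ih =>
    rw [proc_cons]
    by_cases hp : p.1 ∈ Set.range φ
    · rw [List.filter_cons_of_pos (by simpa using hp)] at hw
      cases w₀ with
      | nil => simp at hw
      | cons p₀ w₀ =>
        rw [List.map_cons, List.cons.injEq] at hw
        obtain ⟨h1, h2⟩ := hw
        rw [proc_cons]
        subst h1
        apply eventually_congr
        refine Eventually.of_forall (fun x => ?_)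
        rw [ih w₀ _ h2]
        have e : (fun p : M₀ × ℕ => Function.update σ (φ p₀.1, p₀.2) x (φ p.1, p.2)) =
            Function.update (fun p : M₀ × ℕ => σ (φ p.1, p.2)) p₀ x := by
          funext p
          by_cases h : p = p₀
          · subst h; simp
          · rw [Function.update_of_ne h, Function.update_of_ne]
            intro h3
            apply h
            rw [Prod.mk.injEq] at h3
            exact Prod.ext (hφ h3.1) h3.2
        rw [e]
    · rw [List.filter_cons_of_neg (by simpa using hp)] at hw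
      have h3 : ∀ x, (∀ᶠ τ in (proc U w (Function.update σ p x) : Filter (M × ℕ → X)),
          q (fun p => τ (φ p.1, p.2))) ↔
          ∀ᶠ τ in (proc U w₀ (fun p => σ (φ p.1, p.2)) : Filter (M₀ × ℕ → X)), q τ := by
        intro x
        rw [ih w₀ _ hw]
        have e : (fun r : M₀ × ℕ => Function.update σ p x (φ r.1, r.2)) =
            (fun r : M₀ × ℕ => σ (φ r.1, r.2)) := by
          funext r
          rw [Function.update_of_ne]
          intro h
          exact hp ⟨r.1, by rw [← h]⟩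
        rw [e]
      simp only [h3]
      exact eventually_const


section lim
variable {V : Type*} [NormedAddCommGroup V] [NormedSpace ℝ V]

/-- admissible ultrafilter trees -/
def Adm (Xt : ℕ → Submodule ℝ V) (U : List V → Ultrafilter V) : Prop :=
  ∀ l k, ∀ᶠ x in (U l : Filter V), ‖x‖ = 1 ∧ x ∈ Xt k

/-- value of a formal combination -/
noncomputable def val (τ : M × ℕ → V) (C : M × ℕ →₀ ℝ) : V := Finsupp.linearCombination ℝ τ C

lemma val_add (τ : M × ℕ → V) (C D : M × ℕ →₀ ℝ) : val τ (C + D) = val τ C + val τ D :=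
  map_add _ _ _
lemma val_sub (τ : M × ℕ → V) (C D : M × ℕ →₀ ℝ) : val τ (C - D) = val τ C - val τ D :=
  map_sub _ _ _
lemma val_smul (τ : M × ℕ → V) (c : ℝ) (D : M × ℕ →₀ ℝ) : val τ (c • D) = c • val τ D :=
  map_smul _ _ _
lemma val_zero (τ : M × ℕ → V) : val τ (0 : M × ℕ →₀ ℝ) = 0 := map_zero _
lemma val_single (τ : M × ℕ → V) (p : M × ℕ) (c : ℝ) :
    val τ (Finsupp.single p c) = c • τ p := by
  unfold val; rw [Finsupp.linearCombination_single]

lemma val_congr {τ σ : M × ℕ → V} {C : M × ℕ →₀ ℝ} (h : ∀ p, C p ≠ 0 → τ p = σ p) :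
    val τ C = val σ C := by
  unfold val
  rw [Finsupp.linearCombination_apply, Finsupp.linearCombination_apply]
  apply Finsupp.sum_congr
  intro p hp
  rw [h p (Finsupp.mem_support_iff.mp hp)]

lemma val_norm_le (τ : M × ℕ → V) (C : M × ℕ →₀ ℝ) (h : ∀ p, ‖τ p‖ ≤ 1) :
    ‖val τ C‖ ≤ C.sum (fun _ a => |a|) := by
  unfold val
  rw [Finsupp.linearCombination_apply]
  unfold Finsupp.sum
  refine (norm_sum_le _ _).trans ?_
  apply Finset.sum_le_sum; intro p _
  rw [norm_smul, Real.norm_eq_abs]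
  calc |C p| * ‖τ p‖ ≤ |C p| * 1 := mul_le_mul_of_nonneg_left (h p) (abs_nonneg _)
    _ = _ := mul_one _

lemma proc_norm {Xt : ℕ → Submodule ℝ V} {U : List V → Ultrafilter V} (hU : Adm Xt U)
    (w : List (M × ℕ)) :
    ∀ᶠ τ in (proc U w (0 : M × ℕ → V) : Filter (M × ℕ → V)),
      (∀ p, ‖τ p‖ ≤ 1) ∧ (∀ p, p ∉ w → τ p = 0) ∧ (∀ p, p ∈ w → ‖τ p‖ = 1) := by
  have h1 := proc_off U w (0 : M × ℕ → V)
  have h2 := proc_on U (fun x => ‖x‖ = 1) (fun l => (hU l 0).mono (fun x hx => hx.1)) w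
    (0 : M × ℕ → V)
  refine (h1.and h2).mono (fun τ hτ => ⟨?_, ?_, hτ.2⟩)
  · intro p
    by_cases hp : p ∈ w
    · rw [hτ.2 p hp]
    · rw [hτ.1 p hp]; simp
  · intro p hp; rw [hτ.1 p hp]; rfl

/-- the limit norm -/
noncomputable def L (U : List V → Ultrafilter V) (w : List (M × ℕ)) (C : M × ℕ →₀ ℝ) : ℝ :=
  limUnder (proc U w (0 : M × ℕ → V) : Filter (M × ℕ → V)) (fun τ => ‖val τ C‖)

lemma exists_lim {α : Type*} (F : Ultrafilter α) (f : α → ℝ) (a b : ℝ)
    (h : ∀ᶠ t in (F : Filter α), a ≤ f t ∧ f t ≤ b) : ∃ l, Tendsto f (F : Filter α) (𝓝 l) := by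
  obtain ⟨l, _, hl⟩ := (isCompact_Icc (a := a) (b := b)).ultrafilter_le_nhds (F.map f) (by
    rw [le_principal_iff]
    exact h)
  exact ⟨l, hl⟩

lemma L_tendsto {Xt : ℕ → Submodule ℝ V} {U : List V → Ultrafilter V} (hU : Adm Xt U)
    (w : List (M × ℕ)) (C : M × ℕ →₀ ℝ) :
    Tendsto (fun τ => ‖val τ C‖) (proc U w (0 : M × ℕ → V) : Filter (M × ℕ → V))
      (𝓝 (L U w C)) := by
  unfold L
  apply tendsto_nhds_limUnder
  apply exists_lim _ _ 0 (C.sum (fun _ a => |a|))
  exact (proc_norm hU w).mono (fun τ hτ => ⟨norm_nonneg _, val_norm_le τ C hτ.1⟩)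

lemma L_eq {Xt : ℕ → Submodule ℝ V} {U : List V → Ultrafilter V} (hU : Adm Xt U)
    {w : List (M × ℕ)} {C : M × ℕ →₀ ℝ} {l : ℝ}
    (h : Tendsto (fun τ => ‖val τ C‖) (proc U w (0 : M × ℕ → V) : Filter (M × ℕ → V)) (𝓝 l)) :
    L U w C = l := tendsto_nhds_unique (L_tendsto hU w C) h

lemma L_le {Xt : ℕ → Submodule ℝ V} {U : List V → Ultrafilter V} (hU : Adm Xt U)
    {w : List (M × ℕ)} {C : M × ℕ →₀ ℝ} {b : ℝ}
    (h : ∀ᶠ τ in (proc U w (0 : M × ℕ → V) : Filter (M × ℕ → V)), ‖val τ C‖ ≤ b) :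
    L U w C ≤ b := le_of_tendsto (L_tendsto hU w C) h

lemma le_L {Xt : ℕ → Submodule ℝ V} {U : List V → Ultrafilter V} (hU : Adm Xt U)
    {w : List (M × ℕ)} {C : M × ℕ →₀ ℝ} {b : ℝ}
    (h : ∀ᶠ τ in (proc U w (0 : M × ℕ → V) : Filter (M × ℕ → V)), b ≤ ‖val τ C‖) :
    b ≤ L U w C := ge_of_tendsto (L_tendsto hU w C) h

/-- the limit norm as a seminorm -/
noncomputable def Ls {Xt : ℕ → Submodule ℝ V} {U : List V → Ultrafilter V} (hU : Adm Xt U)
    (w : List (M × ℕ)) : Seminorm ℝ (M × ℕ →₀ ℝ) :=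
  Seminorm.of (L U w)
    (by
      intro C D
      refine le_of_tendsto_of_tendsto (L_tendsto hU w (C + D))
        ((L_tendsto hU w C).add (L_tendsto hU w D)) ?_
      refine Eventually.of_forall (fun τ => ?_)
      simp only
      rw [val_add]; exact norm_add_le _ _)
    (by
      intro c C
      refine L_eq hU ?_
      have := (L_tendsto hU w C).const_mul ‖c‖
      refine this.congr (fun τ => ?_)
      rw [val_smul, norm_smul])

lemma Ls_apply {Xt : ℕ → Submodule ℝ V} {U : List V → Ultrafilter V} (hU : Adm Xt U)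
    (w : List (M × ℕ)) (C : M × ℕ →₀ ℝ) : Ls hU w C = L U w C := rfl

lemma L_single {Xt : ℕ → Submodule ℝ V} {U : List V → Ultrafilter V} (hU : Adm Xt U)
    {w : List (M × ℕ)} {p : M × ℕ} (hp : p ∈ w) (c : ℝ) : L U w (Finsupp.single p c) = |c| := by
  refine L_eq hU ?_
  apply tendsto_const_nhds.congr'
  refine (proc_norm hU w).mono (fun τ hτ => ?_)
  simp only
  rw [val_single, norm_smul, hτ.2.2 p hp, mul_one, Real.norm_eq_abs]

/-- dropping a final segment on which the combination vanishes -/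
lemma L_drop {Xt : ℕ → Submodule ℝ V} {U : List V → Ultrafilter V} (hU : Adm Xt U)
    (w₁ w₂ : List (M × ℕ)) (C : M × ℕ →₀ ℝ) (h : ∀ p ∈ w₂, C p = 0) :
    L U (w₁ ++ w₂) C = L U w₁ C := by
  refine L_eq hU ?_
  rw [Metric.tendsto_nhds]
  intro ε hε
  rw [proc_append]
  have h1 := (Metric.tendsto_nhds.mp (L_tendsto hU w₁ C)) ε hε
  refine h1.mono (fun τ₁ hτ₁ => ?_)
  refine (proc_off U w₂ τ₁).mono (fun τ hτ => ?_)
  have : val τ C = val τ₁ C := val_congr (fun p hp => hτ p (fun h2 => hp (h p h2)))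
  rw [this]; exact hτ₁

/-- basis type inequality for tails -/
def TailIneq (Xt : ℕ → Submodule ℝ V) (C₀ : ℝ) : Prop :=
  ∀ v : V, ∀ ε : ℝ, 0 < ε → ∃ k, ∀ z ∈ Xt k, ‖v‖ ≤ C₀ * ‖v + z‖ + ε

lemma L_prefix {Xt : ℕ → Submodule ℝ V} {U : List V → Ultrafilter V} (hU : Adm Xt U) {C₀ : ℝ}
    (hC₀ : 0 ≤ C₀) (hT : TailIneq Xt C₀) (w₁ w₂ : List (M × ℕ)) (hd : List.Disjoint w₁ w₂)
    (C : M × ℕ →₀ ℝ) : L U w₁ C ≤ C₀ * L U (w₁ ++ w₂) C := by
  have key : ∀ ε : ℝ, 0 < ε → L U w₁ C ≤ C₀ * L U (w₁ ++ w₂) C + (C₀ + 1) * ε := by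
    intro ε hε
    have h1 := (L_tendsto hU (w₁ ++ w₂) C).eventually_lt_const
      (show L U (w₁ ++ w₂) C < L U (w₁ ++ w₂) C + ε by linarith)
    rw [proc_append] at h1
    refine L_le hU ?_
    refine (h1.and (proc_norm hU w₁)).mono (fun τ₁ hτ₁ => ?_)
    obtain ⟨h2, h3, h4, h5⟩ := hτ₁
    obtain ⟨k, hk⟩ := hT (val τ₁ C) ε hε
    have h6 := proc_on U (fun x => x ∈ Xt k) (fun l => (hU l k).mono (fun x hx => hx.2)) w₂ τ₁
    obtain ⟨τ, hτ⟩ := ((h2.and h6).and (proc_off U w₂ τ₁)).exists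
    obtain ⟨⟨h7, h8⟩, h9⟩ := hτ
    have h10 : val τ C - val τ₁ C ∈ Xt k := by
      unfold val
      rw [Finsupp.linearCombination_apply, Finsupp.linearCombination_apply]
      unfold Finsupp.sum
      rw [← Finset.sum_sub_distrib]
      apply Submodule.sum_mem
      intro p _
      rw [← smul_sub]
      apply Submodule.smul_mem
      by_cases hp : p ∈ w₂
      · have : p ∉ w₁ := fun h => hd h hp
        rw [h4 p this, sub_zero]
        exact h8 p hp
      · rw [h9 p hp, sub_self]; exact Submodule.zero_mem _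
    have h11 := hk _ h10
    rw [add_sub_cancel] at h11
    have h12 : C₀ * ‖val τ C‖ ≤ C₀ * (L U (w₁ ++ w₂) C + ε) := mul_le_mul_of_nonneg_left h7.le hC₀
    linarith
  by_contra hcon
  push Not at hcon
  have hpos : 0 < C₀ + 1 := by linarith
  have h := key ((L U w₁ C - C₀ * L U (w₁ ++ w₂) C) / (2 * (C₀ + 1)))
    (div_pos (by linarith) (by positivity))
  have e : (C₀ + 1) * ((L U w₁ C - C₀ * L U (w₁ ++ w₂) C) / (2 * (C₀ + 1))) =
      (L U w₁ C - C₀ * L U (w₁ ++ w₂) C) / 2 := by field_simp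
  rw [e] at h
  linarith

lemma L_coord {Xt : ℕ → Submodule ℝ V} {U : List V → Ultrafilter V} (hU : Adm Xt U) {C₀ : ℝ}
    (hC₀ : 0 ≤ C₀) (hT : TailIneq Xt C₀) (w : List (M × ℕ)) (hw : w.Nodup) (p : M × ℕ)
    (hp : p ∈ w) (C : M × ℕ →₀ ℝ) : |C p| ≤ 2 * C₀ * L U w C := by
  obtain ⟨w₁, w₂, rfl⟩ := List.append_of_mem hp
  have hn := List.nodup_append.mp hw
  have hpw₁ : p ∉ w₁ := by
    intro h
    exact hn.2.2 p h p (List.mem_cons_self) rfl
  have e1 : w₁ ++ p :: w₂ = (w₁ ++ [p]) ++ w₂ := by simp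
  have d1 : List.Disjoint w₁ (p :: w₂) := by
    intro a ha hb
    exact hn.2.2 a ha a hb rfl
  have hn2 : ((w₁ ++ [p]) ++ w₂).Nodup := by rw [← e1]; exact hw
  have d2 : List.Disjoint (w₁ ++ [p]) w₂ := by
    intro a ha hb
    exact (List.nodup_append.mp hn2).2.2 a ha a hb rfl
  have i1 := L_prefix hU hC₀ hT w₁ (p :: w₂) d1 C
  have i2 := L_prefix hU hC₀ hT (w₁ ++ [p]) w₂ d2 C
  rw [← e1] at i2
  have i3 : |C p| ≤ L U (w₁ ++ [p]) C + L U w₁ C := by
    have h1 : L U w₁ C = L U w₁ (C.erase p) := by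
      refine L_eq hU ?_
      refine (L_tendsto hU w₁ (C.erase p)).congr' ?_
      refine (proc_norm hU w₁).mono (fun τ hτ => ?_)
      simp only
      have e : C = Finsupp.single p (C p) + C.erase p := (Finsupp.single_add_erase p C).symm
      conv_rhs => rw [e]
      rw [val_add, val_single, hτ.2.1 p hpw₁, smul_zero, zero_add]
    have h2 : L U w₁ (C.erase p) = L U (w₁ ++ [p]) (C.erase p) := by
      refine (L_drop hU w₁ [p] (C.erase p) ?_).symm
      intro q hq
      rw [List.mem_singleton] at hq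
      subst hq
      exact Finsupp.erase_same
    rw [h1, h2, ← L_single hU (w := w₁ ++ [p]) (p := p) (by simp) (C p)]
    have e : Finsupp.single p (C p) = C - C.erase p := by
      rw [eq_sub_iff_add_eq]; exact Finsupp.single_add_erase p C
    rw [e]
    exact map_sub_le_add (Ls hU (w₁ ++ [p])) C (C.erase p)
  calc |C p| ≤ L U (w₁ ++ [p]) C + L U w₁ C := i3
    _ ≤ 2 * C₀ * L U (w₁ ++ p :: w₂) C := by linarith

lemma L_pull {M₀ : Type*} [DecidableEq M₀] {Xt : ℕ → Submodule ℝ V} {U : List V → Ultrafilter V}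
    (hU : Adm Xt U) (φ : M₀ → M)
    (hφ : Function.Injective φ) (w : List (M × ℕ)) (w₀ : List (M₀ × ℕ))
    [DecidablePred (fun p : M × ℕ => p.1 ∈ Set.range φ)]
    (hw : w.filter (fun p => p.1 ∈ Set.range φ) = w₀.map (fun p => (φ p.1, p.2)))
    (C : M₀ × ℕ →₀ ℝ) :
    L U w (C.mapDomain (fun p => (φ p.1, p.2))) = L U w₀ C := by
  refine L_eq hU ?_
  rw [Metric.tendsto_nhds]
  intro ε hε
  have h1 := (Metric.tendsto_nhds.mp (L_tendsto hU w₀ C)) ε hε
  have h2 := (proc_pull U φ hφ w w₀ (0 : M × ℕ → V) hw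
    (fun τ => dist ‖val τ C‖ (L U w₀ C) < ε)).mpr h1
  refine h2.mono (fun τ hτ => ?_)
  have e : val τ (C.mapDomain (fun p => (φ p.1, p.2))) = val (fun p => τ (φ p.1, p.2)) C := by
    unfold val
    rw [Finsupp.linearCombination_mapDomain]; rfl
  rw [e]; exact hτ

end lim

end Pool.Agent.Helper224.Asy5
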