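import Pool.Agent.Helper224.Asy5
set_option autoImplicit false
set_option linter.unusedSectionVars false
namespace Pool.Agent.Helper224.Asy6
open Filter Topology Pool.Agent.Helper224.Asy5

variable {V : Type*} [NormedAddCommGroup V] [NormedSpace ℝ V]
variable {M : Type*} [DecidableEq M]

/-- the asymptotic game -/
def Game (S : ℕ → Set V) : (n : ℕ) → ((Fin n → V) → Prop) → Prop
  | 0, P => P Fin.elim0
  | n + 1, P => ∀ k, ∃ x ∈ S k, Game S n (fun y => P (Fin.cons x y))

/-- unit spheres of the tails -/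
def Sph (Xt : ℕ → Submodule ℝ V) (k : ℕ) : Set V := {x | x ∈ Xt k ∧ ‖x‖ = 1}

/-- normalised value -/
noncomputable def nv (τ : M × ℕ → V) (C : M × ℕ →₀ ℝ) : V := ‖val τ C‖⁻¹ • val τ C

lemma game_of_proc {Xt : ℕ → Submodule ℝ V} {U : List V → Ultrafilter V} (hU : Adm Xt U)
    (n : ℕ) : ∀ (w : Fin n → List (M × ℕ)) (a : Fin n → (M × ℕ →₀ ℝ))
      (_ : ∀ t p, a t p ≠ 0 → p ∈ w t) (_ : (List.ofFn w).flatten.Nodup) (σ : M × ℕ → V)
      (_ : ∀ p, p ∈ (List.ofFn w).flatten → σ p = 0)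
      (Q : (Fin n → V) → Prop)
      (_ : ∀ᶠ τ in (proc U (List.ofFn w).flatten σ : Filter (M × ℕ → V)),
        (∀ t, val τ (a t) ≠ 0) ∧ Q (fun t => nv τ (a t))), Game (Sph Xt) n Q := by
  induction n with
  | zero =>
    intro w a ha hnd σ hσ Q h
    simp only [List.ofFn_zero, List.flatten_nil] at h
    rw [proc_nil] at h
    have h2 := h.2
    have e : (fun t : Fin 0 => nv σ (a t)) = Fin.elim0 := funext (fun t => Fin.elim0 t)
    rw [e] at h2
    exact h2
  | succ n ih =>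
    intro w a ha hnd σ hσ Q h
    rw [List.ofFn_succ, List.flatten_cons] at h hnd
    rw [List.ofFn_succ, List.flatten_cons] at hσ
    set w' := (List.ofFn (fun t : Fin n => w t.succ)).flatten with hw'
    have hnd' := List.nodup_append.mp hnd
    rw [proc_append] at h
    intro k
    have h1 := proc_on U (fun x => x ∈ Xt k) (fun l => (hU l k).mono (fun x hx => hx.2)) (w 0) σ
    have h2 := proc_off U (w 0) σ
    obtain ⟨τ₁, ⟨hτ₁, hτ₂⟩, hτ₃⟩ := ((h.and h1).and h2).exists
    have hdis : ∀ p, a 0 p ≠ 0 → p ∉ w' := by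
      intro p hp hp2
      exact hnd'.2.2 p (ha 0 p hp) p hp2 rfl
    have hval : ∀ᶠ τ in (proc U w' τ₁ : Filter (M × ℕ → V)), val τ (a 0) = val τ₁ (a 0) := by
      refine (proc_off U w' τ₁).mono (fun τ hτ => ?_)
      exact val_congr (fun p hp => hτ p (hdis p hp))
    have hne : val τ₁ (a 0) ≠ 0 := by
      obtain ⟨τ, hτ, hτ'⟩ := (hτ₁.and hval).exists
      rw [← hτ']; exact hτ.1 0
    refine ⟨nv τ₁ (a 0), ⟨?_, ?_⟩, ?_⟩
    · unfold nv
      apply Submodule.smul_mem
      unfold val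
      rw [Finsupp.linearCombination_apply]
      apply Submodule.sum_mem
      intro p hp
      exact Submodule.smul_mem _ _ (hτ₂ p (ha 0 p (Finsupp.mem_support_iff.mp hp)))
    · unfold nv
      rw [norm_smul, norm_inv, norm_norm]
      exact inv_mul_cancel₀ (norm_ne_zero_iff.mpr hne)
    · refine ih (fun t => w t.succ) (fun t => a t.succ) (fun t p hp => ha t.succ p hp)
        hnd'.2.1 τ₁ ?_ _ ?_
      · intro p hp
        have hp0 : p ∉ w 0 := fun h0 => hnd'.2.2 p h0 p hp rfl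
        rw [hτ₃ p hp0]
        exact hσ p (List.mem_append_right _ hp)
      · refine (hτ₁.and hval).mono (fun τ hτ => ⟨fun t => hτ.1.1 t.succ, ?_⟩)
        have e : (fun t => nv τ (a t)) = (Fin.cons (nv τ₁ (a 0)) (fun t : Fin n => nv τ (a t.succ)) : Fin (n + 1) → V) := by
          funext t
          refine Fin.cases ?_ (fun i => ?_) t
          · rw [Fin.cons_zero]; unfold nv; rw [hτ.2]
          · rw [Fin.cons_succ]
        rw [← e]; exact hτ.1.2


/-- equivalence of a sequence with a norm on coefficient space -/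
def EqN {n : ℕ} (r : ℝ) (N : (Fin n → ℝ) → ℝ) (x : Fin n → V) : Prop :=
  ∃ A B : ℝ, 0 < A ∧ 0 < B ∧ A * B ≤ r ∧ ∀ c : Fin n → ℝ,
    A⁻¹ * N c ≤ ‖∑ t, c t • x t‖ ∧ ‖∑ t, c t • x t‖ ≤ B * N c

/-- membership in the asymptotic structure, for norms on coefficient space -/
def IsMem (S : ℕ → Set V) (n : ℕ) (N : Seminorm ℝ (Fin n → ℝ)) : Prop :=
  (∀ c, N c = 0 → c = 0) ∧ (∀ i, N (Pi.single i 1) = 1) ∧
    ∀ ε : ℝ, 0 < ε → Game S n (fun x => EqN (1 + ε) N x)

lemma Game_mono (S : ℕ → Set V) (n : ℕ) : ∀ (P Q : (Fin n → V) → Prop), (∀ x, P x → Q x) →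
    Game S n P → Game S n Q := by
  induction n with
  | zero => intro P Q h hP; exact h _ hP
  | succ n ih =>
    intro P Q h hP k
    obtain ⟨x, hx, hg⟩ := hP k
    exact ⟨x, hx, ih _ _ (fun y hy => h _ hy) hg⟩

lemma sum_norm_le {n : ℕ} (x : Fin n → V) (hx : ∀ t, ‖x t‖ ≤ 1) (c : Fin n → ℝ) :
    ‖∑ t, c t • x t‖ ≤ ∑ t, |c t| := by
  refine (norm_sum_le _ _).trans ?_
  apply Finset.sum_le_sum; intro t _
  rw [norm_smul, Real.norm_eq_abs]
  calc |c t| * ‖x t‖ ≤ |c t| * 1 := mul_le_mul_of_nonneg_left (hx t) (abs_nonneg _)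
    _ = _ := mul_one _

lemma sem_le {n : ℕ} (N : Seminorm ℝ (Fin n → ℝ)) (hN : ∀ i, N (Pi.single i 1) = 1)
    (c : Fin n → ℝ) : N c ≤ ∑ t, |c t| := by
  have e : c = ∑ v, c v • (Pi.single v (1 : ℝ) : Fin n → ℝ) := by
    funext i; simp [Finset.sum_apply, Pi.single_apply]
  have h1 : N c = N (∑ v, c v • (Pi.single v (1 : ℝ) : Fin n → ℝ)) := by rw [← e]
  rw [h1]
  calc _ ≤ ∑ v, N (c v • (Pi.single v (1 : ℝ) : Fin n → ℝ)) :=
        Finset.le_sum_of_subadditive N (map_zero N).le (map_add_le_add N) _ _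
    _ = _ := by
        apply Finset.sum_congr rfl; intro v _
        rw [map_smul_eq_mul, hN, mul_one, Real.norm_eq_abs]

/-- pointwise convergence of norms along an ultrafilter is uniform on the unit ball -/
lemma unif {α : Type*} (F : Ultrafilter α) {n : ℕ} (x : α → Fin n → V)
    (hx : ∀ᶠ τ in (F : Filter α), ∀ t, ‖x τ t‖ ≤ 1) (N : Seminorm ℝ (Fin n → ℝ))
    (hN : ∀ i, N (Pi.single i 1) = 1)
    (h : ∀ c : Fin n → ℝ, Tendsto (fun τ => ‖∑ t, c t • x τ t‖) (F : Filter α) (𝓝 (N c)))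
    (δ : ℝ) (hδ : 0 < δ) :
    ∀ᶠ τ in (F : Filter α), ∀ c ∈ Metric.closedBall (0 : Fin n → ℝ) 1,
      |‖∑ t, c t • x τ t‖ - N c| ≤ δ := by
  by_contra hcon
  rw [Ultrafilter.eventually_not.symm] at hcon
  push Not at hcon
  have hch : ∀ τ, ∃ c ∈ Metric.closedBall (0 : Fin n → ℝ) 1,
      (¬ (∀ c ∈ Metric.closedBall (0 : Fin n → ℝ) 1, |‖∑ t, c t • x τ t‖ - N c| ≤ δ)) →
        δ < |‖∑ t, c t • x τ t‖ - N c| := by
    intro τ
    by_cases h0 : ∀ c ∈ Metric.closedBall (0 : Fin n → ℝ) 1, |‖∑ t, c t • x τ t‖ - N c| ≤ δ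
    · exact ⟨0, by simp, fun h1 => absurd h0 h1⟩
    · push Not at h0
      obtain ⟨c, hc, hc2⟩ := h0
      exact ⟨c, hc, fun _ => hc2⟩
  choose c hc hc2 using hch
  obtain ⟨c0, hc0, hlim⟩ := (isCompact_closedBall (0 : Fin n → ℝ) 1).ultrafilter_le_nhds
    (F.map c) (by
      rw [le_principal_iff]
      show c ⁻¹' _ ∈ (F : Filter α)
      exact Filter.univ_mem' hc)
  have hlim' : Tendsto c (F : Filter α) (𝓝 c0) := hlim
  have hco : ∀ t, Tendsto (fun τ => |c τ t - c0 t|) (F : Filter α) (𝓝 0) := by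
    intro t
    have h1 : Tendsto (fun τ => c τ t) (F : Filter α) (𝓝 (c0 t)) :=
      (tendsto_pi_nhds.mp hlim') t
    have h2 := (h1.sub_const (c0 t)).abs
    simpa using h2
  have hsum : Tendsto (fun τ => ∑ t, |c τ t - c0 t|) (F : Filter α) (𝓝 0) := by
    have := tendsto_finsetSum (Finset.univ : Finset (Fin n)) (fun t _ => hco t)
    simpa using this
  have h3 := hsum.eventually_lt_const (show (0 : ℝ) < δ / 4 by linarith)
  have h4 : ∀ᶠ τ in (F : Filter α), |‖∑ t, c0 t • x τ t‖ - N c0| < δ / 4 := by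
    have := (Metric.tendsto_nhds.mp (h c0)) (δ / 4) (by linarith)
    refine this.mono (fun τ hτ => ?_)
    rwa [Real.dist_eq] at hτ
  obtain ⟨τ, hτ⟩ := (((h3.and h4).and hx).and hcon).exists
  obtain ⟨⟨⟨h5, h6⟩, h7⟩, h8⟩ := hτ
  have h9 := hc2 τ (by
    push Not
    exact h8)
  have h10 : |‖∑ t, c τ t • x τ t‖ - ‖∑ t, c0 t • x τ t‖| ≤ ∑ t, |c τ t - c0 t| := by
    refine (abs_norm_sub_norm_le _ _).trans ?_
    rw [← Finset.sum_sub_distrib]
    have e : ∑ t, (c τ t • x τ t - c0 t • x τ t) = ∑ t, (c τ - c0) t • x τ t := by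
      apply Finset.sum_congr rfl; intro t _
      rw [Pi.sub_apply, sub_smul]
    rw [e]
    exact sum_norm_le (x τ) h7 (c τ - c0)
  have h11 : |N c0 - N (c τ)| ≤ ∑ t, |c τ t - c0 t| := by
    have e1 : |N c0 - N (c τ)| ≤ N (c τ - c0) := by
      rw [abs_sub_comm]
      exact abs_sub_map_le_sub N (c τ) c0
    exact e1.trans (sem_le N hN (c τ - c0))
  have h12 : |‖∑ t, c τ t • x τ t‖ - N (c τ)| ≤
      |‖∑ t, c τ t • x τ t‖ - ‖∑ t, c0 t • x τ t‖| + |‖∑ t, c0 t • x τ t‖ - N c0| +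
        |N c0 - N (c τ)| := by
    have e : ‖∑ t, c τ t • x τ t‖ - N (c τ) =
      (‖∑ t, c τ t • x τ t‖ - ‖∑ t, c0 t • x τ t‖) + (‖∑ t, c0 t • x τ t‖ - N c0) +
        (N c0 - N (c τ)) := by ring
    rw [e]
    exact (abs_add_le _ _).trans (add_le_add (abs_add_le _ _) le_rfl)
  linarith


lemma flat_disj {n : ℕ} {α : Type*} {w : Fin n → List α} (h : (List.ofFn w).flatten.Nodup)
    {s t : Fin n} (hst : s ≠ t) {p : α} (hp : p ∈ w s) : p ∉ w t := by
  rw [List.nodup_flatten] at h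
  have h2 := List.pairwise_ofFn.mp h.2
  intro hq
  rcases lt_or_gt_of_ne hst with h3 | h3
  · exact h2 h3 hp hq
  · exact h2 h3 hq hp

theorem membership {Xt : ℕ → Submodule ℝ V} {U : List V → Ultrafilter V} (hU : Adm Xt U) {C₀ : ℝ}
    (hC₀ : 0 ≤ C₀) (hT : TailIneq Xt C₀) (n : ℕ) (w : Fin n → List (M × ℕ))
    (a : Fin n → (M × ℕ →₀ ℝ)) (ha : ∀ t p, a t p ≠ 0 → p ∈ w t)
    (hnd : (List.ofFn w).flatten.Nodup) (hpos : ∀ t, 0 < L U (List.ofFn w).flatten (a t)) :
    ∃ N : Seminorm ℝ (Fin n → ℝ),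
      (∀ c, N c = L U (List.ofFn w).flatten
        (∑ t, c t • ((L U (List.ofFn w).flatten (a t))⁻¹ • a t))) ∧ IsMem (Sph Xt) n N := by
  classical
  set W := (List.ofFn w).flatten with hW
  let ν : Fin n → ℝ := fun t => L U W (a t)
  have hν : ∀ t, 0 < ν t := hpos
  let E : (Fin n → ℝ) →ₗ[ℝ] (M × ℕ →₀ ℝ) := Fintype.linearCombination ℝ (fun t => (ν t)⁻¹ • a t)
  have hE : ∀ c, E c = ∑ t, c t • ((ν t)⁻¹ • a t) := fun c => Fintype.linearCombination_apply _ _ _
  let N : Seminorm ℝ (Fin n → ℝ) := (Ls hU W).comp E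
  have hN : ∀ c, N c = L U W (∑ t, c t • ((ν t)⁻¹ • a t)) := by
    intro c
    show L U W (E c) = _
    rw [hE]
  have hmem : ∀ t p, p ∈ w t → p ∈ W := by
    intro t p hp
    rw [hW, List.mem_flatten]
    exact ⟨w t, by rw [List.mem_ofFn]; exact ⟨t, rfl⟩, hp⟩
  have hNs : ∀ i, N (Pi.single i 1) = 1 := by
    intro i
    rw [hN, Finset.sum_eq_single i]
    · rw [Pi.single_eq_same, one_smul]
      show Ls hU W ((ν i)⁻¹ • a i) = 1
      rw [map_smul_eq_mul, Real.norm_eq_abs, abs_of_pos (inv_pos.mpr (hν i))]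
      exact inv_mul_cancel₀ (hν i).ne'
    · intro b _ hb; rw [Pi.single_eq_of_ne hb, zero_smul]
    · intro h; exact absurd (Finset.mem_univ i) h
  -- coordinate control
  have hex : ∀ t, ∃ p, a t p ≠ 0 := by
    intro t
    by_contra h0
    push Not at h0
    have : a t = 0 := Finsupp.ext h0
    have h1 := hν t
    have h2 : ν t = 0 := by
      show Ls hU W (a t) = 0
      rw [this]; exact map_zero _
    linarith
  choose p hp using hex
  let D : Fin n → ℝ := fun t => 2 * C₀ * ν t / |a t (p t)|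
  have hD0 : ∀ t, 0 ≤ D t := by
    intro t
    have := (hν t).le
    exact div_nonneg (by positivity) (abs_nonneg _)
  have hcoord : ∀ c t, |c t| ≤ D t * N c := by
    intro c t
    have h1 := L_coord hU hC₀ hT W hnd (p t) (hmem t _ (ha t _ (hp t)))
      (∑ s, c s • ((ν s)⁻¹ • a s))
    rw [← hN] at h1
    have h2 : (∑ s, c s • ((ν s)⁻¹ • a s)) (p t) = c t * ((ν t)⁻¹ * a t (p t)) := by
      rw [Finsupp.finsetSum_apply, Finset.sum_eq_single t]
      · simp
      · intro b _ hb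
        have h3 : a b (p t) = 0 := by
          by_contra h4
          exact flat_disj hnd hb (ha b _ h4) (ha t _ (hp t))
        simp [h3]
      · intro h; exact absurd (Finset.mem_univ t) h
    rw [h2, abs_mul, abs_mul, abs_of_pos (inv_pos.mpr (hν t))] at h1
    have h5 : 0 < |a t (p t)| := abs_pos.mpr (hp t)
    have h6 := hν t
    show |c t| ≤ 2 * C₀ * ν t / |a t (p t)| * N c
    rw [div_mul_eq_mul_div, le_div_iff₀ h5]
    have h7 : |c t| * ((ν t)⁻¹ * |a t (p t)|) * ν t = |c t| * |a t (p t)| := by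
      field_simp
    calc |c t| * |a t (p t)| = |c t| * ((ν t)⁻¹ * |a t (p t)|) * ν t := h7.symm
      _ ≤ (2 * C₀ * N c) * ν t := mul_le_mul_of_nonneg_right h1 h6.le
      _ = _ := by ring
  refine ⟨N, hN, ?_, hNs, ?_⟩
  · intro c hc
    funext t
    have := hcoord c t
    rw [hc, mul_zero] at this
    exact abs_nonpos_iff.mp this
  · intro ε hε
    set ε' := ε / (2 + ε) with hε'
    have hε'0 : 0 < ε' := by rw [hε']; positivity
    have hε'1 : ε' < 1 := by rw [hε', div_lt_one (by positivity)]; linarith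
    set DD := ∑ t, D t + 1 with hDD
    have hDD0 : 0 < DD := by
      have := Finset.sum_nonneg (fun t (_ : t ∈ (Finset.univ : Finset (Fin n))) => hD0 t)
      linarith
    refine game_of_proc hU n w a ha hnd (0 : M × ℕ → V) (fun _ _ => rfl) _ ?_
    have hconv : ∀ t, Tendsto (fun τ => ‖val τ (a t)‖) (proc U W (0 : M × ℕ → V) : Filter (M × ℕ → V))
        (𝓝 (ν t)) := fun t => L_tendsto hU W (a t)
    have hne : ∀ᶠ τ in (proc U W (0 : M × ℕ → V) : Filter (M × ℕ → V)), ∀ t, val τ (a t) ≠ 0 := by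
      rw [eventually_all]
      intro t
      refine ((hconv t).eventually_const_lt (hν t)).mono (fun τ hτ => ?_)
      exact norm_pos_iff.mp hτ
    have hlim : ∀ c : Fin n → ℝ, Tendsto (fun τ => ‖∑ t, c t • nv τ (a t)‖)
        (proc U W (0 : M × ℕ → V) : Filter (M × ℕ → V)) (𝓝 (N c)) := by
      intro c
      have h1 := L_tendsto hU W (∑ t, c t • ((ν t)⁻¹ • a t))
      rw [← hN] at h1
      have h2 : Tendsto (fun τ => ∑ t, |c t| * (|‖val τ (a t)‖⁻¹ - (ν t)⁻¹| * ‖val τ (a t)‖))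
          (proc U W (0 : M × ℕ → V) : Filter (M × ℕ → V)) (𝓝 0) := by
        have h3 : ∀ t, Tendsto (fun τ => |c t| * (|‖val τ (a t)‖⁻¹ - (ν t)⁻¹| * ‖val τ (a t)‖))
            (proc U W (0 : M × ℕ → V) : Filter (M × ℕ → V)) (𝓝 0) := by
          intro t
          have h4 := (((hconv t).inv₀ (hν t).ne').sub_const (ν t)⁻¹).abs.mul (hconv t)
          have h5 := h4.const_mul |c t|
          simpa using h5
        have := tendsto_finsetSum (Finset.univ : Finset (Fin n)) (fun t _ => h3 t)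
        simpa using this
      have h6 : Tendsto (fun τ => ‖∑ t, c t • nv τ (a t)‖ -
          ‖val τ (∑ t, c t • ((ν t)⁻¹ • a t))‖)
          (proc U W (0 : M × ℕ → V) : Filter (M × ℕ → V)) (𝓝 0) := by
        refine squeeze_zero_norm (fun τ => ?_) h2
        rw [Real.norm_eq_abs]
        refine (abs_norm_sub_norm_le _ _).trans ?_
        have e : ∑ t, c t • nv τ (a t) - val τ (∑ t, c t • ((ν t)⁻¹ • a t)) =
            ∑ t, c t • ((‖val τ (a t)‖⁻¹ - (ν t)⁻¹) • val τ (a t)) := by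
          have e1 : val τ (∑ t, c t • ((ν t)⁻¹ • a t)) = ∑ t, c t • ((ν t)⁻¹ • val τ (a t)) := by
            unfold val
            rw [map_sum]
            apply Finset.sum_congr rfl; intro t _
            rw [map_smul, map_smul]
          rw [e1, ← Finset.sum_sub_distrib]
          apply Finset.sum_congr rfl; intro t _
          unfold nv
          rw [← smul_sub, sub_smul]
        rw [e]
        refine (norm_sum_le _ _).trans ?_
        apply Finset.sum_le_sum; intro t _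
        rw [norm_smul, norm_smul, Real.norm_eq_abs, Real.norm_eq_abs]
      have h7 := h6.add h1
      simpa using h7
    have hx1 : ∀ᶠ τ in (proc U W (0 : M × ℕ → V) : Filter (M × ℕ → V)),
        ∀ t, ‖nv τ (a t)‖ ≤ 1 := by
      refine hne.mono (fun τ hτ t => ?_)
      unfold nv
      rw [norm_smul, norm_inv, norm_norm, inv_mul_cancel₀ (norm_ne_zero_iff.mpr (hτ t))]
    have hun := unif (proc U W (0 : M × ℕ → V)) (fun τ t => nv τ (a t)) hx1 N hNs hlim
      (ε' / DD) (by positivity)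
    refine (hne.and hun).mono (fun τ hτ => ⟨hτ.1, ?_⟩)
    have hclose : ∀ c : Fin n → ℝ, |‖∑ t, c t • nv τ (a t)‖ - N c| ≤ ε' * N c := by
      intro c
      have hcn : ‖c‖ ≤ DD * N c := by
        rw [pi_norm_le_iff_of_nonneg (mul_nonneg hDD0.le (apply_nonneg N c))]
        intro t
        rw [Real.norm_eq_abs]
        refine (hcoord c t).trans (mul_le_mul_of_nonneg_right ?_ (apply_nonneg N c))
        have := Finset.single_le_sum (fun t _ => hD0 t) (Finset.mem_univ t)
        linarith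
      by_cases hc : c = 0
      · subst hc; simp
      · have hc0 : 0 < ‖c‖ := norm_pos_iff.mpr hc
        have h1 := hτ.2 (‖c‖⁻¹ • c) (by
          rw [mem_closedBall_zero_iff, norm_smul, norm_inv, norm_norm, inv_mul_cancel₀ hc0.ne'])
        have e1 : ∑ t, (‖c‖⁻¹ • c) t • nv τ (a t) = ‖c‖⁻¹ • ∑ t, c t • nv τ (a t) := by
          rw [Finset.smul_sum]
          apply Finset.sum_congr rfl; intro t _
          rw [Pi.smul_apply, smul_eq_mul, mul_smul]
        rw [e1, norm_smul, map_smul_eq_mul, norm_inv, norm_norm, ← mul_sub, abs_mul,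
          abs_of_pos (inv_pos.mpr hc0), inv_mul_le_iff₀ hc0] at h1
        refine h1.trans ?_
        calc ‖c‖ * (ε' / DD) ≤ (DD * N c) * (ε' / DD) :=
              mul_le_mul_of_nonneg_right hcn (by positivity)
          _ = ε' * N c := by field_simp
    refine ⟨(1 - ε')⁻¹, 1 + ε', inv_pos.mpr (by linarith), by linarith, ?_, ?_⟩
    · have : (1 - ε')⁻¹ * (1 + ε') = 1 + ε := by
        rw [hε']
        have : (2 : ℝ) + ε ≠ 0 := by positivity
        have e1 : 1 - ε / (2 + ε) = 2 / (2 + ε) := by field_simp; ring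
        have e2 : 1 + ε / (2 + ε) = (2 + 2 * ε) / (2 + ε) := by field_simp; ring
        rw [e1, e2]
        field_simp
        
      exact this.le
    · intro c
      have h1 := abs_le.mp (hclose c)
      rw [inv_inv]
      constructor <;> linarith [h1.1, h1.2]

end Pool.Agent.Helper224.Asy6
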