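import Pool.Agent.Helper224.Asy6
import Pool.Agent.Helper224.Asy4
set_option autoImplicit false
set_option linter.unusedSectionVars false
namespace Pool.Agent.Helper224.Asy7
open Filter Topology Pool.Agent.Helper224.Asy5 Pool.Agent.Helper224.Asy6

variable {V : Type*} [NormedAddCommGroup V] [NormedSpace ℝ V]
variable {Λ : Type*} [DecidableEq Λ]

/-- expansion of a word into copies -/
def ex {κ : Type*} (cs : List κ) (W : List (Λ × ℕ)) : List ((Λ × κ) × ℕ) :=
  W.flatMap (fun p => cs.map (fun c => ((p.1, c), p.2)))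

/-- embedding of the copy b -/
def cp {κ : Type*} (b : κ) (p : Λ × ℕ) : (Λ × κ) × ℕ := ((p.1, b), p.2)

lemma cp_inj {κ : Type*} (b : κ) : Function.Injective (cp (Λ := Λ) b) := by
  intro p q h
  unfold cp at h
  rw [Prod.mk.injEq, Prod.mk.injEq] at h
  exact Prod.ext h.1.1 h.2

/-- difference of two copies -/
noncomputable def Y : (Λ × ℕ →₀ ℝ) →ₗ[ℝ] ((Λ × Bool) × ℕ →₀ ℝ) :=
  Finsupp.lmapDomain ℝ ℝ (cp false) - Finsupp.lmapDomain ℝ ℝ (cp true)

lemma Y_apply (C : Λ × ℕ →₀ ℝ) : Y C = C.mapDomain (cp false) - C.mapDomain (cp true) := rfl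

lemma range_filter (n k : ℕ) (h : k + 1 ≤ n) :
    (List.range (n + 1)).filter (fun c => decide (c = k ∨ c = k + 1)) = [k, k + 1] := by
  induction n with
  | zero => omega
  | succ n ih =>
    rw [List.range_succ, List.filter_append]
    by_cases h1 : k + 1 ≤ n
    · rw [ih h1]
      have : ¬ (n + 1 = k ∨ n + 1 = k + 1) := by omega
      simp
      omega
    · have hk : k = n := by omega
      subst hk
      rw [List.range_succ, List.filter_append]
      have : (List.range k).filter (fun c => decide (c = k ∨ c = k + 1)) = [] := by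
        rw [List.filter_eq_nil_iff]
        intro a ha
        rw [List.mem_range] at ha
        simp; omega
      rw [this]
      simp

/-- shifted copy embedding -/
def sh (μ : Λ) (c : ℕ) (p : Λ × Bool) : Λ × ℕ := (p.1, (if p.1 = μ then c else 0) + p.2.toNat)

lemma sh_inj (μ : Λ) (c : ℕ) : Function.Injective (sh μ c) := by
  rintro ⟨p1, p2⟩ ⟨q1, q2⟩ h
  unfold sh at h
  simp only [Prod.mk.injEq] at h
  obtain ⟨h1, h2⟩ := h
  subst h1
  have : p2.toNat = q2.toNat := by omega
  have h3 : p2 = q2 := by cases p2 <;> cases q2 <;> simp_all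
  rw [h3]

lemma sh_filter (μ : Λ) (c n : ℕ) (h : c + 1 ≤ n) (W : List (Λ × ℕ))
    [DecidablePred (fun p : (Λ × ℕ) × ℕ => p.1 ∈ Set.range (sh μ c))] :
    (ex (List.range (n + 1)) W).filter (fun p => p.1 ∈ Set.range (sh μ c)) =
      (ex [false, true] W).map (fun p => (sh μ c p.1, p.2)) := by
  unfold ex
  rw [List.filter_flatMap, List.map_flatMap]
  congr 1
  funext p
  have hk : (if p.1 = μ then c else 0) + 1 ≤ n := by split_ifs <;> omega
  set k := (if p.1 = μ then c else 0) with hkd
  rw [List.filter_map]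
  have h1 : (List.range (n + 1)).filter
      ((fun q : (Λ × ℕ) × ℕ => decide (q.1 ∈ Set.range (sh μ c))) ∘ fun c' => ((p.1, c'), p.2)) =
      [k, k + 1] := by
    rw [← range_filter n k hk]
    apply List.filter_congr
    intro c' _
    simp only [Function.comp, decide_eq_decide]
    constructor
    · rintro ⟨⟨l, b⟩, hb⟩
      unfold sh at hb
      simp only [Prod.mk.injEq] at hb
      obtain ⟨hb1, hb2⟩ := hb
      rw [← hb2, hb1, ← hkd]
      cases b <;> simp
    · rintro (hc | hc)
      · exact ⟨(p.1, false), by unfold sh; simp [hc, hkd]⟩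
      · exact ⟨(p.1, true), by unfold sh; simp [hc, hkd]⟩
  rw [h1]
  simp [sh, ← hkd]

lemma L_le_sum {M : Type*} [DecidableEq M] {Xt : ℕ → Submodule ℝ V} {U : List V → Ultrafilter V}
    (hU : Adm Xt U) (w : List (M × ℕ)) (C : M × ℕ →₀ ℝ) : L U w C ≤ C.sum (fun _ a => |a|) :=
  L_le hU ((proc_norm hU w).mono (fun τ hτ => val_norm_le τ C hτ.1))

lemma L_cp_le {Xt : ℕ → Submodule ℝ V} {U : List V → Ultrafilter V}
    (hU : Adm Xt U) {κ : Type*} [DecidableEq κ] (b : κ) (w : List ((Λ × κ) × ℕ)) (C : Λ × ℕ →₀ ℝ) :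
    L U w (C.mapDomain (cp b)) ≤ C.sum (fun _ a => |a|) := by
  refine (L_le_sum hU w _).trans ?_
  rw [Finsupp.sum_mapDomain_index_inj (cp_inj b)]

/-- the y-norm -/
noncomputable def Ny (U : List V → Ultrafilter V) (W : List (Λ × ℕ)) (C : Λ × ℕ →₀ ℝ) : ℝ :=
  L U (ex [false, true] W) (Y C)

lemma mapDomain_sh (μ : Λ) (c : ℕ) (C : Λ × ℕ →₀ ℝ) :
    (Y C).mapDomain (fun p => (sh μ c p.1, p.2)) =
      ((C.filter (fun p => p.1 ≠ μ)).mapDomain (cp 0) - (C.filter (fun p => p.1 ≠ μ)).mapDomain (cp 1))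
      + ((C.filter (fun p => p.1 = μ)).mapDomain (cp c) -
        (C.filter (fun p => p.1 = μ)).mapDomain (cp (c + 1))) := by
  have hsplit : C = C.filter (fun p => p.1 ≠ μ) + C.filter (fun p => p.1 = μ) := by
    ext p
    by_cases h : p.1 = μ
    · simp [h]
    · simp [h]
  have e0 : ∀ D : (Λ × Bool) × ℕ →₀ ℝ, D.mapDomain (fun p => (sh μ c p.1, p.2)) =
    Finsupp.lmapDomain ℝ ℝ (fun p : (Λ × Bool) × ℕ => (sh μ c p.1, p.2)) D := fun D => rfl
  have e1 : ∀ b : Bool, (C.mapDomain (cp b)).mapDomain (fun p => (sh μ c p.1, p.2)) =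
      (C.filter (fun p => p.1 ≠ μ)).mapDomain (cp b.toNat) +
      (C.filter (fun p => p.1 = μ)).mapDomain (cp (c + b.toNat)) := by
    intro b
    rw [← Finsupp.mapDomain_comp]
    conv_lhs => rw [hsplit]
    rw [Finsupp.mapDomain_add]
    congr 1
    · apply Finsupp.mapDomain_congr
      intro p hp
      have h1 : p.1 ≠ μ := by
        rw [Finsupp.support_filter, Finset.mem_filter] at hp
        exact hp.2
      simp [cp, sh, h1]
    · apply Finsupp.mapDomain_congr
      intro p hp
      have h1 : p.1 = μ := by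
        rw [Finsupp.support_filter, Finset.mem_filter] at hp
        exact hp.2
      simp [cp, sh, h1]
  rw [Y_apply, e0, map_sub, ← e0, ← e0, e1, e1]
  simp only [Bool.toNat_false, Bool.toNat_true, add_zero]
  abel


theorem suppression {Xt : ℕ → Submodule ℝ V} {U : List V → Ultrafilter V}
    (hU : Adm Xt U) (W : List (Λ × ℕ)) (μ : Λ) (C : Λ × ℕ →₀ ℝ) :
    Ny U W (C.filter (fun p => p.1 ≠ μ)) ≤ Ny U W C := by
  classical
  set S := (C.filter (fun p => p.1 = μ)).sum (fun _ a => |a|) with hS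
  have key : ∀ n : ℕ, (n : ℝ) * Ny U W (C.filter (fun p => p.1 ≠ μ)) ≤ n * Ny U W C + 2 * S := by
    intro n
    set B := Ls hU (ex (List.range (n + 1)) W) with hB
    set D' : (Λ × ℕ) × ℕ →₀ ℝ := (C.filter (fun p => p.1 ≠ μ)).mapDomain (cp 0) -
      (C.filter (fun p => p.1 ≠ μ)).mapDomain (cp 1) with hD'
    set Z : ℕ → ((Λ × ℕ) × ℕ →₀ ℝ) := fun c => (C.filter (fun p => p.1 = μ)).mapDomain (cp c) with hZ
    have h1 : ∀ c, c < n → B (D' + (Z c - Z (c + 1))) = Ny U W C := by
      intro c hc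
      have h := L_pull hU (sh μ c) (sh_inj μ c) (ex (List.range (n + 1)) W) (ex [false, true] W)
        (sh_filter μ c n hc W) (Y C)
      rw [mapDomain_sh] at h
      exact h
    have h2 : 1 ≤ n → B D' = Ny U W (C.filter (fun p => p.1 ≠ μ)) := by
      intro hn
      have h := L_pull hU (sh μ 0) (sh_inj μ 0) (ex (List.range (n + 1)) W) (ex [false, true] W)
        (sh_filter μ 0 n hn W) (Y (C.filter (fun p => p.1 ≠ μ)))
      rw [mapDomain_sh] at h
      have e1 : (C.filter (fun p => p.1 ≠ μ)).filter (fun p => p.1 ≠ μ) =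
          C.filter (fun p => p.1 ≠ μ) := by
        ext p
        by_cases h : p.1 = μ <;> simp [h]
      have e2 : (C.filter (fun p => p.1 ≠ μ)).filter (fun p => p.1 = μ) = 0 := by
        ext p
        by_cases h : p.1 = μ <;> simp [h]
      rw [e1, e2] at h
      simp only [Finsupp.mapDomain_zero, sub_zero, add_zero] at h
      exact h
    rcases Nat.eq_zero_or_pos n with hn | hn
    · subst hn
      simp only [Nat.cast_zero, zero_mul, zero_add]
      have : 0 ≤ S := by
        rw [hS]; unfold Finsupp.sum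
        exact Finset.sum_nonneg (fun _ _ => abs_nonneg _)
      linarith
    · have h3 : (n : ℝ) • D' = ∑ c ∈ Finset.range n, (D' + (Z c - Z (c + 1))) - (Z 0 - Z n) := by
        rw [Finset.sum_add_distrib, Finset.sum_range_sub', add_sub_cancel_right, Finset.sum_const,
          Finset.card_range, Nat.cast_smul_eq_nsmul]
      have h4 : B ((n : ℝ) • D') = n * Ny U W (C.filter (fun p => p.1 ≠ μ)) := by
        rw [map_smul_eq_mul, h2 hn]; simp
      have h5 : B (Z 0 - Z n) ≤ 2 * S := by
        calc B (Z 0 - Z n) ≤ B (Z 0) + B (Z n) := map_sub_le_add B _ _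
          _ ≤ S + S := add_le_add (L_cp_le hU 0 _ _) (L_cp_le hU n _ _)
          _ = 2 * S := by ring
      have h6 : B (∑ c ∈ Finset.range n, (D' + (Z c - Z (c + 1)))) ≤ n * Ny U W C := by
        calc _ ≤ ∑ c ∈ Finset.range n, B (D' + (Z c - Z (c + 1))) :=
              Finset.le_sum_of_subadditive B (map_zero B).le (map_add_le_add B) _ _
          _ = ∑ c ∈ Finset.range n, Ny U W C := by
              apply Finset.sum_congr rfl; intro c hc
              exact h1 c (Finset.mem_range.mp hc)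
          _ = n * Ny U W C := by simp
      rw [← h4, h3]
      calc _ ≤ B (∑ c ∈ Finset.range n, (D' + (Z c - Z (c + 1)))) + B (Z 0 - Z n) :=
            map_sub_le_add B _ _
        _ ≤ _ := add_le_add h6 h5
  by_contra hcon
  push Not at hcon
  obtain ⟨n, hn⟩ := exists_nat_gt (2 * S / (Ny U W (C.filter (fun p => p.1 ≠ μ)) - Ny U W C))
  have hpos : 0 < Ny U W (C.filter (fun p => p.1 ≠ μ)) - Ny U W C := by linarith
  rw [div_lt_iff₀ hpos] at hn
  have := key n
  nlinarith

/-- word of a single line -/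
def lw (m : ℕ) : List (Bool × ℕ) := (List.range m).flatMap (fun i => [(false, i), (true, i)])

/-- difference functional on a single line -/
noncomputable def Y0 : (ℕ →₀ ℝ) →ₗ[ℝ] (Bool × ℕ →₀ ℝ) :=
  Finsupp.lmapDomain ℝ ℝ (fun i => (false, i)) - Finsupp.lmapDomain ℝ ℝ (fun i => (true, i))

lemma Y0_apply (c : ℕ →₀ ℝ) : Y0 c = c.mapDomain (fun i => (false, i)) -
    c.mapDomain (fun i => (true, i)) := rfl

lemma ex_cons {κ : Type*} (cs : List κ) (p : Λ × ℕ) (W : List (Λ × ℕ)) :
    ex cs (p :: W) = cs.map (fun c => ((p.1, c), p.2)) ++ ex cs W := by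
  unfold ex; rw [List.flatMap_cons]

lemma ex_filter (W : List (Λ × ℕ)) (l : Λ)
    [DecidablePred (fun p : (Λ × Bool) × ℕ => p.1 ∈ Set.range (fun b : Bool => (l, b)))] :
    (ex [false, true] W).filter (fun p => p.1 ∈ Set.range (fun b : Bool => (l, b))) =
      ex [false, true] (W.filter (fun p => p.1 = l)) := by
  induction W with
  | nil => rfl
  | cons p W ih =>
    rw [ex_cons, List.filter_append, ih]
    by_cases h : p.1 = l
    · rw [List.filter_cons_of_pos (by simpa using h), ex_cons]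
      congr 1
      apply List.filter_eq_self.mpr
      intro q hq
      rw [List.mem_map] at hq
      obtain ⟨b, _, rfl⟩ := hq
      simp only [decide_eq_true_eq]
      exact ⟨b, by rw [h]⟩
    · rw [List.filter_cons_of_neg (by simpa using h)]
      have : (List.map (fun c => ((p.1, c), p.2)) [false, true]).filter
          (fun p => decide (p.1 ∈ Set.range (fun b : Bool => (l, b)))) = [] := by
        rw [List.filter_eq_nil_iff]
        intro q hq
        rw [List.mem_map] at hq
        obtain ⟨b, _, rfl⟩ := hq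
        simp only [decide_eq_true_eq]
        rintro ⟨b', hb'⟩
        rw [Prod.mk.injEq] at hb'
        exact h hb'.1.symm
      rw [this, List.nil_append]

lemma line_filter (W : List (Λ × ℕ)) (l : Λ) (m : ℕ)
    (hl : W.filter (fun p => p.1 = l) = (List.range m).map (fun i => (l, i)))
    [DecidablePred (fun p : (Λ × Bool) × ℕ => p.1 ∈ Set.range (fun b : Bool => (l, b)))] :
    (ex [false, true] W).filter (fun p => p.1 ∈ Set.range (fun b : Bool => (l, b))) =
      (lw m).map (fun p => ((l, p.1), p.2)) := by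
  rw [ex_filter, hl]
  unfold ex lw
  rw [List.flatMap_map, List.map_flatMap]
  rfl

theorem line_norm {Xt : ℕ → Submodule ℝ V} {U : List V → Ultrafilter V}
    (hU : Adm Xt U) (W : List (Λ × ℕ)) (l : Λ) (m : ℕ)
    (hl : W.filter (fun p => p.1 = l) = (List.range m).map (fun i => (l, i)))
    (c : ℕ →₀ ℝ) : Ny U W (c.mapDomain (fun i => (l, i))) = L U (lw m) (Y0 c) := by
  classical
  have h := L_pull hU (fun b : Bool => (l, b)) (fun a b h => by simpa using h)
    (ex [false, true] W) (lw m) (line_filter W l m hl) (Y0 c)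
  rw [← h]
  unfold Ny
  congr 1
  have e0 : ∀ D : Bool × ℕ →₀ ℝ, D.mapDomain (fun p => ((l, p.1), p.2)) =
    Finsupp.lmapDomain ℝ ℝ (fun p : Bool × ℕ => ((l, p.1), p.2)) D := fun D => rfl
  rw [Y_apply, Y0_apply, e0, map_sub, ← e0, ← e0]
  simp only [← Finsupp.mapDomain_comp]
  rfl

end Pool.Agent.Helper224.Asy7
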