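import Pool.Agent.Helper224.Asy7
set_option autoImplicit false
set_option linter.unusedSectionVars false
namespace Pool.Agent.Helper224.Asy8
open Filter Topology Pool.Agent.Helper224.Asy5 Pool.Agent.Helper224.Asy6 Pool.Agent.Helper224.Asy7
open Pool.Agent.Helper224.Asy2

variable {V : Type*} [NormedAddCommGroup V] [NormedSpace ℝ V]

/-- every member of the asymptotic structure is K-isomorphic to the l1 space -/
def Hyp (Xt : ℕ → Submodule ℝ V) (K : ℝ) : Prop :=
  ∀ (n : ℕ) (N : Seminorm ℝ (Fin n → ℝ)), IsMem (Sph Xt) n N →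
    ∃ T : (Fin n → ℝ) ≃ₗ[ℝ] (Fin n → ℝ), (∀ a, N a ≤ ∑ i, |T a i|) ∧
      ∀ a, ∑ i, |T a i| ≤ K * N a

section memT
variable {M : Type*} [DecidableEq M]

theorem mem_T {Xt : ℕ → Submodule ℝ V} {U : List V → Ultrafilter V} (hU : Adm Xt U) {C₀ K : ℝ}
    (hC₀ : 0 ≤ C₀) (hT : TailIneq Xt C₀) (hH : Hyp Xt K) (n : ℕ) (w : Fin n → List (M × ℕ))
    (a : Fin n → (M × ℕ →₀ ℝ)) (ha : ∀ t p, a t p ≠ 0 → p ∈ w t)
    (hnd : (List.ofFn w).flatten.Nodup) (hpos : ∀ t, 0 < L U (List.ofFn w).flatten (a t)) :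
    ∃ T : (Fin n → ℝ) ≃ₗ[ℝ] (Fin n → ℝ), ∀ c,
      L U (List.ofFn w).flatten (∑ t, c t • a t) ≤ ∑ i, |T c i| ∧
      ∑ i, |T c i| ≤ K * L U (List.ofFn w).flatten (∑ t, c t • a t) := by
  obtain ⟨N, hN, hmem⟩ := membership hU hC₀ hT n w a ha hnd hpos
  obtain ⟨T, hT1, hT2⟩ := hH n N hmem
  let DE : (Fin n → ℝ) ≃ₗ[ℝ] (Fin n → ℝ) :=
    LinearEquiv.piCongrRight (fun t => LinearEquiv.smulOfNeZero ℝ ℝ
      (L U (List.ofFn w).flatten (a t)) (hpos t).ne')
  have hDE : ∀ c t, DE c t = L U (List.ofFn w).flatten (a t) * c t := fun c t => rfl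
  have hNc : ∀ c, N (DE c) = L U (List.ofFn w).flatten (∑ t, c t • a t) := by
    intro c
    rw [hN]
    congr 1
    apply Finset.sum_congr rfl; intro t _
    rw [hDE, smul_smul]
    congr 1
    have := (hpos t).ne'
    field_simp
  refine ⟨DE.trans T, fun c => ?_⟩
  have h1 := hT1 (DE c)
  have h2 := hT2 (DE c)
  rw [hNc] at h1 h2
  exact ⟨h1, h2⟩

end memT

variable {Λ : Type} [DecidableEq Λ]

lemma ex_nodup {κ : Type*} (cs : List κ) (hcs : cs.Nodup) (W : List (Λ × ℕ)) (hW : W.Nodup) :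
    (ex cs W).Nodup := by
  unfold ex
  rw [List.nodup_flatMap]
  refine ⟨?_, ?_⟩
  · intro p _
    refine hcs.map ?_
    intro a b h
    simpa using h
  · refine hW.imp ?_
    intro p q hpq
    simp only [Function.onFun]
    intro r hr hs
    rw [List.mem_map] at hr hs
    obtain ⟨a, _, rfl⟩ := hr
    obtain ⟨b, _, hb⟩ := hs
    rw [Prod.mk.injEq, Prod.mk.injEq] at hb
    exact hpq (Prod.ext hb.1.1.symm hb.2.symm)

lemma mem_ex {κ : Type*} (cs : List κ) (W : List (Λ × ℕ)) (b : κ) (hb : b ∈ cs) (p : Λ × ℕ)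
    (hp : p ∈ W) : cp b p ∈ ex cs W := by
  unfold ex
  rw [List.mem_flatMap]
  exact ⟨p, hp, by rw [List.mem_map]; exact ⟨b, hb, rfl⟩⟩

lemma Y_supp (C : Λ × ℕ →₀ ℝ) (W : List (Λ × ℕ)) (hC : ∀ p, C p ≠ 0 → p ∈ W)
    (q : (Λ × Bool) × ℕ) (hq : Y C q ≠ 0) : q ∈ ex [false, true] W := by
  classical
  obtain ⟨⟨l, b⟩, i⟩ := q
  have hmem : ∀ b' : Bool, C.mapDomain (cp b') ((l, b), i) ≠ 0 → (l, i) ∈ W := by
    intro b' h
    have h1 := Finsupp.mapDomain_support (Finsupp.mem_support_iff.mpr h)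
    rw [Finset.mem_image] at h1
    obtain ⟨p, hp, hpe⟩ := h1
    unfold cp at hpe
    rw [Prod.mk.injEq, Prod.mk.injEq] at hpe
    have : p = (l, i) := Prod.ext hpe.1.1 hpe.2
    rw [← this]
    exact hC p (Finsupp.mem_support_iff.mp hp)
  have h2 : (l, i) ∈ W := by
    by_contra h3
    apply hq
    have e1 : C.mapDomain (cp false) ((l, b), i) = 0 := by
      by_contra h4; exact h3 (hmem false h4)
    have e2 : C.mapDomain (cp true) ((l, b), i) = 0 := by
      by_contra h4; exact h3 (hmem true h4)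
    rw [Y_apply, Finsupp.sub_apply, e1, e2, sub_zero]
  exact mem_ex _ _ b (by cases b <;> simp) _ h2

lemma Y_coord (C : Λ × ℕ →₀ ℝ) (p : Λ × ℕ) : Y C (cp false p) = C p := by
  rw [Y_apply, Finsupp.sub_apply, Finsupp.mapDomain_apply (cp_inj false)]
  rw [Finsupp.mapDomain_of_notMem_range]
  · ring
  · rintro ⟨q, hq⟩
    unfold cp at hq
    simp at hq

lemma Ny_coord {Xt : ℕ → Submodule ℝ V} {U : List V → Ultrafilter V} (hU : Adm Xt U) {C₀ : ℝ}
    (hC₀ : 0 ≤ C₀) (hT : TailIneq Xt C₀) (W : List (Λ × ℕ)) (hW : W.Nodup) (C : Λ × ℕ →₀ ℝ)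
    (p : Λ × ℕ) (hp : p ∈ W) : |C p| ≤ 2 * C₀ * Ny U W C := by
  have h := L_coord hU hC₀ hT (ex [false, true] W) (ex_nodup _ (by decide) W hW) (cp false p)
    (mem_ex _ _ false (by simp) _ hp) (Y C)
  rwa [Y_coord] at h

lemma Ny_pos {Xt : ℕ → Submodule ℝ V} {U : List V → Ultrafilter V} (hU : Adm Xt U) {C₀ : ℝ}
    (hC₀ : 0 < C₀) (hT : TailIneq Xt C₀) (W : List (Λ × ℕ)) (hW : W.Nodup) (C : Λ × ℕ →₀ ℝ)
    (p : Λ × ℕ) (hp : p ∈ W) (hCp : C p ≠ 0) : 0 < Ny U W C := by
  have h := Ny_coord hU hC₀.le hT W hW C p hp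
  have h2 := abs_pos.mpr hCp
  by_contra h3
  push Not at h3
  nlinarith

/-- the y-norm as a seminorm -/
noncomputable def Nys {Xt : ℕ → Submodule ℝ V} {U : List V → Ultrafilter V} (hU : Adm Xt U)
    (W : List (Λ × ℕ)) : Seminorm ℝ (Λ × ℕ →₀ ℝ) := (Ls hU (ex [false, true] W)).comp Y

lemma Nys_apply {Xt : ℕ → Submodule ℝ V} {U : List V → Ultrafilter V} (hU : Adm Xt U)
    (W : List (Λ × ℕ)) (C : Λ × ℕ →₀ ℝ) : Nys hU W C = Ny U W C := rfl

lemma flatten_ex {κ : Type*} (cs : List κ) (W : List (Λ × ℕ)) :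
    (List.ofFn (fun t : Fin W.length => ex cs [W.get t])).flatten = ex cs W := by
  have h1 : (List.ofFn (fun t : Fin W.length => ex cs [W.get t])) = W.map (fun p => ex cs [p]) := by
    conv_rhs => rw [← List.ofFn_get W, List.map_ofFn]
    rfl
  rw [h1, ← List.flatMap_def]
  unfold ex
  simp

variable [Fintype Λ]

theorem decomp {Xt : ℕ → Submodule ℝ V} {U : List V → Ultrafilter V} (hU : Adm Xt U) {C₀ K : ℝ}
    (hC₀ : 0 < C₀) (hT : TailIneq Xt C₀) (hK : 0 < K) (hH : Hyp Xt K) (W : List (Λ × ℕ))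
    (hW : W.Nodup) (C : Λ × ℕ →₀ ℝ) (hC : ∀ p, C p ≠ 0 → p ∈ W) :
    ∑ μ, Ny U W (C.filter (fun p => p.1 = μ)) ≤ 96 * K ^ 2 * Ny U W C := by
  classical
  let n := W.length
  let w : Fin n → List ((Λ × Bool) × ℕ) := fun t => ex [false, true] [W.get t]
  let a : Fin n → ((Λ × Bool) × ℕ →₀ ℝ) := fun t => Y (Finsupp.single (W.get t) 1)
  have hflat : (List.ofFn w).flatten = ex [false, true] W := flatten_ex _ W
  have ha : ∀ t p, a t p ≠ 0 → p ∈ w t := by
    intro t p hp
    refine Y_supp _ [W.get t] ?_ p hp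
    intro q hq
    rw [Finsupp.single_apply] at hq
    split_ifs at hq with h
    · rw [List.mem_singleton]; exact h.symm
    · exact absurd rfl hq
  obtain ⟨T, hT'⟩ := mem_T hU hC₀.le hT hH n w a ha
    (by rw [hflat]; exact ex_nodup _ (by decide) W hW)
    (by
      intro t
      rw [hflat]
      exact Ny_pos hU hC₀ hT W hW (Finsupp.single (W.get t) 1) (W.get t) (List.get_mem W t)
        (by simp))
  rw [hflat] at hT'
  let G : (Fin n → ℝ) →ₗ[ℝ] (Λ × ℕ →₀ ℝ) :=
    Fintype.linearCombination ℝ (fun t => Finsupp.single (W.get t) (1 : ℝ))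
  have hG : ∀ c, G c = ∑ t, c t • Finsupp.single (W.get t) (1 : ℝ) :=
    fun c => Fintype.linearCombination_apply _ _ _
  let N : Seminorm ℝ (Fin n → ℝ) := (Nys hU W).comp G
  have hN : ∀ c, N c = Ny U W (G c) := fun c => rfl
  have hsum : ∀ c : Fin n → ℝ, ∑ t, c t • a t = Y (G c) := by
    intro c
    rw [hG, map_sum]
    apply Finset.sum_congr rfl; intro t _
    rw [map_smul]
  have hfil : ∀ (P : Λ → Prop) [DecidablePred P] (c : Fin n → ℝ),
      G (fun t => if P (W.get t).1 then c t else 0) = (G c).filter (fun p => P p.1) := by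
    intro P _ c
    ext p
    rw [Finsupp.filter_apply, hG, hG, Finsupp.finsetSum_apply, Finsupp.finsetSum_apply]
    by_cases hp : P p.1
    · rw [if_pos hp]
      apply Finset.sum_congr rfl; intro t _
      rw [Finsupp.smul_apply, Finsupp.smul_apply, Finsupp.single_apply]
      by_cases h : W.get t = p
      · rw [if_pos h, h, if_pos hp]
      · rw [if_neg h, smul_zero, smul_zero]
    · rw [if_neg hp]
      apply Finset.sum_eq_zero; intro t _
      rw [Finsupp.smul_apply, Finsupp.single_apply]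
      by_cases h : W.get t = p
      · rw [if_pos h, h, if_neg hp, zero_smul]
      · rw [if_neg h, smul_zero]
  have h := F2 N T K hK (fun c => by
      have := (hT' c).1
      rw [hsum] at this
      exact this)
    (fun c => by
      have := (hT' c).2
      rw [hsum] at this
      exact this)
    (fun t => (W.get t).1)
    (fun μ c => by
      have e : (fun i => if (W.get i).1 = μ then 0 else c i) =
          (fun i => if (fun l => l ≠ μ) (W.get i).1 then c i else 0) := by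
        funext i; by_cases hi : (W.get i).1 = μ <;> simp
      rw [e, hN, hfil (fun l => l ≠ μ) c, hN]
      exact suppression hU W μ (G c))
    (fun t => C (W.get t))
  have hGC : G (fun t => C (W.get t)) = C := by
    ext p
    rw [hG, Finsupp.finsetSum_apply]
    by_cases hp : p ∈ W
    · obtain ⟨t, ht⟩ := List.mem_iff_get.mp hp
      rw [Finset.sum_eq_single t]
      · rw [Finsupp.smul_apply, Finsupp.single_apply, if_pos ht, ht]; simp
      · intro s _ hst
        rw [Finsupp.smul_apply, Finsupp.single_apply, if_neg, smul_zero]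
        intro hs
        apply hst
        exact (List.nodup_iff_injective_get.mp hW) (hs.trans ht.symm)
      · intro h; exact absurd (Finset.mem_univ t) h
    · have h0 : C p = 0 := by
        by_contra h1; exact hp (hC p h1)
      rw [h0]
      apply Finset.sum_eq_zero; intro t _
      rw [Finsupp.smul_apply, Finsupp.single_apply, if_neg, smul_zero]
      intro hs
      exact hp (hs ▸ List.get_mem W t)
  rw [hN, hGC] at h
  refine le_trans (le_of_eq ?_) h
  apply Finset.sum_congr rfl; intro μ _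
  rw [hN]
  congr 1
  have := hfil (fun l => l = μ) (fun t => C (W.get t))
  rw [hGC] at this
  rw [← this]
  congr 1

lemma decomp_upper {Xt : ℕ → Submodule ℝ V} {U : List V → Ultrafilter V} (hU : Adm Xt U)
    (W : List (Λ × ℕ)) (C : Λ × ℕ →₀ ℝ) :
    Ny U W C ≤ ∑ μ, Ny U W (C.filter (fun p => p.1 = μ)) := by
  classical
  have e : C = ∑ μ, C.filter (fun p => p.1 = μ) := by
    ext p
    rw [Finsupp.finsetSum_apply]
    simp [Finsupp.filter_apply]
  conv_lhs => rw [e]
  exact Finset.le_sum_of_subadditive (Nys hU W) (map_zero (Nys hU W)).le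
    (map_add_le_add (Nys hU W)) _ _

end Pool.Agent.Helper224.Asy8
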