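import Pool.Agent.Helper224.Asy8
set_option autoImplicit false
set_option linter.unusedSectionVars false
namespace Pool.Agent.Helper224.Asy9
open Filter Topology Pool.Agent.Helper224.Asy5 Pool.Agent.Helper224.Asy6 Pool.Agent.Helper224.Asy7
open Pool.Agent.Helper224.Asy2 Pool.Agent.Helper224.Asy8 Pool.Agent.Helper224.Asy3

variable {V : Type*} [NormedAddCommGroup V] [NormedSpace ℝ V]
variable {m d : ℕ} [NeZero m]

/-- all grid points in the order of their code -/
def allX (m d : ℕ) : List (Fin d → Fin m) := (List.finRange (m ^ d)).map finFunctionFinEquiv.symm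

/-- entries picked at a grid point -/
def gw (x : Fin d → Fin m) : List ((Fin d × (Fin d → Fin m)) × ℕ) :=
  (List.finRange d).map (fun j => ((j, Function.update x j 0), (x j : ℕ)))

/-- the grid word -/
def GW (m d : ℕ) [NeZero m] : List ((Fin d × (Fin d → Fin m)) × ℕ) := (allX m d).flatMap gw

lemma mem_allX (x : Fin d → Fin m) : x ∈ allX m d := by
  unfold allX
  rw [List.mem_map]
  exact ⟨finFunctionFinEquiv x, List.mem_finRange _, by simp⟩

lemma allX_pairwise : (allX m d).Pairwise
    (fun x x' => (finFunctionFinEquiv x : ℕ) < finFunctionFinEquiv x') := by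
  unfold allX
  rw [List.pairwise_map]
  refine (List.pairwise_lt_finRange (m ^ d)).imp ?_
  intro a b hab
  rw [Equiv.apply_symm_apply, Equiv.apply_symm_apply]
  exact hab

lemma code_update (y : Fin d → Fin m) (j : Fin d) (v v' : Fin m)
    (h : (finFunctionFinEquiv (Function.update y j v) : ℕ) <
      finFunctionFinEquiv (Function.update y j v')) : (v : ℕ) < v' := by
  by_contra hcon
  push Not at hcon
  rw [finFunctionFinEquiv_apply, finFunctionFinEquiv_apply] at h
  have : ∑ i : Fin d, (Function.update y j v' i : ℕ) * m ^ (i : ℕ) ≤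
      ∑ i : Fin d, (Function.update y j v i : ℕ) * m ^ (i : ℕ) := by
    apply Finset.sum_le_sum; intro i _
    apply Nat.mul_le_mul_right
    by_cases hi : i = j
    · subst hi; rw [Function.update_self, Function.update_self]; exact hcon
    · rw [Function.update_of_ne hi, Function.update_of_ne hi]
  omega

lemma upd_back (x y : Fin d → Fin m) (j : Fin d) (h : Function.update x j 0 = y) :
    x = Function.update y j (x j) := by
  rw [← h, Function.update_idem, Function.update_eq_self]

lemma line_indices (j : Fin d) (y : Fin d → Fin m) (hy : y j = 0) :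
    (allX m d).filterMap (fun x => if Function.update x j 0 = y then some (x j : ℕ) else none) =
      List.range m := by
  apply List.Pairwise.eq_of_mem_iff (r := (· < ·))
  · rw [List.pairwise_filterMap]
    refine allX_pairwise.imp ?_
    intro x x' hxx b hb b' hb'
    split_ifs at hb with h1
    split_ifs at hb' with h2
    rw [Option.some.injEq] at hb hb'
    subst hb; subst hb'
    rw [upd_back x y j h1, upd_back x' y j h2] at hxx
    have := code_update y j (x j) (x' j) hxx
    exact this
  · exact List.pairwise_lt_range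
  · intro i
    rw [List.mem_filterMap, List.mem_range]
    constructor
    · rintro ⟨x, _, hx⟩
      split_ifs at hx with h1
      rw [Option.some.injEq] at hx
      rw [← hx]; exact (x j).isLt
    · intro hi
      refine ⟨Function.update y j ⟨i, hi⟩, mem_allX _, ?_⟩
      rw [if_pos]
      · rw [Function.update_self]
      · rw [Function.update_idem, ← hy, Function.update_eq_self]

lemma gw_filter (x : Fin d → Fin m) (j : Fin d) (y : Fin d → Fin m) :
    (gw x).filter (fun p => p.1 = (j, y)) =
      if Function.update x j 0 = y then [((j, y), (x j : ℕ))] else [] := by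
  unfold gw
  rw [List.filter_map]
  have h1 : (List.finRange d).filter ((fun p : (Fin d × (Fin d → Fin m)) × ℕ =>
      decide (p.1 = (j, y))) ∘ fun j => ((j, Function.update x j 0), (x j : ℕ))) =
      if Function.update x j 0 = y then [j] else [] := by
    have h2 : (List.finRange d).filter (fun j' => decide (j' = j)) = [j] := by
      apply List.Pairwise.eq_of_mem_iff (r := (· < ·))
      · exact (List.pairwise_lt_finRange d).filter _
      · exact List.pairwise_singleton _ _
      · intro i; simp [List.mem_finRange]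
    by_cases h : Function.update x j 0 = y
    · rw [if_pos h, ← h2]
      apply List.filter_congr
      intro j' _
      simp only [Function.comp, decide_eq_decide, Prod.mk.injEq]
      constructor
      · exact fun h3 => h3.1
      · intro h3; subst h3; exact ⟨rfl, h⟩
    · rw [if_neg h, List.filter_eq_nil_iff]
      intro j' _
      simp only [Function.comp, decide_eq_true_eq, Prod.mk.injEq]
      rintro ⟨h3, h4⟩
      subst h3
      exact h h4
  rw [h1]
  by_cases h : Function.update x j 0 = y
  · rw [if_pos h, if_pos h]; simp [h]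
  · rw [if_neg h, if_neg h]; rfl

lemma GW_filter (j : Fin d) (y : Fin d → Fin m) (hy : y j = 0) :
    (GW m d).filter (fun p => p.1 = (j, y)) = (List.range m).map (fun i => ((j, y), i)) := by
  rw [← line_indices j y hy]
  unfold GW
  rw [List.filter_flatMap]
  simp only [gw_filter]
  induction (allX m d) with
  | nil => rfl
  | cons x l ih =>
    rw [List.flatMap_cons, ih]
    by_cases h : Function.update x j 0 = y
    · rw [if_pos h, List.filterMap_cons, if_pos h]; rfl
    · rw [if_neg h, List.filterMap_cons, if_neg h]; rfl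

lemma GW_nodup : (GW m d).Nodup := by
  unfold GW
  rw [List.nodup_flatMap]
  refine ⟨?_, ?_⟩
  · intro x _
    unfold gw
    refine (List.nodup_finRange d).map ?_
    intro a b h
    simp only [Prod.mk.injEq] at h
    exact h.1.1
  · refine (allX_pairwise (m := m) (d := d)).imp ?_
    intro x x' hxx
    simp only [Function.onFun]
    intro p hp hp'
    unfold gw at hp hp'
    rw [List.mem_map] at hp hp'
    obtain ⟨j, _, rfl⟩ := hp
    obtain ⟨j', _, hj'⟩ := hp'
    simp only [Prod.mk.injEq] at hj'
    obtain ⟨⟨h1, h2⟩, h3⟩ := hj'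
    subst h1
    have e1 := upd_back x _ j' rfl
    have e2 := upd_back x' _ j' h2
    have e3 : x' j' = x j' := Fin.ext h3
    rw [e3] at e2
    rw [e2, ← e1] at hxx
    exact lt_irrefl _ hxx


/-- combination picked at a grid point -/
noncomputable def uu (s : Fin m → ℝ) (x : Fin d → Fin m) :
    ((Fin d × (Fin d → Fin m)) × ℕ →₀ ℝ) :=
  ∑ j : Fin d, Finsupp.single ((j, Function.update x j 0), (x j : ℕ)) (s (x j))

lemma uu_apply (s : Fin m → ℝ) (x : Fin d → Fin m) (j : Fin d) (y : Fin d → Fin m) (i : ℕ) :
    uu s x ((j, y), i) = if Function.update x j 0 = y ∧ (x j : ℕ) = i then s (x j) else 0 := by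
  unfold uu
  rw [Finsupp.finsetSum_apply, Finset.sum_eq_single j]
  · rw [Finsupp.single_apply]
    congr 1
    simp [Prod.mk.injEq]
  · intro b _ hb
    rw [Finsupp.single_apply, if_neg]
    intro h
    rw [Prod.mk.injEq, Prod.mk.injEq] at h
    exact hb h.1.1
  · intro h; exact absurd (Finset.mem_univ j) h

lemma uu_supp (s : Fin m → ℝ) (x : Fin d → Fin m) (p : (Fin d × (Fin d → Fin m)) × ℕ)
    (hp : uu s x p ≠ 0) : p ∈ gw x := by
  obtain ⟨⟨j, y⟩, i⟩ := p
  rw [uu_apply] at hp
  split_ifs at hp with h
  · unfold gw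
    rw [List.mem_map]
    exact ⟨j, List.mem_finRange _, by rw [h.1, h.2]⟩
  · exact absurd rfl hp

/-- total combination -/
noncomputable def CC (s : Fin m → ℝ) (c : (Fin d → Fin m) → ℝ) :
    ((Fin d × (Fin d → Fin m)) × ℕ →₀ ℝ) := ∑ x, c x • uu s x

lemma gw_sub (x : Fin d → Fin m) (p : (Fin d × (Fin d → Fin m)) × ℕ) (hp : p ∈ gw x) :
    p ∈ GW m d := by
  unfold GW
  rw [List.mem_flatMap]
  exact ⟨x, mem_allX x, hp⟩

lemma CC_supp (s : Fin m → ℝ) (c : (Fin d → Fin m) → ℝ) (p : (Fin d × (Fin d → Fin m)) × ℕ)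
    (hp : CC s c p ≠ 0) : p ∈ GW m d := by
  unfold CC at hp
  rw [Finsupp.finsetSum_apply] at hp
  obtain ⟨x, _, hx⟩ := Finset.exists_ne_zero_of_sum_ne_zero hp
  apply gw_sub x p
  apply uu_supp s x p
  intro h
  apply hx
  rw [Finsupp.smul_apply, h, smul_zero]

lemma CC_apply (s : Fin m → ℝ) (c : (Fin d → Fin m) → ℝ) (j : Fin d) (y : Fin d → Fin m) (i : ℕ) :
    CC s c ((j, y), i) = if y j = 0 then
      (∑ v : Fin m, if (v : ℕ) = i then s v * c (Function.update y j v) else 0) else 0 := by
  unfold CC
  rw [Finsupp.finsetSum_apply]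
  simp only [Finsupp.smul_apply, uu_apply, smul_eq_mul]
  by_cases hy : y j = 0
  · rw [if_pos hy]
    rw [fub j]
    rw [Finset.sum_eq_single y]
    · apply Finset.sum_congr rfl; intro v _
      have e : Function.update (Function.update y j v) j 0 = y := by
        rw [Function.update_idem, ← hy, Function.update_eq_self]
      rw [e, Function.update_self]
      by_cases h : (v : ℕ) = i
      · simp [h]; ring
      · simp [h]
    · intro x hx hxy
      apply Finset.sum_eq_zero; intro v _
      rw [if_neg, mul_zero]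
      rintro ⟨h1, _⟩
      apply hxy
      have hx0 : x j = 0 := by
        unfold face at hx
        exact (Finset.mem_filter.mp hx).2
      rw [Function.update_idem, ← hx0, Function.update_eq_self] at h1
      exact h1
    · intro h
      exfalso
      apply h
      unfold face
      rw [Finset.mem_filter]
      exact ⟨Finset.mem_univ _, hy⟩
  · rw [if_neg hy]
    apply Finset.sum_eq_zero; intro x _
    rw [if_neg, mul_zero]
    rintro ⟨h1, _⟩
    apply hy
    rw [← h1, Function.update_self]

/-- embedding of coefficient vectors -/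
noncomputable def em (m : ℕ) : (Fin m → ℝ) →ₗ[ℝ] (ℕ →₀ ℝ) :=
  Fintype.linearCombination ℝ (fun v : Fin m => Finsupp.single (v : ℕ) (1 : ℝ))

lemma em_apply (c : Fin m → ℝ) (i : ℕ) : em m c i = ∑ v : Fin m, if (v : ℕ) = i then c v else 0 := by
  unfold em
  rw [Fintype.linearCombination_apply, Finsupp.finsetSum_apply]
  apply Finset.sum_congr rfl; intro v _
  rw [Finsupp.smul_apply, Finsupp.single_apply]
  split_ifs <;> simp

lemma CC_filter (s : Fin m → ℝ) (c : (Fin d → Fin m) → ℝ) (j : Fin d) (y : Fin d → Fin m)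
    (hy : y j = 0) : (CC s c).filter (fun p => p.1 = (j, y)) =
      (em m (fun v => s v * c (Function.update y j v))).mapDomain (fun i => ((j, y), i)) := by
  have hinj : Function.Injective (fun i : ℕ => ((j, y), i)) := fun a b h => by simpa using h
  ext p
  rw [Finsupp.filter_apply]
  by_cases hp : p.1 = (j, y)
  · obtain ⟨q, i⟩ := p
    simp only at hp
    subst hp
    rw [if_pos rfl, CC_apply, if_pos hy, Finsupp.mapDomain_apply hinj, em_apply]
  · rw [if_neg hp, Finsupp.mapDomain_of_notMem_range]
    rintro ⟨i, hi⟩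
    exact hp (by rw [← hi])

lemma CC_filter0 (s : Fin m → ℝ) (c : (Fin d → Fin m) → ℝ) (j : Fin d) (y : Fin d → Fin m)
    (hy : y j ≠ 0) : (CC s c).filter (fun p => p.1 = (j, y)) = 0 := by
  ext p
  rw [Finsupp.filter_apply]
  by_cases hp : p.1 = (j, y)
  · obtain ⟨q, i⟩ := p
    simp only at hp
    subst hp
    rw [if_pos rfl, CC_apply, if_neg hy]; rfl
  · rw [if_neg hp]; rfl

/-- the single line norm -/
noncomputable def An {Xt : ℕ → Submodule ℝ V} {U : List V → Ultrafilter V} (hU : Adm Xt U)
    (m : ℕ) : Seminorm ℝ (Fin m → ℝ) := ((Ls hU (lw m)).comp Y0).comp (em m)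

lemma An_apply {Xt : ℕ → Submodule ℝ V} {U : List V → Ultrafilter V} (hU : Adm Xt U)
    (m : ℕ) (c : Fin m → ℝ) : An hU m c = L U (lw m) (Y0 (em m c)) := rfl

lemma sum_lines {Xt : ℕ → Submodule ℝ V} {U : List V → Ultrafilter V} (hU : Adm Xt U)
    (s : Fin m → ℝ) (c : (Fin d → Fin m) → ℝ) :
    ∑ μ, Ny U (GW m d) ((CC s c).filter (fun p => p.1 = μ)) = FF (An hU m) s c := by
  rw [Fintype.sum_prod_type]
  unfold FF
  apply Finset.sum_congr rfl; intro j _
  unfold fd face
  rw [Finset.sum_filter]
  apply Finset.sum_congr rfl; intro y _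
  by_cases hy : y j = 0
  · rw [if_pos hy, CC_filter s c j y hy, line_norm hU (GW m d) (j, y) m (GW_filter j y hy)]
    rfl
  · rw [if_neg hy, CC_filter0 s c j y hy]
    exact map_zero (Nys hU (GW m d))

lemma ex_flatMap {κ ι Λ : Type*} (cs : List κ) (l : List ι) (g : ι → List (Λ × ℕ)) :
    ex cs (l.flatMap g) = l.flatMap (fun x => ex cs (g x)) := by
  unfold ex
  rw [List.flatMap_assoc]

theorem grid {Xt : ℕ → Submodule ℝ V} {U : List V → Ultrafilter V} (hU : Adm Xt U) {C₀ K : ℝ}
    (hC₀ : 0 < C₀) (hT : TailIneq Xt C₀) (hK : 0 < K) (hH : Hyp Xt K) (m : ℕ) [NeZero m] :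
    Grid m (An hU m) (1 / (96 * K ^ 2)) K := by
  classical
  intro d s hd hs
  let xx : Fin (m ^ d) → (Fin d → Fin m) := finFunctionFinEquiv.symm
  let w : Fin (m ^ d) → List (((Fin d × (Fin d → Fin m)) × Bool) × ℕ) :=
    fun t => ex [false, true] (gw (xx t))
  let a : Fin (m ^ d) → (((Fin d × (Fin d → Fin m)) × Bool) × ℕ →₀ ℝ) := fun t => Y (uu s (xx t))
  have hflat : (List.ofFn w).flatten = ex [false, true] (GW m d) := by
    unfold GW allX
    rw [ex_flatMap, List.flatMap_map, List.ofFn_eq_map, List.flatMap_def]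
  have ha : ∀ t p, a t p ≠ 0 → p ∈ w t :=
    fun t p hp => Y_supp (uu s (xx t)) (gw (xx t)) (uu_supp s (xx t)) p hp
  obtain ⟨T, hT'⟩ := mem_T hU hC₀.le hT hH (m ^ d) w a ha
    (by rw [hflat]; exact ex_nodup _ (by decide) _ GW_nodup)
    (by
      intro t
      rw [hflat]
      refine Ny_pos hU hC₀ hT (GW m d) GW_nodup (uu s (xx t))
        ((⟨0, hd⟩, Function.update (xx t) ⟨0, hd⟩ 0), ((xx t) ⟨0, hd⟩ : ℕ)) ?_ ?_
      · apply gw_sub (xx t)
        unfold gw
        rw [List.mem_map]
        exact ⟨⟨0, hd⟩, List.mem_finRange _, rfl⟩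
      · rw [uu_apply, if_pos ⟨rfl, rfl⟩]
        intro h0
        have := hs (xx t ⟨0, hd⟩)
        rw [h0] at this
        simp at this)
  rw [hflat] at hT'
  refine ⟨Fin (m ^ d), inferInstance, inferInstance,
    (LinearEquiv.funCongrLeft ℝ ℝ (finFunctionFinEquiv (m := m) (n := d)).symm).trans T, ?_⟩
  intro c
  have h := hT' (fun t => c (xx t))
  have hsum : ∑ t, c (xx t) • a t = Y (CC s c) := by
    unfold CC
    rw [map_sum]
    simp only [map_smul]
    exact Equiv.sum_comp (finFunctionFinEquiv (m := m) (n := d)).symm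
      (fun x => c x • Y (uu s x))
  rw [hsum] at h
  have h1 := decomp hU hC₀ hT hK hH (GW m d) GW_nodup (CC s c) (CC_supp s c)
  have h2 := decomp_upper hU (GW m d) (CC s c)
  rw [sum_lines hU] at h1 h2
  have e : ((LinearEquiv.funCongrLeft ℝ ℝ (finFunctionFinEquiv (m := m) (n := d)).symm).trans T) c =
      T (fun t => c (xx t)) := rfl
  rw [e]
  constructor
  · refine le_trans ?_ h.1
    rw [div_mul_eq_mul_div, one_mul, div_le_iff₀ (by positivity)]
    show FF (An hU m) s c ≤ Ny U (GW m d) (CC s c) * (96 * K ^ 2)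
    linarith
  · refine h.2.trans ?_
    exact mul_le_mul_of_nonneg_left h2 hK.le

end Pool.Agent.Helper224.Asy9
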