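import Mathlib

set_option autoImplicit false
open Filter Topology

namespace Pool.Agent.Helper224.Bl

/-- sets of functions bounded modulo finite sets -/
def Bdd (U : Set (ℕ → ℕ)) : Prop := ∃ h : ℕ → ℕ, ∀ c ∈ U, c ≤ᶠ[atTop] h

lemma Bdd.mono {U V : Set (ℕ → ℕ)} (hV : Bdd V) (h : U ⊆ V) : Bdd U := by
  obtain ⟨g, hg⟩ := hV
  exact ⟨g, fun c hc => hg c (h hc)⟩

lemma Bdd_iUnion_nat (U : ℕ → Set (ℕ → ℕ)) (h : ∀ i, Bdd (U i)) : Bdd (⋃ i, U i) := by
  choose g hg using h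
  refine ⟨fun n => ∑ i ∈ Finset.range (n+1), g i n, fun c hc => ?_⟩
  obtain ⟨i, hi⟩ := Set.mem_iUnion.1 hc
  filter_upwards [hg i c hi, eventually_ge_atTop i] with n hn hin
  exact hn.trans (Finset.single_le_sum (f := fun i => g i n) (fun _ _ => Nat.zero_le _)
    (Finset.mem_range.2 (Nat.lt_succ_of_le hin)))

lemma Bdd_empty : Bdd ∅ := ⟨fun _ => 0, fun _ h => absurd h (Set.notMem_empty _)⟩

lemma Bdd_iUnion {ι : Type*} [Countable ι] (U : ι → Set (ℕ → ℕ)) (h : ∀ i, Bdd (U i)) :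
    Bdd (⋃ i, U i) := by
  rcases isEmpty_or_nonempty ι with hι | hι
  · rw [Set.iUnion_of_empty]
    exact Bdd_empty
  · obtain ⟨s, hs⟩ := exists_surjective_nat ι
    rw [← hs.iUnion_comp U]
    exact Bdd_iUnion_nat _ fun i => h _

lemma Bdd_union {U V : Set (ℕ → ℕ)} (hU : Bdd U) (hV : Bdd V) : Bdd (U ∪ V) := by
  rw [Set.union_eq_iUnion]
  exact Bdd_iUnion _ (by rintro (_ | _) <;> assumption)

lemma Bdd_biUnion {ι : Type*} (s : Finset ι) (U : ι → Set (ℕ → ℕ)) (h : ∀ i ∈ s, Bdd (U i)) :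
    Bdd (⋃ i ∈ s, U i) := by
  classical
  induction s using Finset.induction_on with
  | empty => simpa using Bdd_empty
  | insert a s _ ih =>
    rw [Finset.set_biUnion_insert]
    exact Bdd_union (h a (Finset.mem_insert_self _ _))
      (ih fun i hi => h i (Finset.mem_insert_of_mem hi))

lemma pigeon {ι : Type*} [Countable ι] {U : Set (ℕ → ℕ)} (hU : ¬ Bdd U) (φ : (ℕ → ℕ) → ι) :
    ∃ i, ¬ Bdd {c | c ∈ U ∧ φ c = i} := by
  by_contra hcon
  push Not at hcon
  apply hU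
  refine (Bdd_iUnion _ hcon).mono fun c hc => ?_
  exact Set.mem_iUnion.2 ⟨φ c, hc, rfl⟩

/-- the almost domination relation on monotone functions -/
def rel (f g : {f : ℕ → ℕ // Monotone f}) : Prop := f.1 ≤ᶠ[atTop] g.1

/-- a maximal chain -/
def C : Set (ℕ → ℕ) := {f | ∃ h : Monotone f, (⟨f, h⟩ : {f : ℕ → ℕ // Monotone f}) ∈ maxChain rel}

lemma C_mono {f : ℕ → ℕ} (hf : f ∈ C) : Monotone f := hf.1

lemma C_total {f g : ℕ → ℕ} (hf : f ∈ C) (hg : g ∈ C) : f ≤ᶠ[atTop] g ∨ g ≤ᶠ[atTop] f := by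
  obtain ⟨hf1, hf2⟩ := hf
  obtain ⟨hg1, hg2⟩ := hg
  by_cases h : f = g
  · subst h
    exact Or.inl (EventuallyLE.refl _ _)
  · exact (maxChain_spec (r := rel)).1 hf2 hg2 (by
      intro h'
      exact h (congrArg Subtype.val h'))

lemma C_max {f : ℕ → ℕ} (hf : Monotone f) (h : ∀ g ∈ C, f ≤ᶠ[atTop] g ∨ g ≤ᶠ[atTop] f) : f ∈ C := by
  refine ⟨hf, ?_⟩
  have h1 : IsChain rel (insert (⟨f, hf⟩ : {f : ℕ → ℕ // Monotone f}) (maxChain rel)) := by
    refine (maxChain_spec (r := rel)).1.insert fun g hg _ => ?_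
    exact h g.1 ⟨g.2, hg⟩
  have h2 := (maxChain_spec (r := rel)).2 h1 (Set.subset_insert _ _)
  rw [h2]
  exact Set.mem_insert _ _

lemma C_unbdd : ¬ Bdd C := by
  rintro ⟨h, hh⟩
  let h' : ℕ → ℕ := fun n => ∑ i ∈ Finset.range (n+1), (h i + 1)
  have h1 : ∀ n, h n < h' n := by
    intro n
    exact Nat.lt_of_succ_le (Finset.single_le_sum (f := fun i => h i + 1) (fun _ _ => Nat.zero_le _)
      (Finset.mem_range.2 (Nat.lt_succ_self n)))
  have h2 : Monotone h' := by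
    intro m n hmn
    exact Finset.sum_le_sum_of_subset (Finset.range_mono (Nat.succ_le_succ hmn))
  have h3 : h' ∈ C := by
    refine C_max h2 fun g hg => Or.inr ?_
    filter_upwards [hh g hg] with n hn
    exact hn.trans (h1 n).le
  obtain ⟨n, hn⟩ := (hh h' h3).exists
  exact absurd hn (not_le.2 (h1 n))

lemma C_sup {f g : ℕ → ℕ} (hf : f ∈ C) (hg : g ∈ C) : f ⊔ g ∈ C := by
  have key : ∀ f g : ℕ → ℕ, f ∈ C → g ∈ C → f ≤ᶠ[atTop] g → f ⊔ g ∈ C := by
    intro f g hf hg h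
    refine C_max ((C_mono hf).sup (C_mono hg)) fun x hx => ?_
    rcases C_total hg hx with h1 | h1
    · left
      filter_upwards [h, h1] with n h2 h3
      exact sup_le (h2.trans h3) h3
    · right
      filter_upwards [h1] with n h2
      exact h2.trans le_sup_right
  rcases C_total hf hg with h | h
  · exact key f g hf hg h
  · rw [sup_comm]
    exact key g f hg hf h

/-- `c` extends the stem `t` -/
def Ext (c : ℕ → ℕ) (t : List ℕ) : Prop := ∀ i < t.length, c i = t.getD i 0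

/-- `c` is below the stem `t` -/
def Le' (c : ℕ → ℕ) (t : List ℕ) : Prop := ∀ i < t.length, c i ≤ t.getD i 0

lemma Ext.le' {c : ℕ → ℕ} {t : List ℕ} (h : Ext c t) : Le' c t := fun i hi => (h i hi).le

/-- good stems -/
def Psi (U : Set (ℕ → ℕ)) (t : List ℕ) : Prop :=
  ∀ b ∈ C, Le' b t → ¬ Bdd {c | c ∈ U ∧ b ≤ c ∧ Ext c t}

/-- the stem of length `m` -/
def stm (c : ℕ → ℕ) (m : ℕ) : List ℕ := (List.range m).map c

@[simp] lemma stm_length (c : ℕ → ℕ) (m : ℕ) : (stm c m).length = m := by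
  rw [stm, List.length_map, List.length_range]

lemma stm_succ (c : ℕ → ℕ) (m : ℕ) : stm c (m+1) = stm c m ++ [c m] := by
  rw [stm, List.range_succ, List.map_append]
  rfl

lemma ext_stm (c : ℕ → ℕ) (m : ℕ) : Ext c (stm c m) := by
  intro i hi
  rw [stm_length] at hi
  rw [stm, List.getD_eq_getElem _ _ (by simpa using hi)]
  simp

lemma eq_stm {c : ℕ → ℕ} {t : List ℕ} (h : Ext c t) : stm c t.length = t := by
  apply List.ext_getElem
  · rw [stm_length]
  · intro i h1 h2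
    have := h i h2
    rw [List.getD_eq_getElem _ _ h2] at this
    rw [← this]
    simp [stm]

lemma ext_append {c : ℕ → ℕ} {t : List ℕ} {j : ℕ} (h : Ext c (t ++ [j])) :
    Ext c t ∧ c t.length = j := by
  constructor
  · intro i hi
    have := h i (by rw [List.length_append]; omega)
    rwa [List.getD_append _ _ _ _ hi] at this
  · have := h t.length (by rw [List.length_append, List.length_singleton]; omega)
    rw [this, List.getD_append_right _ _ _ _ le_rfl, Nat.sub_self]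
    rfl

/-- infinitely branching stems -/
lemma branching {W : Set (ℕ → ℕ)} (hW : ¬ Bdd W) (n : ℕ) : ∃ t : List ℕ, n ≤ t.length ∧
    ∀ J : ℕ, ∃ j ≥ J, ¬ Bdd {c | c ∈ W ∧ Ext c (t ++ [j])} := by
  classical
  by_contra hcon
  push Not at hcon
  have h1 : ∀ t : List ℕ, ∃ J : ℕ, n ≤ t.length → ∀ j ≥ J, Bdd {c | c ∈ W ∧ Ext c (t ++ [j])} := by
    intro t
    by_cases ht : n ≤ t.length
    · obtain ⟨J, hJ⟩ := hcon t ht
      exact ⟨J, fun _ => hJ⟩
    · exact ⟨0, fun h => absurd h ht⟩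
  choose J hJ using h1
  obtain ⟨t₀, ht₀⟩ := pigeon hW (fun c => stm c n)
  apply ht₀
  let L : ℕ → Finset (List ℕ) := fun m => Nat.rec {t₀}
    (fun _ S => S.biUnion fun t => (Finset.range (J t)).image fun j => t ++ [j]) m
  have hL : ∀ m, L (m+1) = (L m).biUnion fun t => (Finset.range (J t)).image fun j => t ++ [j] :=
    fun m => rfl
  let bad : Set (ℕ → ℕ) := ⋃ p : List ℕ × ℕ, {c | c ∈ W ∧ Ext c (p.1 ++ [p.2]) ∧ n ≤ p.1.length ∧ J p.1 ≤ p.2}
  have hbad : Bdd bad := by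
    refine Bdd_iUnion _ fun p => ?_
    by_cases h : n ≤ p.1.length ∧ J p.1 ≤ p.2
    · exact (hJ p.1 h.1 p.2 h.2).mono fun c hc => ⟨hc.1, hc.2.1⟩
    · exact Bdd_empty.mono fun c hc => (h hc.2.2).elim
  refine (Bdd_union hbad (V := {c | ∀ m, n ≤ m → c m ≤ (L (m-n)).sup J}) ?_).mono ?_
  · exact ⟨fun m => (L (m-n)).sup J, fun c hc => (eventually_ge_atTop n).mono fun m hm => hc m hm⟩
  · rintro c ⟨hcW, hc⟩
    by_cases hcb : c ∈ bad
    · exact Or.inl hcb
    · right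
      have h2 : ∀ m, n ≤ m → c m < J (stm c m) := by
        intro m hm
        by_contra h3
        apply hcb
        refine Set.mem_iUnion.2 ⟨(stm c m, c m), hcW, ?_, ?_, not_lt.1 h3⟩
        · rw [← stm_succ]
          exact ext_stm _ _
        · rw [stm_length]
          exact hm
      have h3 : ∀ i, stm c (n+i) ∈ L i := by
        intro i
        induction i with
        | zero =>
          rw [Nat.add_zero, hc]
          exact Finset.mem_singleton_self _
        | succ i ih =>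
          rw [hL, ← Nat.add_assoc, stm_succ]
          refine Finset.mem_biUnion.2 ⟨_, ih, Finset.mem_image.2 ⟨c (n+i), ?_, rfl⟩⟩
          exact Finset.mem_range.2 (h2 _ (Nat.le_add_right _ _))
      intro m hm
      have h4 := h3 (m - n)
      rw [Nat.add_sub_cancel' hm] at h4
      exact (h2 m hm).le.trans (Finset.le_sup (f := J) h4)

lemma stem {U : Set (ℕ → ℕ)} (hUC : U ⊆ C) (hU : ¬ Bdd U) : ∃ t : List ℕ, Psi U t ∧ ∃ c ∈ U, Ext c t := by
  classical
  have h1 : ∀ η ∈ C, ∃ n, ¬ Bdd {c | c ∈ U ∧ ∀ i ≥ n, η i ≤ c i} := by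
    intro η hη
    by_contra hcon
    push Not at hcon
    apply hU
    refine (Bdd_union (Bdd_iUnion _ hcon) (V := {c | c ≤ᶠ[atTop] η}) ⟨η, fun c hc => hc⟩).mono ?_
    intro c hc
    rcases C_total hη (hUC hc) with h | h
    · left
      obtain ⟨n, hn⟩ := eventually_atTop.1 h
      exact Set.mem_iUnion.2 ⟨n, hc, hn⟩
    · exact Or.inr h
  have h2 : ∀ η, ∃ (t : List ℕ) (n : ℕ), η ∈ C → n ≤ t.length ∧ ∀ J : ℕ, ∃ j ≥ J,
      ¬ Bdd {c | c ∈ {c | c ∈ U ∧ ∀ i ≥ n, η i ≤ c i} ∧ Ext c (t ++ [j])} := by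
    intro η
    by_cases hη : η ∈ C
    · obtain ⟨n, hn⟩ := h1 η hη
      obtain ⟨t, ht, ht'⟩ := branching hn n
      exact ⟨t, n, fun _ => ⟨ht, ht'⟩⟩
    · exact ⟨[], 0, fun h => absurd h hη⟩
  choose t n htn using h2
  obtain ⟨t₀, ht₀⟩ := pigeon C_unbdd t
  refine ⟨t₀, ?_, ?_⟩
  · intro b hb hbt hbdd
    have h3 : ∃ η ∈ C, t η = t₀ ∧ b ≤ᶠ[atTop] η := by
      by_contra hcon
      push Not at hcon
      apply ht₀
      refine ⟨b, fun η hη => ?_⟩
      rcases C_total hη.1 hb with h | h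
      · exact h
      · exact absurd h (hcon η hη.1 hη.2)
    obtain ⟨η, hηC, hηt, hbη⟩ := h3
    obtain ⟨nb, hnb⟩ := eventually_atTop.1 hbη
    obtain ⟨hn, hJ⟩ := htn η hηC
    obtain ⟨j, hj, hj'⟩ := hJ (b (max nb (t η).length))
    apply hj'
    refine hbdd.mono ?_
    rintro c ⟨⟨hcU, hcη⟩, hce⟩
    obtain ⟨hce1, hce2⟩ := ext_append hce
    rw [hηt] at hce1 hce2 hj hn
    refine ⟨hcU, ?_, hce1⟩
    intro i
    by_cases h4 : i < t₀.length
    · rw [hce1 i h4]
      exact hbt i h4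
    · push Not at h4
      by_cases h5 : i < max nb t₀.length
      · calc b i ≤ b (max nb t₀.length) := C_mono hb h5.le
          _ ≤ j := hj
          _ = c t₀.length := hce2.symm
          _ ≤ c i := C_mono (hUC hcU) h4
      · push Not at h5
        exact (hnb i ((le_max_left _ _).trans h5)).trans (hcη i (hn.trans h4))
  · have h3 : ∃ η ∈ C, t η = t₀ := by
      by_contra hcon
      push Not at hcon
      exact ht₀ (Bdd_empty.mono fun η hη => (hcon η hη.1 hη.2).elim)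
    obtain ⟨η, hηC, hηt⟩ := h3
    obtain ⟨hn, hJ⟩ := htn η hηC
    obtain ⟨j, _, hj'⟩ := hJ 0
    have h4 : ∃ c, c ∈ {c | c ∈ {c | c ∈ U ∧ ∀ i ≥ n η, η i ≤ c i} ∧ Ext c (t η ++ [j])} := by
      by_contra hcon
      push Not at hcon
      exact hj' (Bdd_empty.mono fun c hc => (hcon c hc).elim)
    obtain ⟨c, ⟨hcU, _⟩, hce⟩ := h4
    rw [hηt] at hce
    exact ⟨c, hcU, (ext_append hce).1⟩

end Pool.Agent.Helper224.Bl
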