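import Pool.Agent.Helper224.Bl1

set_option autoImplicit false
open Filter Topology

namespace Pool.Agent.Helper224.Bl

/-- tuples -/
abbrev Tup : Type := List (ℕ → ℕ)

/-- large sets of tuples -/
def Large : ℕ → (Tup → Prop) → Prop
  | 0, Q => Q []
  | (k+1), Q => ¬ Bdd {c | c ∈ C ∧ Large k (fun u => Q (c :: u))}

lemma Large_zero (Q : Tup → Prop) : Large 0 Q ↔ Q [] := Iff.rfl

lemma Large_succ (k : ℕ) (Q : Tup → Prop) :
    Large (k+1) Q ↔ ¬ Bdd {c | c ∈ C ∧ Large k (fun u => Q (c :: u))} := Iff.rfl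

lemma Large.mono {k : ℕ} : ∀ {Q Q' : Tup → Prop}, Large k Q → (∀ u, Q u → Q' u) → Large k Q' := by
  induction k with
  | zero => intro Q Q' h h'; exact h' _ h
  | succ k ih =>
    intro Q Q' h h'
    rw [Large_succ] at *
    intro hb
    exact h (hb.mono fun c hc => ⟨hc.1, ih hc.2 fun u hu => h' _ hu⟩)

lemma nonempty_of_not_Bdd {U : Set (ℕ → ℕ)} (h : ¬ Bdd U) : ∃ c, c ∈ U := by
  by_contra hcon
  push Not at hcon
  exact h (Bdd_empty.mono fun c hc => (hcon c hc).elim)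

lemma Large.exists {k : ℕ} : ∀ {Q : Tup → Prop}, Large k Q → ∃ u, Q u := by
  induction k with
  | zero => intro Q h; exact ⟨[], h⟩
  | succ k ih =>
    intro Q h
    rw [Large_succ] at h
    obtain ⟨c, _, hc⟩ := nonempty_of_not_Bdd h
    obtain ⟨u, hu⟩ := ih hc
    exact ⟨c :: u, hu⟩

lemma Large.pigeon {ι : Type*} [Countable ι] {k : ℕ} : ∀ {Q : Tup → Prop}, Large k Q →
    ∀ φ : Tup → ι, ∃ i, Large k (fun u => Q u ∧ φ u = i) := by
  induction k with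
  | zero => intro Q h φ; exact ⟨φ [], h, rfl⟩
  | succ k ih =>
    intro Q h φ
    rw [Large_succ] at h
    have h1 : ∀ c : ℕ → ℕ, ∃ i, Large k (fun u => Q (c :: u)) →
        Large k (fun u => Q (c :: u) ∧ φ (c :: u) = i) := by
      intro c
      by_cases hc : Large k (fun u => Q (c :: u))
      · obtain ⟨i, hi⟩ := ih hc (fun u => φ (c :: u))
        exact ⟨i, fun _ => hi⟩
      · exact ⟨φ [], fun h => absurd h hc⟩
    choose ψ hψ using h1
    obtain ⟨i, hi⟩ := Bl.pigeon h ψ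
    refine ⟨i, ?_⟩
    rw [Large_succ]
    intro hb
    apply hi
    refine hb.mono ?_
    rintro c ⟨⟨hcC, hc⟩, hci⟩
    exact ⟨hcC, by rw [← hci]; exact hψ c hc⟩

/-- increasing tuples above `b` -/
def Inc : (ℕ → ℕ) → Tup → Prop
  | _, [] => True
  | b, (c :: u) => b ≤ c ∧ Inc c u

lemma Inc.le {b : ℕ → ℕ} {u : Tup} (h : Inc b u) : ∀ x ∈ u, b ≤ x := by
  induction u generalizing b with
  | nil => intro x hx; simp at hx
  | cons c u ih =>
    intro x hx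
    rcases List.mem_cons.1 hx with rfl | hx
    · exact h.1
    · exact h.1.trans (ih h.2 x hx)

/-- interlaced pairs above `b` -/
def Inter : (ℕ → ℕ) → Tup → Tup → Prop
  | _, [], [] => True
  | b, (x :: u), (y :: v) => b ≤ x ∧ x ≤ y ∧ Inter y u v
  | _, _, _ => False

lemma Large_Inc (k : ℕ) : ∀ b ∈ C, Large k (fun u => Inc b u ∧ u.length = k) := by
  induction k with
  | zero =>
    intro b _
    rw [Large_zero]
    exact ⟨trivial, rfl⟩
  | succ k ih =>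
    intro b hb hbdd
    apply C_unbdd
    obtain ⟨h, hh⟩ := hbdd
    refine ⟨h, fun c hc => ?_⟩
    have h1 := hh (b ⊔ c) ⟨C_sup hb hc, ?_⟩
    · filter_upwards [h1] with n hn
      exact le_trans le_sup_right hn
    · refine (ih _ (C_sup hb hc)).mono fun u hu => ?_
      refine ⟨⟨le_sup_left, hu.1⟩, ?_⟩
      rw [List.length_cons, hu.2]

/-- compatibility of a function with the first stem -/
def stemOK (b : ℕ → ℕ) : List (List ℕ) → Prop
  | [] => True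
  | (t :: _) => Le' b t

variable {Γ : Type*}

/-- The tree `Q` with the finite sets `F` has root `R` and the stems `τ`. -/
def HasType : List (List ℕ) → (Tup → Prop) → (Tup → Finset Γ) → Finset Γ → Prop
  | [], Q, F, R => Q [] ∧ F [] = R
  | (t :: τ), Q, F, R => ∃ (U : Set (ℕ → ℕ)) (ρ : (ℕ → ℕ) → Finset Γ), U ⊆ C ∧
      (∀ c ∈ U, HasType τ (fun u => Q (c :: u)) (fun u => F (c :: u)) (ρ c)) ∧
      (∀ c ∈ U, stemOK c τ) ∧ (∀ γ, γ ∉ R → Bdd {c | c ∈ U ∧ γ ∈ ρ c}) ∧ Psi U t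

lemma exists_avoid {U : Set (ℕ → ℕ)} {t : List ℕ} (hΨ : Psi U t) {b : ℕ → ℕ} (hb : b ∈ C)
    (hbt : Le' b t) (ρ : (ℕ → ℕ) → Finset Γ) (S : Finset Γ)
    (hS : ∀ γ ∈ S, Bdd {c | c ∈ U ∧ γ ∈ ρ c}) :
    ∃ c ∈ U, b ≤ c ∧ Ext c t ∧ ∀ γ ∈ S, γ ∉ ρ c := by
  by_contra hcon
  push Not at hcon
  apply hΨ b hb hbt
  refine (Bdd_biUnion S _ hS).mono ?_
  rintro c ⟨hcU, hbc, hct⟩
  obtain ⟨γ, hγS, hγ⟩ := hcon c hcU hbc hct
  exact Set.mem_iUnion₂.2 ⟨γ, hγS, hcU, hγ⟩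

/-- interlaced pairs with small intersection -/
theorem pair_exists (τ : List (List ℕ)) : ∀ (Q Q' : Tup → Prop) (F F' : Tup → Finset Γ)
    (R R' : Finset Γ) (b : ℕ → ℕ), b ∈ C → stemOK b τ → HasType τ Q F R → HasType τ Q' F' R' →
    ∃ u v, Q u ∧ Q' v ∧ Inter b u v ∧ ∀ γ, γ ∈ F u → γ ∈ F' v → γ ∈ R ∧ γ ∈ R' := by
  classical
  induction τ with
  | nil =>
    intro Q Q' F F' R R' b _ _ h h'
    refine ⟨[], [], h.1, h'.1, trivial, fun γ h1 h2 => ?_⟩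
    rw [h.2] at h1
    rw [h'.2] at h2
    exact ⟨h1, h2⟩
  | cons t τ ih =>
    intro Q Q' F F' R R' b hb hbt h h'
    obtain ⟨U, ρ, hUC, hUt, hUs, hUR, hUΨ⟩ := h
    obtain ⟨U', ρ', hUC', hUt', hUs', hUR', hUΨ'⟩ := h'
    obtain ⟨x, hxU, hbx, hxt, hxS⟩ := exists_avoid hUΨ hb hbt ρ (R' \ R) (fun γ hγ =>
      hUR γ (Finset.mem_sdiff.1 hγ).2)
    obtain ⟨y, hyU, hxy, hyt, hyS⟩ := exists_avoid hUΨ' (hUC hxU) hxt.le' ρ' (ρ x \ R') (fun γ hγ =>
      hUR' γ (Finset.mem_sdiff.1 hγ).2)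
    obtain ⟨u, v, hu, hv, huv, huF⟩ := ih _ _ _ _ _ _ y (hUC' hyU) (hUs' y hyU) (hUt x hxU) (hUt' y hyU)
    refine ⟨x :: u, y :: v, hu, hv, ⟨hbx, hxy, huv⟩, fun γ h1 h2 => ?_⟩
    obtain ⟨h3, h4⟩ := huF γ h1 h2
    have h5 : γ ∈ R' := by
      by_contra h5
      exact hyS γ (Finset.mem_sdiff.2 ⟨h3, h5⟩) h4
    have h6 : γ ∈ R := by
      by_contra h6
      exact hxS γ (Finset.mem_sdiff.2 ⟨h5, h6⟩) h3
    exact ⟨h6, h5⟩

/-- existence of types -/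
theorem type_exists (k : ℕ) : ∀ (Q : Tup → Prop) (F : Tup → Finset Γ) (b : ℕ → ℕ), Large k Q →
    (∀ u, Q u → Inc b u) → ∃ (R : Finset Γ) (τ : List (List ℕ)), HasType τ Q F R ∧ stemOK b τ ∧
      Large k (fun u => Q u ∧ R ⊆ F u) := by
  classical
  induction k with
  | zero =>
    intro Q F b hQ _
    exact ⟨F [], [], ⟨hQ, rfl⟩, trivial, hQ, Finset.Subset.refl _⟩
  | succ k ih =>
    intro Q F b hQ hinc
    rw [Large_succ] at hQ
    have h1 : ∀ c : ℕ → ℕ, ∃ (R : Finset Γ) (τ : List (List ℕ)), Large k (fun u => Q (c :: u)) →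
        (HasType τ (fun u => Q (c :: u)) (fun u => F (c :: u)) R ∧ stemOK c τ ∧
          Large k (fun u => Q (c :: u) ∧ R ⊆ F (c :: u))) := by
      intro c
      by_cases hc : Large k (fun u => Q (c :: u))
      · obtain ⟨R, τ, h⟩ := ih (fun u => Q (c :: u)) (fun u => F (c :: u)) c hc
          (fun u hu => (hinc _ hu).2)
        exact ⟨R, τ, fun _ => h⟩
      · exact ⟨∅, [], fun h => absurd h hc⟩
    choose ρ T hρ using h1
    obtain ⟨⟨τ, n⟩, hτ⟩ := pigeon hQ (fun c => (T c, (ρ c).card))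
    let V : Set (ℕ → ℕ) := {c | c ∈ {c | c ∈ C ∧ Large k (fun u => Q (c :: u))} ∧
      (T c, (ρ c).card) = (τ, n)}
    have hV : ¬ Bdd V := hτ
    -- a maximal root
    have h2 : ∃ R : Finset Γ, (¬ Bdd {c | c ∈ V ∧ R ⊆ ρ c}) ∧
        ∀ R' : Finset Γ, (¬ Bdd {c | c ∈ V ∧ R' ⊆ ρ c}) → R'.card ≤ R.card := by
      have hb : ∀ m : ℕ, (∃ R : Finset Γ, R.card = m ∧ ¬ Bdd {c | c ∈ V ∧ R ⊆ ρ c}) → m ≤ n := by
        rintro m ⟨R, rfl, hR⟩
        obtain ⟨c, hcV, hc⟩ := nonempty_of_not_Bdd hR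
        have h3 : (ρ c).card = n := (Prod.mk.inj hcV.2).2
        rw [← h3]
        exact Finset.card_le_card hc
      have h0 : ∃ R : Finset Γ, R.card = 0 ∧ ¬ Bdd {c | c ∈ V ∧ R ⊆ ρ c} := by
        refine ⟨∅, rfl, ?_⟩
        intro h
        exact hV (h.mono fun c hc => ⟨hc, Finset.empty_subset _⟩)
      obtain ⟨R, hR1, hR2⟩ := Nat.findGreatest_spec (P := fun m => ∃ R : Finset Γ, R.card = m ∧
        ¬ Bdd {c | c ∈ V ∧ R ⊆ ρ c}) (Nat.zero_le n) h0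
      refine ⟨R, hR2, fun R' hR' => ?_⟩
      rw [hR1]
      exact Nat.le_findGreatest (hb _ ⟨R', rfl, hR'⟩) ⟨R', rfl, hR'⟩
    obtain ⟨R, hR, hRmax⟩ := h2
    let U : Set (ℕ → ℕ) := {c | c ∈ V ∧ R ⊆ ρ c}
    have hUC : U ⊆ C := fun c hc => hc.1.1.1
    have hUT : ∀ c ∈ U, T c = τ := fun c hc => (Prod.mk.inj hc.1.2).1
    have hUL : ∀ c ∈ U, Large k (fun u => Q (c :: u)) := fun c hc => hc.1.1.2
    obtain ⟨t, hΨ, c₀, hc₀U, hc₀t⟩ := stem hUC hR
    refine ⟨R, t :: τ, ⟨U, ρ, hUC, ?_, ?_, ?_, hΨ⟩, ?_, ?_⟩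
    · intro c hc
      have := (hρ c (hUL c hc)).1
      rwa [hUT c hc] at this
    · intro c hc
      have := (hρ c (hUL c hc)).2.1
      rwa [hUT c hc] at this
    · intro γ hγ
      by_contra hcon
      have h3 : ¬ Bdd {c | c ∈ V ∧ insert γ R ⊆ ρ c} := by
        intro h
        apply hcon
        refine h.mono ?_
        rintro c ⟨hcU, hcγ⟩
        exact ⟨hcU.1, Finset.insert_subset hcγ hcU.2⟩
      have h4 := hRmax _ h3
      rw [Finset.card_insert_of_notMem hγ] at h4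
      omega
    · intro i hi
      obtain ⟨u, hu⟩ := (hUL c₀ hc₀U).exists
      exact ((hinc _ hu).1 i).trans (hc₀t i hi).le
    · rw [Large_succ]
      intro h
      apply hR
      refine h.mono fun c hc => ?_
      refine ⟨hUC hc, (hρ c (hUL c hc)).2.2.mono fun u hu => ?_⟩
      exact ⟨hu.1, hc.2.trans hu.2⟩

end Pool.Agent.Helper224.Bl
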