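import Pool.Agent.Helper224.Bl2

set_option autoImplicit false
open Filter Topology
open scoped ENNReal

namespace Pool.Agent.Helper224.Bl

/-- counting function -/
def cnt (u : Tup) (n m : ℕ) : ℕ := u.countP (fun x => decide (x n < m))

lemma cnt_cons (x : ℕ → ℕ) (u : Tup) (n m : ℕ) :
    cnt (x :: u) n m = cnt u n m + (if x n < m then 1 else 0) := by
  rw [cnt, cnt, List.countP_cons]
  by_cases h : x n < m
  · simp [h]
  · simp [h]

lemma cnt_le (u : Tup) (n m : ℕ) : cnt u n m ≤ u.length := List.countP_le_length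

lemma cnt_inter {b : ℕ → ℕ} : ∀ {u v : Tup}, Inter b u v → ∀ n m,
    cnt v n m ≤ cnt u n m ∧ cnt u n m ≤ cnt v n m + 1 ∧ (m ≤ b n → cnt u n m = 0 ∧ cnt v n m = 0) := by
  intro u
  induction u generalizing b with
  | nil =>
    intro v h n m
    cases v with
    | nil => exact ⟨le_rfl, Nat.le_succ _, fun _ => ⟨rfl, rfl⟩⟩
    | cons y v => exact h.elim
  | cons x u ih =>
    intro v h n m
    cases v with
    | nil => exact h.elim
    | cons y v =>
      obtain ⟨hbx, hxy, huv⟩ := h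
      obtain ⟨h1, h2, h3⟩ := ih huv n m
      rw [cnt_cons, cnt_cons]
      have hxy' : x n ≤ y n := hxy n
      have hbx' : b n ≤ x n := hbx n
      by_cases hy : y n < m
      · have hx : x n < m := lt_of_le_of_lt hxy' hy
        rw [if_pos hy, if_pos hx]
        refine ⟨by omega, by omega, fun h => by omega⟩
      · rw [if_neg hy]
        obtain ⟨h4, h5⟩ := h3 (not_lt.1 hy)
        rw [h4, h5]
        split_ifs with hx
        · exact ⟨by omega, by omega, fun h => by omega⟩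
        · exact ⟨by omega, by omega, fun h => by omega⟩

lemma cnt_all {u : Tup} {n m : ℕ} (h : ∀ x ∈ u, x n < m) : cnt u n m = u.length := by
  rw [cnt, List.countP_eq_length]
  intro x hx
  simpa using h x hx

lemma cnt_none {u : Tup} {n m : ℕ} (h : ∀ x ∈ u, m ≤ x n) : cnt u n m = 0 := by
  rw [cnt, List.countP_eq_zero]
  intro x hx
  simpa using h x hx

/-- the vectors -/
noncomputable def vec (u : Tup) : lp (fun _ : ℕ => ℝ) ∞ :=
  ⟨fun p => (cnt u (Nat.unpair p).1 (Nat.unpair p).2 : ℝ), by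
    refine memℓp_infty ⟨u.length, ?_⟩
    rintro _ ⟨p, rfl⟩
    show ‖(cnt u (Nat.unpair p).1 (Nat.unpair p).2 : ℝ)‖ ≤ _
    rw [Real.norm_eq_abs, abs_of_nonneg (Nat.cast_nonneg _)]
    exact_mod_cast cnt_le _ _ _⟩

lemma vec_apply (u : Tup) (p : ℕ) :
    (vec u : ℕ → ℝ) p = (cnt u (Nat.unpair p).1 (Nat.unpair p).2 : ℝ) := rfl

lemma vec_inter {b : ℕ → ℕ} {u v : Tup} (h : Inter b u v) : ‖vec u - vec v‖ ≤ 1 := by
  refine lp.norm_le_of_forall_le zero_le_one fun p => ?_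
  show ‖(vec u : ℕ → ℝ) p - (vec v : ℕ → ℝ) p‖ ≤ 1
  rw [vec_apply, vec_apply, Real.norm_eq_abs, abs_le]
  obtain ⟨h1, h2, _⟩ := cnt_inter h (Nat.unpair p).1 (Nat.unpair p).2
  have h1' : (cnt v (Nat.unpair p).1 (Nat.unpair p).2 : ℝ) ≤ cnt u (Nat.unpair p).1 (Nat.unpair p).2 := by
    exact_mod_cast h1
  have h2' : (cnt u (Nat.unpair p).1 (Nat.unpair p).2 : ℝ) ≤ cnt v (Nat.unpair p).1 (Nat.unpair p).2 + 1 := by
    exact_mod_cast h2
  constructor <;> linarith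

lemma exists_bound (u : Tup) : ∃ h : ℕ → ℕ, ∀ x ∈ u, ∀ n, x n ≤ h n := by
  induction u with
  | nil => exact ⟨fun _ => 0, fun x hx => by simp at hx⟩
  | cons a u ih =>
    obtain ⟨h, hh⟩ := ih
    refine ⟨fun n => max (a n) (h n), fun x hx n => ?_⟩
    rcases List.mem_cons.1 hx with rfl | hx
    · exact le_max_left _ _
    · exact (hh x hx n).trans (le_max_right _ _)

/-- No bi-Lipschitz embedding. -/
theorem main {Γ : Type*} (f : lp (fun _ : ℕ => ℝ) ∞ → lp (fun _ : Γ => ℝ) ∞) (D A : ℝ)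
    (hD : ∀ x y, ‖f x - f y‖ ≤ D * ‖x - y‖) (hA : ∀ x y, ‖x - y‖ ≤ A * ‖f x - f y‖)
    (hD0 : 0 ≤ D) (hA0 : 0 ≤ A)
    (hf : ∀ x, ∀ ε : ℝ, 0 < ε → Set.Finite {γ : Γ | ε ≤ |(f x : Γ → ℝ) γ|}) : False := by
  classical
  obtain ⟨k, hk⟩ := exists_nat_gt (A * (2 * (D + 1)))
  have hk0 : 0 < k := by
    have : (0:ℝ) < k := lt_of_le_of_lt (by positivity) hk
    exact_mod_cast this
  let g : Tup → Γ → ℝ := fun u γ => (f (vec u) : Γ → ℝ) γ
  let F : Tup → Finset Γ := fun u => (hf (vec u) 1 one_pos).toFinset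
  have hF : ∀ u γ, γ ∈ F u ↔ 1 ≤ |g u γ| := fun u γ => (hf (vec u) 1 one_pos).mem_toFinset
  obtain ⟨b₀, hb₀⟩ := nonempty_of_not_Bdd C_unbdd
  have hL0 := Large_Inc k b₀ hb₀
  obtain ⟨n, hn⟩ := hL0.pigeon (fun u => (F u).card)
  -- a maximal root
  have hroot : ∃ R : Finset Γ, Large k (fun u => ((Inc b₀ u ∧ u.length = k) ∧ (F u).card = n) ∧ R ⊆ F u) ∧
      ∀ R' : Finset Γ, Large k (fun u => ((Inc b₀ u ∧ u.length = k) ∧ (F u).card = n) ∧ R' ⊆ F u) →
        R'.card ≤ R.card := by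
    have hb : ∀ m : ℕ, (∃ R : Finset Γ, R.card = m ∧
        Large k (fun u => ((Inc b₀ u ∧ u.length = k) ∧ (F u).card = n) ∧ R ⊆ F u)) → m ≤ n := by
      rintro m ⟨R, rfl, hR⟩
      obtain ⟨u, ⟨_, hu2⟩, hu3⟩ := hR.exists
      rw [← hu2]
      exact Finset.card_le_card hu3
    have h0 : ∃ R : Finset Γ, R.card = 0 ∧
        Large k (fun u => ((Inc b₀ u ∧ u.length = k) ∧ (F u).card = n) ∧ R ⊆ F u) :=
      ⟨∅, rfl, hn.mono fun u hu => ⟨hu, Finset.empty_subset _⟩⟩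
    obtain ⟨R, hR1, hR2⟩ := Nat.findGreatest_spec (P := fun m => ∃ R : Finset Γ, R.card = m ∧
      Large k (fun u => ((Inc b₀ u ∧ u.length = k) ∧ (F u).card = n) ∧ R ⊆ F u)) (Nat.zero_le n) h0
    refine ⟨R, hR2, fun R' hR' => ?_⟩
    rw [hR1]
    exact Nat.le_findGreatest (hb _ ⟨R', rfl, hR'⟩) ⟨R', rfl, hR'⟩
  obtain ⟨R, hR, hRmax⟩ := hroot
  -- stabilise the values on the root
  obtain ⟨z, hz⟩ := hR.pigeon (fun u => fun γ : R => ⌊g u γ.1⌋)
  -- bad tuples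
  obtain ⟨q, hq⟩ := hz.pigeon (fun u => decide (∃ γ, γ ∉ R ∧ D + 1 < |g u γ|))
  have hqf : q = false := by
    by_contra hqt
    rw [Bool.not_eq_false] at hqt
    subst hqt
    obtain ⟨Rb, τ, hT, hst, hLb⟩ := type_exists k _ F b₀ hq (fun u hu => hu.1.1.1.1.1)
    have hsub : Rb ⊆ R := by
      have h1 := hRmax (R ∪ Rb) (hLb.mono fun u hu =>
        ⟨hu.1.1.1.1, Finset.union_subset hu.1.1.1.2 hu.2⟩)
      have h2 : R = R ∪ Rb := Finset.eq_of_subset_of_card_le Finset.subset_union_left h1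
      rw [h2]
      exact Finset.subset_union_right
    obtain ⟨u, v, hu, hv, huv, hfuv⟩ := pair_exists τ _ _ F F Rb Rb b₀ hb₀ hst hT hT
    have hu' : ∃ γ, γ ∉ R ∧ D + 1 < |g u γ| := by
      have := hu.2
      simpa using this
    obtain ⟨γ, hγR, hγ⟩ := hu'
    have h1 : γ ∈ F u := (hF u γ).2 (by linarith)
    have h2 : γ ∉ F v := fun h => hγR (hsub (hfuv γ h1 h).1)
    have h3 : |g v γ| < 1 := by
      rw [hF] at h2
      exact not_le.1 h2
    have h4 : |g u γ - g v γ| ≤ D := by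
      have h5 : ‖((f (vec u) - f (vec v) : lp (fun _ : Γ => ℝ) ∞) : Γ → ℝ) γ‖ ≤
          ‖f (vec u) - f (vec v)‖ := lp.norm_apply_le_norm ENNReal.top_ne_zero _ γ
      have h6 := hD (vec u) (vec v)
      have h7 := vec_inter huv
      have h8 : D * ‖vec u - vec v‖ ≤ D * 1 := mul_le_mul_of_nonneg_left h7 hD0
      calc |g u γ - g v γ| ≤ ‖f (vec u) - f (vec v)‖ := h5
        _ ≤ D := by linarith
    have h5 := abs_sub_abs_le_abs_sub (g u γ) (g v γ)
    linarith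
  subst hqf
  -- two separated good tuples
  obtain ⟨u, hu⟩ := hq.exists
  obtain ⟨h, hh⟩ := exists_bound u
  obtain ⟨j, rfl⟩ : ∃ j, k = j + 1 := ⟨k - 1, by omega⟩
  rw [Large_succ] at hq
  have hc : ∃ c, c ∈ {c | c ∈ C ∧ Large j (fun u =>
      (((((Inc b₀ (c :: u) ∧ (c :: u).length = j + 1) ∧ (F (c :: u)).card = n) ∧ R ⊆ F (c :: u)) ∧
        (fun γ : R => ⌊g (c :: u) γ.1⌋) = z) ∧
        decide (∃ γ, γ ∉ R ∧ D + 1 < |g (c :: u) γ|) = false))} ∧ ¬ c ≤ᶠ[atTop] h := by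
    by_contra hcon
    push Not at hcon
    exact hq ⟨h, fun c hc => hcon c hc⟩
  obtain ⟨c, ⟨_, hcL⟩, hch⟩ := hc
  obtain ⟨v, hv⟩ := hcL.exists
  have hex : ∃ p, h p < c p := by
    by_contra hcon
    push Not at hcon
    exact hch (Eventually.of_forall hcon)
  obtain ⟨p, hp⟩ := hex
  have hcu : cnt u p (c p) = j + 1 := by
    rw [cnt_all fun x hx => lt_of_le_of_lt (hh x hx p) hp]
    exact hu.1.1.1.1.2
  have hcv : cnt (c :: v) p (c p) = 0 := by
    refine cnt_none fun x hx => ?_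
    rcases List.mem_cons.1 hx with rfl | hx
    · exact le_rfl
    · exact hv.1.1.1.1.1.2.le x hx p
  have hfar : ((j + 1 : ℕ) : ℝ) ≤ ‖vec u - vec (c :: v)‖ := by
    have h1 : ‖((vec u - vec (c :: v) : lp (fun _ : ℕ => ℝ) ∞) : ℕ → ℝ) (Nat.pair p (c p))‖ ≤
        ‖vec u - vec (c :: v)‖ := lp.norm_apply_le_norm ENNReal.top_ne_zero _ _
    refine le_trans ?_ h1
    show _ ≤ ‖(vec u : ℕ → ℝ) (Nat.pair p (c p)) - (vec (c :: v) : ℕ → ℝ) (Nat.pair p (c p))‖
    rw [vec_apply, vec_apply, Nat.unpair_pair, hcu, hcv, Nat.cast_zero, sub_zero, Real.norm_eq_abs]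
    exact le_abs_self _
  have hnear : ‖f (vec u) - f (vec (c :: v))‖ ≤ 2 * (D + 1) := by
    refine lp.norm_le_of_forall_le (by positivity) fun γ => ?_
    show |g u γ - g (c :: v) γ| ≤ 2 * (D + 1)
    by_cases hγ : γ ∈ R
    · have h1 : ⌊g u γ⌋ = ⌊g (c :: v) γ⌋ := by
        have h2 := congrFun hu.1.2 ⟨γ, hγ⟩
        have h3 := congrFun hv.1.2 ⟨γ, hγ⟩
        simp only at h2 h3
        rw [h2, h3]
      have h4 := Int.abs_sub_lt_one_of_floor_eq_floor h1
      linarith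
    · have h1 : |g u γ| ≤ D + 1 := by
        have := hu.2
        simp only [decide_eq_false_iff_not] at this
        push Not at this
        exact this γ hγ
      have h2 : |g (c :: v) γ| ≤ D + 1 := by
        have := hv.2
        simp only [decide_eq_false_iff_not] at this
        push Not at this
        exact this γ hγ
      have h3 := abs_sub (g u γ) (g (c :: v) γ)
      linarith
  have hfin := hA (vec u) (vec (c :: v))
  have : A * ‖f (vec u) - f (vec (c :: v))‖ ≤ A * (2 * (D + 1)) := mul_le_mul_of_nonneg_left hnear hA0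
  linarith

end Pool.Agent.Helper224.Bl
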