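import Pool.Agent.Helper224.Bl3

set_option autoImplicit false
open Filter
open scoped ENNReal

namespace Pool.Agent.Helper224.Bl

/-- Main estimate for maps that are bounded at scale one. -/
theorem coarse_main {Γ : Type*} (f : lp (fun _ : ℕ => ℝ) ∞ → lp (fun _ : Γ => ℝ) ∞) (D : ℝ)
    (hD : ∀ x y, ‖x - y‖ ≤ 1 → ‖f x - f y‖ ≤ D)
    (hf : ∀ x, ∀ ε : ℝ, 0 < ε → Set.Finite {γ : Γ | ε ≤ |(f x : Γ → ℝ) γ|})
    (k : ℕ) (hk0 : 0 < k) : ∃ x y, (k : ℝ) ≤ ‖x - y‖ ∧ ‖f x - f y‖ ≤ 2 * (D + 1) := by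
  classical
  have hD0 : 0 ≤ D := by
    have h := hD 0 0 (by simp)
    simpa using h
  let g : Tup → Γ → ℝ := fun u γ => (f (vec u) : Γ → ℝ) γ
  let F : Tup → Finset Γ := fun u => (hf (vec u) 1 one_pos).toFinset
  have hF : ∀ u γ, γ ∈ F u ↔ 1 ≤ |g u γ| := fun u γ => (hf (vec u) 1 one_pos).mem_toFinset
  obtain ⟨b₀, hb₀⟩ := nonempty_of_not_Bdd C_unbdd
  have hL0 := Large_Inc k b₀ hb₀
  obtain ⟨n, hn⟩ := hL0.pigeon (fun u => (F u).card)
  -- a maximal root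
  have hroot : ∃ R : Finset Γ, Large k (fun u => ((Inc b₀ u ∧ u.length = k) ∧ (F u).card = n) ∧ R ⊆ F u) ∧
      ∀ R' : Finset Γ, Large k (fun u => ((Inc b₀ u ∧ u.length = k) ∧ (F u).card = n) ∧ R' ⊆ F u) →
        R'.card ≤ R.card := by
    have hb : ∀ m : ℕ, (∃ R : Finset Γ, R.card = m ∧
        Large k (fun u => ((Inc b₀ u ∧ u.length = k) ∧ (F u).card = n) ∧ R ⊆ F u)) → m ≤ n := by
      rintro m ⟨R, rfl, hR⟩
      obtain ⟨u, ⟨_, hu2⟩, hu3⟩ := hR.exists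
      rw [← hu2]
      exact Finset.card_le_card hu3
    have h0 : ∃ R : Finset Γ, R.card = 0 ∧
        Large k (fun u => ((Inc b₀ u ∧ u.length = k) ∧ (F u).card = n) ∧ R ⊆ F u) :=
      ⟨∅, rfl, hn.mono fun u hu => ⟨hu, Finset.empty_subset _⟩⟩
    obtain ⟨R, hR1, hR2⟩ := Nat.findGreatest_spec (P := fun m => ∃ R : Finset Γ, R.card = m ∧
      Large k (fun u => ((Inc b₀ u ∧ u.length = k) ∧ (F u).card = n) ∧ R ⊆ F u)) (Nat.zero_le n) h0
    refine ⟨R, hR2, fun R' hR' => ?_⟩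
    rw [hR1]
    exact Nat.le_findGreatest (hb _ ⟨R', rfl, hR'⟩) ⟨R', rfl, hR'⟩
  obtain ⟨R, hR, hRmax⟩ := hroot
  -- stabilise the values on the root
  obtain ⟨z, hz⟩ := hR.pigeon (fun u => fun γ : R => ⌊g u γ.1⌋)
  -- bad tuples
  obtain ⟨q, hq⟩ := hz.pigeon (fun u => decide (∃ γ, γ ∉ R ∧ D + 1 < |g u γ|))
  have hqf : q = false := by
    by_contra hqt
    rw [Bool.not_eq_false] at hqt
    subst hqt
    obtain ⟨Rb, τ, hT, hst, hLb⟩ := type_exists k _ F b₀ hq (fun u hu => hu.1.1.1.1.1)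
    have hsub : Rb ⊆ R := by
      have h1 := hRmax (R ∪ Rb) (hLb.mono fun u hu =>
        ⟨hu.1.1.1.1, Finset.union_subset hu.1.1.1.2 hu.2⟩)
      have h2 : R = R ∪ Rb := Finset.eq_of_subset_of_card_le Finset.subset_union_left h1
      rw [h2]
      exact Finset.subset_union_right
    obtain ⟨u, v, hu, hv, huv, hfuv⟩ := pair_exists τ _ _ F F Rb Rb b₀ hb₀ hst hT hT
    have hu' : ∃ γ, γ ∉ R ∧ D + 1 < |g u γ| := by
      have := hu.2
      simpa using this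
    obtain ⟨γ, hγR, hγ⟩ := hu'
    have h1 : γ ∈ F u := (hF u γ).2 (by linarith)
    have h2 : γ ∉ F v := fun h => hγR (hsub (hfuv γ h1 h).1)
    have h3 : |g v γ| < 1 := by
      rw [hF] at h2
      exact not_le.1 h2
    have h4 : |g u γ - g v γ| ≤ D := by
      have h5 : ‖((f (vec u) - f (vec v) : lp (fun _ : Γ => ℝ) ∞) : Γ → ℝ) γ‖ ≤
          ‖f (vec u) - f (vec v)‖ := lp.norm_apply_le_norm ENNReal.top_ne_zero _ γ
      have h6 := hD (vec u) (vec v) (vec_inter huv)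
      calc |g u γ - g v γ| ≤ ‖f (vec u) - f (vec v)‖ := h5
        _ ≤ D := h6
    have h5 := abs_sub_abs_le_abs_sub (g u γ) (g v γ)
    linarith
  subst hqf
  -- two separated good tuples
  obtain ⟨u, hu⟩ := hq.exists
  obtain ⟨h, hh⟩ := exists_bound u
  obtain ⟨j, rfl⟩ : ∃ j, k = j + 1 := ⟨k - 1, by omega⟩
  rw [Large_succ] at hq
  have hc : ∃ c, c ∈ {c | c ∈ C ∧ Large j (fun u =>
      (((((Inc b₀ (c :: u) ∧ (c :: u).length = j + 1) ∧ (F (c :: u)).card = n) ∧ R ⊆ F (c :: u)) ∧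
        (fun γ : R => ⌊g (c :: u) γ.1⌋) = z) ∧
        decide (∃ γ, γ ∉ R ∧ D + 1 < |g (c :: u) γ|) = false))} ∧ ¬ c ≤ᶠ[atTop] h := by
    by_contra hcon
    push Not at hcon
    exact hq ⟨h, fun c hc => hcon c hc⟩
  obtain ⟨c, ⟨_, hcL⟩, hch⟩ := hc
  obtain ⟨v, hv⟩ := hcL.exists
  have hex : ∃ p, h p < c p := by
    by_contra hcon
    push Not at hcon
    exact hch (Eventually.of_forall hcon)
  obtain ⟨p, hp⟩ := hex
  have hcu : cnt u p (c p) = j + 1 := by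
    rw [cnt_all fun x hx => lt_of_le_of_lt (hh x hx p) hp]
    exact hu.1.1.1.1.2
  have hcv : cnt (c :: v) p (c p) = 0 := by
    refine cnt_none fun x hx => ?_
    rcases List.mem_cons.1 hx with rfl | hx
    · exact le_rfl
    · exact hv.1.1.1.1.1.2.le x hx p
  have hfar : ((j + 1 : ℕ) : ℝ) ≤ ‖vec u - vec (c :: v)‖ := by
    have h1 : ‖((vec u - vec (c :: v) : lp (fun _ : ℕ => ℝ) ∞) : ℕ → ℝ) (Nat.pair p (c p))‖ ≤
        ‖vec u - vec (c :: v)‖ := lp.norm_apply_le_norm ENNReal.top_ne_zero _ _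
    refine le_trans ?_ h1
    show _ ≤ ‖(vec u : ℕ → ℝ) (Nat.pair p (c p)) - (vec (c :: v) : ℕ → ℝ) (Nat.pair p (c p))‖
    rw [vec_apply, vec_apply, Nat.unpair_pair, hcu, hcv, Nat.cast_zero, sub_zero, Real.norm_eq_abs]
    exact le_abs_self _
  have hnear : ‖f (vec u) - f (vec (c :: v))‖ ≤ 2 * (D + 1) := by
    refine lp.norm_le_of_forall_le (by positivity) fun γ => ?_
    show |g u γ - g (c :: v) γ| ≤ 2 * (D + 1)
    by_cases hγ : γ ∈ R
    · have h1 : ⌊g u γ⌋ = ⌊g (c :: v) γ⌋ := by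
        have h2 := congrFun hu.1.2 ⟨γ, hγ⟩
        have h3 := congrFun hv.1.2 ⟨γ, hγ⟩
        simp only at h2 h3
        rw [h2, h3]
      have h4 := Int.abs_sub_lt_one_of_floor_eq_floor h1
      linarith
    · have h1 : |g u γ| ≤ D + 1 := by
        have := hu.2
        simp only [decide_eq_false_iff_not] at this
        push Not at this
        exact this γ hγ
      have h2 : |g (c :: v) γ| ≤ D + 1 := by
        have := hv.2
        simp only [decide_eq_false_iff_not] at this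
        push Not at this
        exact this γ hγ
      have h3 := abs_sub (g u γ) (g (c :: v) γ)
      linarith
  exact ⟨vec u, vec (c :: v), hfar, hnear⟩


/-- scaled form -/
theorem coarse_scaled {Γ : Type*} (f : lp (fun _ : ℕ => ℝ) ∞ → lp (fun _ : Γ => ℝ) ∞)
    (hf : ∀ x, ∀ ε : ℝ, 0 < ε → Set.Finite {γ : Γ | ε ≤ |(f x : Γ → ℝ) γ|})
    (s D t K : ℝ) (hs : 0 < s) (ht : 0 < t) (hD : ∀ x y, ‖x - y‖ ≤ s → ‖f x - f y‖ ≤ D) :
    ∃ x y, K ≤ ‖x - y‖ ∧ ‖f x - f y‖ ≤ 2 * (D + t) := by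
  obtain ⟨k, hk⟩ := exists_nat_gt (K / s)
  obtain ⟨x, y, h1, h2⟩ := coarse_main (fun x => t⁻¹ • f (s • x)) (D / t) (by
      intro x y hxy
      rw [← smul_sub, norm_smul, Real.norm_eq_abs, abs_of_pos (inv_pos.2 ht), div_eq_inv_mul]
      refine mul_le_mul_of_nonneg_left (hD _ _ ?_) (inv_pos.2 ht).le
      rw [← smul_sub, norm_smul, Real.norm_eq_abs, abs_of_pos hs]
      nlinarith) (by
      intro x ε hε
      refine (hf (s • x) (t * ε) (by positivity)).subset ?_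
      intro γ hγ
      have hγ' : ε ≤ |((t⁻¹ • f (s • x) : lp (fun _ : Γ => ℝ) ∞) : Γ → ℝ) γ| := hγ
      rw [lp.coeFn_smul, Pi.smul_apply, smul_eq_mul, abs_mul, abs_of_pos (inv_pos.2 ht)] at hγ'
      show t * ε ≤ |(f (s • x) : Γ → ℝ) γ|
      calc t * ε ≤ t * (t⁻¹ * |(f (s • x) : Γ → ℝ) γ|) := by gcongr
        _ = |(f (s • x) : Γ → ℝ) γ| := by field_simp) (k + 1) (Nat.succ_pos k)
  refine ⟨s • x, s • y, ?_, ?_⟩
  · rw [← smul_sub, norm_smul, Real.norm_eq_abs, abs_of_pos hs]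
    have h3 : K < k * s := (div_lt_iff₀ hs).1 hk
    push_cast at h1
    nlinarith
  · have h3 : ‖t⁻¹ • f (s • x) - t⁻¹ • f (s • y)‖ ≤ 2 * (D / t + 1) := h2
    rw [← smul_sub, norm_smul, Real.norm_eq_abs, abs_of_pos (inv_pos.2 ht)] at h3
    have h4 : ‖f (s • x) - f (s • y)‖ = t * (t⁻¹ * ‖f (s • x) - f (s • y)‖) := by field_simp
    rw [h4]
    calc t * (t⁻¹ * ‖f (s • x) - f (s • y)‖) ≤ t * (2 * (D / t + 1)) := by gcongr
      _ = 2 * (D + t) := by field_simp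

end Pool.Agent.Helper224.Bl
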