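import Mathlib

set_option autoImplicit false
open MeasureTheory Filter Topology

namespace Pool.Agent.Helper224.Sw

/-- nodes of the binary tree -/
abbrev V : Type := List Bool

/-- `s` extends the first `j` bits of `w` -/
def Cone (w : ℕ → Bool) (j : ℕ) (s : V) : Prop := ∀ i < j, s[i]? = some (w i)

/-- successive families -/
def Succv (G : ℕ → Finset V) : Prop :=
  ∀ i j, i < j → ∀ s ∈ G i, ∀ t ∈ G j, s.length < t.length

/-- the special families -/
def Sch : ℕ → Set (Finset V)
  | 0 => {F | F.card ≤ 1}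
  | (r+1) => {F | ∃ (w : ℕ → Bool) (G : ℕ → Finset V) (l : ℕ), (∀ j, G j ∈ Sch r) ∧ Succv G ∧
      (∀ j, ∀ s ∈ G j, Cone w j s) ∧ F = (Finset.range l).biUnion G}

lemma Sch_zero (F : Finset V) : F ∈ Sch 0 ↔ F.card ≤ 1 := Iff.rfl

lemma Sch_succ (r : ℕ) (F : Finset V) : F ∈ Sch (r+1) ↔
    ∃ (w : ℕ → Bool) (G : ℕ → Finset V) (l : ℕ), (∀ j, G j ∈ Sch r) ∧ Succv G ∧
      (∀ j, ∀ s ∈ G j, Cone w j s) ∧ F = (Finset.range l).biUnion G := Iff.rfl

lemma Sch_hered {r : ℕ} : ∀ {F F' : Finset V}, F ∈ Sch r → F' ⊆ F → F' ∈ Sch r := by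
  induction r with
  | zero =>
    intro F F' hF h
    rw [Sch_zero] at *
    exact (Finset.card_le_card h).trans hF
  | succ r ih =>
    intro F F' hF h
    rw [Sch_succ] at *
    obtain ⟨w, G, l, hG, hs, hc, rfl⟩ := hF
    refine ⟨w, fun j => G j ∩ F', l, fun j => ih (hG j) Finset.inter_subset_left, ?_, ?_, ?_⟩
    · intro i j hij s hs' t ht
      exact hs i j hij s (Finset.mem_inter.1 hs').1 t (Finset.mem_inter.1 ht).1
    · intro j s hs'
      exact hc j s (Finset.mem_inter.1 hs').1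
    · ext s
      simp only [Finset.mem_biUnion, Finset.mem_inter]
      constructor
      · intro hs'
        obtain ⟨j, hj, hsj⟩ := Finset.mem_biUnion.1 (h hs')
        exact ⟨j, hj, hsj, hs'⟩
      · rintro ⟨j, hj, hsj, hs'⟩
        exact hs'

lemma empty_mem_Sch (r : ℕ) : (∅ : Finset V) ∈ Sch r := by
  induction r with
  | zero => rw [Sch_zero]; simp
  | succ r ih =>
    rw [Sch_succ]
    refine ⟨fun _ => false, fun _ => ∅, 0, fun _ => ih, ?_, ?_, ?_⟩
    · intro i j _ s hs
      simp at hs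
    · intro j s hs
      simp at hs
    · simp

/-- admissible families -/
def Adm (F : ℕ → Finset V) : Prop := (∀ r, F r ∈ Sch r) ∧ Succv F

/-- the weight of a family -/
noncomputable def wt (F : ℕ → Finset V) (l : ℕ) (s : V) : ℝ :=
  ∑ r ∈ Finset.range l, (1/2 : ℝ)^r * (if s ∈ F r then 1 else 0)

lemma wt_nonneg (F : ℕ → Finset V) (l : ℕ) (s : V) : 0 ≤ wt F l s := by
  refine Finset.sum_nonneg fun r _ => ?_
  split_ifs <;> positivity

lemma wt_le_two (F : ℕ → Finset V) (l : ℕ) (s : V) : wt F l s ≤ 2 := by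
  have h1 : wt F l s ≤ ∑ r ∈ Finset.range l, (1/2 : ℝ)^r := by
    refine Finset.sum_le_sum fun r _ => ?_
    split_ifs
    · rw [mul_one]
    · rw [mul_zero]; positivity
  have h2 : ∀ l : ℕ, ∑ r ∈ Finset.range l, (1/2 : ℝ)^r = 2 - 2 * (1/2)^l := by
    intro l
    induction l with
    | zero => simp
    | succ l ih => rw [Finset.sum_range_succ, ih]; ring
  rw [h2] at h1
  have : (0:ℝ) < (1/2)^l := by positivity
  linarith

/-- the norming set -/
def IsN (h : V →₀ ℝ) : Prop := ∃ (F : ℕ → Finset V) (l : ℕ), Adm F ∧ ∀ s, |h s| ≤ wt F l s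

lemma adm_single (s : V) : Adm (fun r => if r = 0 then {s} else ∅) := by
  constructor
  · intro r
    by_cases h : r = 0
    · subst h
      simp [Sch_zero]
    · simp only [if_neg h]
      exact empty_mem_Sch r
  · intro i j hij t ht u hu
    have : j ≠ 0 := by omega
    simp [this] at hu

lemma isN_single (s : V) (c : ℝ) (hc : |c| ≤ 1) : IsN (Finsupp.single s c) := by
  refine ⟨_, 1, adm_single s, fun t => ?_⟩
  simp only [wt, Finset.range_one, Finset.sum_singleton, pow_zero, one_mul]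
  rw [Finsupp.single_apply]
  by_cases h : s = t
  · subst h
    simpa using hc
  · have : t ≠ s := fun h' => h h'.symm
    simp [h, this]

lemma IsN.mono {h h' : V →₀ ℝ} (hh : IsN h) (hle : ∀ s, |h' s| ≤ |h s|) : IsN h' := by
  obtain ⟨F, l, hF, hw⟩ := hh
  exact ⟨F, l, hF, fun s => (hle s).trans (hw s)⟩

/-- the duality pairing -/
noncomputable def pair (f : V →₀ ℝ) (x : V → ℝ) : ℝ := Finsupp.linearCombination ℝ x f

lemma pair_eq_sum (f : V →₀ ℝ) (x : V → ℝ) : pair f x = ∑ n ∈ f.support, f n * x n := by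
  rw [pair, Finsupp.linearCombination_apply, Finsupp.sum]
  rfl

lemma pair_eq_sum_of_subset (f : V →₀ ℝ) (x : V → ℝ) (A : Finset V) (h : f.support ⊆ A) :
    pair f x = ∑ n ∈ A, f n * x n := by
  rw [pair_eq_sum]
  refine Finset.sum_subset h fun n _ hn => ?_
  rw [Finsupp.notMem_support_iff.1 hn, zero_mul]

lemma pair_add_left (f g : V →₀ ℝ) (x : V → ℝ) : pair (f + g) x = pair f x + pair g x :=
  map_add _ _ _

lemma pair_smul_left (c : ℝ) (f : V →₀ ℝ) (x : V → ℝ) : pair (c • f) x = c * pair f x :=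
  map_smul _ _ _

lemma pair_single_left (n : V) (s : ℝ) (x : V → ℝ) : pair (Finsupp.single n s) x = s * x n := by
  rw [pair, Finsupp.linearCombination_single, smul_eq_mul]

lemma pair_add_right (f : V →₀ ℝ) (x y : V → ℝ) : pair f (x + y) = pair f x + pair f y := by
  simp only [pair_eq_sum, Pi.add_apply, mul_add, Finset.sum_add_distrib]

lemma pair_smul_right (f : V →₀ ℝ) (c : ℝ) (x : V → ℝ) : pair f (c • x) = c * pair f x := by
  simp only [pair_eq_sum, Pi.smul_apply, smul_eq_mul, Finset.mul_sum]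
  refine Finset.sum_congr rfl fun n _ => by ring

lemma pair_zero_right (f : V →₀ ℝ) : pair f 0 = 0 := by
  simp [pair_eq_sum]

/-- The underlying vector space. -/
def XX : Submodule ℝ (V → ℝ) where
  carrier := {x | ∃ C, ∀ f, IsN f → |pair f x| ≤ C}
  add_mem' := by
    rintro x y ⟨C, hC⟩ ⟨D, hD⟩
    refine ⟨C + D, fun f hf => ?_⟩
    rw [pair_add_right]
    exact (abs_add_le _ _).trans (add_le_add (hC f hf) (hD f hf))
  zero_mem' := ⟨0, fun f _ => by rw [pair_zero_right, abs_zero]⟩
  smul_mem' := by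
    rintro c x ⟨C, hC⟩
    refine ⟨|c| * C, fun f hf => ?_⟩
    rw [pair_smul_right, abs_mul]
    exact mul_le_mul_of_nonneg_left (hC f hf) (abs_nonneg _)

/-- The Banach space. -/
def X : Type := XX

noncomputable instance : AddCommGroup X := inferInstanceAs (AddCommGroup XX)
noncomputable instance : Module ℝ X := inferInstanceAs (Module ℝ XX)

/-- the underlying function -/
def X.val (x : X) : V → ℝ := Subtype.val (p := fun x => x ∈ XX) x

/-- constructor -/
def X.mk (x : V → ℝ) (h : ∃ C, ∀ f, IsN f → |pair f x| ≤ C) : X := (⟨x, h⟩ : XX)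

@[simp] lemma X.mk_val (x : V → ℝ) (h : ∃ C, ∀ f, IsN f → |pair f x| ≤ C) : (X.mk x h).val = x := rfl

lemma X.ext {x y : X} (h : x.val = y.val) : x = y := Subtype.ext h

lemma X.prop (x : X) : ∃ C, ∀ f, IsN f → |pair f x.val| ≤ C :=
  Subtype.property (p := fun x => x ∈ XX) x

@[simp] lemma X.val_add (x y : X) : (x + y).val = x.val + y.val := rfl
@[simp] lemma X.val_sub (x y : X) : (x - y).val = x.val - y.val := rfl
@[simp] lemma X.val_neg (x : X) : (-x).val = -x.val := rfl
@[simp] lemma X.val_zero : (0 : X).val = 0 := rfl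
@[simp] lemma X.val_smul (c : ℝ) (x : X) : (c • x).val = c • x.val := rfl

/-- the index set -/
def NN : Set (V →₀ ℝ) := {f | IsN f}

/-- embedding in `ℓ^∞` -/
noncomputable def emb : X →ₗ[ℝ] lp (fun _ : NN => ℝ) ⊤ where
  toFun x := ⟨fun f => pair f.1 x.val, by
    obtain ⟨C, hC⟩ := x.prop
    refine memℓp_infty ⟨C, ?_⟩
    rintro _ ⟨f, rfl⟩
    exact hC f.1 f.2⟩
  map_add' x y := by
    ext f
    exact pair_add_right _ _ _
  map_smul' c x := by
    ext f
    exact pair_smul_right _ _ _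

lemma emb_apply (x : X) (f : NN) : (emb x : NN → ℝ) f = pair f.1 x.val := rfl

lemma emb_injective : Function.Injective emb := by
  intro x y hxy
  apply X.ext
  ext n
  have h1 : pair (Finsupp.single n 1) x.val = pair (Finsupp.single n 1) y.val :=
    congrFun (congrArg (fun z : lp (fun _ : NN => ℝ) ⊤ => (z : NN → ℝ)) hxy)
      ⟨Finsupp.single n 1, isN_single n 1 (by simp)⟩
  rwa [pair_single_left, pair_single_left, one_mul, one_mul] at h1

noncomputable instance : NormedAddCommGroup X := NormedAddCommGroup.induced X _ emb emb_injective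
noncomputable instance : NormedSpace ℝ X := NormedSpace.induced ℝ X _ emb

lemma norm_def (x : X) : ‖x‖ = ‖emb x‖ := rfl

lemma pair_le_norm (x : X) {f : V →₀ ℝ} (hf : IsN f) : |pair f x.val| ≤ ‖x‖ := by
  have := lp.norm_apply_le_norm (ENNReal.top_ne_zero) (emb x) ⟨f, hf⟩
  rw [norm_def]
  exact this

lemma norm_le {x : X} {C : ℝ} (hC : 0 ≤ C) (h : ∀ f, IsN f → |pair f x.val| ≤ C) : ‖x‖ ≤ C := by
  rw [norm_def]
  exact lp.norm_le_of_forall_le hC fun f => h f.1 f.2

lemma exists_pair_gt {x : X} {r : ℝ} (hr : 0 ≤ r) (h : r < ‖x‖) : ∃ f, IsN f ∧ r < |pair f x.val| := by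
  by_contra hne
  push Not at hne
  exact absurd (norm_le hr hne) (not_le.2 h)

lemma isometry_emb : Isometry (emb : X → lp (fun _ : NN => ℝ) ⊤) :=
  AddMonoidHomClass.isometry_of_norm emb fun _ => rfl

instance : CompleteSpace X := by
  rw [completeSpace_iff_isComplete_range isometry_emb.isUniformInducing]
  apply IsClosed.isComplete
  have hcoord : ∀ h : NN, Continuous (fun y : lp (fun _ : NN => ℝ) ⊤ => (y : NN → ℝ) h) := by
    intro h
    exact (lp.evalCLM ℝ (fun _ : NN => ℝ) h (p := ⊤)).continuous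
  have hrange : Set.range (emb : X → lp (fun _ : NN => ℝ) ⊤) =
      ⋂ h : NN, {y : lp (fun _ : NN => ℝ) ⊤ | (y : NN → ℝ) h = ∑ s ∈ h.1.support, h.1 s *
        (y : NN → ℝ) ⟨Finsupp.single s 1, isN_single s 1 (by simp)⟩} := by
    ext y
    simp only [Set.mem_range, Set.mem_iInter, Set.mem_ofPred_eq]
    constructor
    · rintro ⟨x, rfl⟩ h
      have h1 : ∀ s : V, (emb x : NN → ℝ) ⟨Finsupp.single s 1, isN_single s 1 (by simp)⟩ = x.val s := by
        intro s
        show pair (Finsupp.single s 1) x.val = x.val s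
        rw [pair_single_left, one_mul]
      simp only [h1]
      exact pair_eq_sum _ _
    · intro hy
      let x : V → ℝ := fun s => (y : NN → ℝ) ⟨Finsupp.single s 1, isN_single s 1 (by simp)⟩
      have hx : ∀ h : NN, pair h.1 x = (y : NN → ℝ) h := by
        intro h
        rw [hy h]
        exact pair_eq_sum _ _
      refine ⟨X.mk x ⟨‖y‖, fun f hf => ?_⟩, ?_⟩
      · rw [hx ⟨f, hf⟩]
        exact lp.norm_apply_le_norm (ENNReal.top_ne_zero) y ⟨f, hf⟩
      · ext h
        exact hx h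
  rw [hrange]
  refine isClosed_iInter fun h => isClosed_eq (hcoord h) ?_
  exact continuous_finsetSum _ fun s _ => (hcoord _).const_mul _

end Pool.Agent.Helper224.Sw
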