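import Pool.Agent.Helper224.Sw1

set_option autoImplicit false
open MeasureTheory Filter Topology

namespace Pool.Agent.Helper224.Sw

lemma exists_subseq_cantor (u : ℕ → ℕ → Bool) : ∃ (w : ℕ → Bool) (κ : ℕ → ℕ), StrictMono κ ∧
    ∀ i, ∀ᶠ k in atTop, ∀ j < i, u (κ k) j = w j := by
  obtain ⟨w, κ, hκ, hlim⟩ := CompactSpace.tendsto_subseq u
  refine ⟨w, κ, hκ, fun i => ?_⟩
  have h1 : ∀ j, ∀ᶠ k in atTop, u (κ k) j = w j := by
    intro j
    have := (tendsto_pi_nhds.1 hlim) j
    rw [nhds_discrete, tendsto_pure] at this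
    exact this
  have h2 : ∀ᶠ k in atTop, ∀ j ∈ Finset.range i, u (κ k) j = w j := by
    rw [Finset.eventually_all]
    exact fun j _ => h1 j
  filter_upwards [h2] with k hk j hj
  exact hk j (Finset.mem_range.2 hj)

lemma Succv.disjoint {G : ℕ → Finset V} (h : Succv G) {i j : ℕ} (hij : i ≠ j) :
    Disjoint (G i) (G j) := by
  rw [Finset.disjoint_left]
  intro s hi hj
  rcases lt_or_gt_of_ne hij with hlt | hlt
  · exact lt_irrefl _ (h i j hlt s hi s hj)
  · exact lt_irrefl _ (h j i hlt s hj s hi)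

lemma Succv.inter {G : ℕ → Finset V} (h : Succv G) (B : Finset V) : Succv (fun j => G j ∩ B) := by
  intro i j hij s hs t ht
  exact h i j hij s (Finset.mem_inter.1 hs).1 t (Finset.mem_inter.1 ht).1

lemma lemA (r : ℕ) : ∀ (F : ℕ → Finset V) (y : ℕ → V → ℝ) (δ : ℝ), 0 < δ → (∀ k, F k ∈ Sch r) →
    (∀ k, ∀ s ∈ F k, k ≤ s.length) → (∀ k, δ ≤ ∑ s ∈ F k, |y k s|) →
    ∃ δ' > 0, ∃ (w : ℕ → Bool) (κ : ℕ → ℕ), StrictMono κ ∧ ∀ i, ∀ᶠ k in atTop,
      ∃ F' ⊆ F (κ k), δ' ≤ ∑ s ∈ F', |y (κ k) s| ∧ ∀ s ∈ F', Cone w i s := by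
  classical
  induction r with
  | zero =>
    intro F y δ hδ hF hlev hsum
    have h1 : ∀ k, ∃ s, F k = {s} := by
      intro k
      have hne : (F k).Nonempty := by
        by_contra hcon
        rw [Finset.not_nonempty_iff_eq_empty] at hcon
        have := hsum k
        rw [hcon, Finset.sum_empty] at this
        linarith
      have hc := (Sch_zero _).1 (hF k)
      have hc' := Finset.card_pos.2 hne
      exact Finset.card_eq_one.1 (le_antisymm hc hc')
    choose s hs using h1
    obtain ⟨w, κ, hκ, hw⟩ := exists_subseq_cantor (fun k j => ((s k)[j]?).getD false)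
    refine ⟨δ, hδ, w, κ, hκ, fun i => ?_⟩
    filter_upwards [hw i, eventually_ge_atTop i] with k hk hik
    refine ⟨F (κ k), Finset.Subset.refl _, hsum _, ?_⟩
    intro t ht j hj
    have hst : t = s (κ k) := by
      rw [hs] at ht
      exact Finset.mem_singleton.1 ht
    have hlen : j < t.length := by
      have h2 := hlev (κ k) t ht
      have h3 := hκ.id_le k
      simp only [id] at h3
      omega
    have h4 := hk j hj
    rw [← hst] at h4
    rw [List.getElem?_eq_getElem hlen] at h4 ⊢
    simp only [Option.getD_some] at h4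
    rw [h4]
  | succ r ih =>
    intro F y δ hδ hF hlev hsum
    have h1 : ∀ k, ∃ (w : ℕ → Bool) (G : ℕ → Finset V) (l : ℕ), (∀ j, G j ∈ Sch r) ∧ Succv G ∧
      (∀ j, ∀ s ∈ G j, Cone w j s) ∧ F k = (Finset.range l).biUnion G ∧ ∀ j, l ≤ j → G j = ∅ := by
      intro k
      obtain ⟨w, G, l, hG, hs, hc, hF'⟩ := (Sch_succ r (F k)).1 (hF k)
      refine ⟨w, fun j => if j < l then G j else ∅, l, ?_, ?_, ?_, ?_, ?_⟩
      · intro j
        show (if j < l then G j else ∅) ∈ Sch r
        split_ifs
        · exact hG j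
        · exact empty_mem_Sch r
      · intro i j hij s hs' t ht
        by_cases hi : i < l
        · by_cases hj : j < l
          · simp only [if_pos hi, if_pos hj] at hs' ht
            exact hs i j hij s hs' t ht
          · simp [if_neg hj] at ht
        · simp [if_neg hi] at hs'
      · intro j s hs'
        by_cases hj : j < l
        · simp only [if_pos hj] at hs'
          exact hc j s hs'
        · simp [if_neg hj] at hs'
      · rw [hF']
        refine Finset.biUnion_congr rfl fun j hj => ?_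
        rw [if_pos (Finset.mem_range.1 hj)]
      · intro j hj
        exact if_neg (not_lt.2 hj)
    choose w' G l hG hs hc hFG hGe using h1
    have hsub : ∀ k j, G k j ⊆ F k := by
      intro k j s hs'
      by_cases hj : j < l k
      · rw [hFG]
        exact Finset.mem_biUnion.2 ⟨j, Finset.mem_range.2 hj, hs'⟩
      · rw [hGe k j (not_lt.1 hj)] at hs'
        simp at hs'
    by_cases h : ∃ (J : ℕ) (δ₁ : ℝ), 0 < δ₁ ∧ ∃ᶠ k in atTop,
        δ₁ ≤ ∑ j ∈ Finset.range J, ∑ s ∈ G k j, |y k s|
    · obtain ⟨J, δ₁, hδ₁, hfreq⟩ := h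
      have hJ : 0 < J := by
        rcases Nat.eq_zero_or_pos J with h0 | h0
        · subst h0
          obtain ⟨k, hk⟩ := hfreq.exists
          rw [Finset.range_zero, Finset.sum_empty] at hk
          linarith
        · exact h0
      have hJ' : (0:ℝ) < J := by exact_mod_cast hJ
      have h2 : ∃ j ∈ Finset.range J, ∃ᶠ k in atTop, δ₁ / J ≤ ∑ s ∈ G k j, |y k s| := by
        by_contra hcon
        push Not at hcon
        have h3 : ∀ᶠ k in atTop, ∀ j ∈ Finset.range J, ∑ s ∈ G k j, |y k s| < δ₁ / J := by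
          rw [Finset.eventually_all]
          intro j hj
          have := hcon j hj
          exact this
        obtain ⟨k, hk1, hk2⟩ := (hfreq.and_eventually h3).exists
        have h4 : ∑ j ∈ Finset.range J, ∑ s ∈ G k j, |y k s| < ∑ j ∈ Finset.range J, δ₁ / J :=
          Finset.sum_lt_sum_of_nonempty (Finset.nonempty_range_iff.2 hJ.ne') hk2
        rw [Finset.sum_const, Finset.card_range, nsmul_eq_mul, mul_div_cancel₀ _ hJ'.ne'] at h4
        linarith
      obtain ⟨j, _, hj⟩ := h2
      obtain ⟨κ₁, hκ₁, hκ₁'⟩ := extraction_of_frequently_atTop hj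
      obtain ⟨δ', hδ', w, κ₂, hκ₂, hfin⟩ := ih (fun k => G (κ₁ k) j) (fun k => y (κ₁ k)) (δ₁ / J)
        (by positivity) (fun k => hG _ _)
        (fun k s hs' => (hκ₁.id_le k).trans (hlev (κ₁ k) s (hsub _ _ hs'))) hκ₁'
      refine ⟨δ', hδ', w, κ₁ ∘ κ₂, hκ₁.comp hκ₂, fun i => ?_⟩
      filter_upwards [hfin i] with k hk
      obtain ⟨F', hF', h5, h6⟩ := hk
      exact ⟨F', hF'.trans (hsub _ _), h5, h6⟩
    · push Not at h
      obtain ⟨w, κ, hκ, hw⟩ := exists_subseq_cantor w'
      refine ⟨δ / 2, by positivity, w, κ, hκ, fun i => ?_⟩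
      have h2 : ∀ᶠ k in atTop, ∑ j ∈ Finset.range i, ∑ s ∈ G (κ k) j, |y (κ k) s| < δ / 2 :=
        hκ.tendsto_atTop.eventually (h i (δ / 2) (by positivity))
      filter_upwards [hw i, h2] with k hk1 hk2
      refine ⟨((Finset.range (l (κ k))).filter (fun j => i ≤ j)).biUnion (G (κ k)), ?_, ?_, ?_⟩
      · intro s hs'
        obtain ⟨j, _, hj⟩ := Finset.mem_biUnion.1 hs'
        exact hsub _ _ hj
      · set F' := ((Finset.range (l (κ k))).filter (fun j => i ≤ j)).biUnion (G (κ k)) with hF'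
        have h3 : F (κ k) ⊆ F' ∪ (Finset.range i).biUnion (G (κ k)) := by
          intro s hs'
          rw [hFG] at hs'
          obtain ⟨j, hj, hsj⟩ := Finset.mem_biUnion.1 hs'
          rw [Finset.mem_union]
          by_cases hij : i ≤ j
          · left
            exact Finset.mem_biUnion.2 ⟨j, Finset.mem_filter.2 ⟨hj, hij⟩, hsj⟩
          · right
            exact Finset.mem_biUnion.2 ⟨j, Finset.mem_range.2 (not_le.1 hij), hsj⟩
        have h4 : ∑ s ∈ F (κ k), |y (κ k) s| ≤ ∑ s ∈ F', |y (κ k) s| +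
            ∑ s ∈ (Finset.range i).biUnion (G (κ k)), |y (κ k) s| := by
          refine (Finset.sum_le_sum_of_subset_of_nonneg h3 fun _ _ _ => abs_nonneg _).trans ?_
          rw [← Finset.sum_union_inter]
          have : 0 ≤ ∑ s ∈ F' ∩ (Finset.range i).biUnion (G (κ k)), |y (κ k) s| :=
            Finset.sum_nonneg fun _ _ => abs_nonneg _
          linarith
        have h5 : ∑ s ∈ (Finset.range i).biUnion (G (κ k)), |y (κ k) s| =
            ∑ j ∈ Finset.range i, ∑ s ∈ G (κ k) j, |y (κ k) s| :=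
          Finset.sum_biUnion fun a _ b _ hab => (hs (κ k)).disjoint hab
        have h6 := hsum (κ k)
        linarith
      · intro s hs' j hj
        obtain ⟨j', hj', hsj⟩ := Finset.mem_biUnion.1 hs'
        have h7 := (Finset.mem_filter.1 hj').2
        rw [← hk1 j hj]
        exact hc (κ k) j' s hsj j (lt_of_lt_of_le hj h7)

/-- domination by admissible weights on finite sets -/
def Dom (g : V → ℝ) : Prop :=
  ∀ A : Finset V, ∃ (F : ℕ → Finset V) (l : ℕ), Adm F ∧ ∀ s ∈ A, g s ≤ wt F l s

lemma length_ge_of_succv {B : ℕ → Finset V} (hB : Succv B) (hne : ∀ k, (B k).Nonempty) :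
    ∀ k, ∀ s ∈ B k, k ≤ s.length := by
  intro k
  induction k with
  | zero => intro s _; exact Nat.zero_le _
  | succ k ih =>
    intro s hs
    obtain ⟨t, ht⟩ := hne k
    have h1 := ih t ht
    have h2 := hB k (k+1) (Nat.lt_succ_self k) t ht s hs
    omega

lemma sum_wt (F : ℕ → Finset V) (l : ℕ) (B : Finset V) (y : V → ℝ) (hFB : ∀ r, F r ⊆ B) :
    ∑ s ∈ B, wt F l s * y s = ∑ r ∈ Finset.range l, (1/2 : ℝ)^r * ∑ s ∈ F r, y s := by
  classical
  simp only [wt, Finset.sum_mul]
  rw [Finset.sum_comm]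
  refine Finset.sum_congr rfl fun r _ => ?_
  rw [Finset.mul_sum]
  have h1 : ∀ s, (1/2 : ℝ)^r * (if s ∈ F r then (1:ℝ) else 0) * y s =
      if s ∈ F r then (1/2 : ℝ)^r * y s else 0 := by
    intro s
    split_ifs <;> ring
  simp only [h1]
  rw [Finset.sum_ite_mem, Finset.inter_eq_right.2 (hFB r)]

/-- The key lemma. -/
theorem key (y : ℕ → V → ℝ) (B : ℕ → Finset V) (hB : Succv B) (ε : ℝ) (hε : 0 < ε)
    (h : ∀ k, ∃ (F : ℕ → Finset V) (l : ℕ), Adm F ∧ ε ≤ ∑ s ∈ B k, wt F l s * |y k s|) :
    ∃ δ > 0, ∃ g : V → ℝ, (∀ s, 0 ≤ g s) ∧ Dom g ∧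
      ∃ᶠ k in atTop, δ ≤ ∑ s ∈ B k, g s * |y k s| := by
  classical
  have hne : ∀ k, (B k).Nonempty := by
    intro k
    by_contra hcon
    rw [Finset.not_nonempty_iff_eq_empty] at hcon
    obtain ⟨F, l, _, hs⟩ := h k
    rw [hcon, Finset.sum_empty] at hs
    linarith
  have hlev := length_ge_of_succv hB hne
  choose F₀ l hF₀ hs₀ using h
  -- restrict to the blocks
  let F : ℕ → ℕ → Finset V := fun k r => F₀ k r ∩ B k
  have hFB : ∀ k r, F k r ⊆ B k := fun k r => Finset.inter_subset_right
  have hFSch : ∀ k r, F k r ∈ Sch r := fun k r =>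
    Sch_hered ((hF₀ k).1 r) Finset.inter_subset_left
  have hFsucc : ∀ k, Succv (F k) := fun k => (hF₀ k).2.inter _
  have hsum : ∀ k, ε ≤ ∑ r ∈ Finset.range (l k), (1/2 : ℝ)^r * ∑ s ∈ F k r, |y k s| := by
    intro k
    rw [← sum_wt (F k) (l k) (B k) (fun s => |y k s|) (hFB k)]
    refine (hs₀ k).trans (le_of_eq ?_)
    refine Finset.sum_congr rfl fun s hs => ?_
    congr 1
    simp only [wt, F, Finset.mem_inter, hs, and_true]
  by_cases hA : ∃ (r : ℕ) (δ : ℝ), 0 < δ ∧ ∃ᶠ k in atTop, δ ≤ ∑ s ∈ F k r, |y k s|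
  · -- Case A
    obtain ⟨r, δ, hδ, hfreq⟩ := hA
    obtain ⟨κ₀, hκ₀, hκ₀'⟩ := extraction_of_frequently_atTop hfreq
    obtain ⟨δ', hδ', w, κ, hκ, hw⟩ := lemA r (fun k => F (κ₀ k) r) (fun k => y (κ₀ k)) δ hδ
      (fun k => hFSch _ _)
      (fun k s hs => (hκ₀.id_le k).trans (hlev (κ₀ k) s (hFB _ _ hs))) hκ₀'
    obtain ⟨ρ, hρ, hρ'⟩ := extraction_forall_of_eventually hw
    choose H hHsub hHsum hHcone using hρ'
    let τ : ℕ → ℕ := fun i => κ₀ (κ (ρ i))
    have hτ : StrictMono τ := hκ₀.comp (hκ.comp hρ)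
    have hHB : ∀ i, H i ⊆ B (τ i) := fun i => (hHsub i).trans (hFB _ _)
    have hHsucc : Succv H := by
      intro i j hij s hs t ht
      exact hB _ _ (hτ hij) s (hHB i hs) t (hHB j ht)
    have hHSch : ∀ i, H i ∈ Sch r := fun i => Sch_hered (hFSch _ _) (hHsub i)
    refine ⟨(1/2 : ℝ)^(r+1) * δ', by positivity,
      fun s => if ∃ i, s ∈ H i then (1/2 : ℝ)^(r+1) else 0, ?_, ?_, ?_⟩
    · intro s
      show (0:ℝ) ≤ if ∃ i, s ∈ H i then (1/2 : ℝ)^(r+1) else 0
      split_ifs <;> positivity
    · intro A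
      let L : ℕ := A.sup List.length + 1
      refine ⟨fun r' => if r' = r + 1 then (Finset.range L).biUnion H else ∅, r + 2, ⟨?_, ?_⟩, ?_⟩
      · intro r'
        show (if r' = r + 1 then (Finset.range L).biUnion H else ∅) ∈ Sch r'
        split_ifs with h1
        · subst h1
          rw [Sch_succ]
          exact ⟨w, H, L, hHSch, hHsucc, hHcone, rfl⟩
        · exact empty_mem_Sch r'
      · intro i j hij s hs t ht
        by_cases hi : i = r + 1
        · have hj : j ≠ r + 1 := by omega
          simp [if_neg hj] at ht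
        · simp [if_neg hi] at hs
      · intro s hs
        show (if ∃ i, s ∈ H i then (1/2 : ℝ)^(r+1) else 0) ≤ _
        by_cases h1 : ∃ i, s ∈ H i
        · obtain ⟨i, hi⟩ := h1
          have h2 : ∃ i, s ∈ H i := ⟨i, hi⟩
          rw [if_pos h2]
          have h3 : i ≤ s.length := by
            have h4 := hlev (τ i) s (hHB i hi)
            exact (hτ.id_le i).trans h4
          have h5 : s.length ≤ A.sup List.length := Finset.le_sup (f := List.length) hs
          have h6 : s ∈ (Finset.range L).biUnion H :=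
            Finset.mem_biUnion.2 ⟨i, Finset.mem_range.2 (by omega), hi⟩
          rw [wt]
          have h7 : (1/2 : ℝ)^(r+1) * (if s ∈ (if r + 1 = r + 1 then (Finset.range L).biUnion H
              else ∅) then 1 else 0) = (1/2 : ℝ)^(r+1) := by
            rw [if_pos rfl, if_pos h6, mul_one]
          calc (1/2 : ℝ)^(r+1) = (1/2 : ℝ)^(r+1) * (if s ∈ (if r + 1 = r + 1 then
                (Finset.range L).biUnion H else ∅) then 1 else 0) := h7.symm
            _ ≤ _ := Finset.single_le_sum (f := fun r' => (1/2 : ℝ)^r' * (if s ∈ (if r' = r + 1 then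
                (Finset.range L).biUnion H else ∅) then (1:ℝ) else 0)) (fun r' _ => by
                  show (0:ℝ) ≤ (1/2 : ℝ)^r' * (if s ∈ (if r' = r + 1 then
                    (Finset.range L).biUnion H else ∅) then (1:ℝ) else 0)
                  by_cases h8 : s ∈ (if r' = r + 1 then (Finset.range L).biUnion H else ∅)
                  · rw [if_pos h8]; positivity
                  · rw [if_neg h8]; simp) (Finset.mem_range.2 (by omega))
        · rw [if_neg h1]
          exact wt_nonneg _ _ _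
    · have h1 : ∀ i, (1/2 : ℝ)^(r+1) * δ' ≤
          ∑ s ∈ B (τ i), (if ∃ i, s ∈ H i then (1/2 : ℝ)^(r+1) else 0) * |y (τ i) s| := by
        intro i
        calc (1/2 : ℝ)^(r+1) * δ' ≤ (1/2 : ℝ)^(r+1) * ∑ s ∈ H i, |y (τ i) s| := by
              gcongr
              exact hHsum i
          _ = ∑ s ∈ H i, (if ∃ i, s ∈ H i then (1/2 : ℝ)^(r+1) else 0) * |y (τ i) s| := by
              rw [Finset.mul_sum]
              refine Finset.sum_congr rfl fun s hs => ?_
              rw [if_pos ⟨i, hs⟩]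
          _ ≤ _ := Finset.sum_le_sum_of_subset_of_nonneg (hHB i) fun s _ _ => by
              refine mul_nonneg ?_ (abs_nonneg _)
              split_ifs <;> positivity
      refine hτ.tendsto_atTop.frequently ?_
      exact (Filter.Eventually.of_forall h1).frequently
  · -- Case B
    push Not at hA
    have hB1 : ∀ R : ℕ, ∀ᶠ k in atTop,
        ∑ r ∈ Finset.range R, (1/2 : ℝ)^r * ∑ s ∈ F k r, |y k s| < ε / 2 := by
      intro R
      have h1 : ∀ᶠ k in atTop, ∀ r ∈ Finset.range R, ∑ s ∈ F k r, |y k s| < ε / 4 := by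
        rw [Finset.eventually_all]
        intro r _
        exact hA r (ε / 4) (by positivity)
      filter_upwards [h1] with k hk
      have h2 : ∑ r ∈ Finset.range R, (1/2 : ℝ)^r * ∑ s ∈ F k r, |y k s| ≤
          ∑ r ∈ Finset.range R, (1/2 : ℝ)^r * (ε / 4) :=
        Finset.sum_le_sum fun r hr => by
          have := hk r hr
          gcongr
      have h3 : ∀ R : ℕ, ∑ r ∈ Finset.range R, (1/2 : ℝ)^r = 2 - 2 * (1/2)^R := by
        intro l
        induction l with
        | zero => simp
        | succ l ih => rw [Finset.sum_range_succ, ih]; ring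
      rw [← Finset.sum_mul, h3] at h2
      have : (0:ℝ) < (1/2)^R := by positivity
      nlinarith
    have hB2 : ∀ R k₀ : ℕ, ∃ k, k₀ < k ∧
        ∑ r ∈ Finset.range R, (1/2 : ℝ)^r * ∑ s ∈ F k r, |y k s| < ε / 2 := by
      intro R k₀
      obtain ⟨k, h1, h2⟩ := ((eventually_gt_atTop k₀).and (hB1 R)).exists
      exact ⟨k, h1, h2⟩
    choose N hN1 hN2 using hB2
    -- states: (k_i, R_i)
    let st : ℕ → ℕ × ℕ := fun i => Nat.rec (N 0 0, 0)
      (fun _ p => (N (max p.2 (l p.1) + 1) p.1, max p.2 (l p.1) + 1)) i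
    let kk : ℕ → ℕ := fun i => (st i).1
    let RR : ℕ → ℕ := fun i => (st i).2
    have hR0 : RR 0 = 0 := rfl
    have hR1 : ∀ i, RR (i+1) = max (RR i) (l (kk i)) + 1 := fun i => rfl
    have hk1 : ∀ i, kk (i+1) = N (RR (i+1)) (kk i) := fun i => rfl
    have hRmono : StrictMono RR := strictMono_nat_of_lt_succ fun i => by
      rw [hR1]
      exact Nat.lt_succ_of_le (le_max_left _ _)
    have hkmono : StrictMono kk := strictMono_nat_of_lt_succ fun i => by
      rw [hk1]
      exact hN1 _ _
    have hlR : ∀ i, l (kk i) ≤ RR (i+1) := fun i => by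
      rw [hR1]
      exact (le_max_right _ _).trans (Nat.le_succ _)
    have hsmall : ∀ i, ∑ r ∈ Finset.range (RR i), (1/2 : ℝ)^r * ∑ s ∈ F (kk i) r, |y (kk i) s| <
        ε / 2 := by
      intro i
      cases i with
      | zero => exact hN2 0 0
      | succ i => rw [hk1]; exact hN2 _ _
    -- the index of the block of `r`
    let ii : ℕ → ℕ := fun r => Nat.findGreatest (fun i => RR i ≤ r) r
    have hii1 : ∀ r, RR (ii r) ≤ r := fun r =>
      Nat.findGreatest_spec (P := fun i => RR i ≤ r) (Nat.zero_le r) (by rw [hR0]; exact Nat.zero_le r)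
    have hii2 : ∀ r, r < RR (ii r + 1) := by
      intro r
      by_contra hcon
      push Not at hcon
      have h1 : ii r + 1 ≤ r := (hRmono.id_le _).trans hcon
      have h2 : ii r + 1 ≤ ii r := Nat.le_findGreatest h1 hcon
      omega
    have hii3 : ∀ r i, RR i ≤ r → r < RR (i+1) → ii r = i := by
      intro r i h1 h2
      have h3 := hii1 r
      have h4 := hii2 r
      by_contra hne
      rcases lt_or_gt_of_ne hne with hlt | hlt
      · have := hRmono.monotone (show ii r + 1 ≤ i by omega)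
        omega
      · have := hRmono.monotone (show i + 1 ≤ ii r by omega)
        omega
    have hiimono : Monotone ii := by
      intro r r' hrr
      by_contra hcon
      push Not at hcon
      have h1 := hii1 r
      have h2 := hii2 r'
      have := hRmono.monotone (show ii r' + 1 ≤ ii r by omega)
      omega
    let FF : ℕ → Finset V := fun r => F (kk (ii r)) r
    have hFFsucc : Succv FF := by
      intro r r' hrr s hs t ht
      rcases (hiimono hrr.le).eq_or_lt with heq | hlt
      · have hs' : s ∈ F (kk (ii r)) r := hs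
        have ht' : t ∈ F (kk (ii r')) r' := ht
        rw [← heq] at ht'
        exact hFsucc _ r r' hrr s hs' t ht'
      · exact hB _ _ (hkmono hlt) s (hFB _ _ hs) t (hFB _ _ ht)
    have hFFadm : Adm FF := ⟨fun r => hFSch _ _, hFFsucc⟩
    have huniq : ∀ s r r', s ∈ FF r → s ∈ FF r' → r = r' := by
      intro s r r' h1 h2
      by_contra hne
      exact Finset.disjoint_left.1 (hFFsucc.disjoint hne) h1 h2
    let g : V → ℝ := fun s => if h : ∃ r, s ∈ FF r then (1/2 : ℝ)^(h.choose) else 0
    have hg1 : ∀ s r, s ∈ FF r → g s = (1/2 : ℝ)^r := by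
      intro s r hs
      have hex : ∃ r, s ∈ FF r := ⟨r, hs⟩
      have : hex.choose = r := huniq s _ _ hex.choose_spec hs
      show (if h : ∃ r, s ∈ FF r then (1/2 : ℝ)^(h.choose) else 0) = _
      rw [dif_pos hex, this]
    have hg0 : ∀ s, (¬ ∃ r, s ∈ FF r) → g s = 0 := fun s hs => dif_neg hs
    have hgnn : ∀ s, 0 ≤ g s := by
      intro s
      by_cases h1 : ∃ r, s ∈ FF r
      · obtain ⟨r, hr⟩ := h1
        rw [hg1 s r hr]; positivity
      · rw [hg0 s h1]
    refine ⟨ε / 2, by positivity, g, hgnn, ?_, ?_⟩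
    · intro A
      -- a bound for the indices
      have h1 : ∀ s, ∃ m : ℕ, ∀ r, s ∈ FF r → r < m := by
        intro s
        by_cases h1 : ∃ r, s ∈ FF r
        · obtain ⟨r, hr⟩ := h1
          exact ⟨r + 1, fun r' hr' => by rw [huniq s r' r hr' hr]; exact Nat.lt_succ_self _⟩
        · push Not at h1
          exact ⟨0, fun r hr => absurd hr (h1 r)⟩
      choose m hm using h1
      refine ⟨FF, A.sup m, hFFadm, ?_⟩
      intro s hs
      by_cases h2 : ∃ r, s ∈ FF r
      · obtain ⟨r, hr⟩ := h2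
        rw [hg1 s r hr, wt]
        have h3 : r < A.sup m := (hm s r hr).trans_le (Finset.le_sup (f := m) hs)
        calc (1/2 : ℝ)^r = (1/2 : ℝ)^r * (if s ∈ FF r then 1 else 0) := by rw [if_pos hr, mul_one]
          _ ≤ _ := Finset.single_le_sum (f := fun r' => (1/2 : ℝ)^r' * (if s ∈ FF r' then (1:ℝ) else 0))
              (fun r' _ => by
                show (0:ℝ) ≤ (1/2 : ℝ)^r' * (if s ∈ FF r' then (1:ℝ) else 0)
                split_ifs <;> positivity) (Finset.mem_range.2 h3)
      · rw [hg0 s h2]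
        exact wt_nonneg _ _ _
    · have h1 : ∀ i, ε / 2 ≤ ∑ s ∈ B (kk i), g s * |y (kk i) s| := by
        intro i
        have h2 : ∑ r ∈ Finset.range (l (kk i)), (1/2 : ℝ)^r * ∑ s ∈ F (kk i) r, |y (kk i) s| ≤
            ∑ r ∈ Finset.range (RR (i+1)), (1/2 : ℝ)^r * ∑ s ∈ F (kk i) r, |y (kk i) s| := by
          refine Finset.sum_le_sum_of_subset_of_nonneg (Finset.range_mono (hlR i)) fun r _ _ => ?_
          exact mul_nonneg (by positivity) (Finset.sum_nonneg fun _ _ => abs_nonneg _)
        have h3 : ∑ r ∈ Finset.range (RR (i+1)), (1/2 : ℝ)^r * ∑ s ∈ F (kk i) r, |y (kk i) s| =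
            ∑ r ∈ Finset.range (RR i), (1/2 : ℝ)^r * ∑ s ∈ F (kk i) r, |y (kk i) s| +
            ∑ r ∈ Finset.Ico (RR i) (RR (i+1)), (1/2 : ℝ)^r * ∑ s ∈ F (kk i) r, |y (kk i) s| := by
          rw [Finset.sum_range_add_sum_Ico _ (hRmono.monotone (Nat.le_succ i))]
        have h4 : ∑ r ∈ Finset.Ico (RR i) (RR (i+1)), (1/2 : ℝ)^r * ∑ s ∈ F (kk i) r, |y (kk i) s| =
            ∑ r ∈ Finset.Ico (RR i) (RR (i+1)), ∑ s ∈ FF r, g s * |y (kk i) s| := by
          refine Finset.sum_congr rfl fun r hr => ?_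
          have h5 := Finset.mem_Ico.1 hr
          have h6 := hii3 r i h5.1 h5.2
          have h7 : FF r = F (kk i) r := by
            show F (kk (ii r)) r = F (kk i) r
            rw [h6]
          rw [h7, Finset.mul_sum]
          refine Finset.sum_congr rfl fun s hs => ?_
          rw [hg1 s r (by rw [h7]; exact hs)]
        have h8 : ∑ r ∈ Finset.Ico (RR i) (RR (i+1)), ∑ s ∈ FF r, g s * |y (kk i) s| =
            ∑ s ∈ (Finset.Ico (RR i) (RR (i+1))).biUnion FF, g s * |y (kk i) s| := by
          rw [Finset.sum_biUnion]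
          intro a _ b _ hab
          exact hFFsucc.disjoint hab
        have h9 : ∑ s ∈ (Finset.Ico (RR i) (RR (i+1))).biUnion FF, g s * |y (kk i) s| ≤
            ∑ s ∈ B (kk i), g s * |y (kk i) s| := by
          refine Finset.sum_le_sum_of_subset_of_nonneg ?_ fun s _ _ =>
            mul_nonneg (hgnn s) (abs_nonneg _)
          intro s hs
          obtain ⟨r, hr, hsr⟩ := Finset.mem_biUnion.1 hs
          have h5 := Finset.mem_Ico.1 hr
          have h6 := hii3 r i h5.1 h5.2
          have h7 : FF r = F (kk i) r := by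
            show F (kk (ii r)) r = F (kk i) r
            rw [h6]
          rw [h7] at hsr
          exact hFB _ _ hsr
        have h10 := hsum (kk i)
        have h11 := hsmall i
        linarith
      refine hkmono.tendsto_atTop.frequently ?_
      exact (Filter.Eventually.of_forall h1).frequently

end Pool.Agent.Helper224.Sw
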