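import Pool.Agent.Helper224.Sw2

set_option autoImplicit false
open MeasureTheory Filter Topology

namespace Pool.Agent.Helper224.Sw

section Weak

variable {E : Type*} [NormedAddCommGroup E] [NormedSpace ℝ E]

lemma weak_tendsto_iff {ι : Type*} {l : Filter ι} (x : ι → E) (a : E) :
    Tendsto (fun i => toWeakSpace ℝ E (x i)) l (𝓝 (toWeakSpace ℝ E a)) ↔
      ∀ φ : E →L[ℝ] ℝ, Tendsto (fun i => φ (x i)) l (𝓝 (φ a)) := by
  have h1 : 𝓝 (toWeakSpace ℝ E a) = comap (fun (x : WeakSpace ℝ E) (y : E →L[ℝ] ℝ) =>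
      y ((toWeakSpace ℝ E).symm x)) (𝓝 (fun y : E →L[ℝ] ℝ => y a)) := nhds_induced _ _
  rw [h1, tendsto_comap_iff, tendsto_pi_nhds]
  rfl

lemma weak_continuous (φ : E →L[ℝ] ℝ) :
    Continuous (fun x : WeakSpace ℝ E => φ ((toWeakSpace ℝ E).symm x)) :=
  WeakBilin.eval_continuous (topDualPairing ℝ E).flip φ

lemma weak_bdd {L : Set E} (hL : IsCompact (toWeakSpace ℝ E '' L)) (φ : E →L[ℝ] ℝ) :
    ∃ C, ∀ z ∈ L, |φ z| ≤ C := by
  have h1 := (hL.image (weak_continuous φ)).isBounded
  obtain ⟨C, hC⟩ := h1.exists_norm_le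
  refine ⟨C, fun z hz => ?_⟩
  exact hC _ ⟨toWeakSpace ℝ E z, ⟨z, hz, rfl⟩, rfl⟩

lemma weak_cluster {L : Set E} (hL : IsCompact (toWeakSpace ℝ E '' L)) {ι : Type*} (z : ι → E)
    (hz : ∀ i, z i ∈ L) (U : Ultrafilter ι) :
    ∃ a ∈ L, ∀ φ : E →L[ℝ] ℝ, Tendsto (fun i => φ (z i)) U (𝓝 (φ a)) := by
  have h1 := isCompact_iff_ultrafilter_le_nhds.1 hL (U.map (fun i => toWeakSpace ℝ E (z i)))
  have h2 : ((U.map (fun i => toWeakSpace ℝ E (z i)) : Ultrafilter (WeakSpace ℝ E)) :
      Filter (WeakSpace ℝ E)) ≤ 𝓟 (toWeakSpace ℝ E '' L) := by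
    rw [Ultrafilter.coe_map, le_principal_iff, mem_map]
    exact Filter.univ_mem' fun i => ⟨z i, hz i, rfl⟩
  obtain ⟨b, ⟨a, ha, rfl⟩, hb⟩ := h1 h2
  refine ⟨a, ha, ?_⟩
  rw [← weak_tendsto_iff]
  exact hb

end Weak

/-- restriction of a vector to a set of coordinates -/
noncomputable def restr (A : Set V) (x : X) : X :=
  X.mk (A.indicator x.val) (by
    classical
    obtain ⟨C, hC⟩ := x.prop
    refine ⟨C, fun f hf => ?_⟩
    have h1 : pair f (A.indicator x.val) = pair (f.filter (· ∈ A)) x.val := by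
      rw [pair_eq_sum, pair_eq_sum, Finsupp.support_filter, Finset.sum_filter]
      refine Finset.sum_congr rfl fun n _ => ?_
      by_cases h : n ∈ A
      · rw [if_pos h, Set.indicator_of_mem h, Finsupp.filter_apply_pos (p := (· ∈ A)) _ h]
      · rw [if_neg h, Set.indicator_of_notMem h, mul_zero]
    rw [h1]
    refine hC _ (hf.mono fun s => ?_)
    by_cases h : s ∈ A
    · rw [Finsupp.filter_apply_pos (p := (· ∈ A)) _ h]
    · rw [Finsupp.filter_apply_neg (p := (· ∈ A)) _ h, abs_zero]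
      exact abs_nonneg _)

@[simp] lemma restr_val (A : Set V) (x : X) : (restr A x).val = A.indicator x.val := rfl

lemma sum_wt_le_norm (x : X) (F : ℕ → Finset V) (l : ℕ) (hF : Adm F) (A : Finset V) :
    ∑ s ∈ A, wt F l s * |x.val s| ≤ ‖x‖ := by
  classical
  let c : V → ℝ := fun s => wt F l s * SignType.sign (x.val s)
  let f : V →₀ ℝ := Finsupp.indicator A (fun s _ => c s)
  have hfa : ∀ s, f s = if s ∈ A then c s else 0 := by
    intro s
    rw [Finsupp.indicator_apply]
    split_ifs <;> rfl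
  have hf : IsN f := by
    refine ⟨F, l, hF, fun s => ?_⟩
    rw [hfa]
    split_ifs
    · rw [abs_mul, abs_of_nonneg (wt_nonneg F l s)]
      have h1 : |((SignType.sign (x.val s) : SignType) : ℝ)| ≤ 1 := by
        rcases lt_trichotomy (x.val s) 0 with h | h | h
        · simp [sign_neg h]
        · simp [h]
        · simp [sign_pos h]
      calc wt F l s * |((SignType.sign (x.val s) : SignType) : ℝ)| ≤ wt F l s * 1 :=
            mul_le_mul_of_nonneg_left h1 (wt_nonneg F l s)
        _ = _ := mul_one _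
    · rw [abs_zero]
      exact wt_nonneg F l s
  have h2 : pair f x.val = ∑ s ∈ A, wt F l s * |x.val s| := by
    rw [pair_eq_sum_of_subset f x.val A]
    · refine Finset.sum_congr rfl fun s hs => ?_
      rw [hfa, if_pos hs]
      show wt F l s * SignType.sign (x.val s) * x.val s = _
      rw [mul_assoc, sign_mul_self]
    · intro s hs
      by_contra hcon
      rw [Finsupp.mem_support_iff, hfa, if_neg hcon] at hs
      exact hs rfl
  rw [← h2]
  exact (le_abs_self _).trans (pair_le_norm x hf)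

lemma exists_wt_gt {x : X} {r : ℝ} (hr : 0 ≤ r) (h : r < ‖x‖) :
    ∃ (F : ℕ → Finset V) (l : ℕ) (A : Finset V), Adm F ∧ r < ∑ s ∈ A, wt F l s * |x.val s| := by
  obtain ⟨f, ⟨F, l, hF, hw⟩, hlt⟩ := exists_pair_gt hr h
  refine ⟨F, l, f.support, hF, hlt.trans_le ?_⟩
  rw [pair_eq_sum]
  refine (Finset.abs_sum_le_sum_abs _ _).trans (Finset.sum_le_sum fun s _ => ?_)
  rw [abs_mul]
  exact mul_le_mul_of_nonneg_right (hw s) (abs_nonneg _)

lemma norm_le_of_wt {x : X} {C : ℝ} (hC : 0 ≤ C) (h : ∀ (F : ℕ → Finset V) (l : ℕ) (A : Finset V),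
    Adm F → ∑ s ∈ A, wt F l s * |x.val s| ≤ C) : ‖x‖ ≤ C := by
  by_contra hlt
  push Not at hlt
  obtain ⟨F, l, A, hF, hlt'⟩ := exists_wt_gt hC hlt
  exact absurd (h F l A hF) (not_le.2 hlt')

lemma norm_mono {x y : X} (h : ∀ s, |x.val s| ≤ |y.val s|) : ‖x‖ ≤ ‖y‖ := by
  refine norm_le_of_wt (norm_nonneg _) fun F l A hF => ?_
  refine le_trans (Finset.sum_le_sum fun s _ => ?_) (sum_wt_le_norm y F l hF A)
  exact mul_le_mul_of_nonneg_left (h s) (wt_nonneg _ _ _)

lemma norm_restr_le (A : Set V) (x : X) : ‖restr A x‖ ≤ ‖x‖ := by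
  refine norm_mono fun s => ?_
  rw [restr_val]
  by_cases h : s ∈ A
  · rw [Set.indicator_of_mem h]
  · rw [Set.indicator_of_notMem h, abs_zero]
    exact abs_nonneg _

lemma norm_restr_anti {A B : Set V} (h : A ⊆ B) (x : X) : ‖restr A x‖ ≤ ‖restr B x‖ := by
  refine norm_mono fun s => ?_
  rw [restr_val, restr_val]
  by_cases hs : s ∈ A
  · rw [Set.indicator_of_mem hs, Set.indicator_of_mem (h hs)]
  · rw [Set.indicator_of_notMem hs, abs_zero]
    exact abs_nonneg _

/-- the coordinate projections -/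
noncomputable def P (A : Set V) : X →L[ℝ] X :=
  LinearMap.mkContinuous
    { toFun := restr A
      map_add' := fun x y => X.ext (by
        simp only [restr_val, X.val_add]
        exact Set.indicator_add A _ _)
      map_smul' := fun c x => X.ext (by
        simp only [restr_val, X.val_smul, RingHom.id_apply]
        exact Set.indicator_const_smul A c _) } 1
    (fun x => by rw [one_mul]; exact norm_restr_le A x)

@[simp] lemma P_val (A : Set V) (x : X) : (P A x).val = A.indicator x.val := rfl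

lemma norm_P_le (A : Set V) (x : X) : ‖P A x‖ ≤ ‖x‖ := norm_restr_le A x

lemma norm_P_anti {A B : Set V} (h : A ⊆ B) (x : X) : ‖P A x‖ ≤ ‖P B x‖ := norm_restr_anti h x

/-- coordinate functional -/
noncomputable def coord (s : V) : X →L[ℝ] ℝ :=
  LinearMap.mkContinuous
    { toFun := fun x => x.val s
      map_add' := fun x y => rfl
      map_smul' := fun c x => rfl } 1
    (fun x => by
      rw [one_mul, Real.norm_eq_abs]
      have := pair_le_norm x (isN_single s 1 (by simp))
      rwa [pair_single_left, one_mul] at this)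

@[simp] lemma coord_apply (s : V) (x : X) : coord s x = x.val s := rfl

lemma abs_val_le (x : X) (s : V) : |x.val s| ≤ ‖x‖ := by
  have := pair_le_norm x (isN_single s 1 (by simp))
  rwa [pair_single_left, one_mul] at this

/-- unit vectors -/
noncomputable def e (s : V) : X :=
  X.mk (Pi.single s 1) ⟨2, fun f hf => by
    obtain ⟨F, l, _, hw⟩ := hf
    have : pair f (Pi.single s 1) = f s := by
      rw [pair_eq_sum]
      by_cases h : s ∈ f.support
      · rw [Finset.sum_eq_single_of_mem s h]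
        · simp
        · intro m _ hm
          rw [Pi.single_eq_of_ne hm, mul_zero]
      · rw [Finsupp.notMem_support_iff.1 h]
        refine Finset.sum_eq_zero fun m hm => ?_
        rw [Pi.single_eq_of_ne (by rintro rfl; exact h hm), mul_zero]
    rw [this]
    exact (hw s).trans (wt_le_two F l s)⟩

@[simp] lemma e_val (s : V) : (e s).val = Pi.single s 1 := rfl

lemma norm_e_le (s : V) : ‖e s‖ ≤ 2 := by
  refine norm_le_of_wt (by norm_num) fun F l A hF => ?_
  have h1 : ∀ t, wt F l t * |(e s).val t| = if t = s then wt F l s else 0 := by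
    intro t
    rw [e_val]
    by_cases h : t = s
    · subst h
      simp
    · rw [if_neg h, Pi.single_eq_of_ne h, abs_zero, mul_zero]
  simp only [h1, Finset.sum_ite_eq']
  split_ifs
  · exact wt_le_two F l s
  · norm_num

lemma val_sum {ι : Type*} (E : Finset ι) (g : ι → X) :
    (∑ i ∈ E, g i).val = ∑ i ∈ E, (g i).val := by
  classical
  induction E using Finset.induction_on with
  | empty => simp
  | insert a s ha ih => rw [Finset.sum_insert ha, Finset.sum_insert ha, X.val_add, ih]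

/-- sums against dominated weights -/
lemma sum_dom_le_norm (x : X) (g : V → ℝ) (hg : Dom g) (A : Finset V) :
    ∑ s ∈ A, g s * |x.val s| ≤ ‖x‖ := by
  obtain ⟨F, l, hF, hw⟩ := hg A
  refine le_trans (Finset.sum_le_sum fun s hs => ?_) (sum_wt_le_norm x F l hF A)
  exact mul_le_mul_of_nonneg_right (hw s hs) (abs_nonneg _)

/-- levels at least `N` -/
def Ge (N : ℕ) : Set V := {s | N ≤ s.length}

/-- tails of every vector tend to zero. -/
theorem tail_tendsto (x : X) : Tendsto (fun N : ℕ => ‖P (Ge N) x‖) atTop (𝓝 0) := by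
  classical
  have hanti : Antitone (fun N : ℕ => ‖P (Ge N) x‖) := fun N M hNM =>
    norm_P_anti (fun s hs => le_trans hNM hs) x
  by_contra hne
  have hδ : ∃ δ > 0, ∀ N : ℕ, δ ≤ ‖P (Ge N) x‖ := by
    by_contra hcon
    push Not at hcon
    apply hne
    rw [Metric.tendsto_atTop]
    intro ε hε
    obtain ⟨N, hN⟩ := hcon ε hε
    refine ⟨N, fun n hn => ?_⟩
    rw [Real.dist_eq, sub_zero, abs_of_nonneg (norm_nonneg _)]
    exact (hanti hn).trans_lt hN
  obtain ⟨δ, hδ0, hδ⟩ := hδ
  have h1 : ∀ N : ℕ, ∃ (F : ℕ → Finset V) (l : ℕ) (A : Finset V), Adm F ∧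
      (∀ s ∈ A, N ≤ s.length) ∧ δ / 2 ≤ ∑ s ∈ A, wt F l s * |x.val s| := by
    intro N
    obtain ⟨F, l, A, hF, hlt⟩ := exists_wt_gt (by positivity : 0 ≤ δ / 2)
      (lt_of_lt_of_le (by linarith) (hδ N))
    refine ⟨F, l, A.filter (fun s => N ≤ s.length), hF, fun s hs => (Finset.mem_filter.1 hs).2, ?_⟩
    refine hlt.le.trans (le_of_eq ?_)
    rw [Finset.sum_filter]
    refine Finset.sum_congr rfl fun s _ => ?_
    rw [P_val]
    by_cases h : N ≤ s.length
    · rw [if_pos h, Set.indicator_of_mem (by exact h)]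
    · rw [if_neg h, Set.indicator_of_notMem (by exact h), abs_zero, mul_zero]
  choose F l A hF hA hs using h1
  let M : ℕ → ℕ := fun N => max N ((A N).sup List.length) + 1
  let a : ℕ → ℕ := fun k => Nat.rec 0 (fun _ N => M N) k
  have ha1 : ∀ k, a (k+1) = M (a k) := fun k => rfl
  have hamono : StrictMono a := strictMono_nat_of_lt_succ fun k => by
    rw [ha1]
    exact Nat.lt_succ_of_le (le_max_left _ _)
  have hlt : ∀ k, ∀ s ∈ A (a k), s.length < a (k+1) := by
    intro k s hs'
    rw [ha1]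
    have : s.length ≤ (A (a k)).sup List.length := Finset.le_sup (f := List.length) hs'
    exact Nat.lt_succ_of_le (this.trans (le_max_right _ _))
  have hB : Succv (fun k => A (a k)) := by
    intro i j hij s hs' t ht
    have h2 := hlt i s hs'
    have h3 := hA (a j) t ht
    have h4 := hamono.monotone (show i + 1 ≤ j by omega)
    omega
  obtain ⟨δ', hδ', g, hg0, hgD, hfreq⟩ := key (fun _ => x.val) (fun k => A (a k)) hB (δ/2)
    (by positivity) (fun k => ⟨F (a k), l (a k), hF _, hs _⟩)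
  obtain ⟨κ, hκ, hκ'⟩ := extraction_of_frequently_atTop hfreq
  obtain ⟨m, hm⟩ := exists_nat_gt (‖x‖ / δ')
  rw [div_lt_iff₀ hδ'] at hm
  have h5 : ∑ s ∈ (Finset.range m).biUnion (fun i => A (a (κ i))), g s * |x.val s| ≤ ‖x‖ :=
    sum_dom_le_norm x g hgD _
  rw [Finset.sum_biUnion] at h5
  · have h6 : (m : ℝ) * δ' ≤ ∑ i ∈ Finset.range m, ∑ s ∈ A (a (κ i)), g s * |x.val s| := by
      calc (m : ℝ) * δ' = ∑ i ∈ Finset.range m, δ' := by
            rw [Finset.sum_const, Finset.card_range, nsmul_eq_mul]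
        _ ≤ _ := Finset.sum_le_sum fun i _ => hκ' i
    linarith
  · intro i _ j _ hij
    exact hB.disjoint (hκ.injective.ne hij)

end Pool.Agent.Helper224.Sw
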