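import Pool.Agent.Helper224.Sw3

set_option autoImplicit false
open MeasureTheory Filter Topology

namespace Pool.Agent.Helper224.Sw

/-- the nodes of level below `N` -/
noncomputable def T (N : ℕ) : Finset V := (List.finite_length_lt Bool N).toFinset

lemma mem_T {N : ℕ} {s : V} : s ∈ T N ↔ s.length < N := by
  rw [T, Set.Finite.mem_toFinset]
  rfl

/-- levels below `N` -/
def Lt (N : ℕ) : Set V := {s | s.length < N}

lemma P_Lt_eq (N : ℕ) (x : X) : P (Lt N) x = ∑ s ∈ T N, x.val s • e s := by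
  classical
  apply X.ext
  rw [val_sum]
  funext t
  rw [P_val, Finset.sum_apply]
  have h1 : ∀ s, (x.val s • e s).val t = if s = t then x.val t else 0 := by
    intro s
    rw [X.val_smul, Pi.smul_apply, e_val, smul_eq_mul]
    by_cases h : s = t
    · subst h
      simp
    · rw [if_neg h, Pi.single_eq_of_ne (Ne.symm h), mul_zero]
  simp only [h1]
  rw [Finset.sum_ite_eq']
  by_cases h : t ∈ T N
  · rw [if_pos h, Set.indicator_of_mem (show t ∈ Lt N from mem_T.1 h)]
  · rw [if_neg h, Set.indicator_of_notMem (show t ∉ Lt N from fun h' => h (mem_T.2 h'))]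

lemma P_add_compl (N : ℕ) (x : X) : x = P (Lt N) x + P (Ge N) x := by
  apply X.ext
  funext t
  rw [X.val_add, Pi.add_apply, P_val, P_val]
  by_cases h : t.length < N
  · rw [Set.indicator_of_mem (show t ∈ Lt N from h),
      Set.indicator_of_notMem (show t ∉ Ge N from not_le.2 h), add_zero]
  · rw [Set.indicator_of_notMem (show t ∉ Lt N from h),
      Set.indicator_of_mem (show t ∈ Ge N from not_lt.1 h), zero_add]

lemma P_Lt_tendsto (N : ℕ) (w : ℕ → X) (hw : ∀ s, Tendsto (fun k => (w k).val s) atTop (𝓝 0)) :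
    Tendsto (fun k => ‖P (Lt N) (w k)‖) atTop (𝓝 0) := by
  have h1 : Tendsto (fun k => P (Lt N) (w k)) atTop (𝓝 0) := by
    simp only [P_Lt_eq]
    have : Tendsto (fun k => ∑ s ∈ T N, (w k).val s • e s) atTop (𝓝 (∑ s ∈ T N, (0:ℝ) • e s)) :=
      tendsto_finsetSum _ fun s _ => (hw s).smul_const (e s)
    simpa using this
  simpa using h1.norm

lemma HF_aux {g σ : V → ℝ} (hg0 : ∀ s, 0 ≤ g s) (hσ : ∀ s, |σ s| ≤ 1) (x : X) (s : V) :
    ‖g s * σ s * x.val s‖ ≤ g s * |x.val s| := by
  rw [Real.norm_eq_abs, abs_mul, abs_mul, abs_of_nonneg (hg0 s)]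
  calc g s * |σ s| * |x.val s| ≤ g s * 1 * |x.val s| := by
        gcongr
        · exact hg0 s
        · exact hσ s
    _ = _ := by rw [mul_one]

lemma HF_summable' {g : V → ℝ} (hg : Dom g) (hg0 : ∀ s, 0 ≤ g s) (x : X) :
    Summable (fun s => g s * |x.val s|) :=
  summable_of_sum_le (fun s => mul_nonneg (hg0 s) (abs_nonneg _)) (fun A => sum_dom_le_norm x g hg A)

lemma HF_summable {g σ : V → ℝ} (hg : Dom g) (hg0 : ∀ s, 0 ≤ g s) (hσ : ∀ s, |σ s| ≤ 1) (x : X) :
    Summable (fun s => g s * σ s * x.val s) :=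
  Summable.of_norm_bounded (HF_summable' hg hg0 x) (HF_aux hg0 hσ x)

lemma HF_bound' {g σ : V → ℝ} (hg : Dom g) (hg0 : ∀ s, 0 ≤ g s) (hσ : ∀ s, |σ s| ≤ 1) (x : X) :
    ‖∑' s, g s * σ s * x.val s‖ ≤ ‖x‖ := by
  refine (norm_tsum_le_tsum_norm ((HF_summable hg hg0 hσ x).norm)).trans ?_
  refine ((HF_summable hg hg0 hσ x).norm.tsum_le_tsum (HF_aux hg0 hσ x)
    (HF_summable' hg hg0 x)).trans ?_
  exact (HF_summable' hg hg0 x).tsum_le_of_sum_le (fun A => sum_dom_le_norm x g hg A)

/-- the functional given by a dominated weight and signs -/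
noncomputable def HF (g σ : V → ℝ) (hg : Dom g) (hg0 : ∀ s, 0 ≤ g s) (hσ : ∀ s, |σ s| ≤ 1) : X →L[ℝ] ℝ :=
  LinearMap.mkContinuous
    { toFun := fun x => ∑' s, g s * σ s * x.val s
      map_add' := fun x y => by
        rw [← (HF_summable hg hg0 hσ x).tsum_add (HF_summable hg hg0 hσ y)]
        refine tsum_congr fun s => ?_
        rw [X.val_add, Pi.add_apply, mul_add]
      map_smul' := fun c x => by
        rw [RingHom.id_apply, smul_eq_mul, ← tsum_mul_left]
        refine tsum_congr fun s => ?_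
        rw [X.val_smul, Pi.smul_apply, smul_eq_mul]
        ring } 1 (fun x => by
      rw [one_mul]
      exact HF_bound' hg hg0 hσ x)

lemma HF_apply (g σ : V → ℝ) (hg : Dom g) (hg0 : ∀ s, 0 ≤ g s) (hσ : ∀ s, |σ s| ≤ 1) (x : X) :
    HF g σ hg hg0 hσ x = ∑' s, g s * σ s * x.val s := rfl

lemma HF_bound (g σ : V → ℝ) (hg : Dom g) (hg0 : ∀ s, 0 ≤ g s) (hσ : ∀ s, |σ s| ≤ 1) (x : X) :
    |HF g σ hg hg0 hσ x| ≤ ‖x‖ := HF_bound' hg hg0 hσ x

/-- gliding hump -/
theorem gliding (w : ℕ → X) (hw : ∀ φ : X →L[ℝ] ℝ, Tendsto (fun k => φ (w k)) atTop (𝓝 0))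
    (δ : ℝ) (hδ : 0 < δ) (h : ∀ᶠ k in atTop, δ ≤ ‖P (Ge k) (w k)‖) : False := by
  classical
  let η : ℕ → ℝ := fun i => δ / (4 * ((i:ℝ) + 1))
  have hη : ∀ i, 0 < η i := fun i => by positivity
  have hη4 : ∀ i, η i ≤ δ / 4 := by
    intro i
    have : (4:ℝ) ≤ 4 * ((i:ℝ) + 1) := by
      have : (0:ℝ) ≤ i := Nat.cast_nonneg i
      linarith
    exact div_le_div_of_nonneg_left hδ.le (by norm_num) this
  have hηlim : Tendsto η atTop (𝓝 0) := by
    have h1 : Tendsto (fun i : ℕ => (δ/4) * (1 / ((i:ℝ) + 1))) atTop (𝓝 ((δ/4) * 0)) :=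
      tendsto_one_div_add_atTop_nhds_zero_nat.const_mul _
    rw [mul_zero] at h1
    refine h1.congr fun i => ?_
    show _ = δ / (4 * ((i:ℝ) + 1))
    rw [div_mul_div_comm, mul_one]
  have hstep : ∀ (i a k : ℕ), ∃ (k' a' : ℕ), k < k' ∧ a < a' ∧ ‖P (Lt a) (w k')‖ ≤ η i ∧
      δ ≤ ‖P (Ge a) (w k')‖ ∧ ‖P (Ge a') (w k')‖ ≤ η i := by
    intro i a k
    have h1 : ∀ᶠ k' in atTop, ‖P (Lt a) (w k')‖ < η i :=
      (P_Lt_tendsto a w fun s => hw (coord s)).eventually (gt_mem_nhds (hη i))
    obtain ⟨k', hk1, hk2, hk3, hk4⟩ := (h1.and (h.and ((eventually_gt_atTop k).and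
      (eventually_ge_atTop a)))).exists
    have h2 : ∀ᶠ a' in atTop, ‖P (Ge a') (w k')‖ < η i :=
      (tail_tendsto (w k')).eventually (gt_mem_nhds (hη i))
    obtain ⟨a', ha1, ha2⟩ := (h2.and (eventually_gt_atTop a)).exists
    exact ⟨k', a', hk3, ha2, hk1.le, hk2.trans (norm_P_anti (fun s hs => le_trans hk4 hs) _), ha1.le⟩
  choose K A hK hA hLt hGe hGe' using hstep
  let st : ℕ → ℕ × ℕ := fun i => Nat.rec (0, 0) (fun i p => (A i p.1 p.2, K i p.1 p.2)) i
  have hst : ∀ i, st (i+1) = (A i (st i).1 (st i).2, K i (st i).1 (st i).2) := fun i => rfl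
  let a : ℕ → ℕ := fun i => (st i).1
  let k : ℕ → ℕ := fun i => (st (i+1)).2
  have hamono : StrictMono a := strictMono_nat_of_lt_succ fun i => by
    show (st i).1 < (st (i+1)).1
    rw [hst]
    exact hA _ _ _
  have hkmono : StrictMono k := strictMono_nat_of_lt_succ fun i => by
    show (st (i+1)).2 < (st (i+1+1)).2
    rw [hst (i+1)]
    exact hK _ _ _
  have h1 : ∀ i, ‖P (Lt (a i)) (w (k i))‖ ≤ η i := fun i => hLt _ _ _
  have h2 : ∀ i, δ ≤ ‖P (Ge (a i)) (w (k i))‖ := fun i => hGe _ _ _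
  have h3 : ∀ i, ‖P (Ge (a (i+1))) (w (k i))‖ ≤ η i := fun i => hGe' _ _ _
  let B : ℕ → Finset V := fun i => T (a (i+1)) \ T (a i)
  have hmemB : ∀ i s, s ∈ B i ↔ a i ≤ s.length ∧ s.length < a (i+1) := by
    intro i s
    show s ∈ T (a (i+1)) \ T (a i) ↔ _
    rw [Finset.mem_sdiff, mem_T, mem_T, not_lt, and_comm]
  have hB : Succv B := by
    intro i j hij s hs t ht
    have h4 := (hmemB i s).1 hs
    have h5 := (hmemB j t).1 ht
    have h6 := hamono.monotone (show i + 1 ≤ j by omega)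
    omega
  have hw4 : ∀ i, ∃ (F : ℕ → Finset V) (l : ℕ), Adm F ∧
      δ/4 ≤ ∑ s ∈ B i, wt F l s * |(w (k i)).val s| := by
    intro i
    let x : X := P (Ge (a i)) (w (k i)) - P (Ge (a (i+1))) (w (k i))
    have hx : ∀ s, x.val s = if s ∈ B i then (w (k i)).val s else 0 := by
      intro s
      show (P (Ge (a i)) (w (k i)) - P (Ge (a (i+1))) (w (k i))).val s = _
      rw [X.val_sub, Pi.sub_apply, P_val, P_val]
      have hai : a i < a (i+1) := hamono (Nat.lt_succ_self i)
      by_cases h4 : a i ≤ s.length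
      · rw [Set.indicator_of_mem (show s ∈ Ge (a i) from h4)]
        by_cases h5 : a (i+1) ≤ s.length
        · rw [Set.indicator_of_mem (show s ∈ Ge (a (i+1)) from h5), if_neg, sub_self]
          rw [hmemB]
          omega
        · rw [Set.indicator_of_notMem (show s ∉ Ge (a (i+1)) from h5), if_pos, sub_zero]
          rw [hmemB]
          omega
      · rw [Set.indicator_of_notMem (show s ∉ Ge (a i) from h4),
          Set.indicator_of_notMem (show s ∉ Ge (a (i+1)) from fun h5 => h4 (hai.le.trans h5)),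
          if_neg, sub_self]
        rw [hmemB]
        omega
    have hnx : δ / 4 < ‖x‖ := by
      have h4 := norm_sub_norm_le (P (Ge (a i)) (w (k i))) (P (Ge (a (i+1))) (w (k i)))
      have h5 := h2 i
      have h6 := h3 i
      have h7 := hη4 i
      have h8 : ‖x‖ = ‖P (Ge (a i)) (w (k i)) - P (Ge (a (i+1))) (w (k i))‖ := rfl
      rw [h8]
      linarith
    obtain ⟨F, l, A', hF, hlt⟩ := exists_wt_gt (by positivity) hnx
    refine ⟨F, l, hF, hlt.le.trans ?_⟩
    have h4 : ∑ s ∈ A', wt F l s * |x.val s| =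
        ∑ s ∈ A' ∩ B i, wt F l s * |(w (k i)).val s| := by
      rw [← Finset.filter_mem_eq_inter, Finset.sum_filter]
      refine Finset.sum_congr rfl fun s _ => ?_
      rw [hx]
      split_ifs
      · rfl
      · rw [abs_zero, mul_zero]
    rw [h4]
    exact Finset.sum_le_sum_of_subset_of_nonneg Finset.inter_subset_right
      fun s _ _ => mul_nonneg (wt_nonneg _ _ _) (abs_nonneg _)
  obtain ⟨δ', hδ', g, hg0, hgD, hfreq⟩ := key (fun i => (w (k i)).val) B hB (δ/4) (by positivity) hw4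
  -- signs
  let σ : V → ℝ := fun s => if h : ∃ i, s ∈ B i then SignType.sign ((w (k h.choose)).val s) else 0
  have hσ1 : ∀ i, ∀ s ∈ B i, σ s = SignType.sign ((w (k i)).val s) := by
    intro i s hs
    have hex : ∃ i, s ∈ B i := ⟨i, hs⟩
    have : hex.choose = i := by
      by_contra hne
      exact Finset.disjoint_left.1 (hB.disjoint hne) hex.choose_spec hs
    show (if h : ∃ i, s ∈ B i then ((SignType.sign ((w (k h.choose)).val s) : SignType) : ℝ) else 0) = _
    rw [dif_pos hex, this]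
  have hσb : ∀ s, |σ s| ≤ 1 := by
    intro s
    by_cases hex : ∃ i, s ∈ B i
    · obtain ⟨i, hi⟩ := hex
      rw [hσ1 i s hi]
      rcases lt_trichotomy ((w (k i)).val s) 0 with h | h | h
      · simp [sign_neg h]
      · simp [h]
      · simp [sign_pos h]
    · show |(if h : ∃ i, s ∈ B i then ((SignType.sign ((w (k h.choose)).val s) : SignType) : ℝ) else 0)| ≤ 1
      rw [dif_neg hex, abs_zero]
      exact zero_le_one
  have hmain : ∀ i, ∑ s ∈ B i, g s * |(w (k i)).val s| - 2 * η i ≤ HF g σ hgD hg0 hσb (w (k i)) := by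
    intro i
    let H := HF g σ hgD hg0 hσb
    have hdec : w (k i) = P (Lt (a i)) (w (k i)) + P (↑(B i)) (w (k i)) + P (Ge (a (i+1))) (w (k i)) := by
      apply X.ext
      funext s
      rw [X.val_add, X.val_add, Pi.add_apply, Pi.add_apply, P_val, P_val, P_val]
      have hai : a i < a (i+1) := hamono (Nat.lt_succ_self i)
      by_cases h4 : s.length < a i
      · rw [Set.indicator_of_mem (show s ∈ Lt (a i) from h4),
          Set.indicator_of_notMem (show s ∉ (↑(B i) : Set V) from fun h5 => by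
            rw [Finset.mem_coe, hmemB] at h5; omega),
          Set.indicator_of_notMem (show s ∉ Ge (a (i+1)) from fun h5 => by
            have : a (i+1) ≤ s.length := h5
            omega), add_zero, add_zero]
      · rw [Set.indicator_of_notMem (show s ∉ Lt (a i) from h4)]
        by_cases h5 : s.length < a (i+1)
        · rw [Set.indicator_of_mem (show s ∈ (↑(B i) : Set V) from by
              rw [Finset.mem_coe, hmemB]; omega),
            Set.indicator_of_notMem (show s ∉ Ge (a (i+1)) from not_le.2 h5), zero_add, add_zero]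
        · rw [Set.indicator_of_notMem (show s ∉ (↑(B i) : Set V) from fun h6 => by
              rw [Finset.mem_coe, hmemB] at h6; omega),
            Set.indicator_of_mem (show s ∈ Ge (a (i+1)) from not_lt.1 h5), zero_add, zero_add]
    have hH : H (w (k i)) = H (P (Lt (a i)) (w (k i))) + H (P (↑(B i)) (w (k i))) +
        H (P (Ge (a (i+1))) (w (k i))) := by
      rw [← map_add, ← map_add, ← hdec]
    have hHB : H (P (↑(B i)) (w (k i))) = ∑ s ∈ B i, g s * |(w (k i)).val s| := by
      show HF g σ hgD hg0 hσb _ = _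
      rw [HF_apply, tsum_eq_sum (s := B i)]
      · refine Finset.sum_congr rfl fun s hs => ?_
        rw [P_val, Set.indicator_of_mem (Finset.mem_coe.2 hs), hσ1 i s hs, mul_assoc, sign_mul_self]
      · intro s hs
        rw [P_val, Set.indicator_of_notMem (fun h => hs (Finset.mem_coe.1 h)), mul_zero]
    have hb1 := neg_le_of_abs_le ((HF_bound g σ hgD hg0 hσb (P (Lt (a i)) (w (k i)))).trans (h1 i))
    have hb2 := neg_le_of_abs_le ((HF_bound g σ hgD hg0 hσb (P (Ge (a (i+1))) (w (k i)))).trans (h3 i))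
    show _ ≤ H (w (k i))
    rw [hH, hHB]
    have hb1' : -η i ≤ H (P (Lt (a i)) (w (k i))) := hb1
    have hb2' : -η i ≤ H (P (Ge (a (i+1))) (w (k i))) := hb2
    linarith
  have hlim : Tendsto (fun i => HF g σ hgD hg0 hσb (w (k i)) + 2 * η i) atTop (𝓝 (0 + 2 * 0)) :=
    ((hw (HF g σ hgD hg0 hσb)).comp hkmono.tendsto_atTop).add (hηlim.const_mul 2)
  rw [mul_zero, add_zero] at hlim
  obtain ⟨i, hi1, hi2⟩ := (hfreq.and_eventually (hlim.eventually (gt_mem_nhds hδ'))).exists
  have := hmain i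
  linarith

/-- weakly compact sets have uniformly small tails -/
theorem unif_tail {L : Set X} (hL : IsCompact (toWeakSpace ℝ X '' L)) {ε : ℝ} (hε : 0 < ε) :
    ∃ N : ℕ, ∀ z ∈ L, ‖P (Ge N) z‖ ≤ ε := by
  by_contra hcon
  push Not at hcon
  choose z hzL hz using hcon
  have hC : ∀ s : V, ∃ C, ∀ x ∈ L, |coord s x| ≤ C := fun s => weak_bdd hL (coord s)
  choose C hC using hC
  have hcomp : IsCompact (Set.pi Set.univ (fun s : V => Set.Icc (-C s) (C s))) :=
    isCompact_univ_pi fun s => isCompact_Icc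
  obtain ⟨a, _, κ, hκ, hlim⟩ := hcomp.tendsto_subseq (x := fun N => (z N).val) (fun N => by
    intro s _
    have := hC s (z N) (hzL N)
    rw [abs_le] at this
    exact this)
  have hlim' : ∀ s, Tendsto (fun k => (z (κ k)).val s) atTop (𝓝 (a s)) := fun s =>
    (tendsto_pi_nhds.1 hlim) s
  have hclu : ∀ U : Ultrafilter ℕ, (U : Filter ℕ) ≤ atTop → ∃ b ∈ L, b.val = a ∧
      ∀ φ : X →L[ℝ] ℝ, Tendsto (fun i => φ (z (κ i))) U (𝓝 (φ b)) := by
    intro U hU
    obtain ⟨b, hb, hb'⟩ := weak_cluster hL (fun i => z (κ i)) (fun i => hzL _) U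
    refine ⟨b, hb, ?_, hb'⟩
    funext s
    exact tendsto_nhds_unique (hb' (coord s)) ((hlim' s).mono_left hU)
  obtain ⟨b, hbL, hba, _⟩ := hclu (Ultrafilter.of atTop) (Ultrafilter.of_le _)
  have hweak : ∀ φ : X →L[ℝ] ℝ, Tendsto (fun i => φ (z (κ i))) atTop (𝓝 (φ b)) := by
    intro φ
    rw [tendsto_iff_ultrafilter]
    intro U hU
    obtain ⟨b', _, hb'a, hb'⟩ := hclu U hU
    have : b' = b := X.ext (hb'a.trans hba.symm)
    rw [← this]
    exact hb' φ
  refine gliding (fun k => z (κ k) - b) ?_ (ε / 2) (by positivity) ?_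
  · intro φ
    have := (hweak φ).sub_const (φ b)
    rw [sub_self] at this
    refine this.congr fun k => ?_
    rw [map_sub]
  · have h1 : ∀ᶠ k in atTop, ‖P (Ge k) b‖ < ε / 2 :=
      (tail_tendsto b).eventually (gt_mem_nhds (by positivity))
    filter_upwards [h1] with k hk
    have h2 : ε < ‖P (Ge k) (z (κ k))‖ := (hz (κ k)).trans_le
      (norm_P_anti (fun s hs => le_trans (hκ.id_le k) hs) _)
    have h3 := norm_sub_norm_le (P (Ge k) (z (κ k))) (P (Ge k) b)
    rw [← map_sub] at h3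
    linarith

/-- The space is strongly weakly compactly generated. -/
theorem swcg : ∃ K : Set X, IsCompact (toWeakSpace ℝ X '' K) ∧
    ∀ L : Set X, IsCompact (toWeakSpace ℝ X '' L) → ∀ ε : ℝ, 0 < ε →
      ∃ n : ℕ, ∀ z ∈ L, ∃ a ∈ K, ∃ b : X, ‖b‖ ≤ ε ∧ z = (n : ℝ) • a + b := by
  classical
  let c : V → ℝ := fun s => (1/2 : ℝ) ^ (Encodable.encode s)
  have hc0 : ∀ s, 0 < c s := fun s => by positivity
  have hcs : Summable c := summable_geometric_two.comp_injective Encodable.encode_injective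
  let Q : Set (V → ℝ) := Set.pi Set.univ (fun s => Set.Icc (-c s) (c s))
  have hQ : IsCompact Q := isCompact_univ_pi fun s => isCompact_Icc
  let Φ : (V → ℝ) → X := fun a => ∑' s, a s • e s
  have hbound : ∀ s, ∀ a ∈ Q, ‖a s • e s‖ ≤ 2 * c s := by
    intro s a ha
    rw [norm_smul, Real.norm_eq_abs, mul_comm]
    have h1 := ha s (Set.mem_univ s)
    exact mul_le_mul (norm_e_le s) (abs_le.2 h1) (abs_nonneg _) (by norm_num)
  have hΦ : ContinuousOn Φ Q := by
    refine continuousOn_tsum (u := fun s => 2 * c s) (fun s => ?_) (hcs.mul_left 2) hbound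
    exact ((continuous_apply s).smul continuous_const).continuousOn
  have hK : IsCompact (Φ '' Q) := hQ.image_of_continuousOn hΦ
  refine ⟨Φ '' Q, ?_, ?_⟩
  · exact hK.image (toWeakSpaceCLM ℝ X).continuous
  · intro L hL ε hε
    obtain ⟨N, hN⟩ := unif_tail hL hε
    have hC : ∀ s : V, ∃ C, ∀ x ∈ L, |coord s x| ≤ C := fun s => weak_bdd hL (coord s)
    choose C hC using hC
    have h1 : ∃ n : ℕ, 1 ≤ n ∧ ∀ s ∈ T N, C s ≤ n * c s := by
      have h2 : ∀ᶠ n : ℕ in atTop, ∀ s ∈ T N, C s / c s ≤ n := by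
        rw [Finset.eventually_all]
        intro s _
        filter_upwards [eventually_ge_atTop ⌈C s / c s⌉₊] with n hn
        exact (Nat.le_ceil _).trans (by exact_mod_cast hn)
      obtain ⟨n, hn1, hn2⟩ := (h2.and (eventually_ge_atTop 1)).exists
      exact ⟨n, hn2, fun s hs => (div_le_iff₀ (hc0 s)).1 (hn1 s hs)⟩
    obtain ⟨n, hn1, hn⟩ := h1
    have hn0 : (0:ℝ) < n := by exact_mod_cast hn1
    refine ⟨n, fun z hz => ?_⟩
    let a : V → ℝ := fun s => if s ∈ T N then z.val s / n else 0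
    refine ⟨Φ a, ⟨a, ?_, rfl⟩, P (Ge N) z, hN z hz, ?_⟩
    · intro s _
      show a s ∈ Set.Icc (-c s) (c s)
      rw [Set.mem_Icc, ← abs_le]
      show |if s ∈ T N then z.val s / n else 0| ≤ c s
      split_ifs with hs
      · rw [abs_div, abs_of_pos hn0, div_le_iff₀ hn0, mul_comm]
        exact (hC s z hz).trans (hn s hs)
      · rw [abs_zero]
        exact (hc0 s).le
    · have h3 : Φ a = ∑ s ∈ T N, (z.val s / n) • e s := by
        show ∑' s, a s • e s = _
        rw [tsum_eq_sum (s := T N)]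
        · refine Finset.sum_congr rfl fun s hs => ?_
          show (if s ∈ T N then z.val s / n else 0) • e s = _
          rw [if_pos hs]
        · intro s hs
          show (if s ∈ T N then z.val s / n else 0) • e s = _
          rw [if_neg hs, zero_smul]
      rw [h3, Finset.smul_sum]
      have h4 : ∑ s ∈ T N, (n:ℝ) • (z.val s / n) • e s = P (Lt N) z := by
        rw [P_Lt_eq]
        refine Finset.sum_congr rfl fun s _ => ?_
        rw [smul_smul, mul_div_cancel₀ _ hn0.ne']
      rw [h4]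
      exact P_add_compl N z

end Pool.Agent.Helper224.Sw
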