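import Pool.Agent.Helper224.Sw4

set_option autoImplicit false
open MeasureTheory Filter Topology
open scoped Pointwise

namespace Pool.Agent.Helper224.Sw

section Abstract

variable {E : Type*} [NormedAddCommGroup E] [NormedSpace ℝ E]

lemma tail_summable {ψ : ℕ → E →L[ℝ] ℝ} {C : ℝ}
    (hC : ∀ (x : E) (A : Finset ℕ), ∑ n ∈ A, |ψ n x| ≤ C * ‖x‖) (x : E) :
    Summable (fun n => ψ n x) := by
  refine Summable.of_norm ?_
  exact summable_of_sum_le (fun n => norm_nonneg _) (fun A => hC x A)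

/-- tail functional -/
lemma exists_tail (ψ : ℕ → E →L[ℝ] ℝ) (C : ℝ)
    (hC : ∀ (x : E) (A : Finset ℕ), ∑ n ∈ A, |ψ n x| ≤ C * ‖x‖) (N : ℕ) :
    ∃ φ : E →L[ℝ] ℝ, (∀ x, φ x = ∑' n, ψ (n + N) x) ∧ ∀ x, |φ x| ≤ C * ‖x‖ := by
  have hs : ∀ x : E, Summable (fun n => ψ (n + N) x) := fun x =>
    (summable_nat_add_iff N).2 (tail_summable hC x)
  have hb : ∀ x : E, ‖∑' n, ψ (n + N) x‖ ≤ C * ‖x‖ := by
    intro x
    refine (norm_tsum_le_tsum_norm ((hs x).norm)).trans ?_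
    refine (hs x).norm.tsum_le_of_sum_le fun A => ?_
    have h1 : ∑ n ∈ A, ‖ψ (n + N) x‖ = ∑ n ∈ A.map (addRightEmbedding N), |ψ n x| := by
      rw [Finset.sum_map]
      rfl
    rw [h1]
    exact hC x _
  refine ⟨LinearMap.mkContinuous
    { toFun := fun x => ∑' n, ψ (n + N) x
      map_add' := fun x y => by
        rw [← (hs x).tsum_add (hs y)]
        exact tsum_congr fun n => map_add _ _ _
      map_smul' := fun c x => by
        rw [RingHom.id_apply, smul_eq_mul, ← tsum_mul_left]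
        exact tsum_congr fun n => map_smul _ _ _ } C hb, fun x => rfl, hb⟩

lemma finite_absorb (ψ : ℕ → E →L[ℝ] ℝ) (C : ℝ) (hC0 : 0 ≤ C)
    (hC : ∀ (x : E) (A : Finset ℕ), ∑ n ∈ A, |ψ n x| ≤ C * ‖x‖) (f : ℕ → E)
    (hf : ∀ n n', ψ n' (f n) = if n = n' then 1 else 0) (K : Set E)
    (hK : IsCompact (toWeakSpace ℝ E '' K)) (m : ℕ) (ε : ℝ) (hε : C * ε ≤ 1/2) :
    {n | ∃ a ∈ K, ∃ b : E, ‖b‖ ≤ ε ∧ f n = (m:ℝ) • a + b}.Finite := by
  by_contra hinf
  have hfreq : ∃ᶠ n in atTop, ∃ a ∈ K, ∃ b : E, ‖b‖ ≤ ε ∧ f n = (m:ℝ) • a + b :=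
    Nat.frequently_atTop_iff_infinite.2 hinf
  obtain ⟨κ, hκ, hκ'⟩ := extraction_of_frequently_atTop hfreq
  choose a haK b hb hab using hκ'
  obtain ⟨a0, _, ha0⟩ := weak_cluster hK a haK (Ultrafilter.of atTop)
  choose φ hφ hφb using exists_tail ψ C hC
  have h1 : ∀ N, 1/2 ≤ (m:ℝ) * φ N a0 := by
    intro N
    have h2 : Tendsto (fun i => (m:ℝ) * φ N (a i)) (Ultrafilter.of atTop : Ultrafilter ℕ)
        (𝓝 ((m:ℝ) * φ N a0)) := (ha0 (φ N)).const_mul _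
    refine ge_of_tendsto h2 ?_
    have h3 : ∀ᶠ i in atTop, 1/2 ≤ (m:ℝ) * φ N (a i) := by
      filter_upwards [eventually_ge_atTop N] with i hi
      have h4 : φ N (f (κ i)) = 1 := by
        rw [hφ]
        have hκi : N ≤ κ i := hi.trans (hκ.id_le i)
        rw [tsum_eq_single (κ i - N)]
        · rw [hf, if_pos (by omega)]
        · intro n hn
          rw [hf, if_neg (by omega)]
      have h5 : φ N (f (κ i)) = (m:ℝ) * φ N (a i) + φ N (b i) := by
        rw [hab i, map_add, map_smul, smul_eq_mul]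
      have h6 : φ N (b i) ≤ 1/2 := (le_abs_self _).trans ((hφb N (b i)).trans
        ((mul_le_mul_of_nonneg_left (hb i) hC0).trans hε))
      linarith
    exact (Ultrafilter.of_le atTop) h3
  have h2 : Tendsto (fun N => (m:ℝ) * φ N a0) atTop (𝓝 ((m:ℝ) * 0)) := by
    refine Tendsto.const_mul _ ?_
    simp only [hφ]
    exact tendsto_sum_nat_add (fun n => ψ n a0)
  rw [mul_zero] at h2
  have := ge_of_tendsto h2 (Eventually.of_forall h1)
  linarith

lemma exists_strictMono_avoid (S : ℕ → Set ℕ) (hS : ∀ m, (S m).Finite) :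
    ∃ n : ℕ → ℕ, StrictMono n ∧ ∀ m, n m ∉ S m := by
  have h1 : ∀ m, ∃ M, ∀ k ∈ S m, k ≤ M := fun m => (hS m).bddAbove
  choose M hM using h1
  refine ⟨fun m => ∑ i ∈ Finset.range (m+1), (M i + 1), ?_, ?_⟩
  · refine strictMono_nat_of_lt_succ fun m => ?_
    rw [Finset.sum_range_succ _ (m+1)]
    omega
  · intro m hm
    have h2 := hM m _ hm
    simp only at h2
    rw [Finset.sum_range_succ] at h2
    omega

theorem not_swcg_of (f : ℕ → ℕ → E) (ψ : ℕ → ℕ → E →L[ℝ] ℝ) (C : ℝ) (hC0 : 0 < C)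
    (hC : ∀ (m : ℕ) (x : E) (A : Finset ℕ), ∑ n ∈ A, |ψ m n x| ≤ C * ‖x‖)
    (hf : ∀ m n n', ψ m n' (f m n) = if n = n' then 1 else 0)
    (hweak : ∀ n : ℕ → ℕ, StrictMono n → ∀ φ : E →L[ℝ] ℝ,
      Tendsto (fun m => φ (f m (n m))) atTop (𝓝 0)) :
    ¬ ∃ K : Set E, IsCompact (toWeakSpace ℝ E '' K) ∧
        ∀ L : Set E, IsCompact (toWeakSpace ℝ E '' L) → ∀ ε : ℝ, 0 < ε →
            ∃ n : ℕ, L ⊆ (n : ℝ) • K + Metric.closedBall (0 : E) ε := by
  rintro ⟨K, hK, hL⟩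
  let ε : ℝ := 1 / (2 * C)
  have hε : 0 < ε := by positivity
  have hCε : C * ε ≤ 1/2 := by
    show C * (1 / (2 * C)) ≤ 1/2
    rw [mul_one_div, div_le_div_iff₀ (by positivity) (by norm_num)]
    linarith
  obtain ⟨n, hn, hn'⟩ := exists_strictMono_avoid
    (fun m => {n | ∃ a ∈ K, ∃ b : E, ‖b‖ ≤ ε ∧ f m n = (m:ℝ) • a + b})
    (fun m => finite_absorb (ψ m) C hC0.le (hC m) (f m) (hf m) K hK m ε hCε)
  have hlim : Tendsto (fun m => toWeakSpace ℝ E (f m (n m))) atTop (𝓝 (toWeakSpace ℝ E 0)) := by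
    rw [weak_tendsto_iff]
    intro φ
    rw [map_zero]
    exact hweak n hn φ
  have hcomp := hlim.isCompact_insert_range
  have himg : toWeakSpace ℝ E '' (insert 0 (Set.range fun m => f m (n m))) =
      insert (toWeakSpace ℝ E 0) (Set.range fun m => toWeakSpace ℝ E (f m (n m))) := by
    rw [Set.image_insert_eq, ← Set.range_comp]
    rfl
  obtain ⟨M, hM⟩ := hL (insert 0 (Set.range fun m => f m (n m))) (by rw [himg]; exact hcomp) ε hε
  have h1 := hM (Set.mem_insert_of_mem _ ⟨M, rfl⟩)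
  obtain ⟨u, hu, b, hb, hab⟩ := Set.mem_add.1 h1
  obtain ⟨a, ha, rfl⟩ := Set.mem_smul_set.1 hu
  refine hn' M ⟨a, ha, b, ?_, hab.symm⟩
  rwa [mem_closedBall_zero_iff] at hb

/-- A sequence is weakly null as soon as its signed averages tend to zero uniformly. -/
lemma weak_null_of_avg (x : ℕ → E)
    (h : ∀ η > 0, ∃ K : ℕ, 0 < K ∧ ∀ (F : Finset ℕ) (c : ℕ → ℝ), F.card = K → (∀ m, |c m| ≤ 1) →
      ‖∑ m ∈ F, c m • x m‖ ≤ η * K) (φ : E →L[ℝ] ℝ) :
    Tendsto (fun m => φ (x m)) atTop (𝓝 0) := by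
  classical
  by_contra hne
  have h1 : ∃ δ > 0, ∃ᶠ m in atTop, δ ≤ |φ (x m)| := by
    by_contra hcon
    push Not at hcon
    apply hne
    rw [Metric.tendsto_nhds]
    intro δ hδ
    filter_upwards [hcon δ hδ] with m hm
    rwa [Real.dist_eq, sub_zero]
  obtain ⟨δ, hδ, hfreq⟩ := h1
  have hinf : {m | δ ≤ |φ (x m)|}.Infinite := Nat.frequently_atTop_iff_infinite.1 hfreq
  obtain ⟨K, hK0, hK⟩ := h (δ / (2 * (‖φ‖ + 1))) (by positivity)
  obtain ⟨F, hF, hFc⟩ := hinf.exists_subset_card_eq K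
  have h2 := hK F (fun m => SignType.sign (φ (x m))) hFc (fun m => by
    rcases lt_trichotomy (φ (x m)) 0 with h | h | h
    · simp [sign_neg h]
    · simp [h]
    · simp [sign_pos h])
  have h3 : δ * K ≤ φ (∑ m ∈ F, ((SignType.sign (φ (x m)) : SignType) : ℝ) • x m) := by
    rw [map_sum]
    calc δ * K = ∑ m ∈ F, δ := by rw [Finset.sum_const, hFc, nsmul_eq_mul, mul_comm]
      _ ≤ _ := Finset.sum_le_sum fun m hm => by
          rw [map_smul, smul_eq_mul, sign_mul_self]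
          exact hF hm
  have h4 : φ (∑ m ∈ F, ((SignType.sign (φ (x m)) : SignType) : ℝ) • x m) ≤
      ‖φ‖ * (δ / (2 * (‖φ‖ + 1)) * K) :=
    (le_abs_self _).trans ((φ.le_opNorm _).trans (mul_le_mul_of_nonneg_left h2 (norm_nonneg _)))
  have hK' : (0:ℝ) < K := by exact_mod_cast hK0
  have h5 : ‖φ‖ * (δ / (2 * (‖φ‖ + 1)) * K) = (‖φ‖ / (‖φ‖ + 1)) * (δ * K / 2) := by
    field_simp
  have h6 : ‖φ‖ / (‖φ‖ + 1) ≤ 1 := by
    rw [div_le_one (by positivity)]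
    linarith
  have h7 : (‖φ‖ / (‖φ‖ + 1)) * (δ * K / 2) ≤ 1 * (δ * K / 2) :=
    mul_le_mul_of_nonneg_right h6 (by positivity)
  have h8 : 0 < δ * K := by positivity
  linarith

end Abstract

end Pool.Agent.Helper224.Sw
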