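import Pool.Agent.Helper224.Sw5

set_option autoImplicit false
open MeasureTheory Filter Topology

namespace Pool.Agent.Helper224.Sw

/-- the node at level `k` of the branch `b` -/
def nd (b : ℕ → Bool) (k : ℕ) : V := List.ofFn (fun i : Fin k => b i)

@[simp] lemma nd_length (b : ℕ → Bool) (k : ℕ) : (nd b k).length = k := by
  rw [nd, List.length_ofFn]

lemma nd_getElem {b : ℕ → Bool} {k i : ℕ} (h : i < k) : (nd b k)[i]? = some (b i) := by
  rw [nd, List.getElem?_ofFn, dif_pos h]

lemma nd_cone {b w : ℕ → Bool} {k q : ℕ} (h : Cone w q (nd b k)) : ∀ i < q, b i = w i := by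
  intro i hi
  have h1 := h i hi
  have hik : i < k := by
    by_contra hcon
    rw [List.getElem?_eq_none (by rw [nd_length]; omega)] at h1
    cases h1
  rw [nd_getElem hik] at h1
  exact Option.some_injective _ h1

lemma card_bound (b : ℕ → ℕ → Bool) (n : ℕ → ℕ) (F : Finset ℕ) (q : ℕ) (M : ℝ)
    (hM : ∀ w : ℕ → Bool, ((F.filter (fun m => ∀ i < q, b m i = w i)).card : ℝ) ≤ M) (r : ℕ) :
    ∀ G ∈ Sch r, ((G ∩ F.image (fun m => nd (b m) (n m))).card : ℝ) ≤ ((q:ℝ)+1)^r * (1 + M) := by
  classical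
  have hM0 : 0 ≤ M := (Nat.cast_nonneg _).trans (hM (fun _ => false))
  induction r with
  | zero =>
    intro G hG
    have h1 := (Sch_zero G).1 hG
    have h2 : (G ∩ F.image (fun m => nd (b m) (n m))).card ≤ 1 :=
      (Finset.card_le_card Finset.inter_subset_left).trans h1
    have h3 : ((G ∩ F.image (fun m => nd (b m) (n m))).card : ℝ) ≤ 1 := by exact_mod_cast h2
    rw [pow_zero, one_mul]
    linarith
  | succ r ih =>
    intro G hG
    obtain ⟨w, G', l, hG', hs, hc, rfl⟩ := (Sch_succ r G).1 hG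
    let S := F.image (fun m => nd (b m) (n m))
    have hsub : (Finset.range l).biUnion G' ∩ S ⊆
        ((Finset.range q).biUnion (fun j => G' j ∩ S)) ∪
          (F.filter (fun m => ∀ i < q, b m i = w i)).image (fun m => nd (b m) (n m)) := by
      intro s hs'
      obtain ⟨h1, h2⟩ := Finset.mem_inter.1 hs'
      obtain ⟨j, hj, hsj⟩ := Finset.mem_biUnion.1 h1
      rw [Finset.mem_union]
      by_cases hjq : j < q
      · left
        exact Finset.mem_biUnion.2 ⟨j, Finset.mem_range.2 hjq, Finset.mem_inter.2 ⟨hsj, h2⟩⟩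
      · right
        obtain ⟨m, hm, rfl⟩ := Finset.mem_image.1 h2
        refine Finset.mem_image.2 ⟨m, Finset.mem_filter.2 ⟨hm, ?_⟩, rfl⟩
        refine nd_cone (k := n m) ?_
        intro i hi
        exact hc j _ hsj i (by omega)
    have h1 : (((Finset.range l).biUnion G' ∩ S).card : ℝ) ≤
        ∑ j ∈ Finset.range q, ((G' j ∩ S).card : ℝ) +
          ((F.filter (fun m => ∀ i < q, b m i = w i)).card : ℝ) := by
      have h2 : ((Finset.range l).biUnion G' ∩ S).card ≤
          ∑ j ∈ Finset.range q, (G' j ∩ S).card + (F.filter (fun m => ∀ i < q, b m i = w i)).card := by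
        refine (Finset.card_le_card hsub).trans ((Finset.card_union_le _ _).trans ?_)
        exact add_le_add Finset.card_biUnion_le Finset.card_image_le
      exact_mod_cast h2
    have h2 : ∑ j ∈ Finset.range q, ((G' j ∩ S).card : ℝ) ≤ q * (((q:ℝ)+1)^r * (1 + M)) := by
      refine (Finset.sum_le_sum fun j _ => ih (G' j) (hG' j)).trans ?_
      rw [Finset.sum_const, Finset.card_range, nsmul_eq_mul]
    have h3 : M ≤ ((q:ℝ)+1)^r * (1 + M) := by
      have h4 : (1:ℝ) ≤ ((q:ℝ)+1)^r := one_le_pow₀ (by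
        have : (0:ℝ) ≤ q := Nat.cast_nonneg q
        linarith)
      nlinarith
    calc (((Finset.range l).biUnion G' ∩ S).card : ℝ) ≤ q * (((q:ℝ)+1)^r * (1 + M)) + M :=
          h1.trans (add_le_add h2 (hM w))
      _ ≤ q * (((q:ℝ)+1)^r * (1 + M)) + ((q:ℝ)+1)^r * (1 + M) := by linarith
      _ = ((q:ℝ)+1)^(r+1) * (1 + M) := by ring

lemma sum_half (l : ℕ) : ∑ r ∈ Finset.range l, (1/2 : ℝ)^r = 2 - 2 * (1/2)^l := by
  induction l with
  | zero => simp
  | succ l ih => rw [Finset.sum_range_succ, ih]; ring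

lemma sum_half_tail (R l : ℕ) : ∑ r ∈ (Finset.range l).filter (fun r => R ≤ r), (1/2 : ℝ)^r ≤ 2 * (1/2)^R := by
  have h1 : (Finset.range l).filter (fun r => R ≤ r) = Finset.Ico R l := by
    ext r
    rw [Finset.mem_filter, Finset.mem_range, Finset.mem_Ico, and_comm]
  rw [h1]
  rcases le_total R l with h | h
  · have h2 := Finset.sum_range_add_sum_Ico (fun r => (1/2 : ℝ)^r) h
    rw [sum_half, sum_half] at h2
    have : (0:ℝ) < (1/2)^l := by positivity
    linarith
  · rw [Finset.Ico_eq_empty_of_le h, Finset.sum_empty]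
    positivity

lemma norm_bound (b : ℕ → ℕ → Bool) (n : ℕ → ℕ) (hn : StrictMono n) (F : Finset ℕ) (c : ℕ → ℝ)
    (hc : ∀ m, |c m| ≤ 1) (q R : ℕ) (M : ℝ)
    (hM : ∀ w : ℕ → Bool, ((F.filter (fun m => ∀ i < q, b m i = w i)).card : ℝ) ≤ M) :
    ‖∑ m ∈ F, c m • e (nd (b m) (n m))‖ ≤
      2 * ((q:ℝ)+1)^R * (1 + M) + 2 * (1/2)^R * F.card := by
  classical
  have hM0 : 0 ≤ M := (Nat.cast_nonneg _).trans (hM (fun _ => false))
  let S := F.image (fun m => nd (b m) (n m))
  have hinj : ∀ m m', nd (b m) (n m) = nd (b m') (n m') → m = m' := by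
    intro m m' h
    have := congrArg List.length h
    rw [nd_length, nd_length] at this
    exact hn.injective this
  have hval : ∀ s, |(∑ m ∈ F, c m • e (nd (b m) (n m))).val s| ≤ if s ∈ S then 1 else 0 := by
    intro s
    rw [val_sum, Finset.sum_apply]
    have h1 : ∀ m, (c m • e (nd (b m) (n m))).val s = if s = nd (b m) (n m) then c m else 0 := by
      intro m
      rw [X.val_smul, Pi.smul_apply, e_val, smul_eq_mul]
      by_cases h : s = nd (b m) (n m)
      · rw [← h, if_pos rfl, Pi.single_eq_same, mul_one]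
      · rw [if_neg h, Pi.single_eq_of_ne h, mul_zero]
    simp only [h1]
    by_cases hs : s ∈ S
    · rw [if_pos hs]
      obtain ⟨m, hm, hms⟩ := Finset.mem_image.1 hs
      rw [Finset.sum_eq_single_of_mem m hm]
      · rw [if_pos hms.symm]
        exact hc m
      · intro m' _ hm'
        rw [if_neg]
        intro h
        exact hm' (hinj _ _ (h.symm.trans hms.symm))
    · rw [if_neg hs, Finset.sum_eq_zero, abs_zero]
      intro m hm
      rw [if_neg]
      intro h
      exact hs (Finset.mem_image.2 ⟨m, hm, h.symm⟩)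
  refine norm_le_of_wt (by positivity) fun G l A hG => ?_
  have h1 : ∑ s ∈ A, wt G l s * |(∑ m ∈ F, c m • e (nd (b m) (n m))).val s| ≤
      ∑ s ∈ S, wt G l s := by
    calc _ ≤ ∑ s ∈ A, wt G l s * (if s ∈ S then 1 else 0) :=
          Finset.sum_le_sum fun s _ => mul_le_mul_of_nonneg_left (hval s) (wt_nonneg _ _ _)
      _ = ∑ s ∈ A ∩ S, wt G l s := by
          rw [← Finset.filter_mem_eq_inter, Finset.sum_filter]
          refine Finset.sum_congr rfl fun s _ => ?_
          split_ifs
          · rw [mul_one]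
          · rw [mul_zero]
      _ ≤ _ := Finset.sum_le_sum_of_subset_of_nonneg Finset.inter_subset_right
          fun s _ _ => wt_nonneg _ _ _
  have h2 : ∑ s ∈ S, wt G l s = ∑ r ∈ Finset.range l, (1/2 : ℝ)^r * ((G r ∩ S).card : ℝ) := by
    simp only [wt]
    rw [Finset.sum_comm]
    refine Finset.sum_congr rfl fun r _ => ?_
    rw [← Finset.mul_sum]
    congr 1
    rw [Finset.sum_ite_mem, Finset.sum_const, nsmul_eq_mul, mul_one, Finset.inter_comm]
  have h3 : ∀ r, ((G r ∩ S).card : ℝ) ≤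
      ((q:ℝ)+1)^R * (1 + M) + (if R ≤ r then (F.card : ℝ) else 0) := by
    intro r
    by_cases hr : R ≤ r
    · rw [if_pos hr]
      have h4 : (G r ∩ S).card ≤ F.card :=
        (Finset.card_le_card Finset.inter_subset_right).trans Finset.card_image_le
      have h5 : ((G r ∩ S).card : ℝ) ≤ F.card := by exact_mod_cast h4
      have h6 : 0 ≤ ((q:ℝ)+1)^R * (1 + M) := by positivity
      linarith
    · rw [if_neg hr, add_zero]
      refine (card_bound b n F q M hM r (G r) (hG.1 r)).trans ?_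
      refine mul_le_mul_of_nonneg_right ?_ (by positivity)
      refine pow_le_pow_right₀ ?_ (by omega)
      have : (0:ℝ) ≤ q := Nat.cast_nonneg q
      linarith
  calc _ ≤ ∑ r ∈ Finset.range l, (1/2 : ℝ)^r * ((G r ∩ S).card : ℝ) := h1.trans h2.le
    _ ≤ ∑ r ∈ Finset.range l, (1/2 : ℝ)^r *
          (((q:ℝ)+1)^R * (1 + M) + (if R ≤ r then (F.card : ℝ) else 0)) :=
        Finset.sum_le_sum fun r _ => mul_le_mul_of_nonneg_left (h3 r) (by positivity)
    _ = (∑ r ∈ Finset.range l, (1/2 : ℝ)^r) * (((q:ℝ)+1)^R * (1 + M)) +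
          (∑ r ∈ (Finset.range l).filter (fun r => R ≤ r), (1/2 : ℝ)^r) * F.card := by
        rw [Finset.sum_filter, Finset.sum_mul, Finset.sum_mul, ← Finset.sum_add_distrib]
        refine Finset.sum_congr rfl fun r _ => ?_
        split_ifs
        · ring
        · ring
    _ ≤ 2 * (((q:ℝ)+1)^R * (1 + M)) + (2 * (1/2)^R) * F.card := by
        refine add_le_add (mul_le_mul_of_nonneg_right ?_ (by positivity))
          (mul_le_mul_of_nonneg_right (sum_half_tail R l) (Nat.cast_nonneg _))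
        rw [sum_half]
        have : (0:ℝ) < (1/2)^l := by positivity
        linarith
    _ = _ := by ring

/-- the number of agreeing pairs -/
def Dq (F : Finset ℕ) (q : ℕ) (b : ℕ → ℕ → Bool) : ℝ :=
  ∑ m ∈ F, ∑ m' ∈ F, if ∀ i < q, b m i = b m' i then 1 else 0

lemma card_le_Dq (F : Finset ℕ) (q : ℕ) (b : ℕ → ℕ → Bool) (w : ℕ → Bool) :
    ((F.filter (fun m => ∀ i < q, b m i = w i)).card : ℝ) ^ 2 ≤ Dq F q b := by
  classical
  have h1 : ((F.filter (fun m => ∀ i < q, b m i = w i)).card : ℝ) =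
      ∑ m ∈ F, if ∀ i < q, b m i = w i then (1:ℝ) else 0 := by
    rw [Finset.sum_boole]
  rw [sq, h1, Finset.sum_mul_sum, Dq]
  refine Finset.sum_le_sum fun m _ => Finset.sum_le_sum fun m' _ => ?_
  by_cases h2 : ∀ i < q, b m i = w i
  · by_cases h3 : ∀ i < q, b m' i = w i
    · rw [if_pos h2, if_pos h3, if_pos (fun i hi => (h2 i hi).trans (h3 i hi).symm), mul_one]
    · rw [if_neg h3, mul_zero]
      split_ifs
      · exact zero_le_one
      · exact le_rfl
  · rw [if_neg h2, zero_mul]
    split_ifs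
    · exact zero_le_one
    · exact le_rfl

lemma card_le_lam (F : Finset ℕ) (q : ℕ) (b : ℕ → ℕ → Bool) (lam : ℝ) (hl : 0 < lam) (w : ℕ → Bool) :
    ((F.filter (fun m => ∀ i < q, b m i = w i)).card : ℝ) ≤ (Dq F q b / lam + lam) / 2 := by
  have h1 := card_le_Dq F q b w
  set N := ((F.filter (fun m => ∀ i < q, b m i = w i)).card : ℝ)
  have h2 : N ^ 2 / lam ≤ Dq F q b / lam := div_le_div_of_nonneg_right h1 hl.le
  have h3 : 2 * N ≤ N ^ 2 / lam + lam := by
    have h4 : 0 ≤ (N - lam)^2 / lam := by positivity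
    have h5 : (N - lam)^2 / lam = N^2/lam - 2 * N + lam := by
      field_simp
      ring
    linarith
  linarith

end Pool.Agent.Helper224.Sw
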