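import Pool.Agent.Helper224.Sw6

set_option autoImplicit false
open MeasureTheory Filter Topology

namespace Pool.Agent.Helper224.Sw

/-- the fair coin -/
noncomputable def mub : Measure Bool := (PMF.uniformOfFintype Bool).toMeasure

noncomputable instance : IsProbabilityMeasure mub := by
  unfold mub
  infer_instance

lemma mub_single (a : Bool) : mub {a} = 2⁻¹ := by
  rw [mub, PMF.toMeasure_apply_singleton _ _ (measurableSet_singleton a),
    PMF.uniformOfFintype_apply]
  simp

/-- the coin tossing measure -/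
noncomputable def nu : Measure (ℕ → Bool) := Measure.infinitePi (fun _ => mub)

noncomputable instance : IsProbabilityMeasure nu := by
  unfold nu
  infer_instance

/-- the product of countably many copies -/
noncomputable def Pm : Measure (ℕ → ℕ → Bool) := Measure.infinitePi (fun _ : ℕ => nu)

noncomputable instance : IsProbabilityMeasure Pm := by
  unfold Pm
  infer_instance

lemma nu_cyl (q : ℕ) (a : ℕ → Bool) :
    nu (Set.pi (Finset.range q : Finset ℕ) (fun i => {a i})) = (2⁻¹ : ENNReal)^q := by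
  rw [nu, Measure.infinitePi_pi]
  · simp only [mub_single]
    rw [Finset.prod_const, Finset.card_range]
  · intro i _
    exact measurableSet_singleton _

lemma meas_cyl (q : ℕ) (a : ℕ → Bool) :
    MeasurableSet (Set.pi (Finset.range q : Finset ℕ) (fun i => ({a i} : Set Bool))) :=
  MeasurableSet.pi (Finset.countable_toSet _) fun i _ => measurableSet_singleton _

lemma Pm_cyl {m m' : ℕ} (h : m ≠ m') (q : ℕ) (a : ℕ → Bool) :
    Pm (Set.pi (({m, m'} : Finset ℕ) : Set ℕ)
      (fun _ => Set.pi (Finset.range q : Finset ℕ) (fun i => ({a i} : Set Bool)))) = ((2⁻¹ : ENNReal)^q)^2 := by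
  rw [Pm, Measure.infinitePi_pi]
  · simp only [nu_cyl]
    rw [Finset.prod_const, Finset.card_pair h]
  · intro i _
    exact meas_cyl q a

lemma Pm_agree {m m' : ℕ} (h : m ≠ m') (q : ℕ) :
    Pm {ω | ∀ i < q, ω m i = ω m' i} ≤ (2⁻¹ : ENNReal)^q := by
  classical
  let ext : (Fin q → Bool) → ℕ → Bool := fun a i => if hi : i < q then a ⟨i, hi⟩ else false
  have hsub : {ω : ℕ → ℕ → Bool | ∀ i < q, ω m i = ω m' i} ⊆
      ⋃ a ∈ (Finset.univ : Finset (Fin q → Bool)), Set.pi (({m, m'} : Finset ℕ) : Set ℕ)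
      (fun _ => Set.pi (Finset.range q : Finset ℕ) (fun i => ({ext a i} : Set Bool))) := by
    intro ω hω
    rw [Set.mem_iUnion₂]
    refine ⟨fun i => ω m i, Finset.mem_univ _, ?_⟩
    intro j hj i hi
    have hi' : i < q := by
      rw [Finset.mem_coe, Finset.mem_range] at hi
      exact hi
    have h1 : ext (fun i => ω m i) i = ω m i := dif_pos hi'
    rw [Set.mem_singleton_iff, h1]
    rw [Finset.mem_coe, Finset.mem_insert, Finset.mem_singleton] at hj
    rcases hj with rfl | rfl
    · rfl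
    · exact (hω i hi').symm
  refine (measure_mono hsub).trans ((measure_biUnion_finset_le _ _).trans ?_)
  simp only [Pm_cyl h]
  rw [Finset.sum_const, Finset.card_univ, Fintype.card_pi_const, Fintype.card_bool, nsmul_eq_mul,
    sq, ← mul_assoc]
  push_cast
  rw [← mul_pow, ENNReal.mul_inv_cancel (by norm_num) (by norm_num), one_pow, one_mul]

lemma meas_agree (m m' q : ℕ) : MeasurableSet {ω : ℕ → ℕ → Bool | ∀ i < q, ω m i = ω m' i} := by
  have : {ω : ℕ → ℕ → Bool | ∀ i < q, ω m i = ω m' i} =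
      ⋂ i ∈ Finset.range q, {ω : ℕ → ℕ → Bool | ω m i = ω m' i} := by
    ext ω
    simp
  rw [this]
  refine Finset.measurableSet_biInter _ fun i _ => ?_
  refine measurableSet_eq_fun ?_ ?_
  · exact (measurable_pi_apply i).comp (measurable_pi_apply m)
  · exact (measurable_pi_apply i).comp (measurable_pi_apply m')

lemma ind_eq (m m' q : ℕ) (ω : ℕ → ℕ → Bool) : (if ∀ i < q, ω m i = ω m' i then (1:ℝ) else 0) =
    Set.indicator {ω : ℕ → ℕ → Bool | ∀ i < q, ω m i = ω m' i} (fun _ => (1:ℝ)) ω := by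
  by_cases h : ∀ i < q, ω m i = ω m' i
  · rw [if_pos h, Set.indicator_of_mem (by exact h)]
  · rw [if_neg h, Set.indicator_of_notMem (by exact h)]

lemma int_ind (m m' q : ℕ) : Integrable (fun ω : ℕ → ℕ → Bool =>
    if ∀ i < q, ω m i = ω m' i then (1:ℝ) else 0) Pm := by
  simp only [ind_eq]
  exact (integrable_const (1:ℝ)).indicator (meas_agree m m' q)

lemma integral_ind (m m' q : ℕ) : ∫ ω : ℕ → ℕ → Bool, (if ∀ i < q, ω m i = ω m' i then (1:ℝ) else 0) ∂Pm
    ≤ (if m = m' then 1 else 0) + (1/2 : ℝ)^q := by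
  simp only [ind_eq]
  rw [integral_indicator (meas_agree m m' q), setIntegral_const, smul_eq_mul, mul_one]
  by_cases h : m = m'
  · rw [if_pos h]
    have h1 : Pm.real {ω : ℕ → ℕ → Bool | ∀ i < q, ω m i = ω m' i} ≤ 1 := measureReal_le_one
    have h2 : (0:ℝ) < (1/2)^q := by positivity
    linarith
  · rw [if_neg h, zero_add]
    have h1 := ENNReal.toReal_mono (by
      refine ENNReal.pow_ne_top ?_
      simp) (Pm_agree h q)
    rw [ENNReal.toReal_pow, ENNReal.toReal_inv] at h1
    rw [one_div]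
    exact h1

lemma int_Dq (F : Finset ℕ) (q : ℕ) : Integrable (fun ω : ℕ → ℕ → Bool => Dq F q ω) Pm :=
  integrable_finsetSum _ fun m _ => integrable_finsetSum _ fun m' _ => int_ind m m' q

lemma integral_Dq (F : Finset ℕ) (q : ℕ) :
    ∫ ω : ℕ → ℕ → Bool, Dq F q ω ∂Pm ≤ F.card + (F.card:ℝ)^2 * (1/2 : ℝ)^q := by
  classical
  simp only [Dq]
  rw [integral_finsetSum _ fun m _ => integrable_finsetSum _ fun m' _ => int_ind m m' q]
  have h1 : ∀ m ∈ F, ∫ ω : ℕ → ℕ → Bool, ∑ m' ∈ F, (if ∀ i < q, ω m i = ω m' i then (1:ℝ) else 0) ∂Pm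
      ≤ 1 + (F.card:ℝ) * (1/2 : ℝ)^q := by
    intro m hm
    rw [integral_finsetSum _ fun m' _ => int_ind m m' q]
    refine (Finset.sum_le_sum fun m' _ => integral_ind m m' q).trans ?_
    rw [Finset.sum_add_distrib, Finset.sum_ite_eq, if_pos hm, Finset.sum_const, nsmul_eq_mul]
  refine (Finset.sum_le_sum h1).trans ?_
  rw [Finset.sum_const, nsmul_eq_mul]
  apply le_of_eq
  ring

end Pool.Agent.Helper224.Sw
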