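import Pool.Agent.Helper224.Sw7

set_option autoImplicit false
open MeasureTheory Filter Topology

namespace Pool.Agent.Helper224.Sw

/-- the Bochner space -/
abbrev L1X : Type := Lp X 1 Pm

lemma sm_node (m n : ℕ) : StronglyMeasurable (fun ω : ℕ → ℕ → Bool => e (nd (ω m) n)) := by
  have h1 : StronglyMeasurable (fun a : Fin n → Bool => e (List.ofFn a)) :=
    StronglyMeasurable.of_discrete
  have h2 : Measurable (fun ω : ℕ → ℕ → Bool => (fun i : Fin n => ω m i)) :=
    measurable_pi_lambda _ fun i => (measurable_pi_apply (i : ℕ)).comp (measurable_pi_apply m)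
  exact h1.comp_measurable h2

lemma memLp_node (m n : ℕ) : MemLp (fun ω : ℕ → ℕ → Bool => e (nd (ω m) n)) 1 Pm :=
  MemLp.of_bound (sm_node m n).aestronglyMeasurable 2 (Eventually.of_forall fun _ => norm_e_le _)

/-- the test functions -/
noncomputable def fL (m n : ℕ) : L1X := (memLp_node m n).toLp _

lemma fL_coe (m n : ℕ) : (fL m n : (ℕ → ℕ → Bool) → X) =ᵐ[Pm] fun ω => e (nd (ω m) n) :=
  MemLp.coeFn_toLp _

lemma branch_sum (x : X) (b : ℕ → Bool) (A : Finset ℕ) :
    ∑ n ∈ A, |x.val (nd b n)| ≤ 2 * ‖x‖ := by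
  classical
  let N := A.sup id + 1
  let G : ℕ → Finset V := fun r => if r = 1 then (Finset.range N).biUnion (fun j => {nd b j}) else ∅
  have hmemG : ∀ n ∈ A, nd b n ∈ G 1 := by
    intro n hn
    show nd b n ∈ (if (1:ℕ) = 1 then (Finset.range N).biUnion (fun j => {nd b j}) else ∅)
    rw [if_pos rfl]
    refine Finset.mem_biUnion.2 ⟨n, Finset.mem_range.2 ?_, Finset.mem_singleton_self _⟩
    exact Nat.lt_succ_of_le (Finset.le_sup (f := id) hn)
  have hG : Adm G := by
    constructor
    · intro r
      by_cases hr : r = 1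
      · subst hr
        show (if (1:ℕ) = 1 then (Finset.range N).biUnion (fun j => {nd b j}) else ∅) ∈ Sch 1
        rw [if_pos rfl, Sch_succ]
        refine ⟨b, fun j => {nd b j}, N, ?_, ?_, ?_, rfl⟩
        · intro j
          rw [Sch_zero, Finset.card_singleton]
        · intro i j hij s hs t ht
          rw [Finset.mem_singleton] at hs ht
          subst hs
          subst ht
          rwa [nd_length, nd_length]
        · intro j s hs i hi
          rw [Finset.mem_singleton] at hs
          subst hs
          exact nd_getElem hi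
      · show (if r = 1 then (Finset.range N).biUnion (fun j => {nd b j}) else ∅) ∈ Sch r
        rw [if_neg hr]
        exact empty_mem_Sch r
    · intro i j hij s hs t ht
      by_cases hi : i = 1
      · have hj : j ≠ 1 := by omega
        simp only [G, if_neg hj] at ht
        simp at ht
      · simp only [G, if_neg hi] at hs
        simp at hs
  have hwt : ∀ n ∈ A, wt G 2 (nd b n) = 1/2 := by
    intro n hn
    have h0 : nd b n ∉ G 0 := by
      show nd b n ∉ (if (0:ℕ) = 1 then (Finset.range N).biUnion (fun j => {nd b j}) else ∅)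
      simp
    rw [wt, Finset.sum_range_succ, Finset.sum_range_one, if_neg h0, if_pos (hmemG n hn)]
    norm_num
  have h1 := sum_wt_le_norm x G 2 hG (A.image (nd b))
  rw [Finset.sum_image] at h1
  · rw [Finset.sum_congr rfl (fun n hn => by rw [hwt n hn]), ← Finset.mul_sum] at h1
    linarith
  · intro i _ j _ hij
    have := congrArg List.length hij
    rwa [nd_length, nd_length] at this

lemma aesm_val (f : L1X) (m n : ℕ) :
    AEStronglyMeasurable (fun ω : ℕ → ℕ → Bool => ((f : (ℕ → ℕ → Bool) → X) ω).val (nd (ω m) n)) Pm := by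
  classical
  have h1 : (fun ω : ℕ → ℕ → Bool => ((f : (ℕ → ℕ → Bool) → X) ω).val (nd (ω m) n)) =
      fun ω => ∑ a : Fin n → Bool, Set.indicator {ω : ℕ → ℕ → Bool | (fun i : Fin n => ω m i) = a}
        (fun ω => coord (List.ofFn a) ((f : (ℕ → ℕ → Bool) → X) ω)) ω := by
    funext ω
    rw [Finset.sum_eq_single (fun i : Fin n => ω m i)]
    · rw [Set.indicator_of_mem (by exact rfl)]
      rfl
    · intro a _ ha
      rw [Set.indicator_of_notMem]
      intro h
      exact ha h.symm
    · intro h
      exact absurd (Finset.mem_univ _) h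
  rw [h1]
  refine Finset.aestronglyMeasurable_fun_sum _ fun a _ => ?_
  have h2 : Measurable (fun ω : ℕ → ℕ → Bool => (fun i : Fin n => ω m i)) :=
    measurable_pi_lambda _ fun i => (measurable_pi_apply (i : ℕ)).comp (measurable_pi_apply m)
  refine AEStronglyMeasurable.indicator ?_ (h2 (measurableSet_singleton a))
  exact (coord (List.ofFn a)).continuous.comp_aestronglyMeasurable (Lp.aestronglyMeasurable f)

lemma int_val (f : L1X) (m n : ℕ) :
    Integrable (fun ω : ℕ → ℕ → Bool => ((f : (ℕ → ℕ → Bool) → X) ω).val (nd (ω m) n)) Pm := by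
  refine Integrable.mono' (L1.integrable_coeFn f).norm (aesm_val f m n) ?_
  exact Eventually.of_forall fun ω => abs_val_le _ _

/-- the coordinate functionals along the branches -/
noncomputable def psi (m n : ℕ) : L1X →L[ℝ] ℝ :=
  LinearMap.mkContinuous
    { toFun := fun f => ∫ ω, ((f : (ℕ → ℕ → Bool) → X) ω).val (nd (ω m) n) ∂Pm
      map_add' := fun f g => by
        rw [← integral_add (int_val f m n) (int_val g m n)]
        refine integral_congr_ae ?_
        filter_upwards [Lp.coeFn_add f g] with ω hω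
        rw [hω]
        rfl
      map_smul' := fun c f => by
        rw [RingHom.id_apply, smul_eq_mul, ← integral_const_mul]
        refine integral_congr_ae ?_
        filter_upwards [Lp.coeFn_smul c f] with ω hω
        rw [hω]
        rfl } 1
    (fun f => by
      rw [one_mul, L1.norm_eq_integral_norm]
      refine (norm_integral_le_integral_norm _).trans ?_
      exact integral_mono (int_val f m n).norm (L1.integrable_coeFn f).norm
        fun ω => abs_val_le _ _)

lemma psi_apply (m n : ℕ) (f : L1X) :
    psi m n f = ∫ ω, ((f : (ℕ → ℕ → Bool) → X) ω).val (nd (ω m) n) ∂Pm := rfl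

lemma psi_sum (m : ℕ) (f : L1X) (A : Finset ℕ) : ∑ n ∈ A, |psi m n f| ≤ 2 * ‖f‖ := by
  calc ∑ n ∈ A, |psi m n f| ≤ ∑ n ∈ A, ∫ ω, |((f : (ℕ → ℕ → Bool) → X) ω).val (nd (ω m) n)| ∂Pm :=
        Finset.sum_le_sum fun n _ => by
          rw [psi_apply]
          exact norm_integral_le_integral_norm
            (fun ω : ℕ → ℕ → Bool => ((f : (ℕ → ℕ → Bool) → X) ω).val (nd (ω m) n))
    _ = ∫ ω, ∑ n ∈ A, |((f : (ℕ → ℕ → Bool) → X) ω).val (nd (ω m) n)| ∂Pm := by
        rw [integral_finsetSum]
        exact fun n _ => (int_val f m n).norm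
    _ ≤ ∫ ω, 2 * ‖(f : (ℕ → ℕ → Bool) → X) ω‖ ∂Pm := by
        refine integral_mono (integrable_finsetSum _ fun n _ => (int_val f m n).norm)
          ((L1.integrable_coeFn f).norm.const_mul 2) fun ω => branch_sum _ _ _
    _ = 2 * ‖f‖ := by rw [integral_const_mul, L1.norm_eq_integral_norm]

lemma psi_fL (m n n' : ℕ) : psi m n' (fL m n) = if n = n' then 1 else 0 := by
  classical
  rw [psi_apply]
  have h1 : ∫ ω, ((fL m n : (ℕ → ℕ → Bool) → X) ω).val (nd (ω m) n') ∂Pm =
      ∫ ω : ℕ → ℕ → Bool, (if n = n' then (1:ℝ) else 0) ∂Pm := by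
    refine integral_congr_ae ?_
    filter_upwards [fL_coe m n] with ω hω
    rw [hω, e_val]
    by_cases h : n = n'
    · subst h
      rw [if_pos rfl, Pi.single_eq_same]
    · rw [if_neg h, Pi.single_eq_of_ne]
      intro h'
      have := congrArg List.length h'
      rw [nd_length, nd_length] at this
      exact h this.symm
  rw [h1, integral_const, smul_eq_mul]
  simp

lemma coe_sum (F : Finset ℕ) (c : ℕ → ℝ) (n : ℕ → ℕ) :
    ((∑ m ∈ F, c m • fL m (n m) : L1X) : (ℕ → ℕ → Bool) → X) =ᵐ[Pm]
      fun ω => ∑ m ∈ F, c m • e (nd (ω m) (n m)) := by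
  classical
  induction F using Finset.induction_on with
  | empty =>
    simp only [Finset.sum_empty]
    exact Lp.coeFn_zero _ _ _
  | insert a s ha ih =>
    rw [Finset.sum_insert ha]
    filter_upwards [Lp.coeFn_add (c a • fL a (n a)) (∑ m ∈ s, c m • fL m (n m)), ih,
      Lp.coeFn_smul (c a) (fL a (n a)), fL_coe a (n a)] with ω h1 h2 h3 h4
    rw [h1, Pi.add_apply, h2, h3, Pi.smul_apply, h4, Finset.sum_insert ha]

lemma norm_sum_fL (F : Finset ℕ) (c : ℕ → ℝ) (hc : ∀ m, |c m| ≤ 1) (n : ℕ → ℕ) (hn : StrictMono n)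
    (q R : ℕ) (lam : ℝ) (hl : 0 < lam) :
    ‖∑ m ∈ F, c m • fL m (n m)‖ ≤ 2 * ((q:ℝ)+1)^R *
      (1 + ((F.card + (F.card:ℝ)^2 * (1/2 : ℝ)^q) / lam + lam) / 2) + 2 * (1/2)^R * F.card := by
  rw [L1.norm_eq_integral_norm]
  have h1 : ∫ ω, ‖((∑ m ∈ F, c m • fL m (n m) : L1X) : (ℕ → ℕ → Bool) → X) ω‖ ∂Pm ≤
      ∫ ω, (2 * ((q:ℝ)+1)^R * (1 + (Dq F q ω / lam + lam) / 2) + 2 * (1/2)^R * F.card) ∂Pm := by
    refine integral_mono_ae (L1.integrable_coeFn _).norm ?_ ?_
    · refine Integrable.add ?_ (integrable_const _)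
      refine Integrable.const_mul ?_ _
      refine (integrable_const _).add ?_
      refine Integrable.div_const ?_ _
      refine Integrable.add ?_ (integrable_const _)
      exact (int_Dq F q).div_const _
    · filter_upwards [coe_sum F c n] with ω hω
      rw [hω]
      exact norm_bound (fun m => ω m) n hn F c hc q R _ (card_le_lam F q (fun m => ω m) lam hl)
  refine h1.trans ?_
  rw [integral_add ?_ (integrable_const _), integral_const_mul, integral_add (integrable_const _) ?_,
    integral_div, integral_add ?_ (integrable_const _), integral_div]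
  · simp only [integral_const, probReal_univ, one_smul]
    have h2 := integral_Dq F q
    gcongr
  · exact (int_Dq F q).div_const _
  · refine Integrable.div_const ?_ _
    refine Integrable.add ?_ (integrable_const _)
    exact (int_Dq F q).div_const _
  · refine Integrable.const_mul ?_ _
    refine (integrable_const _).add ?_
    refine Integrable.div_const ?_ _
    refine Integrable.add ?_ (integrable_const _)
    exact (int_Dq F q).div_const _

end Pool.Agent.Helper224.Sw
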