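import Pool.Agent.Helper224.Sw8

set_option autoImplicit false
open MeasureTheory Filter Topology
open scoped Pointwise

namespace Pool.Agent.Helper224.Sw

lemma params (η : ℝ) (hη : 0 < η) : ∃ (R p K : ℕ), 0 < K ∧
    2 * (((2 * p : ℕ) : ℝ) + 1)^R * (1 + ((K + (K:ℝ)^2 * (1/2 : ℝ)^(2*p)) / (K * (1/2)^p) +
      K * (1/2)^p) / 2) + 2 * (1/2)^R * K ≤ η * K := by
  obtain ⟨R, hR⟩ : ∃ R : ℕ, (1/2 : ℝ)^R < η / 6 :=
    exists_pow_lt_of_lt_one (by positivity) (by norm_num)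
  have h1 : Tendsto (fun p : ℕ => (p:ℝ)^R * (1/2:ℝ)^p) atTop (𝓝 0) :=
    tendsto_pow_const_mul_const_pow_of_abs_lt_one R (by
      rw [abs_of_pos (by norm_num)]
      norm_num)
  obtain ⟨p, hp1, hp2⟩ : ∃ p : ℕ, (p:ℝ)^R * (1/2:ℝ)^p < η / (6 * 3^R) ∧ 1 ≤ p :=
    ((h1.eventually (gt_mem_nhds (by positivity))).and (eventually_ge_atTop 1)).exists
  have hp3 : 2 * (((2 * p : ℕ) : ℝ) + 1)^R * (1/2)^p ≤ η / 3 := by
    have h2 : (((2 * p : ℕ) : ℝ) + 1) ≤ 3 * p := by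
      have : (1:ℝ) ≤ p := by exact_mod_cast hp2
      push_cast
      linarith
    calc 2 * (((2 * p : ℕ) : ℝ) + 1)^R * (1/2)^p ≤ 2 * (3 * (p:ℝ))^R * (1/2)^p := by gcongr
      _ = 2 * 3^R * ((p:ℝ)^R * (1/2)^p) := by rw [mul_pow]; ring
      _ ≤ 2 * 3^R * (η / (6 * 3^R)) := by gcongr
      _ = η / 3 := by
          field_simp
          norm_num
  obtain ⟨K, hK⟩ := exists_nat_gt (2 * (((2 * p : ℕ) : ℝ) + 1)^R * (1 + 2^p) / (η / 3))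
  have hK0 : (0:ℝ) < K := lt_of_le_of_lt (by positivity) hK
  rw [div_lt_iff₀ (by positivity)] at hK
  refine ⟨R, p, K, by exact_mod_cast hK0, ?_⟩
  have h3 : ((K + (K:ℝ)^2 * (1/2 : ℝ)^(2*p)) / (K * (1/2)^p) + K * (1/2)^p) / 2 =
      2^p / 2 + K * (1/2)^p := by
    have h4 : (1/2:ℝ)^p * 2^p = 1 := by rw [← mul_pow]; norm_num
    have h5 : (0:ℝ) < (1/2)^p := by positivity
    have h6 : (K + (K:ℝ)^2 * (1/2 : ℝ)^(2*p)) / (K * (1/2)^p) = 2^p + K * (1/2)^p := by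
      rw [div_eq_iff (by positivity), mul_comm 2 p, pow_mul]
      linear_combination (-(K:ℝ)) * h4
    rw [h6]
    ring
  rw [h3]
  have h7 : 2 * (((2 * p : ℕ) : ℝ) + 1)^R * (1 + (2^p / 2 + K * (1/2)^p)) ≤
      2 * (((2 * p : ℕ) : ℝ) + 1)^R * (1 + 2^p) + (2 * (((2 * p : ℕ) : ℝ) + 1)^R * (1/2)^p) * K := by
    have h8 : 0 ≤ 2 * (((2 * p : ℕ) : ℝ) + 1)^R := by positivity
    have h9 : (0:ℝ) < 2^p := by positivity
    nlinarith [mul_nonneg h8 h9.le]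
  have h10 : (2 * (((2 * p : ℕ) : ℝ) + 1)^R * (1/2)^p) * K ≤ η / 3 * K :=
    mul_le_mul_of_nonneg_right hp3 hK0.le
  have h11 : 2 * (1/2)^R * (K:ℝ) ≤ η / 3 * K := by
    refine mul_le_mul_of_nonneg_right ?_ hK0.le
    linarith
  linarith

theorem weak_null (n : ℕ → ℕ) (hn : StrictMono n) (φ : L1X →L[ℝ] ℝ) :
    Tendsto (fun m => φ (fL m (n m))) atTop (𝓝 0) := by
  refine weak_null_of_avg (fun m => fL m (n m)) (fun η hη => ?_) φ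
  obtain ⟨R, p, K, hK0, hK⟩ := params η hη
  refine ⟨K, hK0, fun F c hF hc => ?_⟩
  have hK' : (0:ℝ) < K := by exact_mod_cast hK0
  have h := norm_sum_fL F c hc n hn (2 * p) R (K * (1/2)^p) (by positivity)
  rw [hF] at h
  exact h.trans hK

/-- The Bochner space is not strongly weakly compactly generated. -/
theorem not_swcg : ¬ ∃ K : Set (Lp X 1 Pm), IsCompact (toWeakSpace ℝ (Lp X 1 Pm) '' K) ∧
        ∀ L : Set (Lp X 1 Pm), IsCompact (toWeakSpace ℝ (Lp X 1 Pm) '' L) → ∀ ε : ℝ, 0 < ε →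
            ∃ n : ℕ, L ⊆ (n : ℝ) • K + Metric.closedBall (0 : Lp X 1 Pm) ε :=
  not_swcg_of fL psi 2 (by norm_num) psi_sum psi_fL weak_null

theorem swcg' : ∃ K : Set X, IsCompact (toWeakSpace ℝ X '' K) ∧
    ∀ L : Set X, IsCompact (toWeakSpace ℝ X '' L) → ∀ ε : ℝ, 0 < ε →
      ∃ n : ℕ, L ⊆ (n : ℝ) • K + Metric.closedBall (0 : X) ε := by
  obtain ⟨K, hK, h⟩ := swcg
  refine ⟨K, hK, fun L hL ε hε => ?_⟩
  obtain ⟨n, hn⟩ := h L hL ε hε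
  refine ⟨n, fun z hz => ?_⟩
  obtain ⟨a, ha, b, hb, rfl⟩ := hn z hz
  exact Set.add_mem_add (Set.smul_mem_smul_set ha) (mem_closedBall_zero_iff.2 hb)

end Pool.Agent.Helper224.Sw
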