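import Mathlib

set_option autoImplicit false
open MeasureTheory Filter Topology

namespace Pool.Agent.Helper224.Tsi

/-- the norming set of the Figiel-Johnson Tsirelson space -/
inductive IsK : (ℕ →₀ ℝ) → Prop
  | zero : IsK 0
  | single (n : ℕ) (s : ℝ) (hs : |s| ≤ 1) : IsK (Finsupp.single n s)
  | node (E : Finset ℕ) (g : ℕ → (ℕ →₀ ℝ)) (hg : ∀ i ∈ E, IsK (g i))
      (hE : ∀ i ∈ E, ∀ n ∈ (g i).support, E.card ≤ n)
      (hs : ∀ i ∈ E, ∀ j ∈ E, i < j → ∀ n ∈ (g i).support, ∀ m ∈ (g j).support, n < m) :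
      IsK ((1/2 : ℝ) • ∑ i ∈ E, g i)

open Classical in
lemma IsK.filter {f : ℕ →₀ ℝ} (hf : IsK f) (A : Set ℕ) : IsK (f.filter (· ∈ A)) := by
  induction hf with
  | zero => rw [Finsupp.filter_zero]; exact IsK.zero
  | single n s hs =>
    by_cases h : n ∈ A
    · rw [Finsupp.filter_single_of_pos (· ∈ A) h]; exact IsK.single n s hs
    · rw [Finsupp.filter_single_of_neg (· ∈ A) h]; exact IsK.zero
  | node E g hg hE hs ih =>
    rw [Finsupp.filter_smul, Finsupp.filter_sum]
    refine IsK.node E (fun i => (g i).filter (· ∈ A)) ih ?_ ?_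
    · intro i hi n hn
      rw [Finsupp.support_filter, Finset.mem_filter] at hn
      exact hE i hi n hn.1
    · intro i hi j hj hij n hn m hm
      rw [Finsupp.support_filter, Finset.mem_filter] at hn hm
      exact hs i hi j hj hij n hn.1 m hm.1

lemma IsK.neg {f : ℕ →₀ ℝ} (hf : IsK f) : IsK (-f) := by
  induction hf with
  | zero => rw [neg_zero]; exact IsK.zero
  | single n s hs => rw [← Finsupp.single_neg]; exact IsK.single n (-s) (by rwa [abs_neg])
  | node E g hg hE hs ih =>
    rw [← smul_neg, ← Finset.sum_neg_distrib]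
    refine IsK.node E (fun i => -(g i)) ih ?_ ?_
    · intro i hi n hn
      rw [Finsupp.support_neg] at hn
      exact hE i hi n hn
    · intro i hi j hj hij n hn m hm
      rw [Finsupp.support_neg] at hn hm
      exact hs i hi j hj hij n hn m hm

lemma IsK.abs_apply_le {f : ℕ →₀ ℝ} (hf : IsK f) (n : ℕ) : |f n| ≤ 1 := by
  induction hf with
  | zero => simp
  | single m s hs =>
    rw [Finsupp.single_apply]
    split_ifs
    · exact hs
    · simp
  | node E g hg hE hs ih =>
    rw [Finsupp.smul_apply, Finsupp.finsetSum_apply, smul_eq_mul, abs_mul]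
    have h2 : |(1/2 : ℝ)| = 1/2 := by norm_num
    rw [h2]
    by_cases h : ∃ i ∈ E, g i n ≠ 0
    · obtain ⟨i, hi, hin⟩ := h
      rw [Finset.sum_eq_single_of_mem i hi]
      · have := ih i hi
        linarith
      · intro j hj hji
        by_contra hjn
        rcases lt_or_gt_of_ne hji with hlt | hlt
        · exact lt_irrefl n (hs j hj i hi hlt n (Finsupp.mem_support_iff.2 hjn) n
            (Finsupp.mem_support_iff.2 hin))
        · exact lt_irrefl n (hs i hi j hj hlt n (Finsupp.mem_support_iff.2 hin) n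
            (Finsupp.mem_support_iff.2 hjn))
    · push Not at h
      rw [Finset.sum_eq_zero h]
      norm_num

/-- the duality pairing -/
noncomputable def pair (f : ℕ →₀ ℝ) (x : ℕ → ℝ) : ℝ := Finsupp.linearCombination ℝ x f

lemma pair_eq_sum (f : ℕ →₀ ℝ) (x : ℕ → ℝ) : pair f x = ∑ n ∈ f.support, f n * x n := by
  rw [pair, Finsupp.linearCombination_apply, Finsupp.sum]
  rfl

lemma pair_add_left (f g : ℕ →₀ ℝ) (x : ℕ → ℝ) : pair (f + g) x = pair f x + pair g x :=
  map_add _ _ _

lemma pair_smul_left (c : ℝ) (f : ℕ →₀ ℝ) (x : ℕ → ℝ) : pair (c • f) x = c * pair f x :=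
  map_smul _ _ _

lemma pair_neg_left (f : ℕ →₀ ℝ) (x : ℕ → ℝ) : pair (-f) x = - pair f x :=
  map_neg _ _

lemma pair_sum_left {ι : Type*} (E : Finset ι) (g : ι → (ℕ →₀ ℝ)) (x : ℕ → ℝ) :
    pair (∑ i ∈ E, g i) x = ∑ i ∈ E, pair (g i) x :=
  map_sum _ _ _

lemma pair_zero_left (x : ℕ → ℝ) : pair 0 x = 0 := map_zero _

lemma pair_single_left (n : ℕ) (s : ℝ) (x : ℕ → ℝ) : pair (Finsupp.single n s) x = s * x n := by
  rw [pair, Finsupp.linearCombination_single, smul_eq_mul]

lemma pair_add_right (f : ℕ →₀ ℝ) (x y : ℕ → ℝ) : pair f (x + y) = pair f x + pair f y := by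
  simp only [pair_eq_sum, Pi.add_apply, mul_add, Finset.sum_add_distrib]

lemma pair_smul_right (f : ℕ →₀ ℝ) (c : ℝ) (x : ℕ → ℝ) : pair f (c • x) = c * pair f x := by
  simp only [pair_eq_sum, Pi.smul_apply, smul_eq_mul, Finset.mul_sum]
  refine Finset.sum_congr rfl fun n _ => by ring

lemma pair_zero_right (f : ℕ →₀ ℝ) : pair f 0 = 0 := by
  simp [pair_eq_sum]

open Classical in
lemma pair_indicator (f : ℕ →₀ ℝ) (A : Set ℕ) (x : ℕ → ℝ) :
    pair f (A.indicator x) = pair (f.filter (· ∈ A)) x := by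
  rw [pair_eq_sum, pair_eq_sum, Finsupp.support_filter, Finset.sum_filter]
  refine Finset.sum_congr rfl fun n _ => ?_
  by_cases h : n ∈ A
  · rw [if_pos h, Set.indicator_of_mem h, Finsupp.filter_apply_pos (p := (· ∈ A)) _ h]
  · rw [if_neg h, Set.indicator_of_notMem h, mul_zero]

lemma pair_eq_zero_of_disjoint (f : ℕ →₀ ℝ) (x : ℕ → ℝ) (h : ∀ n ∈ f.support, x n = 0) :
    pair f x = 0 := by
  rw [pair_eq_sum]
  exact Finset.sum_eq_zero fun n hn => by rw [h n hn, mul_zero]

/-- The underlying vector space of Tsirelson space. -/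
def TT : Submodule ℝ (ℕ → ℝ) where
  carrier := {x | ∃ C, ∀ f, IsK f → |pair f x| ≤ C}
  add_mem' := by
    rintro x y ⟨C, hC⟩ ⟨D, hD⟩
    refine ⟨C + D, fun f hf => ?_⟩
    rw [pair_add_right]
    exact (abs_add_le _ _).trans (add_le_add (hC f hf) (hD f hf))
  zero_mem' := ⟨0, fun f _ => by rw [pair_zero_right, abs_zero]⟩
  smul_mem' := by
    rintro c x ⟨C, hC⟩
    refine ⟨|c| * C, fun f hf => ?_⟩
    rw [pair_smul_right, abs_mul]
    exact mul_le_mul_of_nonneg_left (hC f hf) (abs_nonneg _)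

/-- Tsirelson space. -/
def T : Type := TT

noncomputable instance : AddCommGroup T := inferInstanceAs (AddCommGroup TT)
noncomputable instance : Module ℝ T := inferInstanceAs (Module ℝ TT)

/-- the underlying sequence -/
def T.val (x : T) : ℕ → ℝ := Subtype.val (p := fun x => x ∈ TT) x

lemma T.ext {x y : T} (h : x.val = y.val) : x = y := Subtype.ext h

@[simp] lemma T.val_add (x y : T) : (x + y).val = x.val + y.val := rfl
@[simp] lemma T.val_sub (x y : T) : (x - y).val = x.val - y.val := rfl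
@[simp] lemma T.val_neg (x : T) : (-x).val = -x.val := rfl
@[simp] lemma T.val_zero : (0 : T).val = 0 := rfl
@[simp] lemma T.val_smul (c : ℝ) (x : T) : (c • x).val = c • x.val := rfl

/-- the index set -/
def KK : Set (ℕ →₀ ℝ) := {f | IsK f}

/-- embedding in `ℓ^∞` -/
noncomputable def emb : T →ₗ[ℝ] lp (fun _ : KK => ℝ) ⊤ where
  toFun x := ⟨fun f => pair f.1 x.val, by
    obtain ⟨C, hC⟩ := Subtype.property (p := fun x => x ∈ TT) x
    refine memℓp_infty ⟨C, ?_⟩
    rintro _ ⟨f, rfl⟩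
    exact hC f.1 f.2⟩
  map_add' x y := by
    ext f
    exact pair_add_right _ _ _
  map_smul' c x := by
    ext f
    exact pair_smul_right _ _ _

lemma emb_apply (x : T) (f : KK) : (emb x : KK → ℝ) f = pair f.1 x.val := rfl

lemma emb_injective : Function.Injective emb := by
  intro x y hxy
  apply T.ext
  ext n
  have h1 : pair (Finsupp.single n 1) x.val = pair (Finsupp.single n 1) y.val :=
    congrFun (congrArg (fun z : lp (fun _ : KK => ℝ) ⊤ => (z : KK → ℝ)) hxy)
      ⟨Finsupp.single n 1, IsK.single n 1 (by simp)⟩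
  rwa [pair_single_left, pair_single_left, one_mul, one_mul] at h1

noncomputable instance : NormedAddCommGroup T := NormedAddCommGroup.induced T _ emb emb_injective
noncomputable instance : NormedSpace ℝ T := NormedSpace.induced ℝ T _ emb

lemma norm_def (x : T) : ‖x‖ = ‖emb x‖ := rfl

lemma pair_le_norm (x : T) {f : ℕ →₀ ℝ} (hf : IsK f) : |pair f x.val| ≤ ‖x‖ := by
  have := lp.norm_apply_le_norm (ENNReal.top_ne_zero) (emb x) ⟨f, hf⟩
  rw [norm_def]
  exact this

lemma norm_le {x : T} {C : ℝ} (hC : 0 ≤ C) (h : ∀ f, IsK f → |pair f x.val| ≤ C) : ‖x‖ ≤ C := by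
  rw [norm_def]
  exact lp.norm_le_of_forall_le hC fun f => h f.1 f.2

lemma exists_pair_gt {x : T} {r : ℝ} (hr : 0 ≤ r) (h : r < ‖x‖) : ∃ f, IsK f ∧ r < |pair f x.val| := by
  by_contra hne
  push Not at hne
  exact absurd (norm_le hr hne) (not_le.2 h)

end Pool.Agent.Helper224.Tsi
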