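import Pool.Agent.Helper224.Tsi1

set_option autoImplicit false
open MeasureTheory Filter Topology

namespace Pool.Agent.Helper224.Tsi

/-- restriction of a vector to a set of coordinates -/
noncomputable def restr (A : Set ℕ) (x : T) : T :=
  (⟨A.indicator x.val, by
    classical
    obtain ⟨C, hC⟩ := Subtype.property (p := fun x => x ∈ TT) x
    refine ⟨C, fun f hf => ?_⟩
    rw [pair_indicator]
    exact hC _ (hf.filter A)⟩ : TT)

@[simp] lemma restr_val (A : Set ℕ) (x : T) : (restr A x).val = A.indicator x.val := rfl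

lemma norm_restr_le (A : Set ℕ) (x : T) : ‖restr A x‖ ≤ ‖x‖ := by
  classical
  refine norm_le (norm_nonneg _) fun f hf => ?_
  rw [restr_val, pair_indicator]
  exact pair_le_norm x (hf.filter A)

/-- the coordinate projections -/
noncomputable def P (A : Set ℕ) : T →L[ℝ] T :=
  LinearMap.mkContinuous
    { toFun := restr A
      map_add' := fun x y => T.ext (by
        simp only [restr_val, T.val_add]
        exact Set.indicator_add A _ _)
      map_smul' := fun c x => T.ext (by
        simp only [restr_val, T.val_smul, RingHom.id_apply]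
        exact Set.indicator_const_smul A c _) } 1
    (fun x => by rw [one_mul]; exact norm_restr_le A x)

@[simp] lemma P_val (A : Set ℕ) (x : T) : (P A x).val = A.indicator x.val := rfl

lemma norm_P_le (A : Set ℕ) (x : T) : ‖P A x‖ ≤ ‖x‖ := norm_restr_le A x

lemma P_norm_le_one (A : Set ℕ) : ‖P A‖ ≤ 1 :=
  ContinuousLinearMap.opNorm_le_bound _ zero_le_one fun x => by
    rw [one_mul]; exact norm_P_le A x

lemma P_P (A B : Set ℕ) (x : T) : P A (P B x) = P (A ∩ B) x := by
  apply T.ext
  simp [Set.indicator_indicator]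

lemma P_add_compl (A : Set ℕ) (x : T) : P A x + P Aᶜ x = x := by
  apply T.ext
  simp [Set.indicator_self_add_compl]

/-- evaluation at a norming functional -/
noncomputable def ev (f : ℕ →₀ ℝ) (hf : IsK f) : T →L[ℝ] ℝ :=
  LinearMap.mkContinuous
    { toFun := fun x => pair f x.val
      map_add' := fun x y => pair_add_right _ _ _
      map_smul' := fun c x => pair_smul_right _ _ _ } 1
    (fun x => by rw [one_mul, Real.norm_eq_abs]; exact pair_le_norm x hf)

@[simp] lemma ev_apply (f : ℕ →₀ ℝ) (hf : IsK f) (x : T) : ev f hf x = pair f x.val := rfl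

lemma norm_ev_le (f : ℕ →₀ ℝ) (hf : IsK f) : ‖ev f hf‖ ≤ 1 :=
  LinearMap.mkContinuous_norm_le _ zero_le_one _

lemma abs_val_le (x : T) (n : ℕ) : |x.val n| ≤ ‖x‖ := by
  have := pair_le_norm x (IsK.single n 1 (by simp))
  rwa [pair_single_left, one_mul] at this

/-- the unit vectors -/
noncomputable def e (n : ℕ) : T :=
  (⟨Pi.single n 1, by
    refine ⟨1, fun f hf => ?_⟩
    have : pair f (Pi.single n 1) = f n := by
      rw [pair_eq_sum]
      by_cases h : n ∈ f.support
      · rw [Finset.sum_eq_single_of_mem n h]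
        · simp
        · intro m _ hm
          rw [Pi.single_eq_of_ne hm, mul_zero]
      · rw [Finsupp.notMem_support_iff.1 h]
        refine Finset.sum_eq_zero fun m hm => ?_
        rw [Pi.single_eq_of_ne (by rintro rfl; exact h hm), mul_zero]
    rw [this]
    exact hf.abs_apply_le n⟩ : TT)

@[simp] lemma e_val (n : ℕ) : (e n).val = Pi.single n 1 := rfl

lemma val_sum {ι : Type*} (E : Finset ι) (g : ι → T) :
    (∑ i ∈ E, g i).val = ∑ i ∈ E, (g i).val := by
  classical
  induction E using Finset.induction_on with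
  | empty => simp
  | insert a s ha ih => rw [Finset.sum_insert ha, Finset.sum_insert ha, T.val_add, ih]

lemma P_lt_eq (N : ℕ) (x : T) : P {n | n < N} x = ∑ i ∈ Finset.range N, x.val i • e i := by
  apply T.ext
  rw [P_val, val_sum]
  ext n
  simp only [T.val_smul, e_val, Finset.sum_apply, Pi.smul_apply, smul_eq_mul]
  by_cases h : n < N
  · rw [Set.indicator_of_mem (by exact h), Finset.sum_eq_single_of_mem n (Finset.mem_range.2 h)]
    · simp
    · intro m _ hm
      rw [Pi.single_eq_of_ne (Ne.symm hm), mul_zero]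
  · rw [Set.indicator_of_notMem (by exact h)]
    symm
    refine Finset.sum_eq_zero fun m hm => ?_
    rw [Pi.single_eq_of_ne, mul_zero]
    rintro rfl
    exact h (Finset.mem_range.1 hm)

lemma exists_restricted (x : T) (A : Set ℕ) {r : ℝ} (h : r < ‖P A x‖) :
    ∃ g, IsK g ∧ (∀ n ∈ g.support, n ∈ A) ∧ r ≤ pair g x.val := by
  classical
  by_cases hpos : 0 ≤ r
  · obtain ⟨f, hf, hlt⟩ := exists_pair_gt hpos h
    rw [P_val, pair_indicator] at hlt
    have hsupp : ∀ n ∈ (f.filter (· ∈ A)).support, n ∈ A := by
      intro n hn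
      rw [Finsupp.support_filter, Finset.mem_filter] at hn
      exact hn.2
    rcases le_total 0 (pair (f.filter (· ∈ A)) x.val) with h0 | h0
    · refine ⟨_, hf.filter _, hsupp, ?_⟩
      rw [abs_of_nonneg h0] at hlt
      exact hlt.le
    · refine ⟨_, (hf.filter A).neg, ?_, ?_⟩
      · rw [Finsupp.support_neg]
        exact hsupp
      · rw [abs_of_nonpos h0] at hlt
        rw [pair_neg_left]
        exact hlt.le
  · refine ⟨0, IsK.zero, by simp, ?_⟩
    rw [pair_zero_left]
    linarith

/-- the basic lower estimate -/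
lemma lower_estimate (x : T) (a : ℕ → ℕ) (ha : Monotone a) (E : Finset ℕ)
    (hE : ∀ k ∈ E, E.card ≤ a k) :
    ∑ k ∈ E, ‖P (Set.Ico (a k) (a (k+1))) x‖ ≤ 2 * ‖x‖ := by
  have key : ∀ ε > 0, ∑ k ∈ E, (‖P (Set.Ico (a k) (a (k+1))) x‖ - ε) ≤ 2 * ‖x‖ := by
    intro ε hε
    have h1 : ∀ k, ∃ g, IsK g ∧ (∀ n ∈ g.support, n ∈ Set.Ico (a k) (a (k+1))) ∧
        ‖P (Set.Ico (a k) (a (k+1))) x‖ - ε ≤ pair g x.val := fun k =>
      exists_restricted x _ (by linarith)
    choose g hg hsupp hlow using h1
    have h2 : IsK ((1/2 : ℝ) • ∑ k ∈ E, g k) := by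
      refine IsK.node E g (fun i _ => hg i) ?_ ?_
      · intro i hi n hn
        exact (hE i hi).trans (hsupp i n hn).1
      · intro i _ j _ hij n hn m hm
        exact lt_of_lt_of_le (hsupp i n hn).2 ((ha hij).trans (hsupp j m hm).1)
    have h3 := (le_abs_self _).trans (pair_le_norm x h2)
    rw [pair_smul_left, pair_sum_left] at h3
    calc ∑ k ∈ E, (‖P (Set.Ico (a k) (a (k+1))) x‖ - ε) ≤ ∑ k ∈ E, pair (g k) x.val :=
          Finset.sum_le_sum fun k _ => hlow k
      _ ≤ 2 * ‖x‖ := by linarith
  refine le_of_forall_pos_le_add fun δ hδ => ?_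
  rcases E.eq_empty_or_nonempty with rfl | hne
  · simp; positivity
  have hc : (0:ℝ) < E.card := by exact_mod_cast Finset.card_pos.2 hne
  have := key (δ / E.card) (by positivity)
  rw [Finset.sum_sub_distrib, Finset.sum_const, nsmul_eq_mul, mul_div_cancel₀ _ hc.ne'] at this
  linarith


lemma pair_le_norm_P (x : T) (A : Set ℕ) {g : ℕ →₀ ℝ} (hg : IsK g) (h : ∀ n ∈ g.support, n ∈ A) :
    |pair g x.val| ≤ ‖P A x‖ := by
  have h1 : pair g x.val = pair g (P A x).val := by
    rw [pair_eq_sum, pair_eq_sum]
    refine Finset.sum_congr rfl fun n hn => ?_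
    rw [P_val, Set.indicator_of_mem (h n hn)]
  rw [h1]
  exact pair_le_norm _ hg

lemma norm_P_anti (x : T) {A B : Set ℕ} (h : A ⊆ B) : ‖P A x‖ ≤ ‖P B x‖ := by
  have : P A x = P A (P B x) := by
    rw [P_P, Set.inter_eq_left.2 h]
  rw [this]
  exact norm_P_le _ _

/-- Boundedly complete: tails of every vector tend to zero. -/
theorem tail_tendsto (x : T) : Tendsto (fun N : ℕ => ‖P {n | N ≤ n} x‖) atTop (𝓝 0) := by
  have hanti : Antitone (fun N : ℕ => ‖P {n | N ≤ n} x‖) := fun N M hNM =>
    norm_P_anti x (fun n hn => le_trans hNM hn)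
  by_contra hne
  have hδ : ∃ δ > 0, ∀ N : ℕ, δ ≤ ‖P {n | N ≤ n} x‖ := by
    by_contra hcon
    push Not at hcon
    apply hne
    rw [Metric.tendsto_atTop]
    intro ε hε
    obtain ⟨N, hN⟩ := hcon ε hε
    refine ⟨N, fun n hn => ?_⟩
    rw [Real.dist_eq, sub_zero, abs_of_nonneg (norm_nonneg _)]
    exact (hanti hn).trans_lt hN
  obtain ⟨δ, hδ0, hδ⟩ := hδ
  have h1 : ∀ N : ℕ, ∃ g, IsK g ∧ (∀ n ∈ g.support, n ∈ {n | N ≤ n}) ∧ δ / 2 ≤ pair g x.val :=
    fun N => exists_restricted x _ (by have := hδ N; linarith)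
  choose G hG hGs hGl using h1
  let M : ℕ → ℕ := fun N => max N ((G N).support.sup id) + 1
  let a : ℕ → ℕ := fun k => Nat.rec 0 (fun _ N => M N) k
  have ha1 : ∀ k, a (k+1) = M (a k) := fun k => rfl
  have hamono : StrictMono a := strictMono_nat_of_lt_succ fun k => by
    rw [ha1]
    exact Nat.lt_succ_of_le (le_max_left _ _)
  have hge : ∀ k, k ≤ a k := hamono.id_le
  have hlow : ∀ k, δ / 2 ≤ ‖P (Set.Ico (a k) (a (k+1))) x‖ := by
    intro k
    refine (hGl (a k)).trans ((le_abs_self _).trans (pair_le_norm_P x _ (hG (a k)) ?_))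
    intro n hn
    refine ⟨hGs (a k) n hn, ?_⟩
    rw [ha1]
    have : n ≤ (G (a k)).support.sup id := Finset.le_sup (f := id) hn
    exact Nat.lt_succ_of_le (this.trans (le_max_right _ _))
  obtain ⟨m, hm⟩ := exists_nat_gt (2 * ‖x‖ / (δ / 2))
  have h2 := lower_estimate x a hamono.monotone (Finset.Ico m (2 * m)) (fun k hk => by
    rw [Nat.card_Ico]
    have := (Finset.mem_Ico.1 hk).1
    have := hge k
    omega)
  have h3 : (m : ℝ) * (δ / 2) ≤ 2 * ‖x‖ := by
    refine le_trans ?_ h2
    calc (m : ℝ) * (δ / 2) = ∑ k ∈ Finset.Ico m (2 * m), (δ / 2) := by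
          rw [Finset.sum_const, Nat.card_Ico, nsmul_eq_mul]
          congr 2
          omega
      _ ≤ _ := Finset.sum_le_sum fun k _ => hlow k
  rw [div_lt_iff₀ (by positivity)] at hm
  linarith

/-- the basic upper estimate -/
lemma upper_estimate (u : ℕ → T) (a : ℕ → ℕ) (ha : Monotone a) (hu : ∀ j, ‖u j‖ ≤ 1)
    (hsupp : ∀ j n, n ∉ Set.Ico (a j) (a (j+1)) → (u j).val n = 0) (r : ℕ) (hr : 0 < r)
    (hr2 : 10 * a 1 ≤ r) :
    ‖(1/2 : ℝ) • (u 0 + (1 / (r:ℝ)) • ∑ j ∈ Finset.range r, u (j+1))‖ ≤ 4/5 := by
  classical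
  have hr' : (0:ℝ) < r := by exact_mod_cast hr
  refine norm_le (by norm_num) fun f hf => ?_
  have hexp : pair f ((1/2 : ℝ) • (u 0 + (1 / (r:ℝ)) • ∑ j ∈ Finset.range r, u (j+1))).val =
      (1/2) * (pair f (u 0).val + (1 / (r:ℝ)) * ∑ j ∈ Finset.range r, pair f (u (j+1)).val) := by
    rw [T.val_smul, pair_smul_right, T.val_add, pair_add_right, T.val_smul, pair_smul_right]
    congr 3
    exact map_sum (ev f hf) (fun j => u (j+1)) (Finset.range r)
  rw [hexp]
  have hbd : ∀ j, |pair f (u j).val| ≤ 1 := fun j => (pair_le_norm _ hf).trans (hu j)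
  by_cases hA : ∀ n ∈ f.support, a 1 ≤ n
  · have h0 : pair f (u 0).val = 0 := by
      refine pair_eq_zero_of_disjoint _ _ fun n hn => hsupp 0 n ?_
      intro h
      exact absurd (hA n hn) (not_le.2 h.2)
    rw [h0, zero_add]
    have h1 : |∑ j ∈ Finset.range r, pair f (u (j+1)).val| ≤ r := by
      refine (Finset.abs_sum_le_sum_abs _ _).trans ?_
      calc ∑ j ∈ Finset.range r, |pair f (u (j+1)).val| ≤ ∑ j ∈ Finset.range r, (1:ℝ) :=
            Finset.sum_le_sum fun j _ => hbd _
        _ = r := by simp
    rw [abs_mul, abs_mul, abs_of_pos (by positivity : (0:ℝ) < 1 / r)]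
    have h2 : (1 / (r:ℝ)) * |∑ j ∈ Finset.range r, pair f (u (j+1)).val| ≤ (1 / (r:ℝ)) * r := by
      gcongr
    have h3 : (1 / (r:ℝ)) * r = 1 := by field_simp
    have h4 : |(1/2 : ℝ)| = 1/2 := by norm_num
    rw [h4]
    linarith
  · push Not at hA
    obtain ⟨n, hn, hna⟩ := hA
    have hmain : ∑ j ∈ Finset.range r, |pair f (u (j+1)).val| ≤ r / 2 + a 1 := by
      cases hf with
      | zero => simp at hn
      | single m s hs =>
        have hnm : n = m := by
          by_contra hne
          rw [Finsupp.mem_support_iff, Finsupp.single_apply, if_neg (Ne.symm hne)] at hn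
          exact hn rfl
        subst hnm
        have : ∀ j ∈ Finset.range r, |pair (Finsupp.single n s) (u (j+1)).val| = 0 := by
          intro j _
          rw [pair_single_left, hsupp (j+1) n, mul_zero, abs_zero]
          intro h
          exact absurd (lt_of_lt_of_le hna (ha (by omega : 1 ≤ j + 1))) (not_lt.2 h.1)
        rw [Finset.sum_eq_zero this]
        positivity
      | node E g hg hE hs =>
        have hcard : E.card ≤ a 1 := by
          have h5 : ∃ i ∈ E, n ∈ (g i).support := by
            by_contra hcon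
            push Not at hcon
            rw [Finsupp.mem_support_iff, Finsupp.smul_apply, Finsupp.finsetSum_apply] at hn
            apply hn
            rw [Finset.sum_eq_zero, smul_zero]
            intro i hi
            exact Finsupp.notMem_support_iff.1 (hcon i hi)
          obtain ⟨i, hi, hin⟩ := h5
          exact (hE i hi n hin).trans hna.le
        let B : ℕ → Finset ℕ := fun j => E.filter fun i => ∃ n ∈ (g i).support, n < a (j+1)
        have hBmono : ∀ j, B j ⊆ B (j+1) := by
          intro j i hi
          rw [Finset.mem_filter] at hi ⊢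
          obtain ⟨h6, n', h7, h8⟩ := hi
          exact ⟨h6, n', h7, lt_of_lt_of_le h8 (ha (by omega))⟩
        have hclaim : ∀ j, |pair ((1/2 : ℝ) • ∑ i ∈ E, g i) (u (j+1)).val| ≤
            1/2 + (((B (j+1)).card : ℝ) - ((B j).card : ℝ)) := by
          intro j
          have hBc : ((B j).card : ℝ) ≤ ((B (j+1)).card : ℝ) := by
            exact_mod_cast Finset.card_le_card (hBmono j)
          by_cases h9 : ∃ i ∈ E, ∃ i' ∈ E, i < i' ∧ pair (g i) (u (j+1)).val ≠ 0 ∧
              pair (g i') (u (j+1)).val ≠ 0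
          · obtain ⟨i, hi, i', hi', hii, hp, hp'⟩ := h9
            have h10 : i' ∈ B (j+1) := by
              rw [Finset.mem_filter]
              refine ⟨hi', ?_⟩
              by_contra hcon
              push Not at hcon
              apply hp'
              refine pair_eq_zero_of_disjoint _ _ fun n' hn' => hsupp _ _ ?_
              intro h11
              exact absurd (hcon n' hn') (not_le.2 h11.2)
            have h12 : i' ∉ B j := by
              intro hcon
              rw [Finset.mem_filter] at hcon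
              obtain ⟨_, n', hn', hlt⟩ := hcon
              apply hp
              refine pair_eq_zero_of_disjoint _ _ fun n'' hn'' => hsupp _ _ ?_
              intro h11
              have h13 := hs i hi i' hi' hii n'' hn'' n' hn'
              have h14 := h11.1
              omega
            have h15 : (B j).card < (B (j+1)).card := by
              apply Finset.card_lt_card
              rw [Finset.ssubset_iff_of_subset (hBmono j)]
              exact ⟨i', h10, h12⟩
            have h16 : ((B j).card : ℝ) + 1 ≤ ((B (j+1)).card : ℝ) := by exact_mod_cast h15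
            have := hbd (j+1)
            linarith
          · push Not at h9
            have h17 : |∑ i ∈ E, pair (g i) (u (j+1)).val| ≤ 1 := by
              by_cases h18 : ∃ i ∈ E, pair (g i) (u (j+1)).val ≠ 0
              · obtain ⟨i, hi, hp⟩ := h18
                rw [Finset.sum_eq_single_of_mem i hi]
                · exact (pair_le_norm _ (hg i hi)).trans (hu _)
                · intro i' hi' hne
                  rcases lt_or_gt_of_ne hne with hlt | hlt
                  · by_contra h19
                    exact hp (h9 i' hi' i hi hlt h19)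
                  · exact h9 i hi i' hi' hlt hp
              · push Not at h18
                rw [Finset.sum_eq_zero h18]
                norm_num
            rw [pair_smul_left, pair_sum_left, abs_mul]
            have h4 : |(1/2 : ℝ)| = 1/2 := by norm_num
            rw [h4]
            linarith
        calc ∑ j ∈ Finset.range r, |pair ((1/2 : ℝ) • ∑ i ∈ E, g i) (u (j+1)).val|
            ≤ ∑ j ∈ Finset.range r, (1/2 + (((B (j+1)).card : ℝ) - ((B j).card : ℝ))) :=
              Finset.sum_le_sum fun j _ => hclaim j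
          _ = r / 2 + (((B r).card : ℝ) - ((B 0).card : ℝ)) := by
              rw [Finset.sum_add_distrib, Finset.sum_range_sub (fun j => ((B j).card : ℝ))]
              simp
              ring
          _ ≤ r / 2 + a 1 := by
              have h20 : ((B r).card : ℝ) ≤ a 1 := by
                exact_mod_cast (Finset.card_le_card (Finset.filter_subset _ _)).trans hcard
              have h21 : (0:ℝ) ≤ ((B 0).card : ℝ) := by positivity
              linarith
    have h5 : |pair f (u 0).val + (1 / (r:ℝ)) * ∑ j ∈ Finset.range r, pair f (u (j+1)).val| ≤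
        1 + (1 / (r:ℝ)) * (r / 2 + a 1) := by
      refine (abs_add_le _ _).trans (add_le_add (hbd 0) ?_)
      rw [abs_mul, abs_of_pos (by positivity : (0:ℝ) < 1 / r)]
      gcongr
      exact (Finset.abs_sum_le_sum_abs _ _).trans hmain
    rw [abs_mul]
    have h4 : |(1/2 : ℝ)| = 1/2 := by norm_num
    rw [h4]
    have h6 : (1 / (r:ℝ)) * (r / 2 + a 1) ≤ 3/5 := by
      rw [one_div, inv_mul_le_iff₀ hr']
      have : (10:ℝ) * a 1 ≤ r := by exact_mod_cast hr2
      linarith
    linarith

end Pool.Agent.Helper224.Tsi
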