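import Pool.Agent.Helper224.Tsi2

set_option autoImplicit false
open MeasureTheory Filter Topology

namespace Pool.Agent.Helper224.Tsi

/-- projection on the coordinates `≥ N` -/
noncomputable abbrev Q (N : ℕ) : T →L[ℝ] T := P {n | N ≤ n}

lemma comp_P_anti (y : T →L[ℝ] ℝ) {A B : Set ℕ} (h : A ⊆ B) : ‖y.comp (P A)‖ ≤ ‖y.comp (P B)‖ := by
  have : y.comp (P A) = (y.comp (P B)).comp (P A) := by
    ext z
    simp only [ContinuousLinearMap.comp_apply]
    rw [P_P, Set.inter_eq_right.2 h]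
  rw [this]
  calc ‖(y.comp (P B)).comp (P A)‖ ≤ ‖y.comp (P B)‖ * ‖P A‖ := ContinuousLinearMap.opNorm_comp_le _ _
    _ ≤ ‖y.comp (P B)‖ * 1 := by gcongr; exact P_norm_le_one A
    _ = _ := mul_one _

lemma Q_sub (x : T) {N M : ℕ} (h : N ≤ M) : P (Set.Ico N M) x = Q N x - Q M x := by
  apply T.ext
  ext n
  simp only [T.val_sub, P_val, Pi.sub_apply, Set.indicator, Set.mem_Ico, Set.mem_ofPred_eq]
  by_cases h1 : N ≤ n <;> by_cases h2 : M ≤ n
  · rw [if_neg (by omega), if_pos h1, if_pos h2, sub_self]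
  · rw [if_pos (by omega), if_pos h1, if_neg h2, sub_zero]
  · omega
  · rw [if_neg (by omega), if_neg h1, if_neg h2, sub_self]

/-- Shrinking: tails of every functional tend to zero. -/
theorem shrinking (y : T →L[ℝ] ℝ) : Tendsto (fun N : ℕ => ‖y.comp (Q N)‖) atTop (𝓝 0) := by
  set d : ℕ → ℝ := fun N => ‖y.comp (Q N)‖ with hd
  have hanti : Antitone d := fun N M hNM => comp_P_anti y (fun n hn => le_trans hNM hn)
  have hbdd : BddBelow (Set.range d) := ⟨0, by rintro _ ⟨N, rfl⟩; exact norm_nonneg _⟩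
  have hlim := tendsto_atTop_ciInf hanti hbdd
  set δ := ⨅ N, d N with hδdef
  have hδ0 : 0 ≤ δ := le_ciInf fun N => norm_nonneg _
  rcases hδ0.eq_or_lt with h0 | hδ
  · rw [← h0] at hlim
    exact hlim
  exfalso
  obtain ⟨N₀, hN₀⟩ := exists_lt_of_ciInf_lt (by rw [← hδdef]; linarith : ⨅ N, d N < (21/20) * δ)
  have hge : ∀ N, δ ≤ d N := fun N => ciInf_le hbdd N
  have hstep : ∀ N : ℕ, ∃ M : ℕ, N < M ∧ ∃ u : T, ‖u‖ ≤ 1 ∧ (∀ n, n ∉ Set.Ico N M → u.val n = 0) ∧
      (19/20) * δ < y u := by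
    intro N
    obtain ⟨x, hx1, hx2⟩ := ContinuousLinearMap.exists_lt_apply_of_lt_opNorm (y.comp (Q N))
      (lt_of_lt_of_le (by linarith : (19/20) * δ < δ) (hge N))
    obtain ⟨x', hx1', hx2'⟩ : ∃ x' : T, ‖x'‖ ≤ 1 ∧ (19/20) * δ < y (Q N x') := by
      rcases le_total 0 ((y.comp (Q N)) x) with h | h
      · exact ⟨x, hx1.le, by rwa [Real.norm_of_nonneg h] at hx2⟩
      · refine ⟨-x, by rw [norm_neg]; exact hx1.le, ?_⟩
        rw [Real.norm_of_nonpos h] at hx2
        rw [map_neg, map_neg]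
        exact hx2
    have hc : Tendsto (fun M : ℕ => y (Q N x') - y (Q M x')) atTop (𝓝 (y (Q N x') - 0)) := by
      refine tendsto_const_nhds.sub ?_
      refine squeeze_zero_norm (a := fun M => ‖y‖ * ‖Q M x'‖) (fun M => y.le_opNorm _) ?_
      have := (tail_tendsto x').const_mul ‖y‖
      rwa [mul_zero] at this
    rw [sub_zero] at hc
    have h1 := (hc.eventually (lt_mem_nhds hx2')).and (eventually_gt_atTop N)
    obtain ⟨M, hM1, hM2⟩ := h1.exists
    refine ⟨M, hM2, P (Set.Ico N M) x', (norm_P_le _ _).trans hx1', ?_, ?_⟩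
    · intro n hn
      rw [P_val, Set.indicator_of_notMem hn]
    · rw [Q_sub _ hM2.le, map_sub]
      exact hM1
  choose M hM U hU1 hU2 hU3 using hstep
  let a : ℕ → ℕ := fun k => Nat.rec N₀ (fun _ N => M N) k
  have ha0 : a 0 = N₀ := rfl
  have ha1 : ∀ k, a (k+1) = M (a k) := fun k => rfl
  have hamono : StrictMono a := strictMono_nat_of_lt_succ fun k => by
    rw [ha1]
    exact hM _
  let u : ℕ → T := fun k => U (a k)
  let r : ℕ := 10 * a 1 + 1
  have hr : 0 < r := Nat.succ_pos _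
  have hr' : (0:ℝ) < r := by exact_mod_cast hr
  have hup := upper_estimate u a hamono.monotone (fun j => hU1 _) (fun j n hn => hU2 _ n hn) r hr
    (Nat.le_succ _)
  set w : T := (1/2 : ℝ) • (u 0 + (1 / (r:ℝ)) • ∑ j ∈ Finset.range r, u (j+1)) with hw
  have hyw : (19/20) * δ < y w := by
    rw [hw, map_smul, map_add, map_smul, map_sum, smul_eq_mul, smul_eq_mul]
    have h1 : (19/20) * δ < y (u 0) := hU3 _
    have h2 : (r:ℝ) * ((19/20) * δ) ≤ ∑ j ∈ Finset.range r, y (u (j+1)) := by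
      calc (r:ℝ) * ((19/20) * δ) = ∑ j ∈ Finset.range r, ((19/20) * δ) := by
            rw [Finset.sum_const, Finset.card_range, nsmul_eq_mul]
        _ ≤ _ := Finset.sum_le_sum fun j _ => (hU3 _).le
    have h3 : (19/20) * δ ≤ (1 / (r:ℝ)) * ∑ j ∈ Finset.range r, y (u (j+1)) := by
      rw [one_div, le_inv_mul_iff₀ hr']
      exact h2
    linarith
  have hQw : Q N₀ w = w := by
    apply T.ext
    rw [P_val]
    ext n
    by_cases hn : N₀ ≤ n
    · rw [Set.indicator_of_mem (by exact hn)]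
    · rw [Set.indicator_of_notMem (by exact hn)]
      have hz : ∀ k, (u k).val n = 0 := by
        intro k
        refine hU2 _ n ?_
        intro hmem
        have : N₀ ≤ a k := by rw [← ha0]; exact hamono.monotone (Nat.zero_le k)
        exact hn (this.trans hmem.1)
      simp only [hw, T.val_smul, T.val_add, val_sum, Pi.smul_apply, Pi.add_apply, Finset.sum_apply,
        hz, Finset.sum_const_zero, smul_zero, add_zero]
  have h5 : y w ≤ d N₀ * ‖w‖ := by
    have := (y.comp (Q N₀)).le_opNorm w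
    rw [ContinuousLinearMap.comp_apply, hQw] at this
    exact (le_abs_self _).trans this
  have h6 : d N₀ * ‖w‖ ≤ (21/20) * δ * (4/5) := by
    have hd0 : 0 ≤ d N₀ := norm_nonneg _
    gcongr
  linarith

lemma P_lt_add_Q (N : ℕ) (x : T) : P {n | n < N} x + Q N x = x := by
  have : {n : ℕ | N ≤ n} = {n | n < N}ᶜ := by
    ext n
    simp
  rw [Q, this]
  exact P_add_compl _ _

/-- coordinate functional -/
noncomputable def coord (n : ℕ) : T →L[ℝ] ℝ := ev (Finsupp.single n 1) (IsK.single n 1 (by simp))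

@[simp] lemma coord_apply (n : ℕ) (x : T) : coord n x = x.val n := by
  rw [coord, ev_apply, pair_single_left, one_mul]

lemma comp_P_lt (y : T →L[ℝ] ℝ) (N : ℕ) :
    y.comp (P {n | n < N}) = ∑ i ∈ Finset.range N, y (e i) • coord i := by
  ext z
  rw [ContinuousLinearMap.comp_apply, P_lt_eq, map_sum, _root_.sum_apply]
  refine Finset.sum_congr rfl fun i _ => ?_
  rw [map_smul, _root_.smul_apply, coord_apply, smul_eq_mul, smul_eq_mul, mul_comm]

lemma sub_comp_P_lt (y : T →L[ℝ] ℝ) (N : ℕ) : y - y.comp (P {n | n < N}) = y.comp (Q N) := by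
  ext z
  rw [_root_.sub_apply, ContinuousLinearMap.comp_apply, ContinuousLinearMap.comp_apply]
  conv_lhs => rw [← P_lt_add_Q N z]
  rw [map_add, P_lt_add_Q N z]
  ring

/-- Tsirelson space is reflexive. -/
theorem T_reflexive : Function.Surjective (NormedSpace.inclusionInDoubleDual ℝ T) := by
  intro Φ
  have hev : ∀ f (hf : IsK f), (∑ n ∈ f.support, f n • coord n : T →L[ℝ] ℝ) = ev f hf := by
    intro f hf
    ext z
    rw [_root_.sum_apply, ev_apply, pair_eq_sum]
    refine Finset.sum_congr rfl fun n _ => ?_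
    rw [_root_.smul_apply, coord_apply, smul_eq_mul]
  let x : T := (⟨fun n => Φ (coord n), by
    refine ⟨‖Φ‖, fun f hf => ?_⟩
    have h1 : pair f (fun n => Φ (coord n)) = Φ (ev f hf) := by
      rw [← hev f hf, map_sum, pair_eq_sum]
      refine Finset.sum_congr rfl fun n _ => ?_
      rw [map_smul, smul_eq_mul]
    rw [h1]
    calc |Φ (ev f hf)| ≤ ‖Φ‖ * ‖ev f hf‖ := Φ.le_opNorm _
      _ ≤ ‖Φ‖ * 1 := by gcongr; exact norm_ev_le f hf
      _ = _ := mul_one _⟩ : TT)
  have hxv : ∀ n, x.val n = Φ (coord n) := fun n => rfl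
  refine ⟨x, ?_⟩
  ext y
  rw [NormedSpace.dual_def]
  have h1 : ∀ N : ℕ, Φ (y.comp (P {n | n < N})) = (y.comp (P {n | n < N})) x := by
    intro N
    rw [comp_P_lt, map_sum, _root_.sum_apply]
    refine Finset.sum_congr rfl fun i _ => ?_
    rw [map_smul, _root_.smul_apply, coord_apply, hxv]
  have h2 : ∀ N : ℕ, |y x - Φ y| ≤ (‖x‖ + ‖Φ‖) * ‖y.comp (Q N)‖ := by
    intro N
    have h3 : y x - Φ y = (y.comp (Q N)) x - Φ (y.comp (Q N)) := by
      rw [← sub_comp_P_lt y N, map_sub, _root_.sub_apply, h1]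
      ring
    rw [h3]
    calc |(y.comp (Q N)) x - Φ (y.comp (Q N))| ≤ |(y.comp (Q N)) x| + |Φ (y.comp (Q N))| :=
          abs_sub _ _
      _ ≤ ‖y.comp (Q N)‖ * ‖x‖ + ‖Φ‖ * ‖y.comp (Q N)‖ :=
          add_le_add ((y.comp (Q N)).le_opNorm x) (Φ.le_opNorm _)
      _ = _ := by ring
  have h4 : Tendsto (fun N => (‖x‖ + ‖Φ‖) * ‖y.comp (Q N)‖) atTop (𝓝 ((‖x‖ + ‖Φ‖) * 0)) :=
    (shrinking y).const_mul _
  rw [mul_zero] at h4
  have h5 : |y x - Φ y| ≤ 0 := ge_of_tendsto' h4 h2
  have h6 : y x - Φ y = 0 := abs_nonpos_iff.1 h5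
  linarith

/-- The dual of Tsirelson space. -/
abbrev X : Type := StrongDual ℝ T

theorem X_reflexive : Function.Surjective (NormedSpace.inclusionInDoubleDual ℝ X) := by
  intro Ψ
  let y : X := Ψ.comp (NormedSpace.inclusionInDoubleDual ℝ T)
  refine ⟨y, ?_⟩
  ext ξ
  obtain ⟨x, rfl⟩ := T_reflexive ξ
  rw [NormedSpace.dual_def, NormedSpace.dual_def]
  rfl

theorem X_infinite : ¬ FiniteDimensional ℝ X := by
  intro hfin
  have hli : LinearIndependent ℝ (fun n : ℕ => (coord n : X)) := by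
    rw [linearIndependent_iff']
    intro s g hg i hi
    have h1 := congrArg (fun φ : X => φ (e i)) hg
    simp only [_root_.sum_apply, _root_.smul_apply, coord_apply, e_val,
      smul_eq_mul, _root_.zero_apply] at h1
    rw [Finset.sum_eq_single_of_mem i hi] at h1
    · simpa using h1
    · intro j _ hj
      rw [Pi.single_eq_of_ne hj, mul_zero]
  exact Infinite.not_finite (α := ℕ) hli.finite

end Pool.Agent.Helper224.Tsi
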