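import Pool.Agent.Helper224.Tsi3

set_option autoImplicit false
open MeasureTheory Filter Topology
open scoped ENNReal

namespace Pool.Agent.Helper224.Tsi

lemma layer_bound (h : ℝ) (hh : 0 ≤ h) (I : ℕ) :
    ∑ i ∈ Finset.range I, (if (2:ℝ)^i ≤ h then (2:ℝ)^i else 0) ≤ 2 * h ∧
    ∑ i ∈ Finset.range I, (if (2:ℝ)^i ≤ h then (2:ℝ)^i else 0) ≤ (2:ℝ)^I := by
  induction I with
  | zero => simp; exact hh
  | succ I ih =>
    rw [Finset.sum_range_succ]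
    have hp := pow_pos (by norm_num : (0:ℝ) < 2) I
    split_ifs with h1
    · constructor
      · linarith [ih.2]
      · rw [pow_succ]; linarith [ih.2]
    · constructor
      · linarith [ih.1]
      · rw [pow_succ]; linarith [ih.2]

lemma layer_measure {α : Type*} [MeasurableSpace α] (μ : Measure α) (g : α → ℝ) (hg : Measurable g)
    (hg0 : ∀ t, 0 ≤ g t) (I : ℕ) :
    ∑ i ∈ Finset.range I, (2:ℝ≥0∞)^i * μ {t | (2:ℝ)^i ≤ g t} ≤ 2 * ∫⁻ t, ENNReal.ofReal (g t) ∂μ := by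
  have hm : ∀ i : ℕ, MeasurableSet {t | (2:ℝ)^i ≤ g t} := fun i => measurableSet_le measurable_const hg
  have h1 : ∀ i ∈ Finset.range I, (2:ℝ≥0∞)^i * μ {t | (2:ℝ)^i ≤ g t} =
      ∫⁻ t, ({t | (2:ℝ)^i ≤ g t}.indicator (fun _ => (2:ℝ≥0∞)^i)) t ∂μ := by
    intro i _
    rw [lintegral_indicator_const (hm i)]
  rw [Finset.sum_congr rfl h1, ← lintegral_finsetSum _ fun i _ => measurable_const.indicator (hm i),
    ← lintegral_const_mul' _ _ (by norm_num)]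
  refine lintegral_mono fun t => ?_
  have h2 := (layer_bound (g t) (hg0 t) I).1
  have h3 : ∑ i ∈ Finset.range I, ({t | (2:ℝ)^i ≤ g t}.indicator (fun _ => (2:ℝ≥0∞)^i)) t =
      ENNReal.ofReal (∑ i ∈ Finset.range I, (if (2:ℝ)^i ≤ g t then (2:ℝ)^i else 0)) := by
    rw [ENNReal.ofReal_sum_of_nonneg]
    · refine Finset.sum_congr rfl fun i _ => ?_
      simp only [Set.indicator, Set.mem_ofPred_eq]
      split_ifs
      · rw [ENNReal.ofReal_pow (by norm_num)]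
        norm_num
      · simp
    · intro i _
      split_ifs <;> positivity
  calc ∑ i ∈ Finset.range I, ({t | (2:ℝ)^i ≤ g t}.indicator (fun _ => (2:ℝ≥0∞)^i)) t
      ≤ ENNReal.ofReal (2 * g t) := by rw [h3]; exact ENNReal.ofReal_le_ofReal h2
    _ = 2 * ENNReal.ofReal (g t) := by
        rw [ENNReal.ofReal_mul (by norm_num)]
        norm_num

/-- counting large blocks -/
lemma count_bound (x : T) (N : ℕ → ℕ) (hN : StrictMono N) (i : ℕ)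
    (hi : ⌊2^(i+2) * ‖x‖⌋₊ + 1 ≤ N i) :
    ∑' k : ℕ, (if i ≤ k ∧ 1 < 2^(i+1) * ‖P (Set.Ico (N k) (N (k+1))) x‖ then (1:ℝ≥0∞) else 0) ≤
      ENNReal.ofReal (2^(i+2) * ‖x‖) := by
  classical
  rw [ENNReal.tsum_eq_iSup_sum]
  refine iSup_le fun E => ?_
  rw [Finset.sum_ite, Finset.sum_const_zero, add_zero, Finset.sum_const, nsmul_eq_mul, mul_one]
  set F := E.filter (fun k => i ≤ k ∧ 1 < 2^(i+1) * ‖P (Set.Ico (N k) (N (k+1))) x‖) with hF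
  have hcard : F.card ≤ ⌊2^(i+2) * ‖x‖⌋₊ := by
    by_contra hlt
    push Not at hlt
    obtain ⟨F', hF', hc⟩ := Finset.exists_subset_card_eq (Nat.succ_le_of_lt hlt)
    have hmem : ∀ k ∈ F', i ≤ k ∧ 1 < 2^(i+1) * ‖P (Set.Ico (N k) (N (k+1))) x‖ := fun k hk =>
      (Finset.mem_filter.1 (hF' hk)).2
    have h1 := lower_estimate x N hN.monotone F' (fun k hk => by
      rw [hc]
      exact hi.trans (hN.monotone (hmem k hk).1))
    have h2 : (F'.card : ℝ) * (1 / 2^(i+1)) ≤ ∑ k ∈ F', ‖P (Set.Ico (N k) (N (k+1))) x‖ := by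
      rw [← nsmul_eq_mul, ← Finset.sum_const]
      refine Finset.sum_le_sum fun k hk => ?_
      rw [div_le_iff₀' (by positivity)]
      exact (hmem k hk).2.le
    have h3 : (F'.card : ℝ) ≤ 2^(i+2) * ‖x‖ := by
      have h4 : (F'.card : ℝ) * (1 / 2^(i+1)) ≤ 2 * ‖x‖ := h2.trans h1
      rw [mul_one_div, div_le_iff₀ (by positivity)] at h4
      calc (F'.card : ℝ) ≤ 2 * ‖x‖ * 2^(i+1) := h4
        _ = 2^(i+2) * ‖x‖ := by ring
    have h5 := Nat.lt_floor_add_one (2^(i+2) * ‖x‖)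
    rw [hc] at h3
    push_cast at h3
    linarith
  calc ((F.card : ℕ) : ℝ≥0∞) ≤ ((⌊2^(i+2) * ‖x‖⌋₊ : ℕ) : ℝ≥0∞) := by exact_mod_cast hcard
    _ = ENNReal.ofReal ((⌊2^(i+2) * ‖x‖⌋₊ : ℕ) : ℝ) := by rw [ENNReal.ofReal_natCast]
    _ ≤ _ := ENNReal.ofReal_le_ofReal (Nat.floor_le (by positivity))

lemma exists_level (x : T) (N : ℕ → ℕ) (hN4 : ∀ k, 4^(k+1) ≤ N k) :
    ∃ i₀, ∀ i, i₀ ≤ i → ⌊2^(i+2) * ‖x‖⌋₊ + 1 ≤ N i := by
  obtain ⟨i₀, hi₀⟩ := pow_unbounded_of_one_lt (2 * ‖x‖ + 1) (by norm_num : (1:ℝ) < 2)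
  refine ⟨i₀, fun i hi => le_trans ?_ (hN4 i)⟩
  have h1 : (2:ℝ)^i₀ ≤ 2^(i+1) := pow_le_pow_right₀ (by norm_num) (by omega)
  have h2 : ((⌊2^(i+2) * ‖x‖⌋₊ : ℕ) : ℝ) ≤ 2^(i+2) * ‖x‖ := Nat.floor_le (by positivity)
  have h3 : ((⌊2^(i+2) * ‖x‖⌋₊ + 1 : ℕ) : ℝ) ≤ ((4^(i+1) : ℕ) : ℝ) := by
    push_cast
    calc ((⌊2^(i+2) * ‖x‖⌋₊ : ℕ) : ℝ) + 1 ≤ 2^(i+2) * ‖x‖ + 2^(i+1) := by
          have : (1:ℝ) ≤ 2^(i+1) := one_le_pow₀ (by norm_num)
          linarith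
      _ = 2^(i+1) * (2 * ‖x‖ + 1) := by ring
      _ ≤ 2^(i+1) * 2^(i+1) := by gcongr; linarith
      _ = 4^(i+1) := by rw [← mul_pow]; norm_num
  exact_mod_cast h3

lemma count_ne_top (x : T) (N : ℕ → ℕ) (hN : StrictMono N) (hN4 : ∀ k, 4^(k+1) ≤ N k) (i : ℕ) :
    ∑' k : ℕ, (if i ≤ k ∧ 1 < 2^(i+1) * ‖P (Set.Ico (N k) (N (k+1))) x‖ then (1:ℝ≥0∞) else 0) ≠ ⊤ := by
  obtain ⟨i₀, hi₀⟩ := exists_level x N hN4
  set j := max i i₀ with hj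
  have h1 := count_bound x N hN j (hi₀ j (le_max_right _ _))
  have h2 : ∀ k : ℕ, (if i ≤ k ∧ 1 < 2^(i+1) * ‖P (Set.Ico (N k) (N (k+1))) x‖ then (1:ℝ≥0∞) else 0) ≤
      (if k ∈ Finset.range j then (1:ℝ≥0∞) else 0) +
      (if j ≤ k ∧ 1 < 2^(j+1) * ‖P (Set.Ico (N k) (N (k+1))) x‖ then (1:ℝ≥0∞) else 0) := by
    intro k
    split_ifs with h3 h4 h5 h5
    · simp
    · simp
    · simp
    · exfalso
      rw [Finset.mem_range, not_lt] at h4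
      apply h5
      refine ⟨h4, h3.2.trans_le ?_⟩
      have : (2:ℝ)^(i+1) ≤ 2^(j+1) := pow_le_pow_right₀ (by norm_num) (by omega)
      gcongr
    all_goals simp
  have h3 : ∑' k : ℕ, (if k ∈ Finset.range j then (1:ℝ≥0∞) else 0) = j := by
    rw [tsum_eq_sum (s := Finset.range j)]
    · rw [Finset.sum_ite_mem, Finset.inter_self]
      simp
    · intro k hk
      rw [if_neg hk]
  refine ne_top_of_le_ne_top ?_ (ENNReal.tsum_le_tsum h2)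
  rw [ENNReal.tsum_add, h3]
  exact ENNReal.add_ne_top.2 ⟨ENNReal.natCast_ne_top _, ne_top_of_le_ne_top ENNReal.ofReal_ne_top h1⟩

end Pool.Agent.Helper224.Tsi
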