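import Pool.Agent.Helper224.Tsi4

set_option autoImplicit false
open MeasureTheory Filter Topology
open scoped ENNReal

namespace Pool.Agent.Helper224.Tsi

lemma key_sum {α : Type*} [MeasurableSpace α] (μ : Measure α) [IsFiniteMeasure μ] (h : ℕ → α → ℝ)
    (ψ : ℕ → ℝ≥0∞) (hψ : ∑' i, ψ i ≠ ⊤) (N : ℕ → ℕ)
    (hN : StrictMono N) (hN4 : ∀ k, 4^(k+1) ≤ N k)
    (hG : ∀ k i, i ≤ k → (2:ℝ≥0∞)^i * μ {t | (2:ℝ)^i ≤ h k t} ≤ ψ i) (x : T) :
    ∑' k, μ {t | 1 < ‖P (Set.Ico (N k) (N (k+1))) x‖ * h k t} ≠ ⊤ := by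
  classical
  set c : ℕ → ℝ := fun k => ‖P (Set.Ico (N k) (N (k+1))) x‖ with hc
  have hc0 : ∀ k, 0 ≤ c k := fun k => norm_nonneg _
  have h2ne : ∀ i : ℕ, (2:ℝ≥0∞)^i ≠ 0 := fun i => pow_ne_zero _ (by norm_num)
  have h2nt : ∀ i : ℕ, (2:ℝ≥0∞)^i ≠ ⊤ := fun i => ENNReal.pow_ne_top (by norm_num)
  have hG' : ∀ k i, i ≤ k → μ {t | (2:ℝ)^i ≤ h k t} ≤ ((2:ℝ≥0∞)^i)⁻¹ * ψ i := by
    intro k i hik
    rw [← ENNReal.div_eq_inv_mul, ENNReal.le_div_iff_mul_le (Or.inl (h2ne i)) (Or.inl (h2nt i)),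
      mul_comm]
    exact hG k i hik
  set Cnt : ℕ → ℝ≥0∞ := fun i =>
    ∑' k : ℕ, (if i ≤ k ∧ 1 < 2^(i+1) * c k then (1:ℝ≥0∞) else 0) with hCnt
  -- pointwise bound
  have hpt : ∀ k, μ {t | 1 < c k * h k t} ≤ ((2:ℝ≥0∞)^k)⁻¹ * (∑' i, ψ i) +
      (if 0 ≤ k ∧ 1 < 2^(0+1) * c k then (1:ℝ≥0∞) else 0) * μ Set.univ +
      ∑' i, (((2:ℝ≥0∞)^i)⁻¹ * ψ i) * (if i ≤ k ∧ 1 < 2^(i+1) * c k then (1:ℝ≥0∞) else 0) := by
    intro k
    have hsub : {t | 1 < c k * h k t} ⊆ ({t | (2:ℝ)^k ≤ h k t} ∪ {t | 1 < c k}) ∪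
        ⋃ i : ℕ, {t | (i ≤ k ∧ 1 < 2^(i+1) * c k) ∧ (2:ℝ)^i ≤ h k t} := by
      intro t ht
      have ht' : 1 < c k * h k t := ht
      by_cases h1 : (2:ℝ)^k ≤ h k t
      · exact Or.inl (Or.inl h1)
      · push Not at h1
        by_cases h2 : h k t < 1
        · refine Or.inl (Or.inr ?_)
          have : c k * h k t ≤ c k * 1 := mul_le_mul_of_nonneg_left h2.le (hc0 k)
          show 1 < c k
          linarith
        · push Not at h2
          obtain ⟨i, hi1, hi2⟩ := exists_nat_pow_near h2 (by norm_num : (1:ℝ) < 2)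
          refine Or.inr (Set.mem_iUnion.2 ⟨i, ⟨?_, ?_⟩, hi1⟩)
          · by_contra hik
            push Not at hik
            have : (2:ℝ)^k ≤ 2^i := pow_le_pow_right₀ (by norm_num) hik.le
            linarith
          · calc 1 < c k * h k t := ht'
              _ ≤ c k * 2^(i+1) := mul_le_mul_of_nonneg_left hi2.le (hc0 k)
              _ = _ := mul_comm _ _
    refine (measure_mono hsub).trans ((measure_union_le _ _).trans (add_le_add
      ((measure_union_le _ _).trans (add_le_add ?_ ?_)) ((measure_iUnion_le _).trans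
        (ENNReal.tsum_le_tsum fun i => ?_))))
    · refine (hG' k k le_rfl).trans ?_
      gcongr
      exact ENNReal.le_tsum k
    · by_cases h3 : 1 < c k
      · rw [if_pos ⟨Nat.zero_le _, by norm_num; linarith⟩, one_mul]
        exact measure_mono (Set.subset_univ _)
      · have : {t : α | 1 < c k} = ∅ := by
          ext t; simp [h3]
        rw [this, measure_empty]
        exact zero_le
    · by_cases h3 : i ≤ k ∧ 1 < 2^(i+1) * c k
      · rw [if_pos h3, mul_one]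
        refine (measure_mono ?_).trans (hG' k i h3.1)
        intro t ht
        exact ht.2
      · have : {t : α | (i ≤ k ∧ 1 < 2^(i+1) * c k) ∧ (2:ℝ)^i ≤ h k t} = ∅ := by
          ext t
          simp only [Set.mem_ofPred_eq, Set.mem_empty_iff_false, iff_false]
          exact fun h4 => h3 h4.1
        rw [this, measure_empty]
        exact zero_le
  refine ne_top_of_le_ne_top ?_ (ENNReal.tsum_le_tsum hpt)
  rw [ENNReal.tsum_add, ENNReal.tsum_add, ENNReal.tsum_mul_right, ENNReal.tsum_mul_right,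
    ENNReal.tsum_comm]
  have hA : (∑' k : ℕ, ((2:ℝ≥0∞)^k)⁻¹) ≠ ⊤ := by
    have : (fun k : ℕ => ((2:ℝ≥0∞)^k)⁻¹) = fun k => (2:ℝ≥0∞)⁻¹^k := by
      ext k; rw [ENNReal.inv_pow]
    rw [this, ENNReal.tsum_geometric]
    norm_num
  have hB : Cnt 0 ≠ ⊤ := count_ne_top x N hN hN4 0
  have hCC : (∑' i, ∑' k : ℕ, (((2:ℝ≥0∞)^i)⁻¹ * ψ i) *
      (if i ≤ k ∧ 1 < 2^(i+1) * c k then (1:ℝ≥0∞) else 0)) ≠ ⊤ := by
    simp_rw [ENNReal.tsum_mul_left]
    obtain ⟨i₀, hi₀⟩ := exists_level x N hN4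
    have hle : ∀ i, (((2:ℝ≥0∞)^i)⁻¹ * ψ i) * Cnt i ≤ ENNReal.ofReal (4 * ‖x‖) * ψ i +
        (if i ∈ Finset.range i₀ then (((2:ℝ≥0∞)^i)⁻¹ * ψ i) * Cnt i else 0) := by
      intro i
      by_cases hi : i ∈ Finset.range i₀
      · rw [if_pos hi]
        exact le_add_self
      · rw [if_neg hi, add_zero]
        rw [Finset.mem_range, not_lt] at hi
        have h5 := count_bound x N hN i (hi₀ i hi)
        calc (((2:ℝ≥0∞)^i)⁻¹ * ψ i) * Cnt i ≤ (((2:ℝ≥0∞)^i)⁻¹ * ψ i) * ENNReal.ofReal (2^(i+2) * ‖x‖) := by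
              gcongr
          _ = (((2:ℝ≥0∞)^i)⁻¹ * (2:ℝ≥0∞)^i) * (ENNReal.ofReal (4 * ‖x‖) * ψ i) := by
              have : ENNReal.ofReal (2^(i+2) * ‖x‖) = (2:ℝ≥0∞)^i * ENNReal.ofReal (4 * ‖x‖) := by
                rw [show (2:ℝ)^(i+2) * ‖x‖ = 2^i * (4 * ‖x‖) by ring,
                  ENNReal.ofReal_mul (by positivity), ENNReal.ofReal_pow (by norm_num)]
                norm_num
              rw [this]
              ring
          _ = ENNReal.ofReal (4 * ‖x‖) * ψ i := by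
              rw [ENNReal.inv_mul_cancel (h2ne i) (h2nt i), one_mul]
    refine ne_top_of_le_ne_top ?_ (ENNReal.tsum_le_tsum hle)
    rw [ENNReal.tsum_add, ENNReal.tsum_mul_left]
    refine ENNReal.add_ne_top.2 ⟨ENNReal.mul_ne_top ENNReal.ofReal_ne_top hψ, ?_⟩
    rw [tsum_eq_sum (s := Finset.range i₀) (fun i hi => by rw [if_neg hi])]
    refine ENNReal.sum_ne_top.2 fun i hi => ?_
    rw [if_pos hi]
    refine ENNReal.mul_ne_top (ENNReal.mul_ne_top (ENNReal.inv_ne_top.2 (h2ne i)) ?_)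
      (count_ne_top x N hN hN4 i)
    exact ne_top_of_le_ne_top hψ (ENNReal.le_tsum i)
  exact ENNReal.add_ne_top.2 ⟨ENNReal.add_ne_top.2 ⟨ENNReal.mul_ne_top hA hψ,
    ENNReal.mul_ne_top hB (measure_ne_top _ _)⟩, hCC⟩

end Pool.Agent.Helper224.Tsi
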