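import Pool.Agent.Helper224.Tsi5

set_option autoImplicit false
open MeasureTheory Filter Topology
open scoped ENNReal

namespace Pool.Agent.Helper224.Tsi

lemma tendsto_measure_head {α : Type*} [MeasurableSpace α] (μ : Measure α) (f : ℕ → α → X)
    (hφ : ∀ φ : StrongDual ℝ X, TendstoInMeasure μ (fun n t => φ (f n t)) atTop (fun _ => (0:ℝ)))
    (N : ℕ) (ε : ℝ) (hε : 0 < ε) :
    Tendsto (fun n => μ {t | ε < ‖(f n t).comp (P {n | n < N})‖}) atTop (𝓝 0) := by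
  have hε' : 0 < ε / (N + 1) := by positivity
  have h1 : ∀ n, μ {t | ε < ‖(f n t).comp (P {n | n < N})‖} ≤
      ∑ i ∈ Finset.range N, μ {t | ε / (N+1) ≤ ‖f n t (e i)‖} := by
    intro n
    refine (measure_mono ?_).trans (measure_biUnion_finset_le _ _)
    intro t ht
    by_contra hcon
    simp only [Set.mem_iUnion, not_exists, Set.mem_ofPred_eq, not_le] at hcon
    have h2 : ‖(f n t).comp (P {n | n < N})‖ ≤ ∑ i ∈ Finset.range N, ε / (N+1) := by
      rw [comp_P_lt]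
      refine (norm_sum_le _ _).trans (Finset.sum_le_sum fun i hi => ?_)
      rw [norm_smul]
      calc ‖f n t (e i)‖ * ‖coord i‖ ≤ ‖f n t (e i)‖ * 1 := by
            gcongr; exact norm_ev_le _ _
        _ ≤ _ := by rw [mul_one]; exact (hcon i hi).le
    rw [Finset.sum_const, Finset.card_range, nsmul_eq_mul] at h2
    have h3 : (N:ℝ) * (ε / (N+1)) ≤ ε := by
      rw [mul_div_assoc', div_le_iff₀ (by positivity)]
      nlinarith
    have ht' : ε < ‖(f n t).comp (P {n | n < N})‖ := ht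
    linarith
  have h2 : Tendsto (fun n => ∑ i ∈ Finset.range N, μ {t | ε / (N+1) ≤ ‖f n t (e i)‖}) atTop
      (𝓝 (∑ i ∈ Finset.range N, 0)) := by
    refine tendsto_finsetSum _ fun i _ => ?_
    have := (tendstoInMeasure_iff_norm.1 (hφ (NormedSpace.inclusionInDoubleDual ℝ T (e i)))) _ hε'
    refine this.congr fun n => ?_
    simp only [sub_zero]
    rfl
  rw [Finset.sum_const_zero] at h2
  exact tendsto_of_tendsto_of_tendsto_of_le_of_le tendsto_const_nhds h2 (fun _ => zero_le) h1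

lemma tendsto_measure_tail {α : Type*} [MeasurableSpace α] (μ : Measure α) [IsFiniteMeasure μ]
    (f : α → X) (hf : StronglyMeasurable f) (ε : ℝ) (hε : 0 < ε) :
    Tendsto (fun N : ℕ => μ {t | ε < ‖(f t).comp (Q N)‖}) atTop (𝓝 0) := by
  have hcont : ∀ N : ℕ, Continuous (fun y : X => y.comp (Q N)) := fun N =>
    ((ContinuousLinearMap.compL ℝ T T ℝ).flip (Q N)).continuous
  have h1 : TendstoInMeasure μ (fun N t => (f t).comp (Q N)) atTop (fun _ => (0 : X)) := by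
    refine tendstoInMeasure_of_tendsto_ae (fun N => ((hcont N).comp_stronglyMeasurable
      hf).aestronglyMeasurable) (ae_of_all _ fun t => ?_)
    rw [tendsto_zero_iff_norm_tendsto_zero]
    exact shrinking (f t)
  have h2 := (tendstoInMeasure_iff_norm.1 h1) ε hε
  refine tendsto_of_tendsto_of_tendsto_of_le_of_le tendsto_const_nhds h2 (fun _ => zero_le)
    (fun N => measure_mono ?_)
  intro t ht
  show ε ≤ ‖(f t).comp (Q N) - 0‖
  rw [sub_zero]
  exact le_of_lt ht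

theorem D1 {α : Type*} [MeasurableSpace α] (μ : Measure α) [IsFiniteMeasure μ] (f : ℕ → α → X)
    (hf : ∀ n, StronglyMeasurable (f n)) (C : NNReal)
    (hC : ∀ n, eLpNorm (f n) 1 μ ≤ (C : ℝ≥0∞))
    (hφ : ∀ φ : StrongDual ℝ X, TendstoInMeasure μ (fun n t => φ (f n t)) atTop (fun _ => (0:ℝ))) :
    ∃ g : ℕ → ℕ, StrictMono g ∧ ∀ φ : StrongDual ℝ X, ∀ᵐ t ∂μ,
      Tendsto (fun k => φ (f (g k) t)) atTop (𝓝 0) := by
  classical
  -- extraction of levels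
  let G : ℕ → ℕ → ℝ≥0∞ := fun n i => (2:ℝ≥0∞)^i * μ {t | (2:ℝ)^i ≤ ‖f n t‖}
  have hGsum : ∀ n I, ∑ i ∈ Finset.range I, G n i ≤ 2 * C := by
    intro n I
    have h1 := layer_measure μ (fun t => ‖f n t‖) (hf n).norm.measurable (fun t => norm_nonneg _) I
    have h2 : ∫⁻ t, ENNReal.ofReal ‖f n t‖ ∂μ = eLpNorm (f n) 1 μ := by
      rw [eLpNorm_one_eq_lintegral_enorm]
      simp_rw [ofReal_norm]
    rw [h2] at h1
    refine h1.trans ?_
    gcongr
    exact hC n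
  obtain ⟨L, φ₁, hφ₁, hL⟩ := CompactSpace.tendsto_subseq G
  have hLi : ∀ i, Tendsto (fun n => G (φ₁ n) i) atTop (𝓝 (L i)) := fun i =>
    (tendsto_pi_nhds.1 hL i)
  have hLsum : ∑' i, L i ≤ 2 * C := by
    refine ENNReal.tsum_le_of_sum_range_le fun I => ?_
    exact le_of_tendsto' (tendsto_finsetSum _ fun i _ => hLi i) fun n => hGsum (φ₁ n) I
  have hLne : ∑' i, L i ≠ ⊤ := ne_top_of_le_ne_top (ENNReal.mul_ne_top (by norm_num)
    ENNReal.coe_ne_top) hLsum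
  let ψ : ℕ → ℝ≥0∞ := fun i => L i + (2:ℝ≥0∞)⁻¹^i
  have hψ : ∑' i, ψ i ≠ ⊤ := by
    simp only [ψ]
    rw [ENNReal.tsum_add, ENNReal.tsum_geometric]
    exact ENNReal.add_ne_top.2 ⟨hLne, by norm_num⟩
  have hev1 : ∀ k : ℕ, ∀ᶠ m in atTop, ∀ i, i ≤ k → G (φ₁ m) i ≤ ψ i := by
    intro k
    have h1 : ∀ᶠ m in atTop, ∀ i ∈ Finset.range (k+1), G (φ₁ m) i ≤ ψ i := by
      rw [Finset.eventually_all]
      intro i _
      have hlt : L i < ψ i := by
        refine ENNReal.lt_add_right (ne_top_of_le_ne_top hLne (ENNReal.le_tsum i)) ?_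
        exact pow_ne_zero _ (by norm_num)
      exact ((hLi i).eventually (gt_mem_nhds hlt)).mono fun _ h => h.le
    filter_upwards [h1] with m hm i hi
    exact hm i (Finset.mem_range.2 (by omega))
  have hpow : ∀ k : ℕ, (0 : ℝ≥0∞) < (2:ℝ≥0∞)⁻¹^k := fun k => by
    rw [← ENNReal.inv_pow]
    exact ENNReal.inv_pos.2 (ENNReal.pow_ne_top (by norm_num))
  have hev2 : ∀ k N : ℕ, ∀ᶠ m in atTop,
      μ {t | (1/2:ℝ)^k < ‖(f (φ₁ m) t).comp (P {n | n < N})‖} ≤ (2:ℝ≥0∞)⁻¹^k := by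
    intro k N
    have h1 := (tendsto_measure_head μ f hφ N ((1/2:ℝ)^k) (by positivity)).comp hφ₁.tendsto_atTop
    exact (h1.eventually (gt_mem_nhds (hpow k))).mono fun _ h => h.le
  have hA : ∀ k N m : ℕ, ∃ m', m < m' ∧
      μ {t | (1/2:ℝ)^k < ‖(f (φ₁ m') t).comp (P {n | n < N})‖} ≤ (2:ℝ≥0∞)⁻¹^k ∧
      ∀ i, i ≤ k → G (φ₁ m') i ≤ ψ i := by
    intro k N m
    obtain ⟨m', h1, h2, h3⟩ := ((eventually_gt_atTop m).and ((hev2 k N).and (hev1 k))).exists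
    exact ⟨m', h1, h2, h3⟩
  have hB : ∀ k m N : ℕ, ∃ N', N < N' ∧ 4^(k+2) ≤ N' ∧
      μ {t | (1/2:ℝ)^k < ‖(f (φ₁ m) t).comp (Q N')‖} ≤ (2:ℝ≥0∞)⁻¹^k := by
    intro k m N
    have h1 := tendsto_measure_tail μ (f (φ₁ m)) (hf _) ((1/2:ℝ)^k) (by positivity)
    obtain ⟨N', h2, h3, h4⟩ := ((eventually_gt_atTop N).and ((eventually_ge_atTop (4^(k+2))).and
      (h1.eventually (gt_mem_nhds (hpow k))))).exists
    exact ⟨N', h2, h3, h4.le⟩
  choose A hA1 hA2 hA3 using hA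
  choose B hB1 hB2 hB3 using hB
  let s : ℕ → ℕ × ℕ := fun k => Nat.rec (4, A 0 4 0)
    (fun k p => (B k p.2 p.1, A (k+1) (B k p.2 p.1) p.2)) k
  have hs0 : s 0 = (4, A 0 4 0) := rfl
  have hs1 : ∀ k, s (k+1) = (B k (s k).2 (s k).1, A (k+1) (B k (s k).2 (s k).1) (s k).2) :=
    fun k => rfl
  let N : ℕ → ℕ := fun k => (s k).1
  let m : ℕ → ℕ := fun k => (s k).2
  have hN1 : ∀ k, N (k+1) = B k (m k) (N k) := fun k => rfl
  have hm1 : ∀ k, m (k+1) = A (k+1) (N (k+1)) (m k) := fun k => rfl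
  have hNmono : StrictMono N := strictMono_nat_of_lt_succ fun k => by
    rw [hN1]; exact hB1 _ _ _
  have hmmono : StrictMono m := strictMono_nat_of_lt_succ fun k => by
    rw [hm1]; exact hA1 _ _ _
  have hN4 : ∀ k, 4^(k+1) ≤ N k := by
    intro k
    cases k with
    | zero => exact le_of_eq rfl
    | succ k => rw [hN1]; exact hB2 _ _ _
  have hhead : ∀ k, μ {t | (1/2:ℝ)^k < ‖(f (φ₁ (m k)) t).comp (P {n | n < N k})‖} ≤
      (2:ℝ≥0∞)⁻¹^k := by
    intro k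
    cases k with
    | zero => exact hA2 0 4 0
    | succ k => rw [hm1]; exact hA2 _ _ _
  have hlev : ∀ k i, i ≤ k → G (φ₁ (m k)) i ≤ ψ i := by
    intro k
    cases k with
    | zero => exact hA3 0 4 0
    | succ k => rw [hm1]; exact hA3 _ _ _
  have htail : ∀ k, μ {t | (1/2:ℝ)^k < ‖(f (φ₁ (m k)) t).comp (Q (N (k+1)))‖} ≤
      (2:ℝ≥0∞)⁻¹^k := by
    intro k
    rw [hN1]; exact hB3 _ _ _
  refine ⟨fun k => φ₁ (m k), hφ₁.comp hmmono, ?_⟩
  intro φ
  obtain ⟨x, rfl⟩ := T_reflexive φ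
  have hgeo : ∑' k : ℕ, (2:ℝ≥0∞)⁻¹^k ≠ ⊤ := by
    rw [ENNReal.tsum_geometric]; norm_num
  have hE1 := ae_eventually_notMem (ne_top_of_le_ne_top hgeo (ENNReal.tsum_le_tsum hhead))
  have hE2 := ae_eventually_notMem (ne_top_of_le_ne_top hgeo (ENNReal.tsum_le_tsum htail))
  have hE3 : ∀ᵐ t ∂μ, ∀ j : ℕ, ∀ᶠ k in atTop,
      t ∉ {t | 1 < ‖P (Set.Ico (N k) (N (k+1))) ((j:ℝ) • x)‖ * ‖f (φ₁ (m k)) t‖} := by
    rw [ae_all_iff]
    intro j
    exact ae_eventually_notMem (key_sum μ (fun k t => ‖f (φ₁ (m k)) t‖) ψ hψ N hNmono hN4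
      hlev ((j:ℝ) • x))
  filter_upwards [hE1, hE2, hE3] with t h1 h2 h3
  rw [Metric.tendsto_atTop]
  intro ε hε
  -- middle term is eventually small
  obtain ⟨j, hj⟩ := exists_nat_gt (3 / ε)
  have hj0 : (0:ℝ) < j := lt_trans (by positivity) hj
  have h4 : ∀ᶠ k in atTop, ‖P (Set.Ico (N k) (N (k+1))) x‖ * ‖f (φ₁ (m k)) t‖ < ε / 3 := by
    filter_upwards [h3 j] with k hk
    simp only [Set.mem_ofPred_eq, not_lt, map_smul, norm_smul, Real.norm_natCast] at hk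
    have h5 : (j:ℝ) * (‖P (Set.Ico (N k) (N (k+1))) x‖ * ‖f (φ₁ (m k)) t‖) ≤ 1 := by linarith
    have h6 : ‖P (Set.Ico (N k) (N (k+1))) x‖ * ‖f (φ₁ (m k)) t‖ ≤ 1 / j := by
      rw [le_div_iff₀ hj0]; linarith
    have h7 : 1 / (j:ℝ) < ε / 3 := by
      rw [div_lt_iff₀ hε] at hj
      rw [div_lt_div_iff₀ hj0 (by norm_num)]
      linarith
    linarith
  have h5 : ∀ᶠ k : ℕ in atTop, (1/2:ℝ)^k * ‖x‖ < ε / 3 := by
    have h6 : Tendsto (fun k : ℕ => (1/2:ℝ)^k * ‖x‖) atTop (𝓝 (0 * ‖x‖)) :=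
      (tendsto_pow_atTop_nhds_zero_of_lt_one (by norm_num) (by norm_num)).mul_const _
    rw [zero_mul] at h6
    exact h6.eventually (gt_mem_nhds (by positivity))
  obtain ⟨K, hK⟩ := eventually_atTop.1 (((h1.and h2).and (h4.and h5)))
  refine ⟨K, fun k hk => ?_⟩
  obtain ⟨⟨h6, h7⟩, h8, h9⟩ := hK k hk
  simp only [Set.mem_ofPred_eq, not_lt] at h6 h7
  rw [Real.dist_eq, sub_zero, NormedSpace.dual_def]
  set y : X := f (φ₁ (m k)) t with hy
  have hdec : x = P {n | n < N k} x + P (Set.Ico (N k) (N (k+1))) x + Q (N (k+1)) x := by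
    rw [Q_sub x (hNmono.monotone (Nat.le_succ k))]
    conv_lhs => rw [← P_lt_add_Q (N k) x]
    abel
  have hyx : y x = (y.comp (P {n | n < N k})) x + y (P (Set.Ico (N k) (N (k+1))) x) +
      (y.comp (Q (N (k+1)))) x := by
    conv_lhs => rw [hdec]
    rw [map_add, map_add]
    rfl
  rw [hyx]
  have b1 : |(y.comp (P {n | n < N k})) x| < ε / 3 := by
    refine lt_of_le_of_lt ((y.comp (P {n | n < N k})).le_opNorm x) (lt_of_le_of_lt ?_ h9)
    gcongr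
  have b2 : |(y.comp (Q (N (k+1)))) x| < ε / 3 := by
    refine lt_of_le_of_lt ((y.comp (Q (N (k+1)))).le_opNorm x) (lt_of_le_of_lt ?_ h9)
    gcongr
  have b3 : |y (P (Set.Ico (N k) (N (k+1))) x)| < ε / 3 := by
    refine lt_of_le_of_lt (y.le_opNorm _) ?_
    rw [mul_comm]
    exact h8
  calc |(y.comp (P {n | n < N k})) x + y (P (Set.Ico (N k) (N (k+1))) x) +
      (y.comp (Q (N (k+1)))) x| ≤ |(y.comp (P {n | n < N k})) x| +
        |y (P (Set.Ico (N k) (N (k+1))) x)| + |(y.comp (Q (N (k+1)))) x| := abs_add_three _ _ _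
    _ < ε := by linarith

end Pool.Agent.Helper224.Tsi
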