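import Mathlib

set_option autoImplicit false

namespace Pool.Agent.Helper224.Usm

/-- logarithmic function -/
noncomputable def L (n : ℕ) : ℝ := 1 + (Nat.log 2 n : ℝ)

/-- the weights -/
noncomputable def S (n : ℕ) : ℝ := (n : ℝ) / L n

lemma one_le_L (n : ℕ) : 1 ≤ L n := by
  unfold L
  have : (0:ℝ) ≤ (Nat.log 2 n : ℝ) := Nat.cast_nonneg _
  linarith

lemma L_pos (n : ℕ) : 0 < L n := lt_of_lt_of_le one_pos (one_le_L n)

lemma L_mono {m n : ℕ} (h : m ≤ n) : L m ≤ L n := by
  unfold L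
  have : (Nat.log 2 m : ℝ) ≤ (Nat.log 2 n : ℝ) := by exact_mod_cast Nat.log_mono_right h
  linarith

lemma S_nonneg (n : ℕ) : 0 ≤ S n := div_nonneg (Nat.cast_nonneg _) (L_pos n).le

lemma S_le (n : ℕ) : S n ≤ n := div_le_self (Nat.cast_nonneg _) (one_le_L n)

/-- the scale `M = n^(1/4)` -/
lemma scale (n : ℕ) (hn : 1 ≤ n) : L n ≤ 8 * L (Nat.sqrt (Nat.sqrt n)) := by
  set s := Nat.sqrt n with hs
  set M := Nat.sqrt s with hM
  have hs1 : 1 ≤ s := by
    rw [hs, Nat.le_sqrt]; omega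
  have hM1 : 1 ≤ M := by
    rw [hM, Nat.le_sqrt]; omega
  have h1 : n < (s + 1) ^ 2 := Nat.lt_succ_sqrt' n
  have h2 : s < (M + 1) ^ 2 := Nat.lt_succ_sqrt' s
  have h3 : s + 1 ≤ (2 * M) ^ 2 := by
    have h4 : (M + 1) ^ 2 ≤ (2 * M) ^ 2 := Nat.pow_le_pow_left (by omega) 2
    omega
  have h4 : n < ((2 * M) ^ 2) ^ 2 := lt_of_lt_of_le h1 (Nat.pow_le_pow_left h3 2)
  have h5 : M < 2 ^ (Nat.log 2 M + 1) := Nat.lt_pow_succ_log_self (by norm_num) M
  have h6 : 2 * M ≤ 2 ^ (Nat.log 2 M + 2) := by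
    rw [show Nat.log 2 M + 2 = (Nat.log 2 M + 1) + 1 by ring, pow_succ]
    omega
  have h7 : ((2 * M) ^ 2) ^ 2 ≤ 2 ^ (4 * Nat.log 2 M + 8) := by
    calc ((2 * M) ^ 2) ^ 2 ≤ ((2 ^ (Nat.log 2 M + 2)) ^ 2) ^ 2 :=
          Nat.pow_le_pow_left (Nat.pow_le_pow_left h6 2) 2
      _ = 2 ^ (4 * Nat.log 2 M + 8) := by
          rw [← pow_mul, ← pow_mul]; congr 1; ring
  have h8 : Nat.log 2 n < 4 * Nat.log 2 M + 8 :=
    Nat.log_lt_of_lt_pow (by omega) (lt_of_lt_of_le h4 h7)
  have h9 : (Nat.log 2 n : ℝ) ≤ 4 * (Nat.log 2 M : ℝ) + 7 := by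
    have : Nat.log 2 n ≤ 4 * Nat.log 2 M + 7 := by omega
    exact_mod_cast this
  unfold L
  have h10 : (0 : ℝ) ≤ (Nat.log 2 M : ℝ) := Nat.cast_nonneg _
  linarith

lemma sqrt_le_S (n : ℕ) (hn : 1 ≤ n) : (Nat.sqrt n : ℝ) ≤ 3 * S n := by
  set s := Nat.sqrt n with hs
  have hs1 : 1 ≤ s := by
    rw [hs, Nat.le_sqrt]; omega
  have h1 : n < (s + 1) ^ 2 := Nat.lt_succ_sqrt' n
  have h2 : s + 1 ≤ 2 ^ s := Nat.lt_two_pow_self
  have h3 : n < 2 ^ (2 * s) := by
    calc n < (s + 1) ^ 2 := h1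
      _ ≤ (2 ^ s) ^ 2 := Nat.pow_le_pow_left h2 2
      _ = 2 ^ (2 * s) := by rw [← pow_mul]; congr 1; ring
  have h4 : Nat.log 2 n < 2 * s := Nat.log_lt_of_lt_pow (by omega) h3
  have h5 : s * s ≤ n := Nat.sqrt_le n
  have h6 : L n ≤ 2 * s := by
    unfold L
    have : 1 + Nat.log 2 n ≤ 2 * s := by omega
    exact_mod_cast this
  unfold S
  rw [mul_div_assoc', le_div_iff₀ (L_pos n)]
  have h7 : (s : ℝ) * s ≤ n := by exact_mod_cast h5
  have h8 : (0 : ℝ) ≤ s := Nat.cast_nonneg _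
  nlinarith [mul_le_mul_of_nonneg_left h6 h8]

lemma usm_S_one : S 1 = 1 := by
  unfold S L; simp

/-- large `m`: `S m ≤ 8 m / L n` -/
lemma usm_S_big (n m : ℕ) (hn : 1 ≤ n) (hm : Nat.sqrt (Nat.sqrt n) ≤ m) :
    S m ≤ 8 * (m : ℝ) / L n := by
  unfold S
  rw [div_le_div_iff₀ (L_pos m) (L_pos n)]
  have h1 := scale n hn
  have h2 := L_mono hm
  have h3 : (0 : ℝ) ≤ m := Nat.cast_nonneg _
  nlinarith [mul_le_mul_of_nonneg_left (h1.trans (mul_le_mul_of_nonneg_left h2 (by norm_num))) h3]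

/-- block estimate -/
theorem block_S (J : Finset ℕ) (n : ℕ) (hn : 1 ≤ n) (m : ℕ → ℕ) (b : ℕ → ℝ) (B : ℝ)
    (hB0 : 0 ≤ B)
    (hb : ∀ j ∈ J, 0 ≤ b j) (hm : ∑ j ∈ J, m j ≤ n)
    (hB : ∀ F ⊆ J, ∑ j ∈ F, b j ≤ B * S F.card) :
    ∑ j ∈ J, b j * S (m j) ≤ 20 * B * S n := by
  classical
  set M := Nat.sqrt (Nat.sqrt n) with hM
  have hbB : ∀ j ∈ J, b j ≤ B := by
    intro j hj
    have := hB {j} (Finset.singleton_subset_iff.2 hj)
    simpa [usm_S_one] using this
  have hmR : ∑ j ∈ J, (m j : ℝ) ≤ n := by exact_mod_cast hm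
  have hLn := L_pos n
  have hSn : S n = (n : ℝ) / L n := rfl
  have hSn0 := S_nonneg n
  -- pointwise: split
  have hMM : M * M ≤ Nat.sqrt n := Nat.sqrt_le _
  have hMMR : (M : ℝ) * M ≤ 3 * S n := by
    have h1 : (M : ℝ) * M ≤ (Nat.sqrt n : ℝ) := by exact_mod_cast hMM
    exact h1.trans (sqrt_le_S n hn)
  -- big part
  have hbig : ∑ j ∈ J.filter (fun j => M ≤ m j), b j * S (m j) ≤ 8 * B * S n := by
    calc ∑ j ∈ J.filter (fun j => M ≤ m j), b j * S (m j)
        ≤ ∑ j ∈ J.filter (fun j => M ≤ m j), B * (8 * (m j : ℝ) / L n) := by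
          apply Finset.sum_le_sum
          intro j hj
          rw [Finset.mem_filter] at hj
          exact mul_le_mul (hbB j hj.1) (usm_S_big n (m j) hn hj.2) (S_nonneg _) hB0
      _ ≤ ∑ j ∈ J, B * (8 * (m j : ℝ) / L n) := by
          apply Finset.sum_le_sum_of_subset_of_nonneg (Finset.filter_subset _ _)
          intro j _ _
          positivity
      _ = B * (8 * (∑ j ∈ J, (m j : ℝ)) / L n) := by
          rw [← Finset.mul_sum, ← Finset.sum_div, Finset.mul_sum]
      _ ≤ B * (8 * (n : ℝ) / L n) := by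
          apply mul_le_mul_of_nonneg_left _ hB0
          apply div_le_div_of_nonneg_right _ hLn.le
          linarith
      _ = 8 * B * S n := by rw [hSn]; ring
  -- small part
  have hsmall : ∑ j ∈ J.filter (fun j => ¬ M ≤ m j), b j * S (m j) ≤ 11 * B * S n := by
    set J2 := J.filter (fun j => ¬ M ≤ m j) with hJ2
    have hJ2J : J2 ⊆ J := Finset.filter_subset _ _
    set A : ℕ → Finset ℕ := fun t => J2.filter (fun j => t < m j) with hA
    have hAJ : ∀ t, A t ⊆ J := fun t => (Finset.filter_subset _ _).trans hJ2J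
    have hcard : ∀ j ∈ J2, ((m j : ℕ)) = ∑ t ∈ Finset.range M, (if t < m j then 1 else 0) := by
      intro j hj
      rw [hJ2, Finset.mem_filter, not_le] at hj
      rw [← Finset.card_filter]
      have : (Finset.range M).filter (fun t => t < m j) = Finset.range (m j) := by
        ext t
        simp only [Finset.mem_filter, Finset.mem_range]
        omega
      rw [this, Finset.card_range]
    have hSA : ∀ t, S (A t).card ≤ (M : ℝ) + 8 * ((A t).card : ℝ) / L n := by
      intro t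
      have h0 : (0 : ℝ) ≤ 8 * ((A t).card : ℝ) / L n := by positivity
      rcases le_or_gt M (A t).card with h | h
      · have := usm_S_big n (A t).card hn h
        have h1 : (0 : ℝ) ≤ M := Nat.cast_nonneg _
        linarith
      · have h1 := S_le (A t).card
        have h2 : ((A t).card : ℝ) ≤ M := by exact_mod_cast h.le
        linarith
    have hsumA : ∑ t ∈ Finset.range M, ((A t).card : ℝ) ≤ n := by
      have h1 : ∑ t ∈ Finset.range M, (A t).card = ∑ j ∈ J2, m j := by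
        calc ∑ t ∈ Finset.range M, (A t).card
            = ∑ t ∈ Finset.range M, ∑ j ∈ J2, (if t < m j then 1 else 0) := by
              apply Finset.sum_congr rfl
              intro t _
              rw [hA, Finset.card_filter]
          _ = ∑ j ∈ J2, ∑ t ∈ Finset.range M, (if t < m j then 1 else 0) := Finset.sum_comm
          _ = ∑ j ∈ J2, m j := by
              apply Finset.sum_congr rfl
              intro j hj
              exact (hcard j hj).symm
      have h2 : ∑ j ∈ J2, m j ≤ ∑ j ∈ J, m j :=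
        Finset.sum_le_sum_of_subset hJ2J
      have h3 : ∑ t ∈ Finset.range M, (A t).card ≤ n := by
        rw [h1]; exact h2.trans hm
      exact_mod_cast h3
    calc ∑ j ∈ J2, b j * S (m j) ≤ ∑ j ∈ J2, b j * (m j : ℝ) := by
          apply Finset.sum_le_sum
          intro j hj
          exact mul_le_mul_of_nonneg_left (S_le _) (hb j (hJ2J hj))
      _ = ∑ j ∈ J2, ∑ t ∈ Finset.range M, (if t < m j then b j else 0) := by
          apply Finset.sum_congr rfl
          intro j hj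
          have h1 : ((m j : ℕ) : ℝ) = ∑ t ∈ Finset.range M, (if t < m j then (1 : ℝ) else 0) := by
            have := hcard j hj
            have h2 : ((m j : ℕ) : ℝ) =
                ((∑ t ∈ Finset.range M, (if t < m j then 1 else 0) : ℕ) : ℝ) := by
              exact_mod_cast this
            rw [h2]
            push_cast
            rfl
          rw [h1, Finset.mul_sum]
          apply Finset.sum_congr rfl
          intro t _
          split_ifs <;> simp
      _ = ∑ t ∈ Finset.range M, ∑ j ∈ J2, (if t < m j then b j else 0) := Finset.sum_comm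
      _ = ∑ t ∈ Finset.range M, ∑ j ∈ A t, b j := by
          apply Finset.sum_congr rfl
          intro t _
          exact (Finset.sum_filter (s := J2) (fun j => t < m j) b).symm
      _ ≤ ∑ t ∈ Finset.range M, B * ((M : ℝ) + 8 * ((A t).card : ℝ) / L n) := by
          apply Finset.sum_le_sum
          intro t _
          exact (hB (A t) (hAJ t)).trans (mul_le_mul_of_nonneg_left (hSA t) hB0)
      _ = B * ((M : ℝ) * M + 8 * (∑ t ∈ Finset.range M, ((A t).card : ℝ)) / L n) := by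
          rw [← Finset.mul_sum, Finset.sum_add_distrib, Finset.sum_const, Finset.card_range,
            nsmul_eq_mul, ← Finset.sum_div, Finset.mul_sum]
      _ ≤ B * (3 * S n + 8 * (n : ℝ) / L n) := by
          apply mul_le_mul_of_nonneg_left _ hB0
          apply add_le_add hMMR
          apply div_le_div_of_nonneg_right _ hLn.le
          linarith
      _ = 11 * B * S n := by rw [hSn]; ring
  have hsplit := Finset.sum_filter_add_sum_filter_not J (fun j => M ≤ m j) (fun j => b j * S (m j))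
  rw [← hsplit]
  have hBS : 0 ≤ B * S n := mul_nonneg hB0 hSn0
  nlinarith [hbig, hsmall]

/-- slow variation -/
theorem sum_S (J : Finset ℕ) (n : ℕ) (hJ : (3 * J.card) ^ 4 ≤ n) (hn : 1 ≤ n) (m : ℕ → ℕ)
    (hm : ∑ j ∈ J, m j ≤ n) :
    ∑ j ∈ J, S (m j) ≤ 9 * S n := by
  classical
  set M := Nat.sqrt (Nat.sqrt n) with hM
  have h3J : 3 * J.card ≤ M := by
    rw [hM, Nat.le_sqrt', Nat.le_sqrt', ← pow_mul]
    exact hJ
  have hLn := L_pos n
  have hSn : S n = (n : ℝ) / L n := rfl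
  have hmR : ∑ j ∈ J, (m j : ℝ) ≤ n := by exact_mod_cast hm
  have hMM : M * M ≤ Nat.sqrt n := Nat.sqrt_le _
  have hMMR : (M : ℝ) * M ≤ 3 * S n := by
    have h1 : (M : ℝ) * M ≤ (Nat.sqrt n : ℝ) := by exact_mod_cast hMM
    exact h1.trans (sqrt_le_S n hn)
  have hpt : ∀ j ∈ J, S (m j) ≤ (M : ℝ) + 8 * (m j : ℝ) / L n := by
    intro j _
    have h0 : (0 : ℝ) ≤ 8 * (m j : ℝ) / L n := by positivity
    rcases le_or_gt M (m j) with h | h
    · have := usm_S_big n (m j) hn h
      have h1 : (0 : ℝ) ≤ M := Nat.cast_nonneg _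
      linarith
    · have h1 := S_le (m j)
      have h2 : (m j : ℝ) ≤ M := by exact_mod_cast h.le
      linarith
  calc ∑ j ∈ J, S (m j) ≤ ∑ j ∈ J, ((M : ℝ) + 8 * (m j : ℝ) / L n) := Finset.sum_le_sum hpt
    _ = (J.card : ℝ) * M + 8 * (∑ j ∈ J, (m j : ℝ)) / L n := by
        rw [Finset.sum_add_distrib, Finset.sum_const, nsmul_eq_mul, ← Finset.sum_div,
          Finset.mul_sum]
    _ ≤ S n + 8 * S n := by
        apply add_le_add
        · have h1 : (3 : ℝ) * J.card ≤ M := by exact_mod_cast h3J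
          have h2 : (0 : ℝ) ≤ M := Nat.cast_nonneg _
          nlinarith [mul_le_mul_of_nonneg_right h1 h2]
        · rw [hSn, mul_div_assoc]
          apply mul_le_mul_of_nonneg_left _ (by norm_num)
          exact div_le_div_of_nonneg_right hmR hLn.le
    _ = 9 * S n := by ring

theorem S_large (k n : ℕ) (hJ : (3 * k) ^ 4 ≤ n) (hn : 1 ≤ n) : (k : ℝ) ^ 2 ≤ S n := by
  set M := Nat.sqrt (Nat.sqrt n) with hM
  have h3J : 3 * k ≤ M := by
    rw [hM, Nat.le_sqrt', Nat.le_sqrt', ← pow_mul]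
    exact hJ
  have hMM : M * M ≤ Nat.sqrt n := Nat.sqrt_le _
  have hMMR : (M : ℝ) * M ≤ 3 * S n := by
    have h1 : (M : ℝ) * M ≤ (Nat.sqrt n : ℝ) := by exact_mod_cast hMM
    exact h1.trans (sqrt_le_S n hn)
  have h1 : (3 : ℝ) * k ≤ M := by exact_mod_cast h3J
  have h2 : (0 : ℝ) ≤ k := Nat.cast_nonneg _
  nlinarith [mul_le_mul h1 h1 (by positivity) (by positivity : (0 : ℝ) ≤ M)]

end Pool.Agent.Helper224.Usm
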