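import Pool.Agent.Helper224.Usm9

set_option autoImplicit false
open Filter Topology

namespace Pool.Agent.Helper224.Usm

theorem T_infinite : ¬ FiniteDimensional ℝ T := by
  intro hfin
  have hli : LinearIndependent ℝ e := by
    rw [linearIndependent_iff']
    intro s g hg i hi
    have h1 := congrArg (fun y : T => y.val i) hg
    simp only [val_sum, Finset.sum_apply, T.val_smul, Pi.smul_apply, e_val, smul_eq_mul,
      T.val_zero, Pi.zero_apply] at h1
    rw [Finset.sum_eq_single_of_mem i hi] at h1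
    · simpa using h1
    · intro j _ hj
      rw [Pi.single_eq_of_ne (Ne.symm hj), mul_zero]
  exact Infinite.not_finite (α := ℕ) hli.finite

/-- doubling a coefficient sequence -/
def dbl (a : ℕ → ℝ) (l : ℕ) : ℝ := if l % 2 = 0 then a (l / 2) else - a (l / 2)

lemma sum_dbl {V : Type*} [AddCommGroup V] [Module ℝ V] (a : ℕ → ℝ) (f : ℕ → V) (k : ℕ) :
    ∑ l ∈ Finset.range (2 * k), dbl a l • f l =
      ∑ i ∈ Finset.range k, a i • (f (2 * i) - f (2 * i + 1)) := by
  induction k with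
  | zero => simp
  | succ k ih =>
    rw [show 2 * (k + 1) = 2 * k + 1 + 1 by ring, Finset.sum_range_succ, Finset.sum_range_succ, ih,
      Finset.sum_range_succ]
    have h1 : dbl a (2 * k) = a k := by
      unfold dbl
      rw [if_pos (by omega)]
      congr 1
      omega
    have h2 : dbl a (2 * k + 1) = - a k := by
      unfold dbl
      rw [if_neg (by omega)]
      congr 2
      omega
    rw [h1, h2, smul_sub, neg_smul, add_assoc, sub_eq_add_neg]

/-- coordinatewise convergent subsequences -/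
lemma exists_subseq (x : ℕ → T) (R : ℝ) (hx : ∀ n, ‖x n‖ ≤ R) :
    ∃ (v : ℕ → ℝ) (m : ℕ → ℕ), StrictMono m ∧
      ∀ p, Tendsto (fun j => (x (m j)).val p) atTop (𝓝 (v p)) := by
  have hK : IsCompact (Set.univ.pi fun _ : ℕ => Set.Icc (-R) R) :=
    isCompact_univ_pi fun _ => isCompact_Icc
  obtain ⟨v, -, m, hm, hv⟩ := hK.tendsto_subseq (x := fun n => (x n).val) (fun n p _ => by
    have := (abs_val_le (x n) p).trans (hx n)
    exact abs_le.1 this)
  refine ⟨v, m, hm, fun p => ?_⟩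
  exact (tendsto_pi_nhds.1 hv) p

variable {E : Type} [NormedAddCommGroup E] [NormedSpace ℝ E]

/-- `E` is generated as a spreading model -/
def Gen (x : ℕ → T) (d : ℕ → E) : Prop :=
  ∀ (k : ℕ) (a : Fin k → ℝ) (ε : ℝ), 0 < ε → ∃ N : ℕ, ∀ n : Fin k → ℕ,
    StrictMono n → (∀ i, N ≤ n i) → |‖∑ i : Fin k, a i • x (n i)‖ - ‖∑ i : Fin k, a i • d (i : ℕ)‖| < ε

/-- range version of the spreading property -/
lemma gen_range {x : ℕ → T} {d : ℕ → E} (h : Gen x d) (k : ℕ) (a : ℕ → ℝ) (ε : ℝ) (hε : 0 < ε) :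
    ∃ N : ℕ, ∀ n : ℕ → ℕ, StrictMonoOn n (Set.Iio k) → (∀ i < k, N ≤ n i) →
      |‖∑ i ∈ Finset.range k, a i • x (n i)‖ - ‖∑ i ∈ Finset.range k, a i • d i‖| < ε := by
  obtain ⟨N, hN⟩ := h k (fun i => a i) ε hε
  refine ⟨N, fun n hn hn' => ?_⟩
  rw [Finset.sum_range, Finset.sum_range]
  exact hN (fun i => n i) (fun i j hij => hn i.2 j.2 hij) (fun i => hn' i i.2)

/-- passing to differences along a subsequence -/
lemma gen_diff {x : ℕ → T} {f : ℕ → E} (h : Gen x f) (m : ℕ → ℕ) (hm : StrictMono m) :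
    Gen (fun j => x (m (2 * j)) - x (m (2 * j + 1))) (fun i => f (2 * i) - f (2 * i + 1)) := by
  intro k a ε hε
  obtain ⟨N, hN⟩ := gen_range h (2 * k) (dbl (ext0 a)) ε hε
  refine ⟨N, fun n hn hn' => ?_⟩
  let n' : ℕ → ℕ := fun l => if h : l / 2 < k then m (2 * n ⟨l / 2, h⟩ + l % 2) else 0
  have hn1 : StrictMonoOn n' (Set.Iio (2 * k)) := by
    intro l hl l' hl' hll
    rw [Set.mem_Iio] at hl hl'
    simp only [n']
    rw [dif_pos (by omega), dif_pos (by omega)]
    apply hm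
    rcases Nat.lt_or_ge (l / 2) (l' / 2) with h1 | h1
    · have h2 : n ⟨l / 2, by omega⟩ < n ⟨l' / 2, by omega⟩ := hn h1
      omega
    · have h2 : l / 2 = l' / 2 := by omega
      have h3 : n ⟨l / 2, by omega⟩ = n ⟨l' / 2, by omega⟩ := by
        congr 1
        exact Fin.ext h2
      omega
  have hn2 : ∀ l < 2 * k, N ≤ n' l := by
    intro l hl
    simp only [n']
    rw [dif_pos (by omega)]
    have h1 := hn' ⟨l / 2, by omega⟩
    have h2 := hm.id_le (2 * n ⟨l / 2, by omega⟩ + l % 2)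
    simp only [id] at h2
    omega
  have h1 := hN n' hn1 hn2
  rw [sum_dbl (ext0 a) (fun l => x (n' l)) k, sum_dbl (ext0 a) f k, Finset.sum_range,
    Finset.sum_range] at h1
  have h2 : ∀ i : Fin k, ext0 a i • (x (n' (2 * i)) - x (n' (2 * i + 1))) =
      a i • (x (m (2 * n i)) - x (m (2 * n i + 1))) := by
    intro i
    have hi := i.2
    rw [ext0_apply]
    congr 2
    · simp only [n']
      rw [dif_pos (by omega)]
      congr 2
      have : (⟨2 * (i:ℕ) / 2, by omega⟩ : Fin k) = i := Fin.ext (by simp)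
      rw [this]
      omega
    · simp only [n']
      rw [dif_pos (by omega)]
      congr 2
      have : (⟨(2 * (i:ℕ) + 1) / 2, by omega⟩ : Fin k) = i := Fin.ext (by
        show (2 * (i:ℕ) + 1) / 2 = i
        omega)
      rw [this]
      omega
  have h3 : ∀ i : Fin k, ext0 a i • (f (2 * (i:ℕ)) - f (2 * (i:ℕ) + 1)) =
      a i • (f (2 * (i:ℕ)) - f (2 * (i:ℕ) + 1)) := by
    intro i
    rw [ext0_apply]
  rw [Finset.sum_congr rfl (fun i _ => h2 i), Finset.sum_congr rfl (fun i _ => h3 i)] at h1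
  exact h1

/-- the key reduction -/
theorem upper_lower {w : ℕ → T} {d : ℕ → E} (h : Gen w d)
    (hc : ∀ p, Tendsto (fun n => (w n).val p) atTop (𝓝 0)) (hd : d 0 ≠ 0) :
    ∃ C c, 0 < c ∧ Upper d C ∧ Lower d c := by
  set ρ := ‖d 0‖ with hρdef
  have hρ : 0 < ρ := norm_pos_iff.2 hd
  have hlim : Tendsto (fun j => ‖w j‖) atTop (𝓝 ρ) := by
    rw [Metric.tendsto_atTop]
    intro ε hε
    obtain ⟨N, hN⟩ := h 1 (fun _ => 1) ε hε
    refine ⟨N, fun n hn => ?_⟩
    have := hN (fun _ => n) (Subsingleton.strictMono _) (fun _ => hn)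
    simpa [Real.dist_eq] using this
  obtain ⟨J, hJ⟩ := eventually_atTop.1 (hlim.eventually (lt_mem_nhds (half_lt_self hρ)))
  have hJ0 : ∀ j, 0 < ‖w (J + j)‖ := fun j =>
    lt_of_le_of_lt (by positivity) (hJ (J + j) (Nat.le_add_right _ _))
  let w' : ℕ → T := fun j => ‖w (J + j)‖⁻¹ • w (J + j)
  have hw' : ∀ j, ‖w' j‖ = 1 := by
    intro j
    simp only [w']
    rw [norm_smul, norm_inv, norm_norm, inv_mul_cancel₀ (hJ0 j).ne']
  have hwc' : ∀ p, Tendsto (fun n => (w' n).val p) atTop (𝓝 0) := by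
    intro p
    have h1 : Tendsto (fun j => ‖w (J + j)‖⁻¹) atTop (𝓝 ρ⁻¹) := by
      refine (hlim.comp ?_).inv₀ hρ.ne'
      exact tendsto_atTop_mono (fun n => Nat.le_add_left n J) tendsto_id
    have h2 : Tendsto (fun j => (w (J + j)).val p) atTop (𝓝 0) :=
      (hc p).comp (tendsto_atTop_mono (fun n => Nat.le_add_left n J) tendsto_id)
    have h3 := h1.mul h2
    rw [mul_zero] at h3
    exact h3
  have hspr : Spr w' (fun k a => ‖∑ i : Fin k, a i • d (i : ℕ)‖ / ρ) := by
    intro k a ε hε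
    obtain ⟨N, hN⟩ := h k a (ε * ρ / 2) (by positivity)
    have h1 : Tendsto (fun j => (∑ i, |a i|) * |1 - ‖w j‖ / ρ|) atTop
        (𝓝 ((∑ i, |a i|) * |1 - ρ / ρ|)) :=
      ((tendsto_const_nhds.sub (hlim.div_const ρ)).abs).const_mul _
    rw [div_self hρ.ne', sub_self, abs_zero, mul_zero] at h1
    have h1' : Tendsto (fun j => |1 - ‖w j‖ / ρ|) atTop (𝓝 0) := by
      have := (tendsto_const_nhds (x := (1:ℝ)) (f := atTop)).sub (hlim.div_const ρ)
      rw [div_self hρ.ne', sub_self] at this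
      simpa using this.abs
    obtain ⟨N', hN'⟩ := eventually_atTop.1 (h1'.eventually (gt_mem_nhds
      (by positivity : (0:ℝ) < ε / 2 / (∑ i, |a i| + 1))))
    refine ⟨max N N', fun n hn hn' => ?_⟩
    have h2 := hN (fun i => J + n i) (fun i j hij => Nat.add_lt_add_left (hn hij) J)
      (fun i => ((le_max_left _ _).trans (hn' i)).trans (Nat.le_add_left _ _))
    have hA : 0 ≤ ∑ i, |a i| := Finset.sum_nonneg fun _ _ => abs_nonneg _
    have h3 : ‖∑ i, a i • w' (n i) - ρ⁻¹ • ∑ i, a i • w (J + n i)‖ ≤ ε / 2 := by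
      rw [Finset.smul_sum, ← Finset.sum_sub_distrib]
      calc ‖∑ i, (a i • w' (n i) - ρ⁻¹ • a i • w (J + n i))‖
          ≤ ∑ i, ‖a i • w' (n i) - ρ⁻¹ • a i • w (J + n i)‖ := norm_sum_le _ _
        _ ≤ ∑ i, |a i| * (ε / 2 / (∑ i, |a i| + 1)) := by
            refine Finset.sum_le_sum fun i _ => ?_
            have h4 : a i • w' (n i) - ρ⁻¹ • a i • w (J + n i) =
                (a i * (‖w (J + n i)‖⁻¹ - ρ⁻¹)) • w (J + n i) := by
              simp only [w']
              rw [smul_smul, smul_smul, ← sub_smul]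
              congr 1
              ring
            rw [h4, norm_smul, Real.norm_eq_abs, abs_mul, mul_assoc]
            refine mul_le_mul_of_nonneg_left ?_ (abs_nonneg _)
            have h5 : |‖w (J + n i)‖⁻¹ - ρ⁻¹| * ‖w (J + n i)‖ = |1 - ‖w (J + n i)‖ / ρ| := by
              have h6 := hJ0 (n i)
              rw [← abs_of_pos h6, ← abs_mul, abs_of_pos h6]
              congr 1
              field_simp
            rw [h5]
            exact (hN' (J + n i) (((le_max_right _ _).trans (hn' i)).trans (Nat.le_add_left _ _))).le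
        _ = (∑ i, |a i|) * (ε / 2 / (∑ i, |a i| + 1)) := by rw [← Finset.sum_mul]
        _ ≤ (∑ i, |a i| + 1) * (ε / 2 / (∑ i, |a i| + 1)) := by
            gcongr
            linarith
        _ = ε / 2 := by field_simp
    have h4 : |‖∑ i, a i • w' (n i)‖ - ‖ρ⁻¹ • ∑ i, a i • w (J + n i)‖| ≤ ε / 2 :=
      (abs_norm_sub_norm_le _ _).trans h3
    have h5 : ‖ρ⁻¹ • ∑ i, a i • w (J + n i)‖ = ‖∑ i, a i • w (J + n i)‖ / ρ := by
      rw [norm_smul, norm_inv, Real.norm_of_nonneg hρ.le, inv_mul_eq_div]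
    have h6 : |‖∑ i, a i • w (J + n i)‖ / ρ - ‖∑ i : Fin k, a i • d (i : ℕ)‖ / ρ| < ε / 2 := by
      rw [← sub_div, abs_div, abs_of_pos hρ, div_lt_iff₀ hρ]
      calc _ < ε * ρ / 2 := h2
        _ = ε / 2 * ρ := by ring
    rw [h5] at h4
    have h7 := abs_sub_le ‖∑ i, a i • w' (n i)‖ (‖∑ i, a i • w (J + n i)‖ / ρ)
      (‖∑ i : Fin k, a i • d (i : ℕ)‖ / ρ)
    linarith
  obtain ⟨c', hc', hlow⟩ := spr_lower hw' hwc' hspr
  refine ⟨440 * ρ, c' * ρ, by positivity, ?_, ?_⟩
  · intro k a B hB0 hB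
    have h1 := spr_upper hw' hwc' hspr k (fun i => a i) B hB0 (by
      intro F
      have h2 := hB (F.map Fin.valEmbedding) (by
        intro j hj
        rw [Finset.mem_map] at hj
        obtain ⟨i, _, rfl⟩ := hj
        exact Finset.mem_range.2 i.2)
      rw [Finset.card_map, Finset.sum_map] at h2
      exact h2)
    rw [div_le_iff₀ hρ] at h1
    rw [Finset.sum_range]
    linarith
  · intro k a F hF
    obtain ⟨F', rfl⟩ := exists_map F hF
    have h1 := hlow k (fun i => a i) F'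
    rw [Finset.card_map, Finset.sum_map, Finset.sum_range]
    rw [mul_div_assoc', le_div_iff₀ hρ] at h1
    simp only [Fin.valEmbedding_apply]
    linarith

theorem main_gen {x : ℕ → T} {f : ℕ → E} (h : Gen x f) (hf : LinearIndependent ℝ f) :
    ∃ (d : ℕ → E) (C c : ℝ), 0 < c ∧ Upper d C ∧ Lower d c := by
  obtain ⟨N₀, hN₀⟩ := h 1 (fun _ => 1) 1 one_pos
  have hbd : ∀ n, ‖x (N₀ + n)‖ ≤ ‖f 0‖ + 1 := by
    intro n
    have h1 := hN₀ (fun _ => N₀ + n) (Subsingleton.strictMono _) (fun _ => Nat.le_add_right _ _)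
    simp only [Finset.univ_unique, Fin.default_eq_zero, one_smul, Finset.sum_singleton,
      Fin.val_zero] at h1
    have := (abs_lt.1 h1).2
    linarith
  obtain ⟨v, m, hm, hv⟩ := exists_subseq (fun n => x (N₀ + n)) _ hbd
  have hgen := gen_diff h (fun j => N₀ + m j) (fun i j hij => Nat.add_lt_add_left (hm hij) N₀)
  have hc : ∀ p, Tendsto (fun j => (x (N₀ + m (2 * j)) - x (N₀ + m (2 * j + 1))).val p) atTop
      (𝓝 0) := by
    intro p
    have h1 : Tendsto (fun j => (x (N₀ + m (2 * j))).val p) atTop (𝓝 (v p)) :=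
      (hv p).comp (tendsto_atTop_mono (fun n => by omega : ∀ n, n ≤ 2 * n) tendsto_id)
    have h2 : Tendsto (fun j => (x (N₀ + m (2 * j + 1))).val p) atTop (𝓝 (v p)) :=
      (hv p).comp (tendsto_atTop_mono (fun n => by omega : ∀ n, n ≤ 2 * n + 1) tendsto_id)
    have h3 := h1.sub h2
    rw [sub_self] at h3
    exact h3
  have hd : f (2 * 0) - f (2 * 0 + 1) ≠ 0 := by
    intro h0
    rw [sub_eq_zero] at h0
    have := hf.injective h0
    omega
  obtain ⟨C, c, hc', hU, hL⟩ := upper_lower hgen hc hd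
  exact ⟨_, C, c, hc', hU, hL⟩

end Pool.Agent.Helper224.Usm
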