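import Pool.Agent.Helper224.Usm1

set_option autoImplicit false
open Filter Topology

namespace Pool.Agent.Helper224.Usm

lemma S_zero : S 0 = 0 := by simp [S]

lemma S_one : S 1 = 1 := by simp [S, L]

lemma S_two : S 2 = 1 := by
  have : Nat.log 2 2 = 1 := by decide
  simp [S, L]
  norm_num

lemma one_le_S {n : ℕ} (hn : 1 ≤ n) : 1 ≤ S n := by
  unfold S
  rw [le_div_iff₀ (L_pos n), one_mul]
  unfold L
  have h1 : Nat.log 2 n + 1 ≤ n := by
    have := Nat.log_lt_self 2 (by omega : n ≠ 0)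
    omega
  have : ((Nat.log 2 n + 1 : ℕ) : ℝ) ≤ n := by exact_mod_cast h1
  push_cast at this
  linarith

lemma S_pos {n : ℕ} (hn : 1 ≤ n) : 0 < S n := lt_of_lt_of_le one_pos (one_le_S hn)

lemma L_mul_S (n : ℕ) : L n * S n = n := by
  unfold S
  rw [mul_div_cancel₀ _ (L_pos n).ne']

/-- the norming set; the first parameter is the *size* of the functional. -/
inductive IsW : ℕ → (ℕ →₀ ℝ) → Prop
  | leaf (n : ℕ) (hn : 1 ≤ n) (i : ℕ) (s : ℝ) (hs : |s| ≤ 1) : IsW n (Finsupp.single i s)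
  | node (n : ℕ) (hn : 1 ≤ n) (E : Finset ℕ) (hE : E.card ≤ n) (m : ℕ → ℕ) (g : ℕ → (ℕ →₀ ℝ))
      (hg : ∀ i ∈ E, IsW (m i) (g i))
      (hs : ∀ i ∈ E, ∀ j ∈ E, i < j → ∀ p ∈ (g i).support, ∀ q ∈ (g j).support, p < q)
      (hm : ∀ i ∈ E, ∀ j ∈ E, i < j → ∀ p ∈ (g i).support, p < m j) :
      IsW n ((1 / (2 * S n) : ℝ) • ∑ i ∈ E, g i)

lemma IsW.zero (n : ℕ) (hn : 1 ≤ n) : IsW n 0 := by
  have := IsW.node n hn ∅ (by simp) (fun _ => 0) (fun _ => 0) (by simp) (by simp) (by simp)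
  simpa using this

lemma IsW.one_le {n : ℕ} {f : ℕ →₀ ℝ} (hf : IsW n f) : 1 ≤ n := by
  cases hf <;> assumption

open Classical in
lemma IsW.filter {n : ℕ} {f : ℕ →₀ ℝ} (hf : IsW n f) (A : Set ℕ) : IsW n (f.filter (· ∈ A)) := by
  induction hf with
  | leaf n hn i s hs =>
    by_cases h : i ∈ A
    · rw [Finsupp.filter_single_of_pos (· ∈ A) h]; exact IsW.leaf n hn i s hs
    · rw [Finsupp.filter_single_of_neg (· ∈ A) h]; exact IsW.zero n hn
  | node n hn E hE m g hg hs hm ih =>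
    rw [Finsupp.filter_smul, Finsupp.filter_sum]
    refine IsW.node n hn E hE m (fun i => (g i).filter (· ∈ A)) ih ?_ ?_
    · intro i hi j hj hij p hp q hq
      rw [Finsupp.support_filter, Finset.mem_filter] at hp hq
      exact hs i hi j hj hij p hp.1 q hq.1
    · intro i hi j hj hij p hp
      rw [Finsupp.support_filter, Finset.mem_filter] at hp
      exact hm i hi j hj hij p hp.1

lemma IsW.neg {n : ℕ} {f : ℕ →₀ ℝ} (hf : IsW n f) : IsW n (-f) := by
  induction hf with
  | leaf n hn i s hs => rw [← Finsupp.single_neg]; exact IsW.leaf n hn i (-s) (by rwa [abs_neg])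
  | node n hn E hE m g hg hs hm ih =>
    rw [← smul_neg, ← Finset.sum_neg_distrib]
    refine IsW.node n hn E hE m (fun i => -(g i)) ih ?_ ?_
    · intro i hi j hj hij p hp q hq
      rw [Finsupp.support_neg] at hp hq
      exact hs i hi j hj hij p hp q hq
    · intro i hi j hj hij p hp
      rw [Finsupp.support_neg] at hp
      exact hm i hi j hj hij p hp

open Classical in
/-- functionals can be pushed to the left -/
lemma IsW.push {n : ℕ} {f : ℕ →₀ ℝ} (hf : IsW n f) (A : Set ℕ) (ψ : ℕ → ℕ)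
    (h1 : ∀ p ∈ A, ψ p ≤ p) (h2 : ∀ p ∈ A, ∀ q ∈ A, p < q → ψ p < ψ q) :
    IsW n ((f.filter (· ∈ A)).mapDomain ψ) := by
  induction hf with
  | leaf n hn i s hs =>
    by_cases h : i ∈ A
    · rw [Finsupp.filter_single_of_pos (· ∈ A) h, Finsupp.mapDomain_single]
      exact IsW.leaf n hn _ s hs
    · rw [Finsupp.filter_single_of_neg (· ∈ A) h, Finsupp.mapDomain_zero]; exact IsW.zero n hn
  | node n hn E hE m g hg hs hm ih =>
    rw [Finsupp.filter_smul, Finsupp.filter_sum, Finsupp.mapDomain_smul, Finsupp.mapDomain_finsetSum]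
    refine IsW.node n hn E hE m (fun i => ((g i).filter (· ∈ A)).mapDomain ψ) ih ?_ ?_
    · intro i hi j hj hij p hp q hq
      have hp' := Finsupp.mapDomain_support hp
      have hq' := Finsupp.mapDomain_support hq
      rw [Finset.mem_image] at hp' hq'
      obtain ⟨p', hp', rfl⟩ := hp'
      obtain ⟨q', hq', rfl⟩ := hq'
      rw [Finsupp.support_filter, Finset.mem_filter] at hp' hq'
      exact h2 _ hp'.2 _ hq'.2 (hs i hi j hj hij p' hp'.1 q' hq'.1)
    · intro i hi j hj hij p hp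
      have hp' := Finsupp.mapDomain_support hp
      rw [Finset.mem_image] at hp'
      obtain ⟨p', hp', rfl⟩ := hp'
      rw [Finsupp.support_filter, Finset.mem_filter] at hp'
      exact lt_of_le_of_lt (h1 _ hp'.2) (hm i hi j hj hij p' hp'.1)

lemma IsW.abs_apply_le {n : ℕ} {f : ℕ →₀ ℝ} (hf : IsW n f) (p : ℕ) : |f p| ≤ 1 := by
  induction hf with
  | leaf n hn i s hs =>
    rw [Finsupp.single_apply]
    split_ifs
    · exact hs
    · simp
  | node n hn E hE m g hg hs hm ih =>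
    rw [Finsupp.smul_apply, Finsupp.finsetSum_apply, smul_eq_mul, abs_mul]
    have h1 := one_le_S hn
    have h2 : |1 / (2 * S n)| ≤ 1 := by
      rw [abs_of_pos (by positivity), div_le_one (by positivity)]
      linarith
    have h3 : |∑ i ∈ E, (g i) p| ≤ 1 := by
      by_cases h : ∃ i ∈ E, g i p ≠ 0
      · obtain ⟨i, hi, hin⟩ := h
        rw [Finset.sum_eq_single_of_mem i hi]
        · exact ih i hi
        · intro j hj hji
          by_contra hjn
          rcases lt_or_gt_of_ne hji with hlt | hlt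
          · exact lt_irrefl p (hs j hj i hi hlt p (Finsupp.mem_support_iff.2 hjn) p
              (Finsupp.mem_support_iff.2 hin))
          · exact lt_irrefl p (hs i hi j hj hlt p (Finsupp.mem_support_iff.2 hin) p
              (Finsupp.mem_support_iff.2 hjn))
      · push Not at h
        rw [Finset.sum_eq_zero h]
        norm_num
    exact mul_le_one₀ h2 (abs_nonneg _) h3

/-- the duality pairing -/
noncomputable def pair (f : ℕ →₀ ℝ) (x : ℕ → ℝ) : ℝ := Finsupp.linearCombination ℝ x f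

lemma pair_eq_sum (f : ℕ →₀ ℝ) (x : ℕ → ℝ) : pair f x = ∑ n ∈ f.support, f n * x n := by
  rw [pair, Finsupp.linearCombination_apply, Finsupp.sum]
  rfl

lemma pair_add_left (f g : ℕ →₀ ℝ) (x : ℕ → ℝ) : pair (f + g) x = pair f x + pair g x :=
  map_add _ _ _

lemma pair_smul_left (c : ℝ) (f : ℕ →₀ ℝ) (x : ℕ → ℝ) : pair (c • f) x = c * pair f x :=
  map_smul _ _ _

lemma pair_neg_left (f : ℕ →₀ ℝ) (x : ℕ → ℝ) : pair (-f) x = - pair f x :=
  map_neg _ _

lemma pair_sum_left {ι : Type*} (E : Finset ι) (g : ι → (ℕ →₀ ℝ)) (x : ℕ → ℝ) :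
    pair (∑ i ∈ E, g i) x = ∑ i ∈ E, pair (g i) x :=
  map_sum _ _ _

lemma pair_zero_left (x : ℕ → ℝ) : pair 0 x = 0 := map_zero _

lemma pair_single_left (n : ℕ) (s : ℝ) (x : ℕ → ℝ) : pair (Finsupp.single n s) x = s * x n := by
  rw [pair, Finsupp.linearCombination_single, smul_eq_mul]

lemma pair_add_right (f : ℕ →₀ ℝ) (x y : ℕ → ℝ) : pair f (x + y) = pair f x + pair f y := by
  simp only [pair_eq_sum, Pi.add_apply, mul_add, Finset.sum_add_distrib]

lemma pair_smul_right (f : ℕ →₀ ℝ) (c : ℝ) (x : ℕ → ℝ) : pair f (c • x) = c * pair f x := by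
  simp only [pair_eq_sum, Pi.smul_apply, smul_eq_mul, Finset.mul_sum]
  refine Finset.sum_congr rfl fun n _ => by ring

lemma pair_zero_right (f : ℕ →₀ ℝ) : pair f 0 = 0 := by
  simp [pair_eq_sum]

lemma pair_mapDomain (f : ℕ →₀ ℝ) (ψ : ℕ → ℕ) (x : ℕ → ℝ) :
    pair (f.mapDomain ψ) x = pair f (x ∘ ψ) := by
  rw [pair, Finsupp.linearCombination_mapDomain]
  rfl

open Classical in
lemma pair_indicator (f : ℕ →₀ ℝ) (A : Set ℕ) (x : ℕ → ℝ) :
    pair f (A.indicator x) = pair (f.filter (· ∈ A)) x := by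
  rw [pair_eq_sum, pair_eq_sum, Finsupp.support_filter, Finset.sum_filter]
  refine Finset.sum_congr rfl fun n _ => ?_
  by_cases h : n ∈ A
  · rw [if_pos h, Set.indicator_of_mem h, Finsupp.filter_apply_pos (p := (· ∈ A)) _ h]
  · rw [if_neg h, Set.indicator_of_notMem h, mul_zero]

lemma pair_eq_zero_of_disjoint (f : ℕ →₀ ℝ) (x : ℕ → ℝ) (h : ∀ n ∈ f.support, x n = 0) :
    pair f x = 0 := by
  rw [pair_eq_sum]
  exact Finset.sum_eq_zero fun n hn => by rw [h n hn, mul_zero]

/-- The underlying vector space. -/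
def TT : Submodule ℝ (ℕ → ℝ) where
  carrier := {x | ∃ C, ∀ n f, IsW n f → |pair f x| ≤ C}
  add_mem' := by
    rintro x y ⟨C, hC⟩ ⟨D, hD⟩
    refine ⟨C + D, fun n f hf => ?_⟩
    rw [pair_add_right]
    exact (abs_add_le _ _).trans (add_le_add (hC n f hf) (hD n f hf))
  zero_mem' := ⟨0, fun n f _ => by rw [pair_zero_right, abs_zero]⟩
  smul_mem' := by
    rintro c x ⟨C, hC⟩
    refine ⟨|c| * C, fun n f hf => ?_⟩
    rw [pair_smul_right, abs_mul]
    exact mul_le_mul_of_nonneg_left (hC n f hf) (abs_nonneg _)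

/-- The space. -/
def T : Type := TT

noncomputable instance : AddCommGroup T := inferInstanceAs (AddCommGroup TT)
noncomputable instance : Module ℝ T := inferInstanceAs (Module ℝ TT)

/-- the underlying sequence -/
def T.val (x : T) : ℕ → ℝ := Subtype.val (p := fun x => x ∈ TT) x

/-- constructor -/
def T.mk (x : ℕ → ℝ) (h : ∃ C, ∀ n f, IsW n f → |pair f x| ≤ C) : T := (⟨x, h⟩ : TT)

@[simp] lemma T.mk_val (x : ℕ → ℝ) (h : ∃ C, ∀ n f, IsW n f → |pair f x| ≤ C) :
    (T.mk x h).val = x := rfl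

lemma T.ext {x y : T} (h : x.val = y.val) : x = y := Subtype.ext h

lemma T.prop (x : T) : ∃ C, ∀ n f, IsW n f → |pair f x.val| ≤ C :=
  Subtype.property (p := fun x => x ∈ TT) x

@[simp] lemma T.val_add (x y : T) : (x + y).val = x.val + y.val := rfl
@[simp] lemma T.val_sub (x y : T) : (x - y).val = x.val - y.val := rfl
@[simp] lemma T.val_neg (x : T) : (-x).val = -x.val := rfl
@[simp] lemma T.val_zero : (0 : T).val = 0 := rfl
@[simp] lemma T.val_smul (c : ℝ) (x : T) : (c • x).val = c • x.val := rfl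

/-- the index set -/
def KK : Set (ℕ →₀ ℝ) := {f | ∃ n, IsW n f}

lemma KK_single (i : ℕ) : Finsupp.single i (1:ℝ) ∈ KK := ⟨1, IsW.leaf 1 le_rfl i 1 (by simp)⟩

/-- embedding in `ℓ^∞` -/
noncomputable def emb : T →ₗ[ℝ] lp (fun _ : KK => ℝ) ⊤ where
  toFun x := ⟨fun f => pair f.1 x.val, by
    obtain ⟨C, hC⟩ := x.prop
    refine memℓp_infty ⟨C, ?_⟩
    rintro _ ⟨f, rfl⟩
    obtain ⟨n, hn⟩ := f.2
    exact hC n f.1 hn⟩
  map_add' x y := by
    ext f
    exact pair_add_right _ _ _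
  map_smul' c x := by
    ext f
    exact pair_smul_right _ _ _

lemma emb_apply (x : T) (f : KK) : (emb x : KK → ℝ) f = pair f.1 x.val := rfl

lemma emb_injective : Function.Injective emb := by
  intro x y hxy
  apply T.ext
  ext n
  have h1 : pair (Finsupp.single n 1) x.val = pair (Finsupp.single n 1) y.val :=
    congrFun (congrArg (fun z : lp (fun _ : KK => ℝ) ⊤ => (z : KK → ℝ)) hxy)
      ⟨Finsupp.single n 1, KK_single n⟩
  rwa [pair_single_left, pair_single_left, one_mul, one_mul] at h1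

noncomputable instance : NormedAddCommGroup T := NormedAddCommGroup.induced T _ emb emb_injective
noncomputable instance : NormedSpace ℝ T := NormedSpace.induced ℝ T _ emb

lemma norm_def (x : T) : ‖x‖ = ‖emb x‖ := rfl

lemma pair_le_norm (x : T) {n : ℕ} {f : ℕ →₀ ℝ} (hf : IsW n f) : |pair f x.val| ≤ ‖x‖ := by
  have := lp.norm_apply_le_norm (ENNReal.top_ne_zero) (emb x) ⟨f, n, hf⟩
  rw [norm_def]
  exact this

lemma norm_le {x : T} {C : ℝ} (hC : 0 ≤ C) (h : ∀ n f, IsW n f → |pair f x.val| ≤ C) : ‖x‖ ≤ C := by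
  rw [norm_def]
  refine lp.norm_le_of_forall_le hC fun f => ?_
  obtain ⟨n, hn⟩ := f.2
  exact h n f.1 hn

lemma exists_pair_gt {x : T} {r : ℝ} (hr : 0 ≤ r) (h : r < ‖x‖) :
    ∃ n f, IsW n f ∧ r < |pair f x.val| := by
  by_contra hne
  push Not at hne
  exact absurd (norm_le hr hne) (not_le.2 h)

lemma exists_pair_gt' {x : T} {r : ℝ} (h : r < ‖x‖) :
    ∃ n f, IsW n f ∧ r < pair f x.val := by
  by_cases hr : 0 ≤ r
  · obtain ⟨n, f, hf, hlt⟩ := exists_pair_gt hr h
    rcases le_total 0 (pair f x.val) with h0 | h0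
    · exact ⟨n, f, hf, by rwa [abs_of_nonneg h0] at hlt⟩
    · refine ⟨n, -f, hf.neg, ?_⟩
      rw [pair_neg_left]
      rwa [abs_of_nonpos h0] at hlt
  · exact ⟨1, 0, IsW.zero 1 le_rfl, by rw [pair_zero_left]; linarith⟩

lemma isometry_emb : Isometry (emb : T → lp (fun _ : KK => ℝ) ⊤) :=
  AddMonoidHomClass.isometry_of_norm emb fun _ => rfl

instance : CompleteSpace T := by
  rw [completeSpace_iff_isComplete_range isometry_emb.isUniformInducing]
  apply IsClosed.isComplete
  have hcoord : ∀ h : KK, Continuous (fun y : lp (fun _ : KK => ℝ) ⊤ => (y : KK → ℝ) h) := by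
    intro h
    exact (lp.evalCLM ℝ (fun _ : KK => ℝ) h (p := ⊤)).continuous
  have hrange : Set.range (emb : T → lp (fun _ : KK => ℝ) ⊤) =
      ⋂ h : KK, {y : lp (fun _ : KK => ℝ) ⊤ | (y : KK → ℝ) h = ∑ s ∈ h.1.support, h.1 s *
        (y : KK → ℝ) ⟨Finsupp.single s 1, KK_single s⟩} := by
    ext y
    simp only [Set.mem_range, Set.mem_iInter, Set.mem_ofPred_eq]
    constructor
    · rintro ⟨x, rfl⟩ h
      have h1 : ∀ s : ℕ, (emb x : KK → ℝ) ⟨Finsupp.single s 1, KK_single s⟩ = x.val s := by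
        intro s
        show pair (Finsupp.single s 1) x.val = x.val s
        rw [pair_single_left, one_mul]
      simp only [h1]
      exact pair_eq_sum _ _
    · intro hy
      let x : ℕ → ℝ := fun s => (y : KK → ℝ) ⟨Finsupp.single s 1, KK_single s⟩
      have hx : ∀ h : KK, pair h.1 x = (y : KK → ℝ) h := by
        intro h
        rw [hy h]
        exact pair_eq_sum _ _
      refine ⟨T.mk x ⟨‖y‖, fun n f hf => ?_⟩, ?_⟩
      · rw [hx ⟨f, n, hf⟩]
        exact lp.norm_apply_le_norm (ENNReal.top_ne_zero) y ⟨f, n, hf⟩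
      · ext h
        exact hx h
  rw [hrange]
  refine isClosed_iInter fun h => isClosed_eq (hcoord h) ?_
  exact continuous_finsetSum _ fun s _ => (hcoord _).const_mul _

end Pool.Agent.Helper224.Usm
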