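import Pool.Agent.Helper224.Usm2

set_option autoImplicit false
open Filter Topology

namespace Pool.Agent.Helper224.Usm

/-- restriction of a vector to a set of coordinates -/
noncomputable def restr (A : Set ℕ) (x : T) : T :=
  T.mk (A.indicator x.val) (by
    classical
    obtain ⟨C, hC⟩ := x.prop
    refine ⟨C, fun n f hf => ?_⟩
    rw [pair_indicator]
    exact hC n _ (hf.filter A))

@[simp] lemma restr_val (A : Set ℕ) (x : T) : (restr A x).val = A.indicator x.val := rfl

lemma norm_restr_le (A : Set ℕ) (x : T) : ‖restr A x‖ ≤ ‖x‖ := by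
  classical
  refine norm_le (norm_nonneg _) fun n f hf => ?_
  rw [restr_val, pair_indicator]
  exact pair_le_norm x (hf.filter A)

/-- the coordinate projections -/
noncomputable def P (A : Set ℕ) : T →L[ℝ] T :=
  LinearMap.mkContinuous
    { toFun := restr A
      map_add' := fun x y => T.ext (by
        simp only [restr_val, T.val_add]
        exact Set.indicator_add A _ _)
      map_smul' := fun c x => T.ext (by
        simp only [restr_val, T.val_smul, RingHom.id_apply]
        exact Set.indicator_const_smul A c _) } 1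
    (fun x => by rw [one_mul]; exact norm_restr_le A x)

@[simp] lemma P_val (A : Set ℕ) (x : T) : (P A x).val = A.indicator x.val := rfl

lemma norm_P_le (A : Set ℕ) (x : T) : ‖P A x‖ ≤ ‖x‖ := norm_restr_le A x

lemma P_norm_le_one (A : Set ℕ) : ‖P A‖ ≤ 1 :=
  ContinuousLinearMap.opNorm_le_bound _ zero_le_one fun x => by
    rw [one_mul]; exact norm_P_le A x

lemma P_P (A B : Set ℕ) (x : T) : P A (P B x) = P (A ∩ B) x := by
  apply T.ext
  simp [Set.indicator_indicator]

lemma P_add_compl (A : Set ℕ) (x : T) : P A x + P Aᶜ x = x := by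
  apply T.ext
  simp [Set.indicator_self_add_compl]

/-- evaluation at a norming functional -/
noncomputable def ev {n : ℕ} (f : ℕ →₀ ℝ) (hf : IsW n f) : T →L[ℝ] ℝ :=
  LinearMap.mkContinuous
    { toFun := fun x => pair f x.val
      map_add' := fun x y => pair_add_right _ _ _
      map_smul' := fun c x => pair_smul_right _ _ _ } 1
    (fun x => by rw [one_mul, Real.norm_eq_abs]; exact pair_le_norm x hf)

@[simp] lemma ev_apply {n : ℕ} (f : ℕ →₀ ℝ) (hf : IsW n f) (x : T) : ev f hf x = pair f x.val := rfl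

lemma norm_ev_le {n : ℕ} (f : ℕ →₀ ℝ) (hf : IsW n f) : ‖ev f hf‖ ≤ 1 :=
  LinearMap.mkContinuous_norm_le _ zero_le_one _

lemma abs_val_le (x : T) (n : ℕ) : |x.val n| ≤ ‖x‖ := by
  have := pair_le_norm x (IsW.leaf 1 le_rfl n 1 (by simp))
  rwa [pair_single_left, one_mul] at this

lemma pair_piSingle (f : ℕ →₀ ℝ) (n : ℕ) : pair f (Pi.single n 1) = f n := by
  rw [pair_eq_sum]
  by_cases h : n ∈ f.support
  · rw [Finset.sum_eq_single_of_mem n h]
    · simp
    · intro m _ hm
      rw [Pi.single_eq_of_ne hm, mul_zero]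
  · rw [Finsupp.notMem_support_iff.1 h]
    refine Finset.sum_eq_zero fun m hm => ?_
    rw [Pi.single_eq_of_ne (by rintro rfl; exact h hm), mul_zero]

/-- the unit vectors -/
noncomputable def e (n : ℕ) : T :=
  T.mk (Pi.single n 1) (by
    refine ⟨1, fun m f hf => ?_⟩
    rw [pair_piSingle]
    exact hf.abs_apply_le n)

@[simp] lemma e_val (n : ℕ) : (e n).val = Pi.single n 1 := rfl

lemma norm_e (n : ℕ) : ‖e n‖ = 1 := by
  apply le_antisymm
  · refine norm_le zero_le_one fun m f hf => ?_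
    rw [e_val, pair_piSingle]
    exact hf.abs_apply_le n
  · have := abs_val_le (e n) n
    simpa using this

lemma val_sum {ι : Type*} (E : Finset ι) (g : ι → T) :
    (∑ i ∈ E, g i).val = ∑ i ∈ E, (g i).val := by
  classical
  induction E using Finset.induction_on with
  | empty => simp
  | insert a s ha ih => rw [Finset.sum_insert ha, Finset.sum_insert ha, T.val_add, ih]

lemma P_lt_eq (N : ℕ) (x : T) : P {n | n < N} x = ∑ i ∈ Finset.range N, x.val i • e i := by
  apply T.ext
  rw [P_val, val_sum]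
  ext n
  simp only [T.val_smul, e_val, Finset.sum_apply, Pi.smul_apply, smul_eq_mul]
  by_cases h : n < N
  · rw [Set.indicator_of_mem (by exact h), Finset.sum_eq_single_of_mem n (Finset.mem_range.2 h)]
    · simp
    · intro m _ hm
      rw [Pi.single_eq_of_ne (Ne.symm hm), mul_zero]
  · rw [Set.indicator_of_notMem (by exact h)]
    symm
    refine Finset.sum_eq_zero fun m hm => ?_
    rw [Pi.single_eq_of_ne, mul_zero]
    rintro rfl
    exact h (Finset.mem_range.1 hm)

lemma pair_le_norm_P (x : T) (A : Set ℕ) {n : ℕ} {g : ℕ →₀ ℝ} (hg : IsW n g)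
    (h : ∀ p ∈ g.support, p ∈ A) : |pair g x.val| ≤ ‖P A x‖ := by
  have h1 : pair g x.val = pair g (P A x).val := by
    rw [pair_eq_sum, pair_eq_sum]
    refine Finset.sum_congr rfl fun n hn => ?_
    rw [P_val, Set.indicator_of_mem (h n hn)]
  rw [h1]
  exact pair_le_norm _ hg

lemma norm_P_anti (x : T) {A B : Set ℕ} (h : A ⊆ B) : ‖P A x‖ ≤ ‖P B x‖ := by
  have : P A x = P A (P B x) := by
    rw [P_P, Set.inter_eq_left.2 h]
  rw [this]
  exact norm_P_le _ _

/-- projection on the coordinates `≥ N` -/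
noncomputable abbrev Q (N : ℕ) : T →L[ℝ] T := P {n | N ≤ n}

lemma Q_sub (x : T) {N M : ℕ} (h : N ≤ M) : P (Set.Ico N M) x = Q N x - Q M x := by
  apply T.ext
  ext n
  simp only [T.val_sub, P_val, Pi.sub_apply, Set.indicator, Set.mem_Ico, Set.mem_ofPred_eq]
  by_cases h1 : N ≤ n <;> by_cases h2 : M ≤ n
  · rw [if_neg (by omega), if_pos h1, if_pos h2, sub_self]
  · rw [if_pos (by omega), if_pos h1, if_neg h2, sub_zero]
  · omega
  · rw [if_neg (by omega), if_neg h1, if_neg h2, sub_self]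

lemma P_lt_add_Q (N : ℕ) (x : T) : P {n | n < N} x + Q N x = x := by
  have : {n : ℕ | N ≤ n} = {n | n < N}ᶜ := by
    ext n
    simp
  rw [Q, this]
  exact P_add_compl _ _

/-- `g` meets the `j`-th interval -/
def Meet (a : ℕ → ℕ) (g : ℕ →₀ ℝ) (j : ℕ) : Prop := ∃ p ∈ g.support, a j ≤ p ∧ p < a (j+1)

/-- at most two multi-children meet a given interval -/
lemma card_multi (a : ℕ → ℕ) (ha : Monotone a) (E : Finset ℕ) (g : ℕ → (ℕ →₀ ℝ))
    (hs : ∀ i ∈ E, ∀ j ∈ E, i < j → ∀ p ∈ (g i).support, ∀ q ∈ (g j).support, p < q)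
    (j : ℕ) (F : Finset ℕ) (hF : ∀ i ∈ F, i ∈ E ∧ Meet a (g i) j ∧ ∃ j', j' ≠ j ∧ Meet a (g i) j') :
    F.card ≤ 2 := by
  rcases F.eq_empty_or_nonempty with rfl | hne
  · simp
  have hsub : F ⊆ {F.min' hne, F.max' hne} := by
    intro i hi
    rw [Finset.mem_insert, Finset.mem_singleton]
    by_contra hcon
    push Not at hcon
    obtain ⟨hc1, hc2⟩ := hcon
    have h1 : F.min' hne < i := lt_of_le_of_ne (Finset.min'_le _ _ hi) (Ne.symm hc1)
    have h2 : i < F.max' hne := lt_of_le_of_ne (Finset.le_max' _ _ hi) hc2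
    obtain ⟨hiE, ⟨p, hp, hp1, hp2⟩, j', hj', q, hq, hq1, hq2⟩ := hF i hi
    obtain ⟨hE1, ⟨p1, hp1', hp11, hp12⟩, -⟩ := hF _ (F.min'_mem hne)
    obtain ⟨hE2, ⟨p2, hp2', hp21, hp22⟩, -⟩ := hF _ (F.max'_mem hne)
    have h3 := hs _ hE1 _ hiE h1 p1 hp1' q hq
    have h4 := hs _ hiE _ hE2 h2 q hq p2 hp2'
    rcases lt_or_gt_of_ne hj' with hlt | hlt
    · have := ha (by omega : j' + 1 ≤ j)
      omega
    · have := ha (by omega : j + 1 ≤ j')
      omega
  exact (Finset.card_le_card hsub).trans Finset.card_le_two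

lemma pair_eq_zero_of_not_meet (a : ℕ → ℕ) (g : ℕ →₀ ℝ) (j : ℕ) (y : T)
    (hy : ∀ p, p ∉ Set.Ico (a j) (a (j+1)) → y.val p = 0) (h : ¬ Meet a g j) :
    pair g y.val = 0 := by
  refine pair_eq_zero_of_disjoint _ _ fun p hp => hy p ?_
  intro hmem
  exact h ⟨p, hp, hmem.1, hmem.2⟩

end Pool.Agent.Helper224.Usm
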