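import Pool.Agent.Helper224.Usm3

set_option autoImplicit false
open Filter Topology

namespace Pool.Agent.Helper224.Usm

/-- sums of admissible children -/
lemma sum_child_le (E : Finset ℕ) (m : ℕ → ℕ) (g : ℕ → (ℕ →₀ ℝ))
    (hg : ∀ i ∈ E, IsW (m i) (g i))
    (hs : ∀ i ∈ E, ∀ j ∈ E, i < j → ∀ p ∈ (g i).support, ∀ q ∈ (g j).support, p < q)
    (hm : ∀ i ∈ E, ∀ j ∈ E, i < j → ∀ p ∈ (g i).support, p < m j)
    (I : Finset ℕ) (hI : I ⊆ E) (x : T) :
    |∑ i ∈ I, pair (g i) x.val| ≤ 2 * S I.card * ‖x‖ := by
  rcases I.eq_empty_or_nonempty with rfl | hne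
  · simp [S_zero]
  have hc : 1 ≤ I.card := Finset.card_pos.2 hne
  have hS := S_pos hc
  have h1 : IsW I.card ((1 / (2 * S I.card) : ℝ) • ∑ i ∈ I, g i) :=
    IsW.node _ hc I le_rfl m g (fun i hi => hg i (hI hi))
      (fun i hi j hj => hs i (hI hi) j (hI hj)) (fun i hi j hj => hm i (hI hi) j (hI hj))
  have h2 := pair_le_norm x h1
  rw [pair_smul_left, pair_sum_left, abs_mul, abs_of_pos (by positivity), one_div,
    inv_mul_le_iff₀ (by positivity)] at h2
  exact h2

lemma Ico_unique (a : ℕ → ℕ) (ha : Monotone a) {p j j' : ℕ} (h : p ∈ Set.Ico (a j) (a (j+1)))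
    (h' : p ∈ Set.Ico (a j') (a (j'+1))) : j = j' := by
  obtain ⟨h1, h2⟩ := h
  obtain ⟨h3, h4⟩ := h'
  rcases lt_trichotomy j j' with hlt | heq | hlt
  · have := ha (by omega : j + 1 ≤ j')
    omega
  · exact heq
  · have := ha (by omega : j' + 1 ≤ j)
    omega

lemma sum_leaf (k : ℕ) (a : ℕ → ℕ) (ha : Monotone a) (y : ℕ → T) (hy1 : ∀ j, ‖y j‖ ≤ 1)
    (hy : ∀ j p, p ∉ Set.Ico (a j) (a (j+1)) → (y j).val p = 0) (b : ℕ → ℝ) (B : ℝ) (hB0 : 0 ≤ B)
    (hb : ∀ j ∈ Finset.range k, |b j| ≤ B) (i : ℕ) (s : ℝ) (hs : |s| ≤ 1) :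
    ∑ j ∈ Finset.range k, |b j| * |pair (Finsupp.single i s) (y j).val| ≤ B := by
  by_cases h : ∃ j ∈ Finset.range k, (y j).val i ≠ 0
  · obtain ⟨j, hj, hji⟩ := h
    have hmem : i ∈ Set.Ico (a j) (a (j+1)) := by
      by_contra hcon
      exact hji (hy j i hcon)
    rw [Finset.sum_eq_single_of_mem j hj]
    · rw [pair_single_left, abs_mul]
      have h1 := (abs_val_le (y j) i).trans (hy1 j)
      have h2 : |s| * |(y j).val i| ≤ 1 := mul_le_one₀ hs (abs_nonneg _) h1
      calc |b j| * (|s| * |(y j).val i|) ≤ B * 1 :=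
            mul_le_mul (hb j hj) h2 (by positivity) hB0
        _ = B := mul_one _
    · intro j' _ hj'
      rw [pair_single_left, hy j' i, mul_zero, abs_zero, mul_zero]
      intro hmem'
      exact hj' (Ico_unique a ha hmem' hmem)
  · push Not at h
    rw [Finset.sum_eq_zero]
    · exact hB0
    · intro j hj
      rw [pair_single_left, h j hj, mul_zero, abs_zero, mul_zero]

open Classical in
/-- functionals of large size act on few blocks in a bounded way -/
lemma multi (k : ℕ) (a : ℕ → ℕ) (ha : Monotone a) (y : ℕ → T) (hy1 : ∀ j, ‖y j‖ ≤ 1)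
    (hy : ∀ j p, p ∉ Set.Ico (a j) (a (j+1)) → (y j).val p = 0)
    {m : ℕ} {g : ℕ →₀ ℝ} (hg : IsW m g) (hm : (3 * k) ^ 4 ≤ m) :
    ∑ j ∈ Finset.range k, |pair g (y j).val| ≤ 10 := by
  cases hg with
  | leaf n hn i s hs =>
    have h := sum_leaf k a ha y hy1 hy (fun _ => 1) 1 zero_le_one (fun j _ => by simp) i s hs
    simp only [abs_one, one_mul] at h
    linarith
  | node m hn E hE m' g hg hs hgr =>
    have hS := S_pos hn
    let I : ℕ → Finset ℕ := fun j => E.filter fun i => Meet a (g i) j ∧ ∀ j', j' ≠ j → ¬ Meet a (g i) j'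
    let M : ℕ → Finset ℕ := fun j => E.filter fun i => Meet a (g i) j ∧ ∃ j', j' ≠ j ∧ Meet a (g i) j'
    have hM : ∀ j, (M j).card ≤ 2 := fun j => card_multi a ha E g hs j (M j) (fun i hi => by
      rw [Finset.mem_filter] at hi
      exact ⟨hi.1, hi.2.1, hi.2.2⟩)
    have hIdisj : ∀ j j', j ≠ j' → Disjoint (I j) (I j') := by
      intro j j' hne
      rw [Finset.disjoint_left]
      intro i hi hi'
      rw [Finset.mem_filter] at hi hi'
      exact hi.2.2 j' (Ne.symm hne) hi'.2.1
    have hIcard : ∑ j ∈ Finset.range k, (I j).card ≤ m := by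
      rw [← Finset.card_biUnion (fun j _ j' _ hne => hIdisj j j' hne)]
      refine le_trans (Finset.card_le_card ?_) hE
      intro i hi
      rw [Finset.mem_biUnion] at hi
      obtain ⟨j, _, hi⟩ := hi
      exact (Finset.mem_filter.1 hi).1
    have key : ∀ j, |∑ i ∈ E, pair (g i) (y j).val| ≤ 2 * S (I j).card + 2 := by
      intro j
      have h1 : ∑ i ∈ E, pair (g i) (y j).val =
          ∑ i ∈ I j, pair (g i) (y j).val + ∑ i ∈ M j, pair (g i) (y j).val := by
        rw [← Finset.sum_union]
        · symm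
          refine Finset.sum_subset ?_ ?_
          · intro i hi
            rw [Finset.mem_union] at hi
            rcases hi with hi | hi
            · exact (Finset.mem_filter.1 hi).1
            · exact (Finset.mem_filter.1 hi).1
          · intro i hi hni
            refine pair_eq_zero_of_not_meet a _ j _ (hy j) ?_
            intro hmeet
            apply hni
            rw [Finset.mem_union]
            by_cases h2 : ∃ j', j' ≠ j ∧ Meet a (g i) j'
            · right
              exact Finset.mem_filter.2 ⟨hi, hmeet, h2⟩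
            · left
              push Not at h2
              exact Finset.mem_filter.2 ⟨hi, hmeet, h2⟩
        · rw [Finset.disjoint_left]
          intro i hi hi'
          rw [Finset.mem_filter] at hi hi'
          obtain ⟨j', hj', hm'⟩ := hi'.2.2
          exact hi.2.2 j' hj' hm'
      rw [h1]
      refine (abs_add_le _ _).trans (add_le_add ?_ ?_)
      · refine (sum_child_le E m' g hg hs hgr (I j) (Finset.filter_subset _ _) (y j)).trans ?_
        have := S_nonneg (I j).card
        calc 2 * S (I j).card * ‖y j‖ ≤ 2 * S (I j).card * 1 := by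
              gcongr
              exact hy1 j
          _ = _ := mul_one _
      · refine (Finset.abs_sum_le_sum_abs _ _).trans ?_
        calc ∑ i ∈ M j, |pair (g i) (y j).val| ≤ ∑ i ∈ M j, (1:ℝ) := by
              refine Finset.sum_le_sum fun i hi => ?_
              exact (pair_le_norm _ (hg i (Finset.mem_filter.1 hi).1)).trans (hy1 j)
          _ = (M j).card := by simp
          _ ≤ 2 := by exact_mod_cast hM j
    have h2 : ∀ j, |pair ((1 / (2 * S m) : ℝ) • ∑ i ∈ E, g i) (y j).val| ≤
        (1 / (2 * S m)) * (2 * S (I j).card + 2) := by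
      intro j
      rw [pair_smul_left, pair_sum_left, abs_mul, abs_of_pos (by positivity)]
      gcongr
      exact key j
    have h3 : ∑ j ∈ Finset.range k, S (I j).card ≤ 9 * S m := by
      refine sum_S (Finset.range k) m ?_ hn (fun j => (I j).card) hIcard
      rw [Finset.card_range]
      exact hm
    have h4 : (k : ℝ) ≤ S m := by
      have h5 := S_large k m hm hn
      rcases Nat.eq_zero_or_pos k with rfl | hk
      · push_cast
        exact hS.le
      · have : (1:ℝ) ≤ k := by exact_mod_cast hk
        nlinarith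
    calc ∑ j ∈ Finset.range k, |pair ((1 / (2 * S m) : ℝ) • ∑ i ∈ E, g i) (y j).val|
        ≤ ∑ j ∈ Finset.range k, (1 / (2 * S m)) * (2 * S (I j).card + 2) :=
          Finset.sum_le_sum fun j _ => h2 j
      _ = (1 / (2 * S m)) * (2 * ∑ j ∈ Finset.range k, S (I j).card + 2 * k) := by
          rw [← Finset.mul_sum, Finset.sum_add_distrib, ← Finset.mul_sum]
          simp
          left
          ring
      _ ≤ (1 / (2 * S m)) * (2 * (9 * S m) + 2 * S m) := by gcongr
      _ = 10 := by
          field_simp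
          ring

lemma card_le_two_S {c : ℕ} (hc : c ≤ 2) : (c : ℝ) ≤ 2 * S c := by
  interval_cases c
  · simp [S_zero]
  · rw [S_one]; norm_num
  · rw [S_two]; norm_num

open Classical in
/-- the upper estimate -/
theorem upper_aux (k : ℕ) (a : ℕ → ℕ) (ha : Monotone a) (ha0 : (3 * k) ^ 4 ≤ a 0)
    (y : ℕ → T) (hy1 : ∀ j, ‖y j‖ ≤ 1)
    (hy : ∀ j p, p ∉ Set.Ico (a j) (a (j+1)) → (y j).val p = 0)
    (b : ℕ → ℝ) (B : ℝ) (hB0 : 0 ≤ B)
    (hB : ∀ F ⊆ Finset.range k, ∑ j ∈ F, |b j| ≤ B * S F.card)
    {m : ℕ} {f : ℕ →₀ ℝ} (hf : IsW m f) :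
    |∑ j ∈ Finset.range k, b j * pair f (y j).val| ≤ 440 * B := by
  have hb1 : ∀ j ∈ Finset.range k, |b j| ≤ B := by
    intro j hj
    have := hB {j} (by simpa using hj)
    simpa [S_one] using this
  induction hf with
  | leaf n hn i s hs =>
    have h := sum_leaf k a ha y hy1 hy b B hB0 hb1 i s hs
    calc |∑ j ∈ Finset.range k, b j * pair (Finsupp.single i s) (y j).val|
        ≤ ∑ j ∈ Finset.range k, |b j * pair (Finsupp.single i s) (y j).val| :=
          Finset.abs_sum_le_sum_abs _ _
      _ = ∑ j ∈ Finset.range k, |b j| * |pair (Finsupp.single i s) (y j).val| := by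
          simp only [abs_mul]
      _ ≤ B := h
      _ ≤ 440 * B := by linarith
  | node n hn E hE m' g hg hs hgr ih =>
    have hS := S_pos hn
    have hS1 := one_le_S hn
    let G : ℕ → ℝ := fun i => ∑ j ∈ Finset.range k, b j * pair (g i) (y j).val
    have hG : ∑ j ∈ Finset.range k, b j * pair ((1 / (2 * S n) : ℝ) • ∑ i ∈ E, g i) (y j).val =
        (1 / (2 * S n)) * ∑ i ∈ E, G i := by
      simp only [G]
      rw [Finset.sum_comm, Finset.mul_sum]
      refine Finset.sum_congr rfl fun j _ => ?_
      rw [pair_smul_left, pair_sum_left, Finset.mul_sum, Finset.mul_sum, Finset.mul_sum]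
      refine Finset.sum_congr rfl fun i _ => by ring
    rw [hG, abs_mul, abs_of_pos (by positivity)]
    let E' : Finset ℕ := E.filter fun i => ∃ j ∈ Finset.range k, Meet a (g i) j
    have hE'sub : E' ⊆ E := Finset.filter_subset _ _
    have hE' : ∑ i ∈ E, G i = ∑ i ∈ E', G i := by
      symm
      refine Finset.sum_subset hE'sub ?_
      intro i hi hni
      refine Finset.sum_eq_zero fun j hj => ?_
      rw [pair_eq_zero_of_not_meet a _ j _ (hy j), mul_zero]
      intro hmeet
      exact hni (Finset.mem_filter.2 ⟨hi, j, hj, hmeet⟩)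
    rw [hE']
    rcases E'.eq_empty_or_nonempty with hemp | hne
    · rw [hemp]
      simp
      linarith
    set i₀ := E'.min' hne with hi₀
    have hi₀E' : i₀ ∈ E' := E'.min'_mem hne
    have hi₀E : i₀ ∈ E := hE'sub hi₀E'
    let E'' : Finset ℕ := E'.erase i₀
    have hE''sub : E'' ⊆ E := (Finset.erase_subset _ _).trans hE'sub
    have hsize : ∀ i ∈ E'', (3 * k) ^ 4 ≤ m' i := by
      intro i hi
      rw [Finset.mem_erase] at hi
      have hlt : i₀ < i := lt_of_le_of_ne (Finset.min'_le _ _ hi.2) (Ne.symm hi.1)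
      obtain ⟨j, hj, p, hp, hp1, hp2⟩ := (Finset.mem_filter.1 hi₀E').2
      have h1 := hgr i₀ hi₀E i (hE'sub hi.2) hlt p hp
      have h2 := ha (Nat.zero_le j)
      omega
    rw [← Finset.add_sum_erase _ _ hi₀E']
    -- singles and multis
    let Sg : Finset ℕ := E''.filter fun i => ∀ j ∈ Finset.range k, Meet a (g i) j →
      ∀ j', j' ≠ j → ¬ Meet a (g i) j'
    let Mu : Finset ℕ := E''.filter fun i => ¬ ∀ j ∈ Finset.range k, Meet a (g i) j →
      ∀ j', j' ≠ j → ¬ Meet a (g i) j'
    have hsplit : ∑ i ∈ E'', G i = ∑ i ∈ Sg, G i + ∑ i ∈ Mu, G i :=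
      (Finset.sum_filter_add_sum_filter_not E'' _ _).symm
    -- singles
    have hSg : |∑ i ∈ Sg, G i| ≤ 40 * B * S n := by
      let I : ℕ → Finset ℕ := fun j => Sg.filter fun i => Meet a (g i) j
      have h1 : ∑ i ∈ Sg, G i = ∑ j ∈ Finset.range k, b j * ∑ i ∈ I j, pair (g i) (y j).val := by
        simp only [G]
        rw [Finset.sum_comm]
        refine Finset.sum_congr rfl fun j _ => ?_
        rw [← Finset.mul_sum]
        congr 1
        symm
        refine Finset.sum_subset (Finset.filter_subset _ _) ?_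
        intro i hi hni
        refine pair_eq_zero_of_not_meet a _ j _ (hy j) ?_
        intro hmeet
        exact hni (Finset.mem_filter.2 ⟨hi, hmeet⟩)
      have hIdisj : ∀ j ∈ Finset.range k, ∀ j' ∈ Finset.range k, j ≠ j' → Disjoint (I j) (I j') := by
        intro j hj j' hj' hne'
        rw [Finset.disjoint_left]
        intro i hi hi'
        rw [Finset.mem_filter] at hi hi'
        exact (Finset.mem_filter.1 hi.1).2 j hj hi.2 j' (Ne.symm hne') hi'.2
      have hIcard : ∑ j ∈ Finset.range k, (I j).card ≤ n := by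
        rw [← Finset.card_biUnion (fun j hj j' hj' hne' => hIdisj j hj j' hj' hne')]
        refine le_trans (Finset.card_le_card ?_) hE
        intro i hi
        rw [Finset.mem_biUnion] at hi
        obtain ⟨j, _, hi⟩ := hi
        exact hE''sub (Finset.mem_filter.1 (Finset.mem_filter.1 hi).1).1
      have h2 := block_S (Finset.range k) n hn (fun j => (I j).card) (fun j => |b j|) B hB0
        (fun j _ => abs_nonneg _) hIcard hB
      rw [h1]
      calc |∑ j ∈ Finset.range k, b j * ∑ i ∈ I j, pair (g i) (y j).val|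
          ≤ ∑ j ∈ Finset.range k, |b j * ∑ i ∈ I j, pair (g i) (y j).val| :=
            Finset.abs_sum_le_sum_abs _ _
        _ ≤ ∑ j ∈ Finset.range k, 2 * (|b j| * S (I j).card) := by
            refine Finset.sum_le_sum fun j _ => ?_
            rw [abs_mul]
            have h3 := sum_child_le E m' g hg hs hgr (I j) (fun i hi =>
              hE''sub (Finset.mem_filter.1 (Finset.mem_filter.1 hi).1).1) (y j)
            have h4 : 2 * S (I j).card * ‖y j‖ ≤ 2 * S (I j).card := by
              have := S_nonneg (I j).card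
              calc 2 * S (I j).card * ‖y j‖ ≤ 2 * S (I j).card * 1 := by
                    gcongr
                    exact hy1 j
                _ = _ := mul_one _
            calc |b j| * |∑ i ∈ I j, pair (g i) (y j).val| ≤ |b j| * (2 * S (I j).card) := by
                  gcongr
                  exact h3.trans h4
              _ = _ := by ring
        _ = 2 * ∑ j ∈ Finset.range k, |b j| * S (I j).card := by rw [← Finset.mul_sum]
        _ ≤ 2 * (20 * B * S n) := by gcongr
        _ = 40 * B * S n := by ring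
    -- multis
    have hMu : |∑ i ∈ Mu, G i| ≤ 400 * B * S n := by
      have h1 : ∀ i ∈ Mu, ∃ c ∈ Finset.range k, (Meet a (g i) c ∧ ∃ j', j' ≠ c ∧ Meet a (g i) j') ∧
          |G i| ≤ 10 * |b c| := by
        intro i hi
        rw [Finset.mem_filter] at hi
        obtain ⟨hiE, hi2⟩ := hi
        push Not at hi2
        obtain ⟨j₁, hj₁, hm₁, j₂, hj₂, hm₂⟩ := hi2
        let Jset : Finset ℕ := (Finset.range k).filter fun j => Meet a (g i) j
        have hJne : Jset.Nonempty := ⟨j₁, Finset.mem_filter.2 ⟨hj₁, hm₁⟩⟩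
        obtain ⟨c, hc, hcmax⟩ := Finset.exists_max_image Jset (fun j => |b j|) hJne
        rw [Finset.mem_filter] at hc
        refine ⟨c, hc.1, ⟨hc.2, ?_⟩, ?_⟩
        · by_cases h : c = j₁
          · exact ⟨j₂, by rw [h]; exact hj₂, hm₂⟩
          · exact ⟨j₁, Ne.symm h, hm₁⟩
        · have h3 := multi k a ha y hy1 hy (hg i (hE''sub hiE)) (hsize i hiE)
          calc |G i| ≤ ∑ j ∈ Finset.range k, |b j * pair (g i) (y j).val| :=
                Finset.abs_sum_le_sum_abs _ _
            _ ≤ ∑ j ∈ Finset.range k, |b c| * |pair (g i) (y j).val| := by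
                refine Finset.sum_le_sum fun j hj => ?_
                rw [abs_mul]
                by_cases h : Meet a (g i) j
                · exact mul_le_mul_of_nonneg_right (hcmax j (Finset.mem_filter.2 ⟨hj, h⟩))
                    (abs_nonneg _)
                · rw [pair_eq_zero_of_not_meet a _ j _ (hy j) h]
                  simp
            _ = |b c| * ∑ j ∈ Finset.range k, |pair (g i) (y j).val| := by rw [← Finset.mul_sum]
            _ ≤ |b c| * 10 := by gcongr
            _ = 10 * |b c| := by ring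
      choose! c hc1 hc2 hc3 using h1
      let N : ℕ → Finset ℕ := fun j => Mu.filter fun i => c i = j
      have hNcard : ∑ j ∈ Finset.range k, (N j).card ≤ n := by
        have : ∑ j ∈ Finset.range k, (N j).card = Mu.card :=
          (Finset.card_eq_sum_card_fiberwise (fun i hi => hc1 i hi)).symm
        rw [this]
        exact (Finset.card_le_card ((Finset.filter_subset _ _).trans hE''sub)).trans hE
      have hN2 : ∀ j, (N j).card ≤ 2 := by
        intro j
        refine card_multi a ha E g hs j (N j) fun i hi => ?_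
        rw [Finset.mem_filter] at hi
        have h5 := hc2 i hi.1
        rw [hi.2] at h5
        exact ⟨hE''sub (Finset.mem_filter.1 hi.1).1, h5.1, h5.2⟩
      have h2 := block_S (Finset.range k) n hn (fun j => (N j).card) (fun j => |b j|) B hB0
        (fun j _ => abs_nonneg _) hNcard hB
      calc |∑ i ∈ Mu, G i| ≤ ∑ i ∈ Mu, |G i| := Finset.abs_sum_le_sum_abs _ _
        _ ≤ ∑ i ∈ Mu, 10 * |b (c i)| := Finset.sum_le_sum fun i hi => hc3 i hi
        _ = 10 * ∑ i ∈ Mu, |b (c i)| := by rw [← Finset.mul_sum]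
        _ = 10 * ∑ j ∈ Finset.range k, ∑ i ∈ Mu with c i = j, |b (c i)| := by
            rw [Finset.sum_fiberwise_of_maps_to (fun i hi => hc1 i hi)]
        _ = 10 * ∑ j ∈ Finset.range k, |b j| * (N j).card := by
            congr 1
            refine Finset.sum_congr rfl fun j _ => ?_
            rw [Finset.sum_congr rfl (g := fun _ => |b j|)
              (fun i hi => by rw [(Finset.mem_filter.1 hi).2]), Finset.sum_const, nsmul_eq_mul,
              mul_comm]
        _ ≤ 10 * ∑ j ∈ Finset.range k, |b j| * (2 * S (N j).card) := by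
            gcongr with j hj
            exact card_le_two_S (hN2 j)
        _ = 20 * ∑ j ∈ Finset.range k, |b j| * S (N j).card := by
            rw [Finset.mul_sum, Finset.mul_sum]
            refine Finset.sum_congr rfl fun j _ => by ring
        _ ≤ 20 * (20 * B * S n) := by gcongr
        _ = 400 * B * S n := by ring
    have h0 : |G i₀| ≤ 440 * B := ih i₀ hi₀E
    have hfin : |G i₀ + ∑ i ∈ E'', G i| ≤ 440 * B + (40 * B * S n + 400 * B * S n) := by
      rw [hsplit]
      exact (abs_add_le _ _).trans (add_le_add h0 ((abs_add_le _ _).trans (add_le_add hSg hMu)))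
    calc 1 / (2 * S n) * |G i₀ + ∑ i ∈ E'', G i|
        ≤ 1 / (2 * S n) * (440 * B + (40 * B * S n + 400 * B * S n)) := by gcongr
      _ ≤ 440 * B := by
          rw [one_div, inv_mul_le_iff₀ (by positivity)]
          nlinarith

/-- the upper estimate for blocks -/
theorem upper (k : ℕ) (a : ℕ → ℕ) (ha : Monotone a) (ha0 : (3 * k) ^ 4 ≤ a 0)
    (y : ℕ → T) (hy1 : ∀ j, ‖y j‖ ≤ 1)
    (hy : ∀ j p, p ∉ Set.Ico (a j) (a (j+1)) → (y j).val p = 0)
    (b : ℕ → ℝ) (B : ℝ) (hB0 : 0 ≤ B)
    (hB : ∀ F ⊆ Finset.range k, ∑ j ∈ F, |b j| ≤ B * S F.card) :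
    ‖∑ j ∈ Finset.range k, b j • y j‖ ≤ 440 * B := by
  refine norm_le (by positivity) fun n f hf => ?_
  have h1 : pair f (∑ j ∈ Finset.range k, b j • y j).val =
      ∑ j ∈ Finset.range k, b j * pair f (y j).val := by
    rw [← ev_apply f hf, map_sum]
    refine Finset.sum_congr rfl fun j _ => ?_
    rw [map_smul, smul_eq_mul, ev_apply]
  rw [h1]
  exact upper_aux k a ha ha0 y hy1 hy b B hB0 hB hf

end Pool.Agent.Helper224.Usm
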