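import Pool.Agent.Helper224.Usm4

set_option autoImplicit false
open Filter Topology

namespace Pool.Agent.Helper224.Usm

open Classical in
/-- restriction of a functional -/
noncomputable def cut (A : Set ℕ) (f : ℕ →₀ ℝ) : ℕ →₀ ℝ := f.filter (· ∈ A)

lemma IsW.cut {n : ℕ} {f : ℕ →₀ ℝ} (hf : IsW n f) (A : Set ℕ) : IsW n (cut A f) := hf.filter A

lemma mem_cut {A : Set ℕ} {f : ℕ →₀ ℝ} {p : ℕ} (hp : p ∈ (cut A f).support) :
    p ∈ f.support ∧ p ∈ A := by
  classical
  unfold Usm.cut at hp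
  rw [Finsupp.support_filter, Finset.mem_filter] at hp
  exact hp

lemma cut_smul (A : Set ℕ) (c : ℝ) (f : ℕ →₀ ℝ) : cut A (c • f) = c • cut A f := by
  classical
  exact Finsupp.filter_smul

lemma cut_sum (A : Set ℕ) (E : Finset ℕ) (g : ℕ → (ℕ →₀ ℝ)) :
    cut A (∑ i ∈ E, g i) = ∑ i ∈ E, cut A (g i) := by
  classical
  exact Finsupp.filter_sum _ _

lemma pair_cut (f : ℕ →₀ ℝ) (A : Set ℕ) (x : ℕ → ℝ) :
    pair f (A.indicator x) = pair (cut A f) x := pair_indicator f A x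

lemma tendsto_P_lt (z : ℕ → T) (hc : ∀ p, Tendsto (fun n => (z n).val p) atTop (𝓝 0)) (R : ℕ) :
    Tendsto (fun n => ‖P {p | p < R} (z n)‖) atTop (𝓝 0) := by
  have h1 : Tendsto (fun n => ∑ i ∈ Finset.range R, |(z n).val i|) atTop
      (𝓝 (∑ i ∈ Finset.range R, 0)) :=
    tendsto_finsetSum _ fun i _ => by simpa using (hc i).abs
  rw [Finset.sum_const_zero] at h1
  refine squeeze_zero (fun n => norm_nonneg _) (fun n => ?_) h1
  rw [P_lt_eq]
  refine (norm_sum_le _ _).trans ?_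
  refine Finset.sum_le_sum fun i _ => ?_
  rw [norm_smul, norm_e, mul_one, Real.norm_eq_abs]

lemma tendsto_pair (z : ℕ → T) (hc : ∀ p, Tendsto (fun n => (z n).val p) atTop (𝓝 0))
    (g : ℕ →₀ ℝ) : Tendsto (fun n => pair g (z n).val) atTop (𝓝 0) := by
  simp only [pair_eq_sum]
  have h1 : Tendsto (fun n => ∑ i ∈ g.support, g i * (z n).val i) atTop
      (𝓝 (∑ i ∈ g.support, g i * 0)) :=
    tendsto_finsetSum _ fun i _ => (hc i).const_mul _
  simpa using h1

lemma pair_filter_ge (f : ℕ →₀ ℝ) (R : ℕ) (x : T) :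
    pair (cut {p | R ≤ p} f) x.val = pair f x.val - pair f (P {p | p < R} x).val := by
  have h1 : x.val = (P {p | p < R} x).val + (Q R x).val := by
    rw [← T.val_add, P_lt_add_Q]
  have h2 : pair f (Q R x).val = pair (cut {p | R ≤ p} f) x.val := by
    rw [Q, P_val, pair_cut]
  rw [← h2]
  conv_rhs => rw [h1, pair_add_right]
  ring

open Classical in
/-- far out functionals of large size acting on a null sequence -/
theorem far_functional (z : ℕ → T) (hz : ∀ n, ‖z n‖ = 1)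
    (hc : ∀ p, Tendsto (fun n => (z n).val p) atTop (𝓝 0)) :
    ∃ δ > 0, ∀ R m : ℕ, ∃ n ≥ m, ∃ s ≥ R, ∃ g : ℕ →₀ ℝ, IsW s g ∧ (∀ p ∈ g.support, R ≤ p) ∧
      δ ≤ pair g (z n).val := by
  by_cases hA : ∃ δ > 0, ∀ R m : ℕ, ∃ n ≥ m, ∃ p ≥ R, δ ≤ |(z n).val p|
  · obtain ⟨δ, hδ, hA⟩ := hA
    refine ⟨δ, hδ, fun R m => ?_⟩
    obtain ⟨n, hn, p, hp, h⟩ := hA R m
    refine ⟨n, hn, max R 1, le_max_left _ _, Finsupp.single p (SignType.sign ((z n).val p) : ℝ),
      IsW.leaf _ (le_max_right _ _) p _ ?_, ?_, ?_⟩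
    · rcases lt_trichotomy ((z n).val p) 0 with h0 | h0 | h0
      · simp [sign_neg h0]
      · simp [h0]
      · simp [sign_pos h0]
    · intro q hq
      rw [Finsupp.mem_support_iff, Finsupp.single_apply] at hq
      have : p = q := by
        by_contra hne
        rw [if_neg hne] at hq
        exact hq rfl
      omega
    · rw [pair_single_left, sign_mul_self]
      exact h
  push Not at hA
  obtain ⟨R₁, m₁, h₁⟩ := hA (1/2) (by norm_num)
  by_cases hB : ∀ R m : ℕ, ∃ n ≥ m, ∃ s ≥ R, ∃ f : ℕ →₀ ℝ, IsW s f ∧ 7/8 ≤ pair f (z n).val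
  · refine ⟨3/4, by norm_num, fun R m => ?_⟩
    have h2 := (tendsto_P_lt z hc R).eventually (gt_mem_nhds (by norm_num : (0:ℝ) < 1/8))
    obtain ⟨m', hm'⟩ := eventually_atTop.1 h2
    obtain ⟨n, hn, s, hs, f, hf, hlow⟩ := hB R (max m m')
    refine ⟨n, (le_max_left _ _).trans hn, s, hs, cut {p | R ≤ p} f, hf.cut _, ?_, ?_⟩
    · intro p hp
      exact (mem_cut hp).2
    · rw [pair_filter_ge]
      have h3 := pair_le_norm (P {p | p < R} (z n)) hf
      have h4 := hm' n ((le_max_right _ _).trans hn)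
      have h5 := (le_abs_self _).trans h3
      linarith
  push Not at hB
  obtain ⟨R₀, m₀, h₀⟩ := hB
  have hR0 : (0:ℝ) < (R₀ + 1 : ℕ) := by positivity
  refine ⟨1 / (2 * (R₀ + 1 : ℕ)), by positivity, fun R m => ?_⟩
  have h2 := (tendsto_P_lt z hc R).eventually (gt_mem_nhds (by norm_num : (0:ℝ) < 1/8))
  have h3 := (tendsto_P_lt z hc R₁).eventually (gt_mem_nhds (by norm_num : (0:ℝ) < 1/8))
  obtain ⟨n, ⟨⟨hn2, hn3⟩, hn0⟩, hn1, hnm⟩ := ((h2.and h3).and (eventually_ge_atTop m₀)).and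
    ((eventually_ge_atTop m₁).and (eventually_ge_atTop m)) |>.exists
  refine ⟨n, hnm, ?_⟩
  obtain ⟨s, f, hf, hlt⟩ := exists_pair_gt' (x := z n) (r := 7/8) (by rw [hz]; norm_num)
  have hs : s < R₀ := by
    by_contra hcon
    push Not at hcon
    exact absurd (h₀ n hn0 s hcon f hf) (not_lt.2 hlt.le)
  cases hf with
  | leaf _ hs1 i t ht =>
    exfalso
    rw [pair_single_left] at hlt
    have h5 : |(z n).val i| < 1/2 := by
      by_cases hi : R₁ ≤ i
      · exact h₁ n hn1 i hi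
      · have h6 := abs_val_le (P {p | p < R₁} (z n)) i
        rw [P_val, Set.indicator_of_mem (by exact not_le.1 hi)] at h6
        linarith
    have h6 : t * (z n).val i ≤ |(z n).val i| := by
      refine (le_abs_self _).trans ?_
      rw [abs_mul]
      exact mul_le_of_le_one_left (abs_nonneg _) ht
    linarith
  | node _ hs1 E hE m' g hg hsu hgr =>
    have hSp := S_pos hs1
    have hSp1 := one_le_S hs1
    have hf : IsW s ((1 / (2 * S s) : ℝ) • ∑ i ∈ E, g i) := IsW.node s hs1 E hE m' g hg hsu hgr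
    have h5 := pair_filter_ge ((1 / (2 * S s) : ℝ) • ∑ i ∈ E, g i) R (z n)
    have h6 := (le_abs_self _).trans (pair_le_norm (P {p | p < R} (z n)) hf)
    have h7 : 3/4 ≤ pair (cut {p | R ≤ p} ((1 / (2 * S s) : ℝ) • ∑ i ∈ E, g i)) (z n).val := by
      linarith
    rw [cut_smul, cut_sum, pair_smul_left, pair_sum_left, one_div,
      le_inv_mul_iff₀ (by positivity)] at h7
    let g' : ℕ → (ℕ →₀ ℝ) := fun i => cut {p | R ≤ p} (g i)
    have hg' : ∀ i ∈ E, IsW (m' i) (g' i) := fun i hi => (hg i hi).cut _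
    have hsupp : ∀ i, ∀ p ∈ (g' i).support, R ≤ p ∧ p ∈ (g i).support := by
      intro i p hp
      exact ⟨(mem_cut hp).2, (mem_cut hp).1⟩
    have h7' : 2 * S s * (3 / 4) ≤ ∑ i ∈ E, pair (g' i) (z n).val := h7
    let E' : Finset ℕ := E.filter fun i => (g' i).support.Nonempty
    have hE' : ∑ i ∈ E, pair (g' i) (z n).val = ∑ i ∈ E', pair (g' i) (z n).val := by
      symm
      refine Finset.sum_subset (Finset.filter_subset _ _) ?_
      intro i hi hni
      have : g' i = 0 := by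
        rw [← Finsupp.support_eq_empty]
        by_contra hcon
        exact hni (Finset.mem_filter.2 ⟨hi, Finset.nonempty_iff_ne_empty.2 hcon⟩)
      rw [this, pair_zero_left]
    rw [hE'] at h7'
    rcases E'.eq_empty_or_nonempty with hemp | hne
    · rw [hemp, Finset.sum_empty] at h7'
      exfalso
      nlinarith
    have hmem := E'.min'_mem hne
    set i₀ := E'.min' hne with hi₀
    rw [← Finset.add_sum_erase _ _ hmem] at h7'
    have hi₀E : i₀ ∈ E := (Finset.mem_filter.1 hmem).1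
    have h8 : pair (g' i₀) (z n).val ≤ 1 := by
      have := (le_abs_self _).trans (pair_le_norm (z n) (hg' i₀ hi₀E))
      rwa [hz] at this
    have h9 : 1/2 ≤ ∑ i ∈ E'.erase i₀, pair (g' i) (z n).val := by nlinarith
    have h10 : ∃ i ∈ E'.erase i₀, 1 / (2 * (R₀ + 1 : ℕ)) ≤ pair (g' i) (z n).val := by
      by_contra hcon
      push Not at hcon
      have h11 : ∑ i ∈ E'.erase i₀, pair (g' i) (z n).val ≤
          ∑ i ∈ E'.erase i₀, (1 / (2 * (R₀ + 1 : ℕ)) : ℝ) :=
        Finset.sum_le_sum fun i hi => (hcon i hi).le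
      rw [Finset.sum_const, nsmul_eq_mul] at h11
      have h12 : (E'.erase i₀).card ≤ R₀ := by
        have h13 : (E'.erase i₀).card ≤ E.card := Finset.card_le_card
          ((Finset.erase_subset _ _).trans (Finset.filter_subset _ _))
        omega
      have h13 : ((E'.erase i₀).card : ℝ) ≤ R₀ := by exact_mod_cast h12
      have h14 : ((E'.erase i₀).card : ℝ) * (1 / (2 * (R₀ + 1 : ℕ))) < 1/2 := by
        push_cast
        rw [mul_one_div, div_lt_iff₀ (by positivity)]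
        linarith
      linarith
    obtain ⟨i, hi, hlow⟩ := h10
    rw [Finset.mem_erase] at hi
    have hlt' : i₀ < i := lt_of_le_of_ne (Finset.min'_le _ _ hi.2) (Ne.symm hi.1)
    have hiE : i ∈ E := (Finset.mem_filter.1 hi.2).1
    obtain ⟨p, hp⟩ := (Finset.mem_filter.1 hmem).2
    have hp' := hsupp i₀ p hp
    have hsz := hgr i₀ hi₀E i hiE hlt' p hp'.2
    exact ⟨m' i, by omega, g' i, hg' i hiE, fun q hq => (hsupp i q hq).1, hlow⟩

/-- a system of functionals -/
theorem lower_system (z : ℕ → T) (hz : ∀ n, ‖z n‖ = 1)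
    (hc : ∀ p, Tendsto (fun n => (z n).val p) atTop (𝓝 0))
    (ht : ∀ n, Tendsto (fun N => ‖Q N (z n)‖) atTop (𝓝 0)) :
    ∃ δ > 0, ∀ ε > 0, ∀ m₀ : ℕ, ∃ (n s : ℕ → ℕ) (g : ℕ → (ℕ →₀ ℝ)), StrictMono n ∧
      (∀ j, m₀ ≤ n j) ∧ (∀ j, IsW (s j) (g j)) ∧
      (∀ i j, i < j → ∀ p ∈ (g i).support, ∀ q ∈ (g j).support, p < q) ∧
      (∀ i j, i < j → ∀ p ∈ (g i).support, p < s j) ∧
      (∀ j, δ ≤ pair (g j) (z (n j)).val) ∧
      (∀ i j, i ≠ j → |pair (g i) (z (n j)).val| ≤ ε) := by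
  obtain ⟨δ, hδ, hfar⟩ := far_functional z hz hc
  refine ⟨δ, hδ, fun ε hε m₀ => ?_⟩
  obtain ⟨F, hF1, hF2⟩ := exists_seq_of_forall_finset_exists (α := ℕ × ℕ × (ℕ →₀ ℝ))
    (fun x => m₀ ≤ x.1 ∧ IsW x.2.1 x.2.2 ∧ δ ≤ pair x.2.2 (z x.1).val)
    (fun x y => x.1 < y.1 ∧ (∀ p ∈ x.2.2.support, ∀ q ∈ y.2.2.support, p < q) ∧
      (∀ p ∈ x.2.2.support, p < y.2.1) ∧ |pair x.2.2 (z y.1).val| ≤ ε ∧
      |pair y.2.2 (z x.1).val| ≤ ε) (by
    intro A _
    have h1 : ∀ᶠ n in atTop, ∀ x ∈ A, x.1 < n ∧ |pair x.2.2 (z n).val| ≤ ε := by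
      rw [Filter.eventually_all_finset]
      intro x _
      have h2 := (tendsto_pair z hc x.2.2).abs.eventually (gt_mem_nhds (by simpa using hε))
      filter_upwards [h2, eventually_gt_atTop x.1] with n hn hn'
      exact ⟨hn', hn.le⟩
    have h2 : ∀ᶠ R in atTop, ∀ x ∈ A, (∀ p ∈ x.2.2.support, p < R) ∧ ‖Q R (z x.1)‖ ≤ ε := by
      rw [Filter.eventually_all_finset]
      intro x _
      have h3 := (ht x.1).eventually (gt_mem_nhds hε)
      filter_upwards [h3, eventually_gt_atTop (x.2.2.support.sup id)] with R hR hR'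
      exact ⟨fun p hp => lt_of_le_of_lt (Finset.le_sup (f := id) hp) hR', hR.le⟩
    obtain ⟨m, hm⟩ := eventually_atTop.1 h1
    obtain ⟨R, hR⟩ := h2.exists
    obtain ⟨n, hn, s, hs, g, hg, hgs, hlow⟩ := hfar R (max m₀ m)
    refine ⟨(n, s, g), ⟨(le_max_left _ _).trans hn, hg, hlow⟩, fun x hx => ?_⟩
    obtain ⟨h4, h5⟩ := hm n ((le_max_right _ _).trans hn) x hx
    obtain ⟨h6, h7⟩ := hR x hx
    refine ⟨h4, fun p hp q hq => lt_of_lt_of_le (h6 p hp) (hgs q hq),
      fun p hp => lt_of_lt_of_le (h6 p hp) hs, h5, ?_⟩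
    exact (pair_le_norm_P (z x.1) {p | R ≤ p} hg hgs).trans h7)
  refine ⟨fun j => (F j).1, fun j => (F j).2.1, fun j => (F j).2.2, ?_, fun j => (hF1 j).1,
    fun j => (hF1 j).2.1, fun i j hij => (hF2 i j hij).2.1, fun i j hij => (hF2 i j hij).2.2.1,
    fun j => (hF1 j).2.2, ?_⟩
  · exact fun i j hij => (hF2 i j hij).1
  · intro i j hij
    rcases lt_or_gt_of_ne hij with h | h
    · exact (hF2 i j h).2.2.2.1
    · exact (hF2 j i h).2.2.2.2

lemma exists_L_gt (C : ℝ) : ∃ K : ℕ, 1 ≤ K ∧ C < L K := by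
  obtain ⟨n, hn⟩ := exists_nat_gt C
  refine ⟨2 ^ n, Nat.one_le_two_pow, ?_⟩
  unfold L
  rw [Nat.log_pow (by norm_num)]
  linarith

lemma exists_S_gt (C : ℝ) : ∃ K : ℕ, 1 ≤ K ∧ C < S K := by
  obtain ⟨n, hn⟩ := exists_nat_gt (max C 1)
  have h1 : (1:ℝ) < n := lt_of_le_of_lt (le_max_right _ _) hn
  have h1' : 1 ≤ n := by
    have : (0:ℝ) < n := by linarith
    exact_mod_cast this
  have h2 : 1 ≤ (3 * n) ^ 4 := Nat.one_le_pow _ _ (by omega)
  refine ⟨(3 * n) ^ 4, h2, ?_⟩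
  have h3 := S_large n ((3 * n) ^ 4) le_rfl h2
  have h4 : C < n := lt_of_le_of_lt (le_max_left _ _) hn
  nlinarith

/-- Boundedly complete: tails of every vector tend to zero. -/
theorem tail_tendsto (x : T) : Tendsto (fun N : ℕ => ‖Q N x‖) atTop (𝓝 0) := by
  classical
  have hanti : Antitone (fun N : ℕ => ‖Q N x‖) := fun N M hNM =>
    norm_P_anti x (fun n hn => le_trans hNM hn)
  by_contra hne
  have hδ : ∃ δ > 0, ∀ N : ℕ, δ ≤ ‖Q N x‖ := by
    by_contra hcon
    push Not at hcon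
    apply hne
    rw [Metric.tendsto_atTop]
    intro ε hε
    obtain ⟨N, hN⟩ := hcon ε hε
    refine ⟨N, fun n hn => ?_⟩
    rw [Real.dist_eq, sub_zero, abs_of_nonneg (norm_nonneg _)]
    exact (hanti hn).trans_lt hN
  obtain ⟨δ₀, hδ0, hδ⟩ := hδ
  have hstep : ∀ N : ℕ, ∃ M : ℕ, N < M ∧ δ₀ / 2 ≤ ‖P (Set.Ico N M) x‖ := by
    intro N
    obtain ⟨n, f, hf, hlt⟩ := exists_pair_gt' (x := Q N x) (r := δ₀ / 2) (by
      have := hδ N; linarith)
    refine ⟨max N (f.support.sup id) + 1, by omega, ?_⟩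
    have h1 : pair f (Q N x).val = pair f (P (Set.Ico N (max N (f.support.sup id) + 1)) x).val := by
      rw [pair_eq_sum, pair_eq_sum]
      refine Finset.sum_congr rfl fun p hp => ?_
      congr 1
      have h2 : p ≤ f.support.sup id := Finset.le_sup (f := id) hp
      rw [P_val, P_val]
      by_cases h : N ≤ p
      · rw [Set.indicator_of_mem (by exact h), Set.indicator_of_mem]
        exact ⟨h, by omega⟩
      · rw [Set.indicator_of_notMem (by exact h), Set.indicator_of_notMem]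
        exact fun hh => h hh.1
    rw [h1] at hlt
    exact hlt.le.trans ((le_abs_self _).trans (pair_le_norm _ hf))
  choose M hM1 hM2 using hstep
  let a : ℕ → ℕ := fun k => Nat.rec 0 (fun _ N => M N) k
  have ha1 : ∀ k, a (k+1) = M (a k) := fun k => rfl
  have hamono : StrictMono a := strictMono_nat_of_lt_succ fun k => by
    rw [ha1]
    exact hM1 _
  have hge : ∀ k, k ≤ a k := hamono.id_le
  let u : ℕ → T := fun k => P (Set.Ico (a k) (a (k+1))) x
  have hu : ∀ k, δ₀ / 2 ≤ ‖u k‖ := fun k => hM2 (a k)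
  have hu0 : ∀ k, 0 < ‖u k‖ := fun k => lt_of_lt_of_le (by positivity) (hu k)
  let z : ℕ → T := fun k => ‖u k‖⁻¹ • u k
  have hz : ∀ k, ‖z k‖ = 1 := by
    intro k
    simp only [z]
    rw [norm_smul, norm_inv, norm_norm, inv_mul_cancel₀ (hu0 k).ne']
  have hzv : ∀ k p, p ∉ Set.Ico (a k) (a (k+1)) → (z k).val p = 0 := by
    intro k p hp
    simp only [z, u, T.val_smul, P_val, Pi.smul_apply]
    rw [Set.indicator_of_notMem hp, smul_zero]
  have hc : ∀ p, Tendsto (fun n => (z n).val p) atTop (𝓝 0) := by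
    intro p
    apply tendsto_const_nhds.congr'
    filter_upwards [eventually_gt_atTop p] with n hn
    rw [hzv n p]
    intro h
    have := hge n
    have := h.1
    omega
  have ht : ∀ n, Tendsto (fun N => ‖Q N (z n)‖) atTop (𝓝 0) := by
    intro n
    apply tendsto_const_nhds.congr'
    filter_upwards [eventually_ge_atTop (a (n+1))] with N hN
    have : Q N (z n) = 0 := by
      apply T.ext
      ext p
      rw [P_val, T.val_zero, Pi.zero_apply]
      by_cases h : N ≤ p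
      · rw [Set.indicator_of_mem (by exact h)]
        refine hzv n p fun h' => ?_
        have := h'.2
        omega
      · rw [Set.indicator_of_notMem (by exact h)]
    rw [this, norm_zero]
  obtain ⟨δ, hδ', hsys⟩ := lower_system z hz hc ht
  obtain ⟨n, s, g, hn, -, hg, hgs, hgr, hlow, -⟩ := hsys 1 one_pos 0
  let A : ℕ → Set ℕ := fun j => Set.Ico (a (n j)) (a (n j + 1))
  obtain ⟨K, hK1, hK⟩ := exists_L_gt (‖x‖ / (δ * (δ₀ / 2) / 2))
  have hSK := S_pos hK1
  have hW : IsW K ((1 / (2 * S K) : ℝ) • ∑ j ∈ Finset.range K, cut (A j) (g j)) := by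
    refine IsW.node K hK1 (Finset.range K) (by simp) s (fun j => cut (A j) (g j))
      (fun i _ => (hg i).cut _) ?_ ?_
    · intro i _ j _ hij p hp q hq
      exact hgs i j hij p (mem_cut hp).1 q (mem_cut hq).1
    · intro i _ j _ hij p hp
      exact hgr i j hij p (mem_cut hp).1
  have h1 := (le_abs_self _).trans (pair_le_norm x hW)
  rw [pair_smul_left, pair_sum_left, one_div, inv_mul_le_iff₀ (by positivity)] at h1
  have h2 : ∀ j, δ * (δ₀ / 2) ≤ pair (cut (A j) (g j)) x.val := by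
    intro j
    rw [← pair_cut]
    have h3 : (A j).indicator x.val = ‖u (n j)‖ • (z (n j)).val := by
      have : u (n j) = ‖u (n j)‖ • z (n j) := by
        simp only [z]
        rw [smul_smul, mul_inv_cancel₀ (hu0 _).ne', one_smul]
      have h4 : (u (n j)).val = ‖u (n j)‖ • (z (n j)).val := by
        conv_lhs => rw [this, T.val_smul]
      exact h4
    rw [h3, pair_smul_right, mul_comm δ]
    exact mul_le_mul (hu _) (hlow j) hδ'.le (norm_nonneg _)
  have h3 : (K : ℝ) * (δ * (δ₀ / 2)) ≤ 2 * S K * ‖x‖ := by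
    calc (K : ℝ) * (δ * (δ₀ / 2)) = ∑ j ∈ Finset.range K, δ * (δ₀ / 2) := by simp
      _ ≤ ∑ j ∈ Finset.range K, pair (cut (A j) (g j)) x.val :=
          Finset.sum_le_sum fun j _ => h2 j
      _ ≤ _ := h1
  rw [← L_mul_S K] at h3
  have h4 : L K * (δ * (δ₀ / 2) / 2) ≤ ‖x‖ := by
    have h5 : S K * (L K * (δ * (δ₀ / 2) / 2)) ≤ S K * ‖x‖ := by nlinarith
    exact le_of_mul_le_mul_left h5 hSK
  rw [div_lt_iff₀ (by positivity)] at hK
  linarith

end Pool.Agent.Helper224.Usm
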