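import Pool.Agent.Helper224.Usm5

set_option autoImplicit false
open Filter Topology

namespace Pool.Agent.Helper224.Usm

lemma comp_P_anti (y : T →L[ℝ] ℝ) {A B : Set ℕ} (h : A ⊆ B) : ‖y.comp (P A)‖ ≤ ‖y.comp (P B)‖ := by
  have : y.comp (P A) = (y.comp (P B)).comp (P A) := by
    ext z
    simp only [ContinuousLinearMap.comp_apply]
    rw [P_P, Set.inter_eq_right.2 h]
  rw [this]
  calc ‖(y.comp (P B)).comp (P A)‖ ≤ ‖y.comp (P B)‖ * ‖P A‖ := ContinuousLinearMap.opNorm_comp_le _ _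
    _ ≤ ‖y.comp (P B)‖ * 1 := by gcongr; exact P_norm_le_one A
    _ = _ := mul_one _

lemma sum_const_one_le (k : ℕ) (F : Finset ℕ) (hF : F ⊆ Finset.range k) :
    ∑ _j ∈ F, |(1:ℝ)| ≤ L k * S F.card := by
  have h1 : F.card ≤ k := by
    have := Finset.card_le_card hF
    rwa [Finset.card_range] at this
  have h2 := L_mul_S F.card
  have h3 := S_nonneg F.card
  calc ∑ _j ∈ F, |(1:ℝ)| = F.card := by simp
    _ = L F.card * S F.card := h2.symm
    _ ≤ L k * S F.card := by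
        gcongr
        exact L_mono h1

/-- Shrinking: tails of every functional tend to zero. -/
theorem shrinking (y : T →L[ℝ] ℝ) : Tendsto (fun N : ℕ => ‖y.comp (Q N)‖) atTop (𝓝 0) := by
  set d : ℕ → ℝ := fun N => ‖y.comp (Q N)‖ with hd
  have hanti : Antitone d := fun N M hNM => comp_P_anti y (fun n hn => le_trans hNM hn)
  have hbdd : BddBelow (Set.range d) := ⟨0, by rintro _ ⟨N, rfl⟩; exact norm_nonneg _⟩
  have hlim := tendsto_atTop_ciInf hanti hbdd
  set δ := ⨅ N, d N with hδdef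
  have hδ0 : 0 ≤ δ := le_ciInf fun N => norm_nonneg _
  rcases hδ0.eq_or_lt with h0 | hδ
  · rw [← h0] at hlim
    exact hlim
  exfalso
  have hge : ∀ N, δ ≤ d N := fun N => ciInf_le hbdd N
  have hstep : ∀ N : ℕ, ∃ M : ℕ, N < M ∧ ∃ u : T, ‖u‖ ≤ 1 ∧ (∀ n, n ∉ Set.Ico N M → u.val n = 0) ∧
      δ / 2 < y u := by
    intro N
    obtain ⟨x, hx1, hx2⟩ := ContinuousLinearMap.exists_lt_apply_of_lt_opNorm (y.comp (Q N))
      (lt_of_lt_of_le (by linarith : δ / 2 < δ) (hge N))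
    obtain ⟨x', hx1', hx2'⟩ : ∃ x' : T, ‖x'‖ ≤ 1 ∧ δ / 2 < y (Q N x') := by
      rcases le_total 0 ((y.comp (Q N)) x) with h | h
      · exact ⟨x, hx1.le, by rwa [Real.norm_of_nonneg h] at hx2⟩
      · refine ⟨-x, by rw [norm_neg]; exact hx1.le, ?_⟩
        rw [Real.norm_of_nonpos h] at hx2
        rw [map_neg, map_neg]
        exact hx2
    have hc : Tendsto (fun M : ℕ => y (Q N x') - y (Q M x')) atTop (𝓝 (y (Q N x') - 0)) := by
      refine tendsto_const_nhds.sub ?_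
      refine squeeze_zero_norm (a := fun M => ‖y‖ * ‖Q M x'‖) (fun M => y.le_opNorm _) ?_
      have := (tail_tendsto x').const_mul ‖y‖
      rwa [mul_zero] at this
    rw [sub_zero] at hc
    have h1 := (hc.eventually (lt_mem_nhds hx2')).and (eventually_gt_atTop N)
    obtain ⟨M, hM1, hM2⟩ := h1.exists
    refine ⟨M, hM2, P (Set.Ico N M) x', (norm_P_le _ _).trans hx1', ?_, ?_⟩
    · intro n hn
      rw [P_val, Set.indicator_of_notMem hn]
    · rw [Q_sub _ hM2.le, map_sub]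
      exact hM1
  choose M hM U hU1 hU2 hU3 using hstep
  obtain ⟨K, hK1, hK⟩ := exists_S_gt (‖y‖ * 440 / (δ / 2))
  let a : ℕ → ℕ := fun k => Nat.rec ((3 * K) ^ 4) (fun _ N => M N) k
  have ha0 : a 0 = (3 * K) ^ 4 := rfl
  have ha1 : ∀ k, a (k+1) = M (a k) := fun k => rfl
  have hamono : StrictMono a := strictMono_nat_of_lt_succ fun k => by
    rw [ha1]
    exact hM _
  let u : ℕ → T := fun k => U (a k)
  have hup := upper K a hamono.monotone ha0.ge u (fun j => hU1 _) (fun j n hn => hU2 _ n hn)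
    (fun _ => 1) (L K) (L_pos K).le (fun F hF => sum_const_one_le K F hF)
  have h1 : (K : ℝ) * (δ / 2) ≤ ‖y‖ * (440 * L K) := by
    calc (K : ℝ) * (δ / 2) = ∑ j ∈ Finset.range K, (δ / 2) := by simp
      _ ≤ ∑ j ∈ Finset.range K, y ((1:ℝ) • u j) := by
          refine Finset.sum_le_sum fun j _ => ?_
          rw [one_smul]
          exact (hU3 _).le
      _ = y (∑ j ∈ Finset.range K, (1:ℝ) • u j) := by rw [map_sum]
      _ ≤ ‖y‖ * ‖∑ j ∈ Finset.range K, (1:ℝ) • u j‖ := (le_abs_self _).trans (y.le_opNorm _)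
      _ ≤ ‖y‖ * (440 * L K) := by gcongr
  rw [← L_mul_S K] at h1
  have h2 : S K * (δ / 2) ≤ ‖y‖ * 440 := by
    have h3 : L K * (S K * (δ / 2)) ≤ L K * (‖y‖ * 440) := by nlinarith
    exact le_of_mul_le_mul_left h3 (L_pos K)
  rw [div_lt_iff₀ (by positivity)] at hK
  linarith

/-- coordinate functional -/
noncomputable def coord (n : ℕ) : T →L[ℝ] ℝ :=
  ev (n := 1) (Finsupp.single n 1) (IsW.leaf 1 le_rfl n 1 (by simp))

@[simp] lemma coord_apply (n : ℕ) (x : T) : coord n x = x.val n := by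
  rw [coord, ev_apply, pair_single_left, one_mul]

lemma comp_P_lt (y : T →L[ℝ] ℝ) (N : ℕ) :
    y.comp (P {n | n < N}) = ∑ i ∈ Finset.range N, y (e i) • coord i := by
  ext z
  rw [ContinuousLinearMap.comp_apply, P_lt_eq, map_sum, _root_.sum_apply]
  refine Finset.sum_congr rfl fun i _ => ?_
  rw [map_smul, _root_.smul_apply, coord_apply, smul_eq_mul, smul_eq_mul, mul_comm]

lemma sub_comp_P_lt (y : T →L[ℝ] ℝ) (N : ℕ) : y - y.comp (P {n | n < N}) = y.comp (Q N) := by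
  ext z
  rw [_root_.sub_apply, ContinuousLinearMap.comp_apply, ContinuousLinearMap.comp_apply]
  conv_lhs => rw [← P_lt_add_Q N z]
  rw [map_add, P_lt_add_Q N z]
  ring

/-- the space is reflexive. -/
theorem T_reflexive' (Φ : (T →L[ℝ] ℝ) →L[ℝ] ℝ) : ∃ x : T, ∀ y : T →L[ℝ] ℝ, Φ y = y x := by
  have hev : ∀ n f (hf : IsW n f), (∑ n ∈ f.support, f n • coord n : T →L[ℝ] ℝ) = ev f hf := by
    intro n f hf
    ext z
    rw [_root_.sum_apply, ev_apply, pair_eq_sum]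
    refine Finset.sum_congr rfl fun n _ => ?_
    rw [_root_.smul_apply, coord_apply, smul_eq_mul]
  let x : T := T.mk (fun n => Φ (coord n)) (by
    refine ⟨‖Φ‖, fun n f hf => ?_⟩
    have h1 : pair f (fun n => Φ (coord n)) = Φ (ev f hf) := by
      rw [← hev n f hf, map_sum, pair_eq_sum]
      refine Finset.sum_congr rfl fun n _ => ?_
      rw [map_smul, smul_eq_mul]
    rw [h1]
    calc |Φ (ev f hf)| ≤ ‖Φ‖ * ‖ev f hf‖ := Φ.le_opNorm _
      _ ≤ ‖Φ‖ * 1 := by gcongr; exact norm_ev_le f hf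
      _ = _ := mul_one _)
  have hxv : ∀ n, x.val n = Φ (coord n) := fun n => rfl
  refine ⟨x, fun y => ?_⟩
  have h1 : ∀ N : ℕ, Φ (y.comp (P {n | n < N})) = (y.comp (P {n | n < N})) x := by
    intro N
    rw [comp_P_lt, map_sum, _root_.sum_apply]
    refine Finset.sum_congr rfl fun i _ => ?_
    rw [map_smul, _root_.smul_apply, coord_apply, hxv]
  have h2 : ∀ N : ℕ, |y x - Φ y| ≤ (‖x‖ + ‖Φ‖) * ‖y.comp (Q N)‖ := by
    intro N
    have h3 : y x - Φ y = (y.comp (Q N)) x - Φ (y.comp (Q N)) := by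
      rw [← sub_comp_P_lt y N, map_sub, _root_.sub_apply, h1]
      ring
    rw [h3]
    calc |(y.comp (Q N)) x - Φ (y.comp (Q N))| ≤ |(y.comp (Q N)) x| + |Φ (y.comp (Q N))| :=
          abs_sub _ _
      _ ≤ ‖y.comp (Q N)‖ * ‖x‖ + ‖Φ‖ * ‖y.comp (Q N)‖ :=
          add_le_add ((y.comp (Q N)).le_opNorm x) (Φ.le_opNorm _)
      _ = _ := by ring
  have h4 : Tendsto (fun N => (‖x‖ + ‖Φ‖) * ‖y.comp (Q N)‖) atTop (𝓝 ((‖x‖ + ‖Φ‖) * 0)) :=
    (shrinking y).const_mul _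
  rw [mul_zero] at h4
  have h5 : |y x - Φ y| ≤ 0 := ge_of_tendsto' h4 h2
  have h6 : y x - Φ y = 0 := abs_nonpos_iff.1 h5
  linarith

theorem T_reflexive : Function.Surjective (NormedSpace.inclusionInDoubleDual ℝ T) := by
  intro Φ
  obtain ⟨x, hx⟩ := T_reflexive' Φ
  refine ⟨x, ?_⟩
  ext y
  rw [NormedSpace.dual_def]
  exact (hx y).symm

end Pool.Agent.Helper224.Usm
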