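import Pool.Agent.Helper224.Usm6

set_option autoImplicit false
open Filter Topology

namespace Pool.Agent.Helper224.Usm

/-- `N` is the spreading model of `x` -/
def Spr (x : ℕ → T) (N : ∀ k : ℕ, (Fin k → ℝ) → ℝ) : Prop :=
  ∀ (k : ℕ) (a : Fin k → ℝ) (ε : ℝ), 0 < ε → ∃ m : ℕ, ∀ n : Fin k → ℕ,
    StrictMono n → (∀ i, m ≤ n i) → |‖∑ i, a i • x (n i)‖ - N k a| < ε

/-- extension of a finite sequence by zero -/
noncomputable def ext0 {k : ℕ} (a : Fin k → ℝ) (j : ℕ) : ℝ := if h : j < k then a ⟨j, h⟩ else 0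

lemma ext0_apply {k : ℕ} (a : Fin k → ℝ) (i : Fin k) : ext0 a i = a i := by
  unfold ext0
  rw [dif_pos i.2]

lemma sum_ext0 {k : ℕ} (a : Fin k → ℝ) (x : ℕ → T) (n : ℕ → ℕ) :
    ∑ i, a i • x (n i) = ∑ j ∈ Finset.range k, ext0 a j • x (n j) := by
  rw [Finset.sum_range]
  refine Finset.sum_congr rfl fun i _ => ?_
  rw [ext0_apply]

lemma sum_abs_ext0 {k : ℕ} (a : Fin k → ℝ) :
    ∑ i, |a i| = ∑ j ∈ Finset.range k, |ext0 a j| := by
  rw [Finset.sum_range]
  refine Finset.sum_congr rfl fun i _ => ?_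
  rw [ext0_apply]

lemma sum_map_ext0 {k : ℕ} (a : Fin k → ℝ) (F : Finset (Fin k)) :
    ∑ j ∈ F.map Fin.valEmbedding, |ext0 a j| = ∑ i ∈ F, |a i| := by
  rw [Finset.sum_map]
  refine Finset.sum_congr rfl fun i _ => ?_
  rw [Fin.valEmbedding_apply, ext0_apply]

lemma exists_map {k : ℕ} (F : Finset ℕ) (hF : F ⊆ Finset.range k) :
    ∃ F' : Finset (Fin k), F = F'.map Fin.valEmbedding := by
  classical
  refine ⟨Finset.univ.filter fun i : Fin k => (i : ℕ) ∈ F, ?_⟩
  ext j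
  simp only [Finset.mem_map, Finset.mem_filter, Finset.mem_univ, true_and, Fin.valEmbedding_apply]
  constructor
  · intro hj
    exact ⟨⟨j, Finset.mem_range.1 (hF hj)⟩, hj, rfl⟩
  · rintro ⟨i, hi, rfl⟩
    exact hi

theorem spr_nonneg {x : ℕ → T} {N : ∀ k : ℕ, (Fin k → ℝ) → ℝ} (h : Spr x N) (k : ℕ)
    (a : Fin k → ℝ) : 0 ≤ N k a := by
  refine le_of_forall_pos_le_add fun ε hε => ?_
  obtain ⟨m, hm⟩ := h k a ε hε
  have h1 := hm (fun i => m + i) (fun i j hij => by simpa using hij) (fun i => Nat.le_add_right _ _)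
  have h2 := norm_nonneg (∑ i, a i • x (m + i))
  have h3 := (abs_lt.1 h1).2
  linarith

theorem spr_upper {x : ℕ → T} {N : ∀ k : ℕ, (Fin k → ℝ) → ℝ} (hx : ∀ n, ‖x n‖ = 1)
    (hc : ∀ p, Tendsto (fun n => (x n).val p) atTop (𝓝 0)) (h : Spr x N) (k : ℕ)
    (a : Fin k → ℝ) (B : ℝ) (hB0 : 0 ≤ B)
    (hB : ∀ F : Finset (Fin k), ∑ i ∈ F, |a i| ≤ B * S F.card) : N k a ≤ 440 * B := by
  refine le_of_forall_pos_le_add fun η hη => ?_
  obtain ⟨m, hm⟩ := h k a (η / 2) (by positivity)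
  set A : ℝ := ∑ j ∈ Finset.range k, |ext0 a j| with hA
  have hA0 : 0 ≤ A := Finset.sum_nonneg fun _ _ => abs_nonneg _
  let η' : ℝ := η / 2 / (A + 1)
  have hη' : 0 < η' := by positivity
  obtain ⟨F, hF1, hF2⟩ := exists_seq_of_forall_finset_exists (α := ℕ × ℕ × ℕ)
    (fun t => m ≤ t.1 ∧ (3 * k) ^ 4 ≤ t.2.1 ∧ t.2.1 ≤ t.2.2 ∧
      ‖x t.1 - P (Set.Ico t.2.1 t.2.2) (x t.1)‖ ≤ η')
    (fun t t' => t.1 < t'.1 ∧ t.2.2 ≤ t'.2.1) (by
    intro D _
    have h1 : ∀ᶠ lo in atTop, ∀ t ∈ D, t.2.2 ≤ lo := by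
      rw [Filter.eventually_all_finset]
      intro t _
      exact eventually_ge_atTop _
    obtain ⟨lo, hlo, hlo'⟩ := (h1.and (eventually_ge_atTop ((3 * k) ^ 4))).exists
    have h2 : ∀ᶠ n in atTop, ∀ t ∈ D, t.1 < n := by
      rw [Filter.eventually_all_finset]
      intro t _
      exact eventually_gt_atTop _
    have h3 := (tendsto_P_lt x hc lo).eventually (gt_mem_nhds (half_pos hη'))
    obtain ⟨n, ⟨hn, hn'⟩, hnm⟩ := ((h2.and h3).and (eventually_ge_atTop m)).exists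
    have h4 := (tail_tendsto (x n)).eventually (gt_mem_nhds (half_pos hη'))
    obtain ⟨hi, hhi, hhi'⟩ := (h4.and (eventually_ge_atTop lo)).exists
    refine ⟨(n, lo, hi), ⟨hnm, hlo', hhi', ?_⟩, fun t ht => ⟨hn t ht, hlo t ht⟩⟩
    have h5 : x n - P (Set.Ico lo hi) (x n) = P {p | p < lo} (x n) + Q hi (x n) := by
      rw [Q_sub _ hhi', eq_sub_of_add_eq (P_lt_add_Q lo (x n))]
      abel
    show ‖x n - P (Set.Ico lo hi) (x n)‖ ≤ η'
    rw [h5]
    refine (norm_add_le _ _).trans ?_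
    linarith)
  let n : ℕ → ℕ := fun j => (F j).1
  let lo : ℕ → ℕ := fun j => (F j).2.1
  let hi : ℕ → ℕ := fun j => (F j).2.2
  have hlomono : Monotone lo := monotone_nat_of_le_succ fun j =>
    (hF1 j).2.2.1.trans (hF2 j (j+1) (Nat.lt_succ_self j)).2
  let y : ℕ → T := fun j => P (Set.Ico (lo j) (hi j)) (x (n j))
  have hy1 : ∀ j, ‖y j‖ ≤ 1 := fun j => (norm_P_le _ _).trans (hx _).le
  have hy : ∀ j p, p ∉ Set.Ico (lo j) (lo (j+1)) → (y j).val p = 0 := by
    intro j p hp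
    rw [P_val, Set.indicator_of_notMem]
    intro hmem
    exact hp ⟨hmem.1, lt_of_lt_of_le hmem.2 (hF2 j (j+1) (Nat.lt_succ_self j)).2⟩
  have hup := upper k lo hlomono (hF1 0).2.1 y hy1 hy (ext0 a) B hB0 (by
    intro G hG
    obtain ⟨F', rfl⟩ := exists_map G hG
    rw [sum_map_ext0, Finset.card_map]
    exact hB F')
  have hdiff : ‖∑ j ∈ Finset.range k, ext0 a j • x (n j) -
      ∑ j ∈ Finset.range k, ext0 a j • y j‖ ≤ η / 2 := by
    rw [← Finset.sum_sub_distrib]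
    calc ‖∑ j ∈ Finset.range k, (ext0 a j • x (n j) - ext0 a j • y j)‖
        ≤ ∑ j ∈ Finset.range k, ‖ext0 a j • x (n j) - ext0 a j • y j‖ := norm_sum_le _ _
      _ ≤ ∑ j ∈ Finset.range k, |ext0 a j| * η' := by
          refine Finset.sum_le_sum fun j _ => ?_
          rw [← smul_sub, norm_smul, Real.norm_eq_abs]
          gcongr
          exact (hF1 j).2.2.2
      _ = A * η' := by rw [← Finset.sum_mul]
      _ ≤ (A + 1) * η' := by gcongr; linarith
      _ = η / 2 := by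
          simp only [η']
          field_simp
  have h1 := hm (fun i => n i) (fun i j hij => (hF2 i j hij).1) (fun i => (hF1 i).1)
  rw [sum_ext0] at h1
  have h2 := (abs_lt.1 h1).1
  have h3 := norm_le_norm_add_norm_sub' (∑ j ∈ Finset.range k, ext0 a j • x (n j))
    (∑ j ∈ Finset.range k, ext0 a j • y j)
  linarith

theorem spr_lower {x : ℕ → T} {N : ∀ k : ℕ, (Fin k → ℝ) → ℝ} (hx : ∀ n, ‖x n‖ = 1)
    (hc : ∀ p, Tendsto (fun n => (x n).val p) atTop (𝓝 0)) (h : Spr x N) :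
    ∃ c > 0, ∀ (k : ℕ) (a : Fin k → ℝ) (F : Finset (Fin k)),
      c * ∑ i ∈ F, |a i| ≤ S F.card * N k a := by
  obtain ⟨δ, hδ, hsys⟩ := lower_system x hx hc (fun n => tail_tendsto (x n))
  refine ⟨δ / 2, by positivity, fun k a F => ?_⟩
  rcases F.eq_empty_or_nonempty with rfl | hne
  · simp [S_zero]
  have hF1 : 1 ≤ F.card := Finset.card_pos.2 hne
  have hSp := S_pos hF1
  refine le_of_forall_pos_le_add fun η hη => ?_
  obtain ⟨m, hm⟩ := h k a (η / (2 * S F.card)) (by positivity)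
  set A : ℝ := ∑ j ∈ Finset.range k, |ext0 a j| with hA
  have hA0 : 0 ≤ A := Finset.sum_nonneg fun _ _ => abs_nonneg _
  let ε : ℝ := η / (F.card * A + 1)
  have hε : 0 < ε := by positivity
  obtain ⟨n, s, g, hn, hnm, hg, hgs, hgr, hlow, hcross⟩ := hsys ε hε m
  let E : Finset ℕ := F.map Fin.valEmbedding
  have hEcard : E.card = F.card := Finset.card_map _
  have hEsub : E ⊆ Finset.range k := by
    intro j hj
    rw [Finset.mem_map] at hj
    obtain ⟨i, _, rfl⟩ := hj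
    exact Finset.mem_range.2 i.2
  let g' : ℕ → (ℕ →₀ ℝ) := fun j => if 0 ≤ ext0 a j then g j else -(g j)
  have hsupp : ∀ j, (g' j).support = (g j).support := by
    intro j
    simp only [g']
    split_ifs
    · rfl
    · exact Finsupp.support_neg _
  have hW : IsW F.card ((1 / (2 * S F.card) : ℝ) • ∑ j ∈ E, g' j) := by
    refine IsW.node F.card hF1 E hEcard.le s g' ?_ ?_ ?_
    · intro j _
      simp only [g']
      split_ifs
      · exact hg j
      · exact (hg j).neg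
    · intro i _ j _ hij p hp q hq
      rw [hsupp] at hp hq
      exact hgs i j hij p hp q hq
    · intro i _ j _ hij p hp
      rw [hsupp] at hp
      exact hgr i j hij p hp
  have h1 := (le_abs_self _).trans (pair_le_norm (∑ j ∈ Finset.range k, ext0 a j • x (n j)) hW)
  rw [pair_smul_left, pair_sum_left, one_div, inv_mul_le_iff₀ (by positivity)] at h1
  have h2 : ∀ j ∈ E, δ * |ext0 a j| - A * ε ≤
      pair (g' j) (∑ i ∈ Finset.range k, ext0 a i • x (n i)).val := by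
    intro j hj
    have hexp : ∀ f : ℕ →₀ ℝ, pair f (∑ i ∈ Finset.range k, ext0 a i • x (n i)).val =
        ∑ i ∈ Finset.range k, ext0 a i * pair f (x (n i)).val := by
      intro f
      rw [val_sum]
      simp only [pair_eq_sum, Finset.sum_apply, T.val_smul, Pi.smul_apply, smul_eq_mul,
        Finset.mul_sum]
      rw [Finset.sum_comm]
      refine Finset.sum_congr rfl fun i _ => Finset.sum_congr rfl fun p _ => by ring
    rw [hexp, ← Finset.add_sum_erase _ _ (hEsub hj)]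
    have hmain : δ * |ext0 a j| ≤ ext0 a j * pair (g' j) (x (n j)).val := by
      simp only [g']
      split_ifs with h0
      · rw [abs_of_nonneg h0, mul_comm]
        gcongr
        exact hlow j
      · push Not at h0
        rw [abs_of_neg h0, pair_neg_left]
        have := hlow j
        nlinarith
    have habs : ∀ i, |pair (g' j) (x (n i)).val| = |pair (g j) (x (n i)).val| := by
      intro i
      simp only [g']
      split_ifs
      · rfl
      · rw [pair_neg_left, abs_neg]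
    have herr : |∑ i ∈ (Finset.range k).erase j, ext0 a i * pair (g' j) (x (n i)).val| ≤ A * ε := by
      refine (Finset.abs_sum_le_sum_abs _ _).trans ?_
      calc ∑ i ∈ (Finset.range k).erase j, |ext0 a i * pair (g' j) (x (n i)).val|
          ≤ ∑ i ∈ (Finset.range k).erase j, |ext0 a i| * ε := by
            refine Finset.sum_le_sum fun i hi => ?_
            rw [abs_mul, habs]
            gcongr
            exact hcross j i (Ne.symm (Finset.ne_of_mem_erase hi))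
        _ ≤ ∑ i ∈ Finset.range k, |ext0 a i| * ε := by
            refine Finset.sum_le_sum_of_subset_of_nonneg (Finset.erase_subset _ _) ?_
            intro i _ _
            positivity
        _ = A * ε := by rw [← Finset.sum_mul]
    have := (abs_le.1 herr).1
    linarith
  have h3 : δ * ∑ i ∈ F, |a i| - F.card * (A * ε) ≤
      2 * S F.card * ‖∑ j ∈ Finset.range k, ext0 a j • x (n j)‖ := by
    refine le_trans ?_ h1
    calc δ * ∑ i ∈ F, |a i| - F.card * (A * ε) = ∑ j ∈ E, (δ * |ext0 a j| - A * ε) := by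
          rw [Finset.sum_sub_distrib, ← Finset.mul_sum, sum_map_ext0, Finset.sum_const, hEcard,
            nsmul_eq_mul]
      _ ≤ _ := Finset.sum_le_sum h2
  have h4 : F.card * (A * ε) ≤ η := by
    have h5 : (F.card * A + 1) * ε = η := by
      simp only [ε]
      field_simp
    nlinarith
  have h6 := hm (fun i => n i) (fun i j hij => hn hij) (fun i => hnm i)
  rw [sum_ext0] at h6
  have h7 := (abs_lt.1 h6).2
  have h8 : S F.card * (‖∑ j ∈ Finset.range k, ext0 a j • x (n j)‖ - N k a) ≤ η / 2 := by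
    calc S F.card * (‖∑ j ∈ Finset.range k, ext0 a j • x (n j)‖ - N k a)
        ≤ S F.card * (η / (2 * S F.card)) := by gcongr
      _ = η / 2 := by field_simp
  nlinarith

/-- any two spreading models are equivalent -/
theorem spr_equiv {x y : ℕ → T} {N M : ∀ k : ℕ, (Fin k → ℝ) → ℝ}
    (hx : ∀ n, ‖x n‖ = 1) (hxc : ∀ p, Tendsto (fun n => (x n).val p) atTop (𝓝 0)) (hN : Spr x N)
    (hy : ∀ n, ‖y n‖ = 1) (hyc : ∀ p, Tendsto (fun n => (y n).val p) atTop (𝓝 0)) (hM : Spr y M) :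
    ∃ C > 0, ∀ (k : ℕ) (a : Fin k → ℝ), N k a ≤ C * M k a := by
  obtain ⟨c, hc, hlow⟩ := spr_lower hy hyc hM
  refine ⟨440 / c, by positivity, fun k a => ?_⟩
  have h1 := spr_upper hx hxc hN k a (M k a / c) (div_nonneg (spr_nonneg hM k a) hc.le) (by
    intro F
    have h2 := hlow k a F
    rw [div_mul_eq_mul_div, le_div_iff₀ hc]
    linarith)
  calc N k a ≤ 440 * (M k a / c) := h1
    _ = 440 / c * M k a := by ring

/-- growth of spreading models -/
theorem spr_ones_upper {x : ℕ → T} {N : ∀ k : ℕ, (Fin k → ℝ) → ℝ} (hx : ∀ n, ‖x n‖ = 1)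
    (hc : ∀ p, Tendsto (fun n => (x n).val p) atTop (𝓝 0)) (h : Spr x N) (k : ℕ) :
    N k (fun _ => 1) ≤ 440 * L k := by
  refine spr_upper hx hc h k _ (L k) (L_pos k).le fun F => ?_
  have h1 := sum_const_one_le k (F.map Fin.valEmbedding) (by
    intro j hj
    rw [Finset.mem_map] at hj
    obtain ⟨i, _, rfl⟩ := hj
    exact Finset.mem_range.2 i.2)
  rw [Finset.card_map] at h1
  simpa using h1

theorem spr_ones_lower {x : ℕ → T} {N : ∀ k : ℕ, (Fin k → ℝ) → ℝ} (hx : ∀ n, ‖x n‖ = 1)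
    (hc : ∀ p, Tendsto (fun n => (x n).val p) atTop (𝓝 0)) (h : Spr x N) :
    ∃ c > 0, ∀ k : ℕ, 1 ≤ k → c * L k ≤ N k (fun _ => 1) := by
  obtain ⟨c, hc', hlow⟩ := spr_lower hx hc h
  refine ⟨c, hc', fun k hk => ?_⟩
  have h1 := hlow k (fun _ => 1) Finset.univ
  have h2 := S_pos hk
  simp only [abs_one, Finset.sum_const, Finset.card_univ, Fintype.card_fin, nsmul_eq_mul,
    mul_one] at h1
  rw [← L_mul_S k] at h1
  have h3 : S k * (c * L k) ≤ S k * N k (fun _ => 1) := by linarith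
  exact le_of_mul_le_mul_left h3 h2

theorem not_lp {x : ℕ → T} {N : ∀ k : ℕ, (Fin k → ℝ) → ℝ} (hx : ∀ n, ‖x n‖ = 1)
    (hc : ∀ p, Tendsto (fun n => (x n).val p) atTop (𝓝 0)) (h : Spr x N) (p : ℝ) (hp : 1 ≤ p)
    (C : ℝ) (hC : 0 < C)
    (hlp : ∀ (k : ℕ) (a : Fin k → ℝ), (∑ i, |a i| ^ p) ^ (1 / p) ≤ C * N k a) : False := by
  have h1 : ∀ k : ℕ, (k : ℝ) ^ (1 / p) ≤ C * (440 * L k) := by
    intro k
    have h2 := hlp k (fun _ => 1)
    simp only [abs_one, Real.one_rpow, Finset.sum_const, Finset.card_univ, Fintype.card_fin,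
      nsmul_eq_mul, mul_one] at h2
    refine h2.trans ?_
    gcongr
    exact spr_ones_upper hx hc h k
  set r : ℝ := (2:ℝ) ^ (1 / p) with hr
  have hr1 : 1 < r := Real.one_lt_rpow (by norm_num) (by positivity)
  have h2 : ∀ n : ℕ, r ^ n ≤ C * (440 * (1 + n)) := by
    intro n
    have h3 := h1 (2 ^ n)
    unfold L at h3
    rw [Nat.log_pow (by norm_num)] at h3
    refine le_trans (le_of_eq ?_) h3
    rw [hr, ← Real.rpow_natCast, ← Real.rpow_mul (by norm_num)]
    push_cast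
    rw [← Real.rpow_natCast 2 n, ← Real.rpow_mul (by norm_num), mul_comm]
  have h3 : Tendsto (fun n : ℕ => C * 440 * (((n:ℝ) ^ 0 / r ^ n) + (n:ℝ) ^ 1 / r ^ n)) atTop
      (𝓝 (C * 440 * (0 + 0))) :=
    ((tendsto_pow_const_div_const_pow_of_one_lt 0 hr1).add
      (tendsto_pow_const_div_const_pow_of_one_lt 1 hr1)).const_mul _
  rw [add_zero, mul_zero] at h3
  obtain ⟨n, hn⟩ := (h3.eventually (gt_mem_nhds one_pos)).exists
  have hrn : 0 < r ^ n := by positivity
  have h4 := h2 n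
  have h5 : C * 440 * (((n:ℝ) ^ 0 / r ^ n) + (n:ℝ) ^ 1 / r ^ n) = C * (440 * (1 + n)) / r ^ n := by
    field_simp
  rw [h5, div_lt_one hrn] at hn
  linarith

theorem not_c0 {x : ℕ → T} {N : ∀ k : ℕ, (Fin k → ℝ) → ℝ} (hx : ∀ n, ‖x n‖ = 1)
    (hc : ∀ p, Tendsto (fun n => (x n).val p) atTop (𝓝 0)) (h : Spr x N)
    (C : ℝ) (hC : ∀ k : ℕ, 1 ≤ k → N k (fun _ => 1) ≤ C) : False := by
  obtain ⟨c, hc', hlow⟩ := spr_ones_lower hx hc h
  obtain ⟨K, hK1, hK⟩ := exists_L_gt (C / c)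
  have h1 := hlow K hK1
  have h2 := hC K hK1
  rw [div_lt_iff₀ hc'] at hK
  linarith

/-- the unit vectors are weakly null -/
theorem e_weakly_null (f : T →L[ℝ] ℝ) : Tendsto (fun n => f (e n)) atTop (𝓝 0) := by
  rw [Metric.tendsto_atTop]
  intro ε hε
  obtain ⟨N, hN⟩ := ((shrinking f).eventually (gt_mem_nhds hε)).exists
  refine ⟨N, fun n hn => ?_⟩
  have h1 : Q N (e n) = e n := by
    apply T.ext
    ext p
    rw [P_val, e_val]
    by_cases hp : N ≤ p
    · rw [Set.indicator_of_mem (by exact hp)]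
    · rw [Set.indicator_of_notMem (by exact hp), Pi.single_eq_of_ne (by omega)]
  rw [Real.dist_eq, sub_zero]
  have h2 := (f.comp (Q N)).le_opNorm (e n)
  rw [ContinuousLinearMap.comp_apply, h1, norm_e, mul_one] at h2
  exact lt_of_le_of_lt h2 hN

lemma coord_tendsto {x : ℕ → T} (hx : ∀ f : T →L[ℝ] ℝ, Tendsto (fun n => f (x n)) atTop (𝓝 0))
    (p : ℕ) : Tendsto (fun n => (x n).val p) atTop (𝓝 0) := by
  simpa using hx (coord p)

lemma sum_e_val {k : ℕ} (a : Fin k → ℝ) (n : Fin k → ℕ) (hn : StrictMono n) (i : Fin k) :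
    (∑ j, a j • e (n j)).val (n i) = a i := by
  rw [val_sum, Finset.sum_apply, Finset.sum_eq_single i]
  · simp
  · intro j _ hj
    rw [T.val_smul, Pi.smul_apply, e_val, Pi.single_eq_of_ne (hn.injective.ne (Ne.symm hj)), smul_zero]
  · simp

lemma sum_e_val' {k : ℕ} (a : Fin k → ℝ) (n : Fin k → ℕ) (p : ℕ) (hp : p ∉ Set.range n) :
    (∑ j, a j • e (n j)).val p = 0 := by
  rw [val_sum, Finset.sum_apply]
  refine Finset.sum_eq_zero fun j _ => ?_
  rw [T.val_smul, Pi.smul_apply, e_val, Pi.single_eq_of_ne, smul_zero]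
  rintro rfl
  exact hp ⟨j, rfl⟩

/-- spreading to the right decreases the norm -/
lemma norm_anti {k : ℕ} (a : Fin k → ℝ) (n n' : Fin k → ℕ) (hn : StrictMono n)
    (hn' : StrictMono n') (h : ∀ i, n i ≤ n' i) :
    ‖∑ i, a i • e (n' i)‖ ≤ ‖∑ i, a i • e (n i)‖ := by
  refine norm_le (norm_nonneg _) fun s f hf => ?_
  let ψ : ℕ → ℕ := Function.extend n' n id
  have hψ : ∀ i, ψ (n' i) = n i := fun i => hn'.injective.extend_apply _ _ _
  have h1 : IsW s ((cut (Set.range n') f).mapDomain ψ) := by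
    refine hf.push (Set.range n') ψ ?_ ?_
    · rintro _ ⟨i, rfl⟩
      rw [hψ]
      exact h i
    · rintro _ ⟨i, rfl⟩ _ ⟨j, rfl⟩ hij
      rw [hψ, hψ]
      exact hn (hn'.lt_iff_lt.1 hij)
  have h2 : pair f (∑ i, a i • e (n' i)).val =
      pair ((cut (Set.range n') f).mapDomain ψ) (∑ i, a i • e (n i)).val := by
    rw [pair_mapDomain, ← pair_cut]
    congr 1
    ext p
    by_cases hp : p ∈ Set.range n'
    · rw [Set.indicator_of_mem hp]
      obtain ⟨i, rfl⟩ := hp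
      rw [sum_e_val a n' hn', Function.comp_apply, hψ, sum_e_val a n hn]
    · rw [Set.indicator_of_notMem hp, sum_e_val' a n' p hp]
  rw [h2]
  exact pair_le_norm _ h1

/-- the spreading model of the unit vectors -/
noncomputable def Ne (k : ℕ) (a : Fin k → ℝ) : ℝ :=
  sInf {r | ∃ n : Fin k → ℕ, StrictMono n ∧ r = ‖∑ i, a i • e (n i)‖}

theorem spr_e : Spr e Ne := by
  intro k a ε hε
  set V : Set ℝ := {r | ∃ n : Fin k → ℕ, StrictMono n ∧ r = ‖∑ i, a i • e (n i)‖} with hV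
  have hne : V.Nonempty := ⟨_, fun i => (i : ℕ), fun i j hij => hij, rfl⟩
  have hbdd : BddBelow V := ⟨0, by
    rintro _ ⟨n, _, rfl⟩
    exact norm_nonneg _⟩
  obtain ⟨r, ⟨n₀, hn₀, rfl⟩, hr⟩ := exists_lt_of_csInf_lt hne (lt_add_of_pos_right (sInf V) hε)
  refine ⟨∑ i, n₀ i, fun n hn hm => ?_⟩
  have h1 : ‖∑ i, a i • e (n i)‖ ≤ ‖∑ i, a i • e (n₀ i)‖ :=
    norm_anti a n₀ n hn₀ hn fun i =>
      (Finset.single_le_sum (f := n₀) (fun _ _ => Nat.zero_le _) (Finset.mem_univ i)).trans (hm i)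
  have h2 : sInf V ≤ ‖∑ i, a i • e (n i)‖ := csInf_le hbdd ⟨n, hn, rfl⟩
  have h3 : Ne k a = sInf V := rfl
  rw [h3, abs_lt]
  constructor <;> linarith

end Pool.Agent.Helper224.Usm
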