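import Pool.Agent.Helper224.Usm7

set_option autoImplicit false
open Filter Topology

namespace Pool.Agent.Helper224.Usm

lemma S_almost_mono {m n : ℕ} (h : m ≤ n) : S m ≤ 2 * S n := by
  rcases Nat.eq_zero_or_pos m with rfl | hm
  · rw [S_zero]
    have := S_nonneg n
    positivity
  unfold S
  rw [← mul_div_assoc, div_le_div_iff₀ (L_pos m) (L_pos n)]
  unfold L
  have hab : Nat.log 2 m ≤ Nat.log 2 n := Nat.log_mono_right h
  obtain ⟨t, ht⟩ := Nat.exists_eq_add_of_le hab
  have h1 : m < 2 ^ (Nat.log 2 m + 1) := Nat.lt_pow_succ_log_self (by norm_num) m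
  have h2 : 2 ^ (Nat.log 2 n) ≤ n := Nat.pow_log_le_self 2 (by omega)
  have h3 : 2 ^ t * m ≤ 2 * n := by
    calc 2 ^ t * m ≤ 2 ^ t * 2 ^ (Nat.log 2 m + 1) := Nat.mul_le_mul_left _ h1.le
      _ = 2 * 2 ^ (Nat.log 2 n) := by rw [ht]; ring
      _ ≤ 2 * n := Nat.mul_le_mul_left _ h2
  have h3' : (2:ℝ) ^ t * m ≤ 2 * n := by exact_mod_cast h3
  rw [ht]
  push_cast
  have h4 : (t : ℝ) + 1 ≤ 2 ^ t := by
    have : t + 1 ≤ 2 ^ t := Nat.lt_two_pow_self
    exact_mod_cast this
  have h5 : (0:ℝ) ≤ (Nat.log 2 m : ℝ) := Nat.cast_nonneg _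
  have h6 : (0:ℝ) ≤ m := Nat.cast_nonneg _
  have h7 : (0:ℝ) ≤ t := Nat.cast_nonneg _
  calc (m:ℝ) * (1 + ((Nat.log 2 m : ℝ) + t)) ≤ m * ((1 + (Nat.log 2 m : ℝ)) * 2 ^ t) := by
        gcongr
        nlinarith
    _ = (2 ^ t * m) * (1 + (Nat.log 2 m : ℝ)) := by ring
    _ ≤ 2 * n * (1 + (Nat.log 2 m : ℝ)) := by gcongr

section james

variable {E : Type} [NormedAddCommGroup E] [NormedSpace ℝ E]

/-- a consequence of reflexivity -/
theorem james (hE : Function.Surjective (NormedSpace.inclusionInDoubleDual ℝ E)) (s : ℕ → E)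
    (C : ℝ) (hs : ∀ n, ‖s n‖ ≤ C) :
    ∃ z : E, ∀ m : ℕ, z ∈ closure (convexHull ℝ (s '' {l | m ≤ l})) := by
  let K : Set (WeakDual ℝ (StrongDual ℝ E)) := WeakDual.toStrongDual ⁻¹' Metric.closedBall 0 C
  have hK : IsCompact K := WeakDual.isCompact_closedBall 0 C
  let u : ℕ → WeakDual ℝ (StrongDual ℝ E) := fun n =>
    StrongDual.toWeakDual (NormedSpace.inclusionInDoubleDual ℝ E (s n))
  have hu : ∀ n, u n ∈ K := by
    intro n
    have h1 : ‖NormedSpace.inclusionInDoubleDual ℝ E (s n)‖ ≤ C :=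
      (NormedSpace.double_dual_bound ℝ E (s n)).trans (hs n)
    have h2 := (mem_closedBall_zero_iff (E := StrongDual ℝ (StrongDual ℝ E))
      (a := NormedSpace.inclusionInDoubleDual ℝ E (s n)) (r := C)).2 h1
    exact h2
  obtain ⟨φ, -, hφ⟩ := hK.exists_mapClusterPt (f := atTop) (u := u)
    (by rw [le_principal_iff, mem_map]; exact Filter.univ_mem' hu)
  obtain ⟨z, hz⟩ := hE (WeakDual.toStrongDual φ)
  refine ⟨z, fun m => ?_⟩
  by_contra hcon
  obtain ⟨f, r, hf1, hf2⟩ := geometric_hahn_banach_closed_point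
    (convex_convexHull ℝ (s '' {l | m ≤ l})).closure isClosed_closure hcon
  have h1 : MapClusterPt (φ f) atTop (fun n => f (s n)) :=
    hφ.continuousAt_comp (f := fun ψ : WeakDual ℝ (StrongDual ℝ E) => ψ f)
      (WeakDual.eval_continuous f).continuousAt
  have h2 : φ f = f z := by
    have := congrArg (fun ψ : StrongDual ℝ (StrongDual ℝ E) => ψ f) hz
    simpa using this.symm
  rw [h2] at h1
  have h3 := h1.frequently (lt_mem_nhds hf2)
  obtain ⟨n, hn, hn'⟩ := (h3.and_eventually (eventually_ge_atTop m)).exists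
  have h4 := hf1 (s n) (subset_closure (subset_convexHull ℝ _ ⟨n, hn', rfl⟩))
  exact lt_asymm hn h4

end james

section seq

variable {E : Type} [NormedAddCommGroup E] [NormedSpace ℝ E]

/-- upper estimate -/
def Upper (d : ℕ → E) (C : ℝ) : Prop := ∀ (k : ℕ) (a : ℕ → ℝ) (B : ℝ), 0 ≤ B →
  (∀ F ⊆ Finset.range k, ∑ i ∈ F, |a i| ≤ B * S F.card) →
  ‖∑ i ∈ Finset.range k, a i • d i‖ ≤ C * B

/-- lower estimate -/
def Lower (d : ℕ → E) (c : ℝ) : Prop := ∀ (k : ℕ) (a : ℕ → ℝ) (F : Finset ℕ), F ⊆ Finset.range k →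
  c * ∑ i ∈ F, |a i| ≤ S F.card * ‖∑ i ∈ Finset.range k, a i • d i‖

open Classical in
lemma upper_signs {d : ℕ → E} {C : ℝ} (hd : Upper d C) (F : Finset ℕ) (σ : ℕ → ℝ)
    (hσ : ∀ i, |σ i| ≤ 1) : ‖∑ i ∈ F, σ i • d i‖ ≤ C * (2 * L F.card) := by
  have hF : F ⊆ Finset.range (F.sup id + 1) := by
    intro i hi
    rw [Finset.mem_range, Nat.lt_succ_iff]
    exact Finset.le_sup (f := id) hi
  have h1 := hd (F.sup id + 1) (fun i => if i ∈ F then σ i else 0) (2 * L F.card)
    (by have := L_pos F.card; positivity) (by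
    intro G _
    have h2 : ∑ i ∈ G, |if i ∈ F then σ i else 0| ≤ (G ∩ F).card := by
      calc ∑ i ∈ G, |if i ∈ F then σ i else 0| ≤ ∑ i ∈ G, (if i ∈ F then (1:ℝ) else 0) := by
            refine Finset.sum_le_sum fun i _ => ?_
            split_ifs
            · exact hσ i
            · simp
        _ = (G ∩ F).card := by
            rw [← Finset.sum_filter, Finset.sum_const, Finset.filter_mem_eq_inter]
            simp
    refine h2.trans ?_
    have h3 := L_pos F.card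
    have h4 := S_nonneg G.card
    rcases le_total G.card F.card with hle | hle
    · have h5 : ((G ∩ F).card : ℝ) ≤ G.card := by
        exact_mod_cast Finset.card_le_card Finset.inter_subset_left
      have h6 := L_mono hle
      calc ((G ∩ F).card : ℝ) ≤ G.card := h5
        _ = L G.card * S G.card := (L_mul_S _).symm
        _ ≤ L F.card * S G.card := by gcongr
        _ ≤ 2 * L F.card * S G.card := by nlinarith [mul_nonneg h3.le h4]
    · have h5 : ((G ∩ F).card : ℝ) ≤ F.card := by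
        exact_mod_cast Finset.card_le_card Finset.inter_subset_right
      have h6 := S_almost_mono hle
      calc ((G ∩ F).card : ℝ) ≤ F.card := h5
        _ = L F.card * S F.card := (L_mul_S _).symm
        _ ≤ L F.card * (2 * S G.card) := by gcongr
        _ = 2 * L F.card * S G.card := by ring)
  have h2 : ∑ i ∈ Finset.range (F.sup id + 1), (if i ∈ F then σ i else 0) • d i =
      ∑ i ∈ F, σ i • d i := by
    rw [← Finset.sum_subset hF]
    · refine Finset.sum_congr rfl fun i hi => ?_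
      rw [if_pos hi]
    · intro i _ hi
      rw [if_neg hi, zero_smul]
  rw [h2] at h1
  exact h1

open Classical in
lemma lower_ones {d : ℕ → E} {c : ℝ} (hd : Lower d c) (F : Finset ℕ) (hF1 : 1 ≤ F.card) :
    c * L F.card ≤ ‖∑ i ∈ F, d i‖ := by
  have hF : F ⊆ Finset.range (F.sup id + 1) := by
    intro i hi
    rw [Finset.mem_range, Nat.lt_succ_iff]
    exact Finset.le_sup (f := id) hi
  have h1 := hd (F.sup id + 1) (fun i => if i ∈ F then 1 else 0) F hF
  have h2 : ∑ i ∈ Finset.range (F.sup id + 1), (if i ∈ F then (1:ℝ) else 0) • d i =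
      ∑ i ∈ F, d i := by
    rw [← Finset.sum_subset hF]
    · refine Finset.sum_congr rfl fun i hi => ?_
      rw [if_pos hi, one_smul]
    · intro i _ hi
      rw [if_neg hi, zero_smul]
  have h3 : ∑ i ∈ F, |if i ∈ F then (1:ℝ) else 0| = F.card := by
    rw [Finset.sum_congr rfl (g := fun _ => (1:ℝ)) (fun i hi => by rw [if_pos hi, abs_one])]
    simp
  rw [h2, h3, ← L_mul_S F.card] at h1
  have h4 := S_pos hF1
  have h5 : S F.card * (c * L F.card) ≤ S F.card * ‖∑ i ∈ F, d i‖ := by linarith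
  exact le_of_mul_le_mul_left h5 h4

lemma norm_lower {d : ℕ → E} {c : ℝ} (hd : Lower d c) (i : ℕ) : c ≤ ‖d i‖ := by
  have h1 := lower_ones hd {i} (by simp)
  have h2 : L 1 = 1 := by simp [L]
  simpa [h2] using h1

lemma norm_upper {d : ℕ → E} {C : ℝ} (hd : Upper d C) (i : ℕ) : ‖d i‖ ≤ 2 * C := by
  have h1 := upper_signs hd {i} (fun _ => 1) (by simp)
  have h2 : L 1 = 1 := by simp [L]
  have h3 : ‖d i‖ ≤ C * 2 := by simpa [h2] using h1
  linarith

/-- the sequence is weakly null -/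
lemma weakly_null {d : ℕ → E} {C : ℝ} (hd : Upper d C) (g : E →L[ℝ] ℝ) :
    Tendsto (fun i => g (d i)) atTop (𝓝 0) := by
  rw [Metric.tendsto_atTop]
  intro δ hδ
  by_contra hcon
  push Not at hcon
  have h1 : ∃ᶠ i in atTop, δ ≤ |g (d i)| := by
    rw [Filter.frequently_atTop]
    intro N
    obtain ⟨n, hn, h⟩ := hcon N
    rw [Real.dist_eq, sub_zero] at h
    exact ⟨n, hn, h⟩
  have hinf : {i | δ ≤ |g (d i)|}.Infinite := Nat.frequently_atTop_iff_infinite.1 h1
  obtain ⟨K, hK1, hK⟩ := exists_S_gt (‖g‖ * C * 2 / δ)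
  obtain ⟨F, hF, hFc⟩ := hinf.exists_subset_card_eq K
  have h2 := upper_signs hd F (fun i => (SignType.sign (g (d i)) : ℝ)) (by
    intro i
    rcases lt_trichotomy (g (d i)) 0 with h0 | h0 | h0
    · simp [sign_neg h0]
    · simp [h0]
    · simp [sign_pos h0])
  have h3 : g (∑ i ∈ F, (SignType.sign (g (d i)) : ℝ) • d i) = ∑ i ∈ F, |g (d i)| := by
    rw [map_sum]
    refine Finset.sum_congr rfl fun i _ => ?_
    rw [map_smul, smul_eq_mul, sign_mul_self]
  have h4 : (K:ℝ) * δ ≤ ∑ i ∈ F, |g (d i)| := by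
    rw [← hFc, ← nsmul_eq_mul]
    exact Finset.card_nsmul_le_sum _ _ _ fun i hi => hF (by exact_mod_cast hi)
  rw [← h3] at h4
  have h5 := (le_abs_self _).trans (g.le_opNorm (∑ i ∈ F, (SignType.sign (g (d i)) : ℝ) • d i))
  rw [hFc] at h2
  have h6 : (K:ℝ) * δ ≤ ‖g‖ * (C * (2 * L K)) := by
    refine h4.trans (h5.trans ?_)
    gcongr
  rw [← L_mul_S K] at h6
  have h7 : L K * (S K * δ) ≤ L K * (‖g‖ * C * 2) := by linarith
  have h8 := le_of_mul_le_mul_left h7 (L_pos K)
  rw [div_lt_iff₀ hδ] at hK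
  linarith

/-- not isomorphic to `c_0` -/
theorem not_iso_c0 {d : ℕ → E} {C c : ℝ} (hU : Upper d C) (hL : Lower d c) (hc : 0 < c)
    (Φ : E ≃L[ℝ] ZeroAtInftyContinuousMap ℕ ℝ) : False := by
  classical
  let z : ℕ → ZeroAtInftyContinuousMap ℕ ℝ := fun i => Φ (d i)
  let R : ℝ := ‖(Φ : E →L[ℝ] ZeroAtInftyContinuousMap ℕ ℝ)‖ * (2 * C)
  have hC0 : 0 ≤ 2 * C := (norm_nonneg _).trans (norm_upper hU 0)
  have hR : ∀ i, ‖z i‖ ≤ R := fun i =>
    ((Φ : E →L[ℝ] ZeroAtInftyContinuousMap ℕ ℝ).le_opNorm (d i)).trans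
      (mul_le_mul_of_nonneg_left (norm_upper hU i) (norm_nonneg _))
  have hR0 : 0 ≤ R := by positivity
  have hnorm : ∀ (w : ZeroAtInftyContinuousMap ℕ ℝ) (p : ℕ), |w p| ≤ ‖w‖ := by
    intro w p
    have := w.toBCF.norm_coe_le_norm p
    rwa [ZeroAtInftyContinuousMap.norm_toBCF_eq_norm] at this
  have hnle : ∀ (w : ZeroAtInftyContinuousMap ℕ ℝ) (M : ℝ), 0 ≤ M → (∀ p, |w p| ≤ M) → ‖w‖ ≤ M := by
    intro w M hM h
    rw [← ZeroAtInftyContinuousMap.norm_toBCF_eq_norm, BoundedContinuousFunction.norm_le hM]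
    exact h
  have hev : ∀ p : ℕ, Tendsto (fun i => (z i) p) atTop (𝓝 0) := by
    intro p
    let ev : ZeroAtInftyContinuousMap ℕ ℝ →L[ℝ] ℝ := LinearMap.mkContinuous
      { toFun := fun w => w p
        map_add' := fun _ _ => rfl
        map_smul' := fun _ _ => rfl } 1 (fun w => by
          rw [one_mul]
          exact hnorm w p)
    exact weakly_null hU (ev.comp (Φ : E →L[ℝ] ZeroAtInftyContinuousMap ℕ ℝ))
  have step : ∀ (w : ZeroAtInftyContinuousMap ℕ ℝ) (ε : ℝ), 0 < ε →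
      ∀ᶠ i in atTop, ‖w + z i‖ ≤ max ‖w‖ R + ε := by
    intro w ε hε
    have h1 : ∀ᶠ p in cocompact ℕ, |w p| < ε := by
      have := (w.zero_at_infty').abs
      simp only [abs_zero] at this
      exact this.eventually (gt_mem_nhds hε)
    rw [Filter.cocompact_eq_cofinite, Filter.eventually_cofinite] at h1
    have h2 : ∀ᶠ i in atTop, ∀ p ∈ h1.toFinset, |(z i) p| < ε := by
      rw [Filter.eventually_all_finset]
      intro p _
      have := (hev p).abs
      rw [abs_zero] at this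
      exact this.eventually (gt_mem_nhds hε)
    filter_upwards [h2] with i hi
    refine hnle _ _ (by positivity) fun p => ?_
    show |w p + (z i) p| ≤ _
    by_cases hp : p ∈ h1.toFinset
    · refine (abs_add_le _ _).trans (add_le_add ?_ (hi p hp).le)
      exact (hnorm w p).trans (le_max_left _ _)
    · rw [Set.Finite.mem_toFinset, Set.mem_ofPred_eq, not_not] at hp
      rw [add_comm (w p)]
      refine (abs_add_le _ _).trans (add_le_add ?_ hp.le)
      exact ((hnorm _ p).trans (hR i)).trans (le_max_right _ _)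
  have hfin : ∀ (ε : ℝ), 0 < ε → ∀ k : ℕ, ∃ F : Finset ℕ, F.card = k ∧
      ‖∑ i ∈ F, z i‖ ≤ R + k * ε := by
    intro ε hε k
    induction k with
    | zero => exact ⟨∅, rfl, by simpa using hR0⟩
    | succ k ih =>
      obtain ⟨F, hF, hFn⟩ := ih
      obtain ⟨i, hi, hi'⟩ := ((step (∑ i ∈ F, z i) ε hε).and
        (eventually_gt_atTop (F.sup id))).exists
      have hni : i ∉ F := by
        intro hmem
        have : i ≤ F.sup id := Finset.le_sup (f := id) hmem
        omega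
      refine ⟨insert i F, by rw [Finset.card_insert_of_notMem hni, hF], ?_⟩
      rw [Finset.sum_insert hni, add_comm (z i)]
      refine hi.trans ?_
      push_cast
      have h3 : max ‖∑ i ∈ F, z i‖ R ≤ R + k * ε := max_le hFn (by
        have : (0:ℝ) ≤ k * ε := by positivity
        linarith)
      linarith
  obtain ⟨K, hK1, hK⟩ := exists_L_gt (‖(Φ.symm : ZeroAtInftyContinuousMap ℕ ℝ →L[ℝ] E)‖ * (R + 1) / c)
  have hKpos : (0:ℝ) < K := by exact_mod_cast hK1
  obtain ⟨F, hFc, hFn⟩ := hfin (1 / K) (by positivity) K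
  rw [mul_one_div_cancel hKpos.ne'] at hFn
  have h1 := lower_ones hL F (by omega)
  have h2 : ∑ i ∈ F, d i = Φ.symm (∑ i ∈ F, z i) := by
    rw [map_sum]
    refine Finset.sum_congr rfl fun i _ => ?_
    simp [z]
  have h3 : ‖∑ i ∈ F, d i‖ ≤ ‖(Φ.symm : ZeroAtInftyContinuousMap ℕ ℝ →L[ℝ] E)‖ * (R + 1) := by
    rw [h2]
    refine ((Φ.symm : ZeroAtInftyContinuousMap ℕ ℝ →L[ℝ] E).le_opNorm _).trans ?_
    gcongr
  rw [div_lt_iff₀ hc] at hK
  rw [hFc] at h1
  linarith

end seq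

end Pool.Agent.Helper224.Usm
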