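import Pool.Agent.Helper224.Usm8

set_option autoImplicit false
open Filter Topology

namespace Pool.Agent.Helper224.Usm

variable {E : Type} [NormedAddCommGroup E] [NormedSpace ℝ E]

lemma l1_norm (w : lp (fun _ : ℕ => ℝ) 1) : ‖w‖ = ∑' p, |w p| := by
  rw [lp.norm_eq_tsum_rpow (by norm_num)]
  simp

lemma l1_summable (w : lp (fun _ : ℕ => ℝ) 1) : Summable (fun p => |w p|) := by
  have := (lp.memℓp w).summable (by norm_num)
  simpa using this

/-- the basic gliding hump step in `ℓ_1` -/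
lemma l1_step (w : lp (fun _ : ℕ => ℝ) 1) (z : ℕ → lp (fun _ : ℕ => ℝ) 1)
    (hz : ∀ p : ℕ, Tendsto (fun i => (z i) p) atTop (𝓝 0)) (ε : ℝ) (hε : 0 < ε) :
    ∀ᶠ i in atTop, ‖w‖ + ‖z i‖ - ε ≤ ‖w + z i‖ := by
  have hs := l1_summable w
  obtain ⟨G, hG⟩ := (hs.hasSum.eventually (lt_mem_nhds (by
    show ∑' p, |w p| - ε / 4 < ∑' p, |w p|
    linarith))).exists
  have h2 : Tendsto (fun i => ∑ p ∈ G, |(z i) p|) atTop (𝓝 (∑ p ∈ G, 0)) :=
    tendsto_finsetSum _ fun p _ => by simpa using (hz p).abs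
  rw [Finset.sum_const_zero] at h2
  filter_upwards [h2.eventually (gt_mem_nhds (by positivity : (0:ℝ) < ε / 4))] with i hi
  rw [l1_norm, l1_norm, l1_norm]
  have h3 := l1_summable (z i)
  have h4 := l1_summable (w + z i)
  -- pointwise: |w p + z p| ≥ |w p| + |z p| - 2 * c p
  let c : ℕ → ℝ := fun p => if p ∈ G then |(z i) p| else |w p|
  have hcG : Summable (fun p => if p ∈ G then |(z i) p| else 0) :=
    summable_of_hasFiniteSupport (Set.Finite.subset G.finite_toSet (by
      intro p hp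
      by_contra h
      rw [Function.mem_support] at hp
      exact hp (if_neg (by exact_mod_cast h))))
  have hcw : Summable (fun p => if p ∈ G then |w p| else 0) :=
    summable_of_hasFiniteSupport (Set.Finite.subset G.finite_toSet (by
      intro p hp
      by_contra h
      rw [Function.mem_support] at hp
      exact hp (if_neg (by exact_mod_cast h))))
  have hc : c = fun p => (if p ∈ G then |(z i) p| else 0) + (|w p| - (if p ∈ G then |w p| else 0)) := by
    ext p
    simp only [c]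
    split_ifs <;> simp
  have hcs : Summable c := by
    rw [hc]
    exact hcG.add (hs.sub hcw)
  have hcsum : ∑' p, c p ≤ ε / 2 := by
    rw [hc, hcG.tsum_add (hs.sub hcw), hs.tsum_sub hcw, tsum_eq_sum (s := G) (by
      intro p hp
      rw [if_neg hp]), tsum_eq_sum (s := G) (f := fun p => if p ∈ G then |w p| else 0) (by
      intro p hp
      rw [if_neg hp])]
    rw [Finset.sum_congr rfl (g := fun p => |(z i) p|) (fun p hp => if_pos hp),
      Finset.sum_congr rfl (g := fun p => |w p|) (fun p hp => if_pos hp)]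
    linarith
  have hpt : ∀ p, |w p| + |(z i) p| - 2 * c p ≤ |(w + z i : lp (fun _ : ℕ => ℝ) 1) p| := by
    intro p
    have h5 : (w + z i : lp (fun _ : ℕ => ℝ) 1) p = w p + (z i) p := rfl
    rw [h5]
    have h6 : |w p| ≤ |w p + (z i) p| + |(z i) p| := by
      have := abs_sub_abs_le_abs_sub (w p) (-(z i) p)
      rw [abs_neg, sub_neg_eq_add] at this
      linarith
    have h7 : |(z i) p| ≤ |w p + (z i) p| + |w p| := by
      have := abs_sub_abs_le_abs_sub ((z i) p) (-(w p))
      rw [abs_neg, sub_neg_eq_add, add_comm ((z i) p)] at this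
      linarith
    simp only [c]
    split_ifs
    · linarith
    · linarith
  have h8 : ∑' p, (|w p| + |(z i) p| - 2 * c p) ≤ ∑' p, |(w + z i : lp (fun _ : ℕ => ℝ) 1) p| :=
    Summable.tsum_le_tsum hpt ((hs.add h3).sub (hcs.mul_left 2)) h4
  rw [(hs.add h3).tsum_sub (hcs.mul_left 2), hs.tsum_add h3, tsum_mul_left] at h8
  linarith

/-- not isomorphic to `ℓ_1` -/
theorem not_iso_l1 {d : ℕ → E} {C c : ℝ} (hU : Upper d C) (hL : Lower d c) (hc : 0 < c)
    (Φ : E ≃L[ℝ] lp (fun _ : ℕ => ℝ) 1) : False := by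
  classical
  let z : ℕ → lp (fun _ : ℕ => ℝ) 1 := fun i => Φ (d i)
  have hC0 : 0 ≤ 2 * C := (norm_nonneg _).trans (norm_upper hU 0)
  let M : ℝ := ‖(Φ.symm : lp (fun _ : ℕ => ℝ) 1 →L[ℝ] E)‖ + 1
  have hM : 0 < M := by positivity
  have hdz : ∀ v : E, ‖v‖ ≤ M * ‖Φ v‖ := by
    intro v
    have h1 := (Φ.symm : lp (fun _ : ℕ => ℝ) 1 →L[ℝ] E).le_opNorm (Φ v)
    have h2 : (Φ.symm : lp (fun _ : ℕ => ℝ) 1 →L[ℝ] E) (Φ v) = v := by simp
    rw [h2] at h1
    refine h1.trans ?_
    have := norm_nonneg (Φ v)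
    simp only [M]
    nlinarith
  let ρ : ℝ := c / M
  have hρ : 0 < ρ := by positivity
  have hzρ : ∀ i, ρ ≤ ‖z i‖ := by
    intro i
    rw [div_le_iff₀' hM]
    exact (norm_lower hL i).trans (hdz (d i))
  have hev : ∀ p : ℕ, Tendsto (fun i => (z i) p) atTop (𝓝 0) := by
    intro p
    exact weakly_null hU ((lp.evalCLM ℝ (fun _ : ℕ => ℝ) p (p := 1)).comp
      (Φ : E →L[ℝ] lp (fun _ : ℕ => ℝ) 1))
  have hfin : ∀ k : ℕ, ∃ F : Finset ℕ, F.card = k ∧ k * (ρ / 2) ≤ ‖∑ i ∈ F, z i‖ := by
    intro k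
    induction k with
    | zero => exact ⟨∅, rfl, by simp⟩
    | succ k ih =>
      obtain ⟨F, hF, hFn⟩ := ih
      obtain ⟨i, hi, hi'⟩ := ((l1_step (∑ i ∈ F, z i) z hev (ρ / 2) (by positivity)).and
        (eventually_gt_atTop (F.sup id))).exists
      have hni : i ∉ F := by
        intro hmem
        have : i ≤ F.sup id := Finset.le_sup (f := id) hmem
        omega
      refine ⟨insert i F, by rw [Finset.card_insert_of_notMem hni, hF], ?_⟩
      rw [Finset.sum_insert hni, add_comm (z i)]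
      refine le_trans ?_ hi
      push_cast
      have := hzρ i
      linarith
  obtain ⟨K, hK1, hK⟩ := exists_S_gt
    (‖(Φ : E →L[ℝ] lp (fun _ : ℕ => ℝ) 1)‖ * (C * 2) / (ρ / 2))
  obtain ⟨F, hFc, hFn⟩ := hfin K
  have h1 := upper_signs hU F (fun _ => 1) (by simp)
  simp only [one_smul] at h1
  have h2 : ∑ i ∈ F, z i = Φ (∑ i ∈ F, d i) := by
    rw [map_sum]
  rw [h2] at hFn
  have h3 := (Φ : E →L[ℝ] lp (fun _ : ℕ => ℝ) 1).le_opNorm (∑ i ∈ F, d i)
  rw [hFc] at h1
  have h4 : (K:ℝ) * (ρ / 2) ≤ ‖(Φ : E →L[ℝ] lp (fun _ : ℕ => ℝ) 1)‖ * (C * (2 * L K)) := by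
    refine hFn.trans (h3.trans ?_)
    gcongr
  rw [← L_mul_S K] at h4
  have h5 : L K * (S K * (ρ / 2)) ≤ L K * (‖(Φ : E →L[ℝ] lp (fun _ : ℕ => ℝ) 1)‖ * (C * 2)) := by
    linarith
  have h6 := le_of_mul_le_mul_left h5 (L_pos K)
  rw [div_lt_iff₀ (by positivity)] at hK
  linarith

/-- the harmonic-type sequence is bounded -/
lemma sum_inv_L (F : Finset ℕ) : ∑ i ∈ F, |1 / L i| ≤ 11 * S F.card := by
  classical
  set r := F.card with hr
  rcases Nat.eq_zero_or_pos r with h0 | h0
  · rw [h0, S_zero]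
    have : F = ∅ := Finset.card_eq_zero.1 (hr ▸ h0)
    rw [this]
    simp
  set Qr := Nat.sqrt r with hQ
  rw [← Finset.sum_filter_add_sum_filter_not F (fun i => i < Qr) (fun i => |1 / L i|)]
  have h1 : ∑ i ∈ F with i < Qr, |1 / L i| ≤ Qr := by
    calc ∑ i ∈ F with i < Qr, |1 / L i| ≤ ∑ i ∈ Finset.range Qr, (1:ℝ) := by
          refine (Finset.sum_le_sum_of_subset_of_nonneg (t := Finset.range Qr) ?_ ?_).trans ?_
          · intro i hi
            exact Finset.mem_range.2 (Finset.mem_filter.1 hi).2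
          · intro i _ _
            positivity
          · refine Finset.sum_le_sum fun i _ => ?_
            rw [abs_of_pos (by have := L_pos i; positivity), div_le_one (L_pos i)]
            exact one_le_L i
      _ = Qr := by simp
  have h2 : ∑ i ∈ F with ¬ i < Qr, |1 / L i| ≤ 8 * S r := by
    have hLr := scale r h0
    have hmono : L (Nat.sqrt (Nat.sqrt r)) ≤ L Qr := L_mono (Nat.sqrt_le_self _)
    calc ∑ i ∈ F with ¬ i < Qr, |1 / L i| ≤ ∑ i ∈ F with ¬ i < Qr, (8 / L r) := by
          refine Finset.sum_le_sum fun i hi => ?_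
          have hi' : Qr ≤ i := not_lt.1 (Finset.mem_filter.1 hi).2
          have h3 := L_mono hi'
          have h4 := L_pos i
          have h5 := L_pos r
          rw [abs_of_pos (by positivity), div_le_div_iff₀ h4 h5]
          linarith
      _ = (F.filter fun i => ¬ i < Qr).card * (8 / L r) := by
          rw [Finset.sum_const, nsmul_eq_mul]
      _ ≤ r * (8 / L r) := by
          have h5 := L_pos r
          gcongr
          exact Finset.card_filter_le _ _
      _ = 8 * S r := by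
          unfold S
          ring
  have h3 := sqrt_le_S r h0
  have h4 : ∑ i ∈ F with i < Qr, |1 / L i| ≤ 3 * S r := h1.trans h3
  linarith

/-- not reflexive -/
theorem not_reflexive {d : ℕ → E} {C c : ℝ} (hU : Upper d C) (hL : Lower d c) (hc : 0 < c)
    (hE : Function.Surjective (NormedSpace.inclusionInDoubleDual ℝ E)) : False := by
  let s : ℕ → E := fun m => ∑ i ∈ Finset.range m, (1 / L i) • d i
  have hs : ∀ m, ‖s m‖ ≤ C * 11 := fun m => hU m (fun i => 1 / L i) 11 (by norm_num)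
    (fun F _ => sum_inv_L F)
  obtain ⟨v, hv⟩ := james hE s _ hs
  let Z : ℕ → Set E := fun m => {w | ∃ (M : ℕ) (a : ℕ → ℝ), m ≤ M ∧ (∀ i < m, a i = 1 / L i) ∧
    (∀ i, M ≤ i → a i = 0) ∧ w = ∑ i ∈ Finset.range M, a i • d i}
  have hext : ∀ (M M' : ℕ) (a : ℕ → ℝ), M ≤ M' → (∀ i, M ≤ i → a i = 0) →
      ∑ i ∈ Finset.range M, a i • d i = ∑ i ∈ Finset.range M', a i • d i := by
    intro M M' a hMM ha
    refine Finset.sum_subset (Finset.range_mono hMM) ?_
    intro i _ hi
    rw [ha i (by simpa using hi), zero_smul]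
  have hZ : ∀ m, convexHull ℝ (s '' {l | m ≤ l}) ⊆ Z m := by
    intro m
    refine convexHull_min ?_ ?_
    · rintro _ ⟨l, hl, rfl⟩
      refine ⟨l, fun i => if i < l then 1 / L i else 0, hl, ?_, ?_, ?_⟩
      · intro i hi
        exact if_pos (lt_of_lt_of_le hi hl)
      · intro i hi
        exact if_neg (not_lt.2 hi)
      · refine Finset.sum_congr rfl fun i hi => ?_
        congr 1
        exact (if_pos (Finset.mem_range.1 hi)).symm
    · rintro w ⟨M, a, hM, ha, ha0, rfl⟩ w' ⟨M', a', hM', ha', ha0', rfl⟩ t t' ht ht' htt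
      refine ⟨max M M', fun i => t * a i + t' * a' i, hM.trans (le_max_left _ _), ?_, ?_, ?_⟩
      · intro i hi
        show t * a i + t' * a' i = 1 / L i
        rw [ha i hi, ha' i hi, ← add_mul, htt, one_mul]
      · intro i hi
        show t * a i + t' * a' i = 0
        rw [ha0 i ((le_max_left _ _).trans hi), ha0' i ((le_max_right _ _).trans hi)]
        simp
      · rw [hext M (max M M') a (le_max_left _ _) ha0, hext M' (max M M') a' (le_max_right _ _) ha0',
          Finset.smul_sum, Finset.smul_sum, ← Finset.sum_add_distrib]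
        refine Finset.sum_congr rfl fun i _ => ?_
        rw [smul_smul, smul_smul, ← add_smul]
  -- approximate
  have hε : 0 < c / 8 := by positivity
  obtain ⟨w, hw, hwv⟩ := Metric.mem_closure_iff.1 (hv 0) (c / 8) hε
  obtain ⟨M, a, -, -, ha0, rfl⟩ := hZ 0 hw
  let m := max M 1
  obtain ⟨w', hw', hwv'⟩ := Metric.mem_closure_iff.1 (hv (2 * m)) (c / 8) hε
  obtain ⟨M', a', hM', ha', ha0', rfl⟩ := hZ (2 * m) hw'
  have hm1 : 1 ≤ m := le_max_right _ _
  have hMm : M ≤ m := le_max_left _ _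
  rw [hext M M' a (by omega) ha0] at hwv
  have h1 : ‖∑ i ∈ Finset.range M', (a' i - a i) • d i‖ < c / 4 := by
    have h2 : ∑ i ∈ Finset.range M', (a' i - a i) • d i =
        ∑ i ∈ Finset.range M', a' i • d i - ∑ i ∈ Finset.range M', a i • d i := by
      rw [← Finset.sum_sub_distrib]
      refine Finset.sum_congr rfl fun i _ => by rw [sub_smul]
    rw [h2, ← dist_eq_norm]
    have := dist_triangle_left (∑ i ∈ Finset.range M', a' i • d i)
      (∑ i ∈ Finset.range M', a i • d i) v
    linarith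
  have h3 := hL M' (fun i => a' i - a i) (Finset.Ico m (2 * m)) (by
    intro i hi
    rw [Finset.mem_Ico] at hi
    rw [Finset.mem_range]
    omega)
  have h4 : (m:ℝ) * (1 / L (2 * m)) ≤ ∑ i ∈ Finset.Ico m (2 * m), |a' i - a i| := by
    have h5 : (m:ℝ) = (Finset.Ico m (2 * m)).card := by
      rw [Nat.card_Ico]
      congr 1
      omega
    rw [h5, ← nsmul_eq_mul]
    refine Finset.card_nsmul_le_sum _ _ _ fun i hi => ?_
    rw [Finset.mem_Ico] at hi
    rw [ha' i hi.2, ha0 i (by omega), sub_zero]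
    have h6 := L_pos i
    rw [abs_of_pos (by positivity)]
    have h7 := L_mono hi.2.le
    gcongr
  have h5 : (Finset.Ico m (2 * m)).card = m := by
    rw [Nat.card_Ico]
    omega
  rw [h5] at h3
  have h6 := S_pos hm1
  have h7 : L (2 * m) ≤ 2 * L m := by
    unfold L
    have : Nat.log 2 (2 * m) = Nat.log 2 m + 1 := by
      rw [mul_comm]
      exact Nat.log_mul_base (by norm_num) (by omega)
    rw [this]
    push_cast
    have : (0:ℝ) ≤ (Nat.log 2 m : ℝ) := Nat.cast_nonneg _
    linarith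
  have h8 : S m / 2 ≤ (m:ℝ) * (1 / L (2 * m)) := by
    unfold S
    have h9 := L_pos m
    have h10 := L_pos (2 * m)
    rw [div_div, mul_one_div]
    apply div_le_div_of_nonneg_left (Nat.cast_nonneg _) h10
    linarith
  have h9 : c * (S m / 2) ≤ S m * ‖∑ i ∈ Finset.range M', (a' i - a i) • d i‖ := by
    refine le_trans ?_ h3
    gcongr
    exact h8.trans h4
  have h10 : S m * (c / 2) ≤ S m * ‖∑ i ∈ Finset.range M', (a' i - a i) • d i‖ := by linarith
  have h11 := le_of_mul_le_mul_left h10 h6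
  linarith

end Pool.Agent.Helper224.Usm
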